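import Mathlib

/-! # Counting sets of indices -/

set_option autoImplicit false

open Finset

namespace Pool.Agent.X112.GS

lemma nc (N : ℕ) (p : ℕ → Prop) [DecidablePred p] :
    {n : ℕ | 1 ≤ n ∧ n ≤ N ∧ p n}.ncard = ((Icc 1 N).filter p).card := by
  rw [← Set.ncard_coe_finset]
  congr 1
  ext n
  simp only [Set.mem_setOf_eq, Finset.coe_filter, Finset.mem_Icc, and_assoc]

end Pool.Agent.X112.GS
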