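import Mathlib

/-! # Locally linear approximations of a sequence with unbounded fluctuations: combinatorics -/

set_option autoImplicit false

open Filter Finset

namespace Pool.Agent.X112.GS

lemma shift_card (A E : Finset ℕ) (o : ℕ) : (A.filter (fun n => n + o ∈ E)).card ≤ E.card := by
  apply Finset.card_le_card_of_injOn (fun n => n + o)
  · intro n hn
    rw [Finset.mem_coe, Finset.mem_filter] at hn
    exact hn.2
  · intro a _ b _ h
    simpa using h

/-- at least two of the shifts of `n` lie in `G` -/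
lemma two_hits (N m B : ℕ) (G : Finset ℕ) (hG : G ⊆ range (N + 1)) (t : ℕ → ℕ)
    (ht : ∀ i < m, t i ≤ B) :
    m * G.card ≤ (N + 1) + m * ((range (N + 1)).filter
      (fun n => 2 ≤ ((range m).filter (fun i => n + t i ∈ G)).card)).card + m * B := by
  classical
  obtain ⟨f, hf⟩ : ∃ f : ℕ → ℕ, f = fun n => ((range m).filter (fun i => n + t i ∈ G)).card :=
    ⟨_, rfl⟩
  -- lower bound for the sum
  have h1 : m * G.card ≤ (∑ n ∈ range (N + 1), f n) + m * B := by
    have e1 : ∑ n ∈ range (N + 1), f n =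
        ∑ i ∈ range m, ((range (N + 1)).filter (fun n => n + t i ∈ G)).card := by
      rw [hf]
      simp_rw [Finset.card_filter]
      exact Finset.sum_comm
    rw [e1]
    have h2 : ∀ i ∈ range m, G.card ≤ ((range (N + 1)).filter (fun n => n + t i ∈ G)).card + B := by
      intro i hi
      have hti := ht i (Finset.mem_range.mp hi)
      have h3 : G ⊆ (((range (N + 1)).filter (fun n => n + t i ∈ G)).image (fun n => n + t i)) ∪
          range (t i) := by
        intro g hg
        rw [Finset.mem_union, Finset.mem_image, Finset.mem_range]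
        by_cases h : g < t i
        · exact Or.inr h
        · push Not at h
          left
          refine ⟨g - t i, ?_, by omega⟩
          rw [Finset.mem_filter, Finset.mem_range]
          have := Finset.mem_range.mp (hG hg)
          refine ⟨by omega, ?_⟩
          rw [Nat.sub_add_cancel h]
          exact hg
      have h4 := Finset.card_le_card h3
      have h5 := Finset.card_union_le (((range (N + 1)).filter (fun n => n + t i ∈ G)).image
        (fun n => n + t i)) (range (t i))
      have h6 : (((range (N + 1)).filter (fun n => n + t i ∈ G)).image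
        (fun n => n + t i)).card ≤ ((range (N + 1)).filter (fun n => n + t i ∈ G)).card :=
        Finset.card_image_le
      rw [Finset.card_range] at h5
      omega
    calc m * G.card = ∑ _i ∈ range m, G.card := by rw [Finset.sum_const, Finset.card_range, smul_eq_mul]
      _ ≤ ∑ i ∈ range m, (((range (N + 1)).filter (fun n => n + t i ∈ G)).card + B) :=
        Finset.sum_le_sum h2
      _ = _ := by rw [Finset.sum_add_distrib, Finset.sum_const, Finset.card_range, smul_eq_mul]
  -- upper bound for the sum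
  have h2 : ∑ n ∈ range (N + 1), f n ≤ (N + 1) + m * ((range (N + 1)).filter (fun n => 2 ≤ f n)).card := by
    have h3 : ∀ n ∈ range (N + 1), f n ≤ 1 + m * (if 2 ≤ f n then 1 else 0) := by
      intro n _
      split_ifs with h
      · have : f n ≤ m := by
          rw [hf]
          exact (Finset.card_filter_le _ _).trans (by rw [Finset.card_range])
        omega
      · omega
    refine (Finset.sum_le_sum h3).trans ?_
    rw [Finset.sum_add_distrib, Finset.sum_const, Finset.card_range, smul_eq_mul, mul_one,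
      ← Finset.mul_sum, ← Finset.card_filter]
  subst hf
  beta_reduce at h1 h2
  omega

lemma two_of_card {m : ℕ} {P : ℕ → Prop} [DecidablePred P] (h : 2 ≤ ((range m).filter P).card) :
    ∃ i j : ℕ, i < j ∧ j < m ∧ P i ∧ P j := by
  obtain ⟨a, ha, b, hb, hab⟩ := Finset.one_lt_card.mp (by omega : 1 < ((range m).filter P).card)
  rw [Finset.mem_filter, Finset.mem_range] at ha hb
  rcases lt_or_gt_of_ne hab with h | h
  · exact ⟨a, b, h, hb.1, ha.2, hb.2⟩
  · exact ⟨b, a, h, ha.1, hb.2, ha.2⟩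

/-- a sequence with small second differences is nearly linear -/
lemma near_lin (g : ℕ → ℝ) (ε : ℝ) (I : ℕ) (hε : 0 ≤ ε)
    (h : ∀ i < I, |g (i + 2) - 2 * g (i + 1) + g i| ≤ ε) :
    ∀ i ≤ I, |g i - g 0 - i * (g 1 - g 0)| ≤ ε * (i : ℝ) ^ 2 := by
  have h1 : ∀ i ≤ I, |g (i + 1) - g i - (g 1 - g 0)| ≤ ε * i := by
    intro i
    induction i with
    | zero => intro _; simp
    | succ i ih =>
      intro hi
      have h2 := ih (by omega)
      have h3 := h i (by omega)
      push_cast
      rw [abs_le] at h2 h3 ⊢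
      constructor <;> linarith [h2.1, h2.2, h3.1, h3.2]
  intro i
  induction i with
  | zero => intro _; simp
  | succ i ih =>
    intro hi
    have h2 := ih (by omega)
    have h3 := h1 i (by omega)
    push_cast
    have h4 : ε * (i : ℝ) ^ 2 + ε * i ≤ ε * ((i : ℝ) + 1) ^ 2 := by
      have : 0 ≤ ε * (i : ℝ) := by positivity
      nlinarith
    rw [abs_le] at h2 h3 ⊢
    constructor <;> linarith [h2.1, h2.2, h3.1, h3.2]

/-- comparison of the slopes between three points of a locally linear sequence -/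
lemma slopes (z : ℕ → ℝ) (ε : ℝ) (hε : 0 ≤ ε) (Q n I iu iv ix : ℕ) (h1 : iu ≤ iv) (h2 : iu < ix)
    (h3 : iv ≤ I) (h4 : ix ≤ I)
    (h : ∀ i < I, |z (n + i * Q + 2 * Q) - 2 * z (n + i * Q + Q) + z (n + i * Q)| ≤ ε) {A : ℝ}
    (hA : |z (n + ix * Q) - z (n + iu * Q) - ((ix : ℝ) - iu) * Q| ≤ A) :
    |z (n + iv * Q) - z (n + iu * Q) - ((iv : ℝ) - iu) * Q| ≤
      ((iv : ℝ) - iu) / ((ix : ℝ) - iu) * A + 4 * ε * (I : ℝ) ^ 3 := by
  obtain ⟨g, hg⟩ : ∃ g : ℕ → ℝ, g = fun i => z (n + i * Q) := ⟨_, rfl⟩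
  have hg2 : ∀ i < I, |g (i + 2) - 2 * g (i + 1) + g i| ≤ ε := by
    intro i hi
    have := h i hi
    rw [hg]
    have e1 : n + (i + 2) * Q = n + i * Q + 2 * Q := by ring
    have e2 : n + (i + 1) * Q = n + i * Q + Q := by ring
    simp only [e1, e2]
    exact this
  have hl := near_lin g ε I hε hg2
  have lu := hl iu (by omega)
  have lv := hl iv h3
  have lx := hl ix h4
  have eu : z (n + iu * Q) = g iu := by rw [hg]
  have ev : z (n + iv * Q) = g iv := by rw [hg]
  have ex : z (n + ix * Q) = g ix := by rw [hg]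
  rw [eu, ex] at hA
  rw [ev, eu]
  have hI0 : (0 : ℝ) ≤ I := Nat.cast_nonneg _
  have bd : ∀ i : ℕ, i ≤ I → ε * (i : ℝ) ^ 2 ≤ ε * (I : ℝ) ^ 2 := by
    intro i hi
    have : (i : ℝ) ≤ I := by exact_mod_cast hi
    gcongr
  have bu := bd iu (by omega)
  have bv := bd iv h3
  have bx := bd ix h4
  obtain ⟨σ, hσ⟩ : ∃ σ : ℝ, σ = g 1 - g 0 := ⟨_, rfl⟩
  rw [← hσ] at lu lv lx
  obtain ⟨p, hp⟩ : ∃ p : ℝ, p = (iv : ℝ) - iu := ⟨_, rfl⟩
  obtain ⟨q, hq⟩ : ∃ q : ℝ, q = (ix : ℝ) - iu := ⟨_, rfl⟩
  have hp0 : 0 ≤ p := by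
    rw [hp, sub_nonneg]; exact_mod_cast h1
  have hq1 : 1 ≤ q := by
    have : ((iu + 1 : ℕ) : ℝ) ≤ ix := by exact_mod_cast h2
    push_cast at this
    linarith
  have hpI : p ≤ I := by
    have : (iv : ℝ) ≤ I := by exact_mod_cast h3
    have : (0 : ℝ) ≤ iu := Nat.cast_nonneg _
    linarith
  obtain ⟨E, hE⟩ : ∃ E : ℝ, E = ε * (I : ℝ) ^ 2 := ⟨_, rfl⟩
  have hE0 : 0 ≤ E := by rw [hE]; positivity
  rw [← hE] at bu bv bx
  -- v - u
  have a1 : |g iv - g iu - p * σ| ≤ 2 * E := by
    rw [hp]
    rw [abs_le] at lu lv ⊢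
    constructor <;> nlinarith [lu.1, lu.2, lv.1, lv.2]
  have a2 : |g ix - g iu - q * σ| ≤ 2 * E := by
    rw [hq]
    rw [abs_le] at lu lx ⊢
    constructor <;> nlinarith [lu.1, lu.2, lx.1, lx.2]
  have hA0 : 0 ≤ A := (abs_nonneg _).trans hA
  rw [← hp, ← hq]
  rw [← hq] at hA
  have a3 : |q * σ - q * Q| ≤ A + 2 * E := by
    rw [abs_le] at a2 hA ⊢
    constructor <;> linarith [a2.1, a2.2, hA.1, hA.2]
  have hq0 : 0 < q := by linarith
  have a4 : |p * σ - p * Q| ≤ p / q * (A + 2 * E) := by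
    have e : p * σ - p * Q = p / q * (q * σ - q * Q) := by field_simp
    rw [e, abs_mul, abs_of_nonneg (div_nonneg hp0 hq0.le)]
    exact mul_le_mul_of_nonneg_left a3 (div_nonneg hp0 hq0.le)
  have a5 : p / q * (2 * E) ≤ I * (2 * E) := by
    apply mul_le_mul_of_nonneg_right _ (by positivity)
    rw [div_le_iff₀ hq0]
    nlinarith
  rcases Nat.eq_zero_or_pos I with hI | hI
  · -- trivial case
    have h5 : iv = iu := by omega
    have h6 : g iv - g iu = 0 := by rw [h5]; ring
    have h7 : p = 0 := by rw [hp, h5]; ring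
    rw [h6, h7, hI]
    simp
  have hI1 : (1 : ℝ) ≤ I := by exact_mod_cast hI
  have a6 : 2 * E + I * (2 * E) ≤ 4 * ε * (I : ℝ) ^ 3 := by
    rw [hE]
    have h5 : ε * (I : ℝ) ^ 2 ≤ ε * (I : ℝ) ^ 3 := by
      apply mul_le_mul_of_nonneg_left _ hε
      exact pow_le_pow_right₀ hI1 (by norm_num)
    nlinarith
  have a7 : |g iv - g iu - p * Q| ≤ |g iv - g iu - p * σ| + |p * σ - p * Q| := by
    have := abs_add_le (g iv - g iu - p * σ) (p * σ - p * Q)
    rwa [show g iv - g iu - p * σ + (p * σ - p * Q) = g iv - g iu - p * Q by ring] at this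
  have a8 : p / q * (A + 2 * E) = p / q * A + p / q * (2 * E) := by ring
  linarith

end Pool.Agent.X112.GS
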