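import Pool.Agent.X112.GS.NT2

/-! # The concentration function of the sums of `r` consecutive spacings -/

set_option autoImplicit false

open Filter Finset

namespace Pool.Agent.X112.GS

open SG (ord NZ)
open Pool.Agent.Y743.CL (Ph lm Ev bU bL Ph_lip gs_bot gs_top gs_compl gs)

/-- the sums in a short range, in a dyadic block -/
lemma block_btw (a b δ : ℝ) (hab : a ≤ b) (hδ : 0 < δ) : ∀ᶠ r : ℕ in atTop, ∃ T0 : ℝ, 1 ≤ T0 ∧
    ∀ T : ℝ, T0 ≤ T →
    (((Finset.Ioc (NZ T) (NZ (2 * T))).filter (fun n => ¬ Ev a r n ∧ Ev b r n)).card : ℝ) ≤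
      (b - a + 3 * δ) * (T * Real.log T / (2 * Real.pi)) := by
  classical
  have hpi := Real.pi_pos
  obtain ⟨Tb, hTb1, hTb⟩ := block_low δ hδ
  filter_upwards [bU b δ hδ, bL a δ hδ] with r h1 h2
  refine ⟨max Tb (Real.exp (r * Real.log r)), hTb1.trans (le_max_left _ _), fun T hT => ?_⟩
  have hTb' : Tb ≤ T := (le_max_left _ _).trans hT
  have hT1 : 1 ≤ T := hTb1.trans hTb'
  have hlogT : 0 ≤ Real.log T := Real.log_nonneg hT1
  have hrT : r * Real.log r ≤ 2 * Real.log T := by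
    have h4 : Real.exp (r * Real.log r) ≤ T := (le_max_right _ _).trans hT
    have h5 := (Real.le_log_iff_exp_le (by linarith)).mpr h4
    linarith
  have g1 := h1 T hT1 hrT
  have g2 := h2 T hT1 hrT
  have g3 := hTb T hTb'
  obtain ⟨X, hX⟩ : ∃ X : ℝ, X = T * Real.log T / (2 * Real.pi) := ⟨_, rfl⟩
  have hX0 : 0 ≤ X := by rw [hX]; positivity
  rw [← hX] at g1 g2 g3 ⊢
  obtain ⟨A, hA⟩ : ∃ A : Finset ℕ, A = (Finset.Ioc (NZ T) (NZ (2 * T))).filter (fun n => Ev b r n) :=
    ⟨_, rfl⟩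
  obtain ⟨B, hB⟩ : ∃ B : Finset ℕ, B = (Finset.Ioc (NZ T) (NZ (2 * T))).filter
      (fun n => ¬ Ev a r n) := ⟨_, rfl⟩
  have hA' : (A.card : ℝ) ≤ X * (Ph b + δ) := by rw [hA]; exact g1
  have hB' : (B.card : ℝ) ≤ X * (1 - Ph a + δ) := by
    rw [hB]
    refine le_trans (le_of_eq ?_) g2
    congr!
  have hlm0 : 0 ≤ lm r := Pool.Agent.Y743.CL.lm_nonneg r
  have hunion : Finset.Ioc (NZ T) (NZ (2 * T)) ⊆ A ∪ B := by
    intro n hn
    rw [Finset.mem_union, hA, hB, Finset.mem_filter, Finset.mem_filter]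
    by_cases h : Ev a r n
    · left
      refine ⟨hn, ?_⟩
      unfold Ev at h ⊢
      nlinarith
    · exact Or.inr ⟨hn, h⟩
  have hinter : (Finset.Ioc (NZ T) (NZ (2 * T))).filter (fun n => ¬ Ev a r n ∧ Ev b r n) ⊆
      A ∩ B := by
    intro n hn
    rw [Finset.mem_filter] at hn
    obtain ⟨hn1, hn2, hn3⟩ := hn
    rw [Finset.mem_inter, hA, hB, Finset.mem_filter, Finset.mem_filter]
    exact ⟨⟨hn1, hn3⟩, hn1, hn2⟩
  have c1 := Finset.card_union_add_card_inter A B
  have c2 := Finset.card_le_card hunion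
  have c3 := Finset.card_le_card hinter
  rw [Nat.card_Ioc] at c2
  have hmono : NZ T ≤ NZ (2 * T) := SG.NZ_mono (by linarith)
  have c4 : (((Finset.Ioc (NZ T) (NZ (2 * T))).filter
      (fun n => ¬ Ev a r n ∧ Ev b r n)).card : ℝ) ≤ A.card + B.card - (NZ (2 * T) - NZ T) := by
    have : ((Finset.Ioc (NZ T) (NZ (2 * T))).filter
      (fun n => ¬ Ev a r n ∧ Ev b r n)).card + NZ (2 * T) ≤ A.card + B.card + NZ T := by omega
    have h5 : ((((Finset.Ioc (NZ T) (NZ (2 * T))).filter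
      (fun n => ¬ Ev a r n ∧ Ev b r n)).card + NZ (2 * T) : ℕ) : ℝ) ≤
        ((A.card + B.card + NZ T : ℕ) : ℝ) := by exact_mod_cast this
    push_cast at h5
    linarith
  have h6 := Ph_lip hab
  have h7 : X * (Ph b + δ) + X * (1 - Ph a + δ) - (1 - δ) * X ≤ (b - a + 3 * δ) * X := by
    have : X * (Ph b) ≤ X * (Ph a + (b - a)) := mul_le_mul_of_nonneg_left h6 hX0
    linarith
  linarith

/-- the concentration function in a dyadic block, at the scale of the standard deviation -/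
lemma block_conc (δ : ℝ) (hδ : 0 < δ) : ∀ᶠ r : ℕ in atTop, ∃ T0 : ℝ, 1 ≤ T0 ∧
    ∀ T : ℝ, T0 ≤ T → ∀ c : ℝ,
    (((Finset.Ioc (NZ T) (NZ (2 * T))).filter
      (fun n => |yy (n + r) - yy n - c| ≤ δ / 2 * lm r)).card : ℝ) ≤
      6 * δ * (T * Real.log T / (2 * Real.pi)) := by
  classical
  have hpi := Real.pi_pos
  obtain ⟨K1, hK1⟩ := gs_bot hδ
  obtain ⟨K2, hK2⟩ := gs_top hδ
  obtain ⟨K, hK⟩ : ∃ K : ℝ, K = max K1 K2 := ⟨_, rfl⟩
  have hb : Ph (-K) ≤ δ := hK1 K (by rw [hK]; exact le_max_left _ _)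
  have ht : 1 - Ph K ≤ δ := by
    rw [← gs_compl]
    refine le_trans ?_ (hK2 K (by rw [hK]; exact le_max_right _ _))
    exact MeasureTheory.measureReal_mono Set.Ioi_subset_Ici_self (MeasureTheory.measure_ne_top _ _)
  obtain ⟨M, hM⟩ : ∃ M : ℕ, |K| + δ ≤ δ * M := by
    obtain ⟨M, hM⟩ := exists_nat_ge ((|K| + δ) / δ)
    refine ⟨M, ?_⟩
    rw [div_le_iff₀ hδ] at hM
    linarith
  have hgrid : ∀ᶠ r : ℕ in atTop, ∀ i ∈ Finset.Icc (-(M : ℤ)) M, ∃ T0 : ℝ, 1 ≤ T0 ∧
      ∀ T : ℝ, T0 ≤ T →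
      (((Finset.Ioc (NZ T) (NZ (2 * T))).filter
        (fun n => ¬ Ev (δ * (i - 1)) r n ∧ Ev (δ * (i + 2)) r n)).card : ℝ) ≤
        (δ * (i + 2) - δ * (i - 1) + 3 * δ) * (T * Real.log T / (2 * Real.pi)) := by
    rw [Filter.eventually_all_finset]
    intro i _
    exact block_btw _ _ δ (by nlinarith) hδ
  filter_upwards [bU (-K) δ hδ, bL K δ hδ, hgrid, lm_tend.eventually_gt_atTop 0] with r h1 h2 h3 hlm
  -- a common height
  obtain ⟨Tg, hTg1, hTg⟩ : ∃ Tg : ℝ, 1 ≤ Tg ∧ ∀ i ∈ Finset.Icc (-(M : ℤ)) M, ∀ T : ℝ, Tg ≤ T →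
      (((Finset.Ioc (NZ T) (NZ (2 * T))).filter
        (fun n => ¬ Ev (δ * (i - 1)) r n ∧ Ev (δ * (i + 2)) r n)).card : ℝ) ≤
        (δ * (i + 2) - δ * (i - 1) + 3 * δ) * (T * Real.log T / (2 * Real.pi)) := by
    choose! f hf1 hf2 using h3
    have hne : (Finset.Icc (-(M : ℤ)) M).Nonempty := ⟨0, by rw [Finset.mem_Icc]; omega⟩
    refine ⟨(Finset.Icc (-(M : ℤ)) M).sup' hne f, ?_, fun i hi T hT => ?_⟩
    · exact (hf1 0 (by rw [Finset.mem_Icc]; omega)).trans
        (Finset.le_sup' f (by rw [Finset.mem_Icc]; omega))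
    · exact hf2 i hi T ((Finset.le_sup' f hi).trans hT)
  refine ⟨max Tg (Real.exp (r * Real.log r)), hTg1.trans (le_max_left _ _), fun T hT c => ?_⟩
  have hTg' : Tg ≤ T := (le_max_left _ _).trans hT
  have hT1 : 1 ≤ T := hTg1.trans hTg'
  have hlogT : 0 ≤ Real.log T := Real.log_nonneg hT1
  have hrT : r * Real.log r ≤ 2 * Real.log T := by
    have h4 : Real.exp (r * Real.log r) ≤ T := (le_max_right _ _).trans hT
    have h5 := (Real.le_log_iff_exp_le (by linarith)).mpr h4
    linarith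
  have g1 := h1 T hT1 hrT
  have g2 := h2 T hT1 hrT
  obtain ⟨X, hX⟩ : ∃ X : ℝ, X = T * Real.log T / (2 * Real.pi) := ⟨_, rfl⟩
  have hX0 : 0 ≤ X := by rw [hX]; positivity
  rw [← hX] at g1 g2 ⊢
  -- the position of the centre
  obtain ⟨u, hu⟩ : ∃ u : ℝ, u = (c - r) / lm r - δ / 2 := ⟨_, rfl⟩
  have hul : u * lm r = c - r - δ / 2 * lm r := by
    rw [hu, sub_mul, div_mul_cancel₀ _ hlm.ne']
  obtain ⟨i, hi⟩ : ∃ i : ℤ, i = ⌊u / δ⌋ := ⟨_, rfl⟩
  have hi1 : δ * i ≤ u := by
    have := Int.floor_le (u / δ)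
    rw [← hi, le_div_iff₀ hδ] at this
    linarith
  have hi2 : u < δ * (i + 1) := by
    have := Int.lt_floor_add_one (u / δ)
    rw [← hi, div_lt_iff₀ hδ] at this
    linarith
  by_cases hi3 : i ∈ Finset.Icc (-(M : ℤ)) M
  · have g3 := hTg i hi3 T hTg'
    rw [← hX] at g3
    have hsub : (Finset.Ioc (NZ T) (NZ (2 * T))).filter
        (fun n => |yy (n + r) - yy n - c| ≤ δ / 2 * lm r) ⊆
        (Finset.Ioc (NZ T) (NZ (2 * T))).filter
        (fun n => ¬ Ev (δ * (i - 1)) r n ∧ Ev (δ * (i + 2)) r n) := by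
      intro n hn
      rw [Finset.mem_filter] at hn ⊢
      obtain ⟨hn1, hn2⟩ := hn
      have hn3 := abs_le.mp hn2
      unfold yy at hn3
      refine ⟨hn1, ?_, ?_⟩
      · unfold Ev
        rw [not_le]
        have : δ * (i - 1) * lm r < u * lm r := by
          apply mul_lt_mul_of_pos_right _ hlm
          linarith
        linarith [hn3.1]
      · unfold Ev
        have : (u + δ) * lm r ≤ δ * (i + 2) * lm r := by
          apply mul_le_mul_of_nonneg_right _ hlm.le
          linarith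
        linarith [hn3.2]
    have c1 : (((Finset.Ioc (NZ T) (NZ (2 * T))).filter
        (fun n => |yy (n + r) - yy n - c| ≤ δ / 2 * lm r)).card : ℝ) ≤
        (((Finset.Ioc (NZ T) (NZ (2 * T))).filter
        (fun n => ¬ Ev (δ * (i - 1)) r n ∧ Ev (δ * (i + 2)) r n)).card : ℝ) := by
      exact_mod_cast Finset.card_le_card hsub
    refine c1.trans (g3.trans (le_of_eq ?_))
    ring
  · rw [Finset.mem_Icc, not_and_or, not_le, not_le] at hi3
    have hKabs := le_abs_self K
    have hKabs' := neg_abs_le K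
    rcases hi3 with hi3 | hi3
    · -- below
      have hi4 : (i : ℝ) + 1 ≤ -(M : ℝ) := by
        have : i + 1 ≤ -(M : ℤ) := by omega
        exact_mod_cast this
      have h5 : u + δ ≤ -K := by nlinarith
      have hsub : (Finset.Ioc (NZ T) (NZ (2 * T))).filter
          (fun n => |yy (n + r) - yy n - c| ≤ δ / 2 * lm r) ⊆
          (Finset.Ioc (NZ T) (NZ (2 * T))).filter (fun n => Ev (-K) r n) := by
        intro n hn
        rw [Finset.mem_filter] at hn ⊢
        obtain ⟨hn1, hn2⟩ := hn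
        have hn3 := abs_le.mp hn2
        unfold yy at hn3
        refine ⟨hn1, ?_⟩
        unfold Ev
        have : (u + δ) * lm r ≤ -K * lm r := mul_le_mul_of_nonneg_right h5 hlm.le
        linarith [hn3.2]
      have c1 : (((Finset.Ioc (NZ T) (NZ (2 * T))).filter
          (fun n => |yy (n + r) - yy n - c| ≤ δ / 2 * lm r)).card : ℝ) ≤
          (((Finset.Ioc (NZ T) (NZ (2 * T))).filter (fun n => Ev (-K) r n)).card : ℝ) := by
        exact_mod_cast Finset.card_le_card hsub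
      have c2 : X * (Ph (-K) + δ) ≤ X * (2 * δ) := mul_le_mul_of_nonneg_left (by linarith) hX0
      have c3 : 0 ≤ δ * X := by positivity
      linarith
    · -- above
      have hi4 : (M : ℝ) ≤ (i : ℝ) := by
        have : (M : ℤ) ≤ i := by omega
        exact_mod_cast this
      have h5 : K < u := by nlinarith
      have hsub : (Finset.Ioc (NZ T) (NZ (2 * T))).filter
          (fun n => |yy (n + r) - yy n - c| ≤ δ / 2 * lm r) ⊆
          (Finset.Ioc (NZ T) (NZ (2 * T))).filter (fun n => ¬ Ev K r n) := by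
        intro n hn
        rw [Finset.mem_filter] at hn ⊢
        obtain ⟨hn1, hn2⟩ := hn
        have hn3 := abs_le.mp hn2
        unfold yy at hn3
        refine ⟨hn1, ?_⟩
        unfold Ev
        rw [not_le]
        have : K * lm r < u * lm r := mul_lt_mul_of_pos_right h5 hlm
        linarith [hn3.1]
      have c1 : (((Finset.Ioc (NZ T) (NZ (2 * T))).filter
          (fun n => |yy (n + r) - yy n - c| ≤ δ / 2 * lm r)).card : ℝ) ≤
          (((Finset.Ioc (NZ T) (NZ (2 * T))).filter (fun n => ¬ Ev K r n)).card : ℝ) := by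
        exact_mod_cast Finset.card_le_card hsub
      have c2 : X * (1 - Ph K + δ) ≤ X * (2 * δ) := mul_le_mul_of_nonneg_left (by linarith) hX0
      have c3 : 0 ≤ δ * X := by positivity
      have c4 : (((Finset.Ioc (NZ T) (NZ (2 * T))).filter (fun n => ¬ Ev K r n)).card : ℝ) ≤
          X * (1 - Ph K + δ) := by
        refine le_trans (le_of_eq ?_) g2
        congr!
      linarith

/-- from the dyadic blocks to all indices, uniformly in the property -/
lemma dyadicU (θ T0 : ℝ) (hθ : 0 < θ) (hT0 : 1 ≤ T0) :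
    ∀ᶠ N : ℕ in atTop, ∀ P : ℕ → Prop, ∀ _ : DecidablePred P,
    (∀ T : ℝ, T0 ≤ T → (((Finset.Ioc (NZ T) (NZ (2 * T))).filter P).card : ℝ) ≤
      θ * (T * Real.log T / (2 * Real.pi))) →
    (((Icc 1 N).filter P).card : ℝ) ≤ 17 * θ * N := by
  have hpi := Real.pi_pos
  obtain ⟨X, hX⟩ : ∃ X : ℝ → ℝ, X = fun T => T * Real.log T / (2 * Real.pi) := ⟨_, rfl⟩
  -- the sizes
  obtain ⟨T1, hT1⟩ := W200.HW.NZ_lower (1 / 2) (by norm_num)
  have hord : Tendsto ord atTop atTop := Pool.Agent.Y743.LR.ord_tendsto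
  have hbig : ∀ᶠ N : ℕ in atTop, (NZ (2 * T0) : ℝ) ≤ θ * N :=
    (tendsto_natCast_atTop_atTop.const_mul_atTop hθ).eventually_ge_atTop _
  filter_upwards [hord.eventually_ge_atTop (max (max T0 (2 * T1)) 4), hbig, eventually_ge_atTop 1]
    with N h1 h2 h3 P _ h
  have key : ∀ k : ℕ, ∀ T : ℝ, T0 ≤ T → T < T0 * 2 ^ (k + 1) →
      (((Icc 1 (NZ T)).filter P).card : ℝ) ≤ NZ (2 * T0) + 2 * θ * X T := by
    intro k
    induction k with
    | zero =>
      intro T hT hT2
      have hX0 : 0 ≤ X T := by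
        rw [hX]
        have := Real.log_nonneg (hT0.trans hT)
        have : 0 ≤ T := by linarith
        positivity
      have h1 : ((Icc 1 (NZ T)).filter P).card ≤ NZ (2 * T0) := by
        refine (Finset.card_filter_le _ _).trans ?_
        rw [Nat.card_Icc, Nat.add_sub_cancel]
        apply SG.NZ_mono
        rw [zero_add, pow_one] at hT2
        linarith
      have h2 : (((Icc 1 (NZ T)).filter P).card : ℝ) ≤ NZ (2 * T0) := by exact_mod_cast h1
      have : 0 ≤ 2 * θ * X T := by positivity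
      linarith
    | succ k ih =>
      intro T hT hT2
      by_cases hT3 : T < T0 * 2 ^ (k + 1)
      · exact ih T hT hT3
      push Not at hT3
      have hpow : (1 : ℝ) ≤ 2 ^ k := one_le_pow₀ (by norm_num)
      have hT4 : T0 ≤ T / 2 := by
        rw [pow_succ] at hT3
        nlinarith
      have h1 := ih (T / 2) hT4 (by
        rw [pow_succ] at hT2
        linarith)
      have h2 := h (T / 2) hT4
      rw [show 2 * (T / 2) = T by ring] at h2
      have h3 : (Icc 1 (NZ T)).filter P ⊆ (Icc 1 (NZ (T / 2))).filter P ∪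
          (Finset.Ioc (NZ (T / 2)) (NZ T)).filter P := by
        intro n hn
        rw [Finset.mem_filter, Finset.mem_Icc] at hn
        rw [Finset.mem_union, Finset.mem_filter, Finset.mem_filter, Finset.mem_Icc,
          Finset.mem_Ioc]
        by_cases hh : n ≤ NZ (T / 2)
        · exact Or.inl ⟨⟨hn.1.1, hh⟩, hn.2⟩
        · exact Or.inr ⟨⟨by omega, hn.1.2⟩, hn.2⟩
      have h4 := (Finset.card_le_card h3).trans (Finset.card_union_le _ _)
      have h5 : (((Icc 1 (NZ T)).filter P).card : ℝ) ≤ ((Icc 1 (NZ (T / 2))).filter P).card +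
          ((Finset.Ioc (NZ (T / 2)) (NZ T)).filter P).card := by exact_mod_cast h4
      have hT1 : 1 ≤ T / 2 := hT0.trans hT4
      have h6 : X (T / 2) ≤ X T / 2 := by
        rw [hX]
        dsimp only
        rw [div_div, mul_comm (2 * Real.pi) 2, ← div_div (T * Real.log T) 2]
        apply div_le_div_of_nonneg_right _ (by positivity)
        have h7 : Real.log (T / 2) ≤ Real.log T := Real.log_le_log (by linarith) (by linarith)
        have h8 : T / 2 * Real.log (T / 2) ≤ T / 2 * Real.log T :=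
          mul_le_mul_of_nonneg_left h7 (by linarith)
        linarith
      have h9 : 0 ≤ X T := by
        rw [hX]
        have := Real.log_nonneg (hT0.trans hT)
        have : 0 ≤ T := by linarith
        positivity
      have h10 : θ * (T / 2 * Real.log (T / 2) / (2 * Real.pi)) = θ * X (T / 2) := by rw [hX]
      rw [h10] at h2
      have h11 : θ * X (T / 2) ≤ θ * (X T / 2) := mul_le_mul_of_nonneg_left h6 hθ.le
      have h12 : 0 ≤ θ * X T := by positivity
      linarith
  obtain ⟨T, hT⟩ : ∃ T : ℝ, T = ord N := ⟨_, rfl⟩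
  rw [← hT] at h1
  have hTT0 : T0 ≤ T := ((le_max_left _ _).trans (le_max_left _ _)).trans h1
  have hTT1 : 2 * T1 ≤ T := ((le_max_right _ _).trans (le_max_left _ _)).trans h1
  have hT4 : 4 ≤ T := (le_max_right _ _).trans h1
  have hN1 : N ≤ NZ T := by
    rw [hT]
    exact (SG.ord_le_iff h3 _).mp le_rfl
  have hN2 : NZ (T / 2) < N := by
    by_contra hcon
    push Not at hcon
    have := (SG.ord_le_iff h3 _).mpr hcon
    rw [← hT] at this
    linarith
  obtain ⟨k, hk⟩ : ∃ k : ℕ, T < T0 * 2 ^ (k + 1) := by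
    obtain ⟨k, hk⟩ := pow_unbounded_of_one_lt (T / T0) (show (1 : ℝ) < 2 by norm_num)
    refine ⟨k, ?_⟩
    rw [div_lt_iff₀ (by linarith)] at hk
    have : (2 : ℝ) ^ k ≤ 2 ^ (k + 1) := pow_le_pow_right₀ (by norm_num) (by omega)
    nlinarith
  have h4 := key k T hTT0 hk
  have h5 : ((Icc 1 N).filter P).card ≤ ((Icc 1 (NZ T)).filter P).card := by
    apply Finset.card_le_card
    intro n hn
    rw [Finset.mem_filter, Finset.mem_Icc] at hn ⊢
    exact ⟨⟨hn.1.1, hn.1.2.trans hN1⟩, hn.2⟩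
  have h5' : (((Icc 1 N).filter P).card : ℝ) ≤ ((Icc 1 (NZ T)).filter P).card := by exact_mod_cast h5
  have h6 := hT1 (T / 2) (by linarith)
  have h7 : (NZ (T / 2) : ℝ) ≤ N := by exact_mod_cast hN2.le
  have hlog : Real.log T ≤ 2 * Real.log (T / 2) := by
    have e : 2 * Real.log (T / 2) = Real.log ((T / 2) ^ 2) := by
      rw [Real.log_pow]; norm_num
    rw [e]
    apply Real.log_le_log (by linarith)
    nlinarith
  have h8 : X T ≤ 8 * N := by
    have h9 : X T ≤ 8 * ((1 - 1 / 2) * (T / 2 / (2 * Real.pi) * Real.log (T / 2))) := by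
      rw [hX]
      dsimp only
      have e : 8 * ((1 - 1 / 2) * (T / 2 / (2 * Real.pi) * Real.log (T / 2))) =
          T * (2 * Real.log (T / 2)) / (2 * Real.pi) := by ring
      rw [e]
      apply div_le_div_of_nonneg_right _ (by positivity)
      exact mul_le_mul_of_nonneg_left hlog (by linarith)
    linarith
  have h10 : 2 * θ * X T ≤ 2 * θ * (8 * N) := mul_le_mul_of_nonneg_left h8 (by positivity)
  linarith

/-- the concentration function of the sums of `r` consecutive terms is small -/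
def Conc (y : ℕ → ℝ) : Prop := ∀ θ : ℝ, 0 < θ → ∃ κ : ℝ, 0 < κ ∧ ∀ᶠ r : ℕ in atTop,
  ∀ᶠ N : ℕ in atTop, ∀ c : ℝ,
  (((Icc 1 N).filter (fun n => |y (n + r) - y n - c| ≤ κ * Real.sqrt (Real.log r))).card : ℝ) ≤ θ * N

theorem conc_yy : Conc yy := by
  intro θ hθ
  have hpi := Real.pi_pos
  refine ⟨θ / 102 / 2 / Real.pi, by positivity, ?_⟩
  filter_upwards [block_conc (θ / 102) (by positivity)] with r hr
  obtain ⟨T0, hT0, h⟩ := hr
  filter_upwards [dyadicU (6 * (θ / 102)) T0 (by positivity) hT0] with N hN c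
  have h1 := hN (fun n => |yy (n + r) - yy n - c| ≤ θ / 102 / 2 * lm r) inferInstance
    (fun T hT => h T hT c)
  have e : θ / 102 / 2 / Real.pi * Real.sqrt (Real.log r) = θ / 102 / 2 * lm r := by
    unfold lm
    ring
  rw [e]
  refine h1.trans (le_of_eq ?_)
  ring

end Pool.Agent.X112.GS
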