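import Mathlib

/-! # Correlations of a sequence and the variance of its sums -/

set_option autoImplicit false

open Filter Finset

namespace Pool.Agent.X112.GS

/-- sum of `r` consecutive terms -/
def sm (e : ℕ → ℝ) (r n : ℕ) : ℝ := ∑ i ∈ range r, e (n + i)

/-- correlation sum -/
def cc (e : ℕ → ℝ) (N j : ℕ) : ℝ := ∑ n ∈ Icc 1 N, e n * e (n + j)

/-- sum of the squares of the sums of `r` consecutive terms -/
def ww (e : ℕ → ℝ) (N r : ℕ) : ℝ := ∑ n ∈ Icc 1 N, sm e r n ^ 2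

/-- the combination of the correlations -/
def aa (e : ℕ → ℝ) (N r : ℕ) : ℝ := r * cc e N 0 + 2 * ∑ j ∈ range r, (r - j - 1 : ℝ) * cc e N (j + 1)

lemma sm_succ (e : ℕ → ℝ) (r n : ℕ) : sm e (r + 1) n = sm e r n + e (n + r) := by
  unfold sm
  rw [Finset.sum_range_succ]

lemma aa_succ (e : ℕ → ℝ) (N r : ℕ) :
    aa e N (r + 1) = aa e N r + (cc e N 0 + 2 * ∑ j ∈ range r, cc e N (j + 1)) := by
  unfold aa
  rw [Finset.sum_range_succ]
  have h : ∑ j ∈ range r, (((r + 1 : ℕ) : ℝ) - j - 1) * cc e N (j + 1) =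
      ∑ j ∈ range r, ((r : ℝ) - j - 1) * cc e N (j + 1) + ∑ j ∈ range r, cc e N (j + 1) := by
    rw [← Finset.sum_add_distrib]
    refine Finset.sum_congr rfl fun j _ => ?_
    push_cast
    ring
  rw [h]
  push_cast
  ring

/-- shifting the summation -/
lemma shift_sum {g : ℕ → ℝ} {N i : ℕ} {M : ℝ} (hM : ∀ n, 1 ≤ n → n ≤ N + i → |g n| ≤ M) :
    |∑ n ∈ Icc 1 N, g (n + i) - ∑ n ∈ Icc 1 N, g n| ≤ 2 * i * M := by
  induction i with
  | zero => simp
  | succ i ih =>
    have h1 := ih (fun n h1 h2 => hM n h1 (by omega))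
    have h2 : ∀ K : ℕ, ∑ n ∈ Icc 1 K, g (n + (i + 1)) - ∑ n ∈ Icc 1 K, g (n + i) =
        g (K + i + 1) - g (i + 1) := by
      intro K
      induction K with
      | zero => simp
      | succ K ihK =>
        rw [Finset.sum_Icc_succ_top (by omega), Finset.sum_Icc_succ_top (by omega)]
        have e1 : K + 1 + (i + 1) = K + 1 + i + 1 := by ring
        have e2 : K + 1 + i = K + i + 1 := by ring
        rw [e1, e2]
        linarith
    have h3 := h2 N
    have h4 := abs_le.mp (hM (N + i + 1) (by omega) (by omega))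
    have h5 := abs_le.mp (hM (i + 1) (by omega) (by omega))
    have h6 := abs_le.mp h1
    have h7 : 0 ≤ M := (abs_nonneg _).trans (hM (i + 1) (by omega) (by omega))
    rw [abs_le]
    push_cast
    constructor
    · linarith [h6.1, h4.1, h5.2]
    · linarith [h6.2, h4.2, h5.1]

/-- the variance of the sums and the correlations -/
lemma ww_aa {e : ℕ → ℝ} {N : ℕ} {M : ℝ} (hM0 : 0 ≤ M) (R : ℕ)
    (hM : ∀ n, 1 ≤ n → n ≤ N + R → |e n| ≤ M) :
    ∀ r : ℕ, r ≤ R → |ww e N r - aa e N r| ≤ 6 * (r : ℝ) ^ 3 * M ^ 2 := by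
  intro r
  induction r with
  | zero =>
    intro _
    unfold ww aa sm
    simp
  | succ r ih =>
    intro hr
    have h1 := ih (by omega)
    have h2 : ww e N (r + 1) = ww e N r + 2 * ∑ i ∈ range r, ∑ n ∈ Icc 1 N, e (n + i) * e (n + r) +
        ∑ n ∈ Icc 1 N, e (n + r) * e (n + r) := by
      unfold ww
      rw [Finset.sum_comm, Finset.mul_sum, ← Finset.sum_add_distrib, ← Finset.sum_add_distrib]
      refine Finset.sum_congr rfl fun n _ => ?_
      rw [sm_succ, ← Finset.sum_mul]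
      unfold sm
      ring
    have h3 : ∀ i : ℕ, i ≤ r → |∑ n ∈ Icc 1 N, e (n + i) * e (n + r) - cc e N (r - i)| ≤
        2 * i * M ^ 2 := by
      intro i hi
      have h4 := shift_sum (g := fun n => e n * e (n + (r - i))) (N := N) (i := i) (M := M ^ 2) (by
        intro n h5 h6
        rw [abs_mul, sq]
        exact mul_le_mul (hM n h5 (by omega)) (hM _ (by omega) (by omega)) (abs_nonneg _) hM0)
      have e1 : ∀ n, n + i + (r - i) = n + r := fun n => by omega
      simp only [e1] at h4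
      unfold cc
      exact h4
    have h4 : ∑ i ∈ range r, cc e N (r - i) = ∑ j ∈ range r, cc e N (j + 1) := by
      rw [← Finset.sum_range_reflect (fun i => cc e N (i + 1))]
      refine Finset.sum_congr rfl fun i hi => ?_
      rw [Finset.mem_range] at hi
      congr 1
      omega
    have h5 : |∑ i ∈ range r, ∑ n ∈ Icc 1 N, e (n + i) * e (n + r) -
        ∑ j ∈ range r, cc e N (j + 1)| ≤ r * (2 * r * M ^ 2) := by
      rw [← h4, ← Finset.sum_sub_distrib]
      refine (Finset.abs_sum_le_sum_abs _ _).trans ?_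
      calc _ ≤ ∑ i ∈ range r, 2 * (r : ℝ) * M ^ 2 := by
            apply Finset.sum_le_sum
            intro i hi
            rw [Finset.mem_range] at hi
            refine (h3 i hi.le).trans ?_
            have : (i : ℝ) ≤ r := by exact_mod_cast hi.le
            have h6 : 0 ≤ M ^ 2 := by positivity
            nlinarith
        _ = _ := by rw [Finset.sum_const, Finset.card_range, nsmul_eq_mul]
    have h6 := h3 r le_rfl
    rw [Nat.sub_self] at h6
    rw [h2, aa_succ]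
    have a1 := abs_le.mp h1
    have a2 := abs_le.mp h5
    have a3 := abs_le.mp h6
    have hr0 : (0 : ℝ) ≤ r := Nat.cast_nonneg _
    have hM2 : 0 ≤ M ^ 2 := by positivity
    have hfin : 6 * (r : ℝ) ^ 3 * M ^ 2 + 2 * (r * (2 * r * M ^ 2)) + 2 * r * M ^ 2 ≤
        6 * ((r + 1 : ℕ) : ℝ) ^ 3 * M ^ 2 := by
      push_cast
      have : 0 ≤ (14 * (r : ℝ) ^ 2 + 16 * r + 6) * M ^ 2 := by positivity
      nlinarith
    rw [abs_le]
    constructor
    · linarith [a1.1, a2.1, a3.1]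
    · linarith [a1.2, a2.2, a3.2]

/-- comparison of two scales: the negative parts of the correlations -/
lemma two_scales (c : ℕ → ℝ) {r R : ℕ} (hr : 1 ≤ r) (hrR : r ≤ R) :
    (r * c 0 + 2 * ∑ j ∈ range r, (r - j - 1 : ℝ) * c (j + 1)) -
      (r : ℝ) / R * (R * c 0 + 2 * ∑ j ∈ range R, (R - j - 1 : ℝ) * c (j + 1)) ≤
      2 * ∑ j ∈ Ico 1 R, (j : ℝ) * max (-c j) 0 := by
  have hR0 : (0 : ℝ) < R := by exact_mod_cast (by omega : 0 < R)
  have hr0 : (0 : ℝ) < r := by exact_mod_cast (by omega : 0 < r)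
  obtain ⟨k, rfl⟩ := Nat.exists_eq_add_of_le hrR
  have h1 : ∀ m : ℕ, 1 ≤ m → ∑ j ∈ range m, (m - j - 1 : ℝ) * c (j + 1) =
      ∑ j ∈ Ico 1 m, (m - j : ℝ) * c j := by
    intro m hm
    obtain ⟨p, rfl⟩ := Nat.exists_eq_add_of_le hm
    rw [Finset.sum_Ico_eq_sum_range, show 1 + p - 1 = p by omega, add_comm 1 p,
      Finset.sum_range_succ]
    have : ((p + 1 : ℕ) : ℝ) - p - 1 = 0 := by push_cast; ring
    rw [this, zero_mul, add_zero]
    refine Finset.sum_congr rfl fun j _ => ?_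
    rw [add_comm 1 j]
    push_cast
    ring
  rw [h1 r hr, h1 (r + k) (by omega)]
  have h2 : ∑ j ∈ Ico 1 r, ((r : ℝ) - j) * c j = ∑ j ∈ Ico 1 (r + k), max ((r : ℝ) - j) 0 * c j := by
    rw [← Finset.sum_Ico_consecutive _ hr (Nat.le_add_right r k)]
    have h3 : ∑ j ∈ Ico r (r + k), max ((r : ℝ) - j) 0 * c j = 0 := by
      apply Finset.sum_eq_zero
      intro j hj
      rw [Finset.mem_Ico] at hj
      have : (r : ℝ) ≤ j := by exact_mod_cast hj.1
      rw [max_eq_right (by linarith), zero_mul]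
    rw [h3, add_zero]
    refine Finset.sum_congr rfl fun j hj => ?_
    rw [Finset.mem_Ico] at hj
    have : (j : ℝ) ≤ r := by exact_mod_cast hj.2.le
    rw [max_eq_left (by linarith)]
  rw [h2]
  have h3 : (r : ℝ) / ((r + k : ℕ) : ℝ) * (((r + k : ℕ) : ℝ) * c 0 + 2 * ∑ j ∈ Ico 1 (r + k),
      (((r + k : ℕ) : ℝ) - j) * c j) = r * c 0 + 2 * ∑ j ∈ Ico 1 (r + k),
      ((r : ℝ) - r * j / ((r + k : ℕ) : ℝ)) * c j := by
    rw [mul_add, ← mul_assoc, div_mul_cancel₀ _ hR0.ne', ← mul_assoc, mul_comm _ (2 : ℝ), mul_assoc,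
      Finset.mul_sum]
    congr 2
    refine Finset.sum_congr rfl fun j _ => ?_
    field_simp
  rw [h3]
  have h4 : r * c 0 + 2 * ∑ j ∈ Ico 1 (r + k), max ((r : ℝ) - j) 0 * c j -
      (r * c 0 + 2 * ∑ j ∈ Ico 1 (r + k), ((r : ℝ) - r * j / ((r + k : ℕ) : ℝ)) * c j) =
      2 * ∑ j ∈ Ico 1 (r + k), (((r : ℝ) - r * j / ((r + k : ℕ) : ℝ)) - max ((r : ℝ) - j) 0) *
        (-c j) := by
    have : ∑ j ∈ Ico 1 (r + k), (((r : ℝ) - r * j / ((r + k : ℕ) : ℝ)) - max ((r : ℝ) - j) 0) *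
        (-c j) = ∑ j ∈ Ico 1 (r + k), max ((r : ℝ) - j) 0 * c j -
        ∑ j ∈ Ico 1 (r + k), ((r : ℝ) - r * j / ((r + k : ℕ) : ℝ)) * c j := by
      rw [← Finset.sum_sub_distrib]
      refine Finset.sum_congr rfl fun j _ => ?_
      ring
    rw [this]
    ring
  rw [h4]
  apply mul_le_mul_of_nonneg_left _ (by norm_num)
  apply Finset.sum_le_sum
  intro j hj
  rw [Finset.mem_Ico] at hj
  have hjR : (j : ℝ) ≤ ((r + k : ℕ) : ℝ) := by exact_mod_cast hj.2.le
  have hj0 : (0 : ℝ) ≤ j := Nat.cast_nonneg _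
  have hrR' : (r : ℝ) ≤ ((r + k : ℕ) : ℝ) := by exact_mod_cast hrR
  have a1 : (r : ℝ) * j / ((r + k : ℕ) : ℝ) ≤ r := by
    rw [div_le_iff₀ hR0]
    nlinarith
  have a2 : (r : ℝ) * j / ((r + k : ℕ) : ℝ) ≤ j := by
    rw [div_le_iff₀ hR0]
    nlinarith
  have a3 : 0 ≤ (r : ℝ) * j / ((r + k : ℕ) : ℝ) := by positivity
  have a4 : 0 ≤ ((r : ℝ) - r * j / ((r + k : ℕ) : ℝ)) - max ((r : ℝ) - j) 0 := by
    rw [sub_nonneg]
    apply max_le
    · linarith
    · linarith
  have a5 : ((r : ℝ) - r * j / ((r + k : ℕ) : ℝ)) - max ((r : ℝ) - j) 0 ≤ j := by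
    have := le_max_left ((r : ℝ) - j) 0
    linarith
  calc _ ≤ (((r : ℝ) - r * j / ((r + k : ℕ) : ℝ)) - max ((r : ℝ) - j) 0) * max (-c j) 0 :=
        mul_le_mul_of_nonneg_left (le_max_left _ _) a4
    _ ≤ _ := mul_le_mul_of_nonneg_right a5 (le_max_right _ _)

end Pool.Agent.X112.GS
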