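import Pool.Agent.X112.GS.Comb

/-! # Locally linear approximations of a sequence with unbounded fluctuations -/

set_option autoImplicit false

open Filter Finset

namespace Pool.Agent.X112.GS

/-- the sums of `r` consecutive terms have unbounded fluctuations -/
def Anti (y : ℕ → ℝ) : Prop := ∀ w θ : ℝ, 0 < θ → ∀ᶠ r : ℕ in atTop, ∀ᶠ N : ℕ in atTop,
  (((Icc 1 N).filter (fun n => |y (n + r) - y n - r| ≤ w)).card : ℝ) ≤ θ * N

/-- the law of large numbers for the sums of `s` consecutive terms -/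
def Lln (y : ℕ → ℝ) : Prop := ∀ κ θ : ℝ, 0 < κ → 0 < θ → ∀ᶠ s : ℕ in atTop, ∀ᶠ N : ℕ in atTop,
  (((Icc 1 N).filter (fun n => κ * s ≤ |y (n + s) - y n - s|)).card : ℝ) ≤ θ * N

/-- one configuration: `n + (j r + a ρ) Q` and so on -/
lemma config {y z : ℕ → ℝ} {K ε : ℝ} (hK : 0 ≤ K) (hε : 0 ≤ ε) {Q n ρ S m a b c j k I : ℕ}
    (hQ : 1 ≤ Q) (hρ : 1 ≤ ρ) (hab : a < b) (hb : b < m) (hc : c < m) (hjk : j < k) (hk : k < m)
    (hS : m * ρ < S) (hI : 2 * m * S ≤ I)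
    (hS2 : 16 * K * (m * ρ) ≤ S - m * ρ) (hε2 : 4 * ε * (I : ℝ) ^ 3 ≤ 1 / 8)
    (hz : ∀ i < I, |z (n + i * Q + 2 * Q) - 2 * z (n + i * Q + Q) + z (n + i * Q)| ≤ ε)
    (hu : |y (n + (j * S + a * ρ) * Q) - z (n + (j * S + a * ρ) * Q)| ≤ K)
    (hv : |y (n + (j * S + b * ρ) * Q) - z (n + (j * S + b * ρ) * Q)| ≤ K)
    (hx : |y (n + (k * S + c * ρ) * Q) - z (n + (k * S + c * ρ) * Q)| ≤ K)
    (hy : |y (n + (k * S + c * ρ) * Q) - y (n + (j * S + a * ρ) * Q) -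
      (((k * S + c * ρ : ℕ) : ℝ) - ((j * S + a * ρ : ℕ) : ℝ)) * Q| ≤
        1 / (8 * (m * ρ * Q)) * ((((k * S + c * ρ : ℕ) : ℝ) - ((j * S + a * ρ : ℕ) : ℝ)) * Q)) :
    |y (n + (j * S + b * ρ) * Q) - y (n + (j * S + a * ρ) * Q) -
      (((j * S + b * ρ : ℕ) : ℝ) - ((j * S + a * ρ : ℕ) : ℝ)) * Q| ≤ 2 * K + 1 := by
  obtain ⟨iu, hiu⟩ : ∃ iu : ℕ, iu = j * S + a * ρ := ⟨_, rfl⟩
  obtain ⟨iv, hiv⟩ : ∃ iv : ℕ, iv = j * S + b * ρ := ⟨_, rfl⟩
  obtain ⟨ix, hix⟩ : ∃ ix : ℕ, ix = k * S + c * ρ := ⟨_, rfl⟩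
  rw [← hiu, ← hiv]
  rw [← hiu] at hu
  rw [← hiv] at hv
  rw [← hix] at hx
  rw [← hix, ← hiu] at hy
  have hm0 : 0 < m := by omega
  have haρ : a * ρ ≤ m * ρ := Nat.mul_le_mul_right _ (by omega)
  have hbρ : b * ρ ≤ m * ρ := Nat.mul_le_mul_right _ (by omega)
  have hcρ : c * ρ ≤ m * ρ := Nat.mul_le_mul_right _ (by omega)
  have hjS : (j + 1) * S ≤ k * S := Nat.mul_le_mul_right _ (by omega)
  have hkS : k * S ≤ m * S := Nat.mul_le_mul_right _ (by omega)
  have hmS : 1 * S ≤ m * S := Nat.mul_le_mul_right _ (by omega)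
  have hjS' : (j + 1) * S = j * S + S := by ring
  have habρ : a * ρ ≤ b * ρ := Nat.mul_le_mul_right _ (by omega)
  have h1 : iu ≤ iv := by omega
  have h2 : iu + (S - m * ρ) ≤ ix := by omega
  have h2' : iu < ix := by omega
  have hI2 : 2 * m * S = m * S + m * S := by ring
  have h3 : iv ≤ I := by omega
  have h4 : ix ≤ I := by omega
  have hp : ((iv : ℝ) - iu) ≤ m * ρ := by
    have : iv ≤ iu + m * ρ := by omega
    have h : (iv : ℝ) ≤ iu + m * ρ := by exact_mod_cast this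
    linarith
  have hp0 : 0 ≤ (iv : ℝ) - iu := by rw [sub_nonneg]; exact_mod_cast h1
  have hq : (S : ℝ) - m * ρ ≤ (ix : ℝ) - iu := by
    have h : ((iu + (S - m * ρ) : ℕ) : ℝ) ≤ ix := by exact_mod_cast h2
    have e : ((S - m * ρ : ℕ) : ℝ) = (S : ℝ) - m * ρ := by
      rw [Nat.cast_sub hS.le]; push_cast; ring
    rw [Nat.cast_add, e] at h
    linarith
  have hq0 : 0 < (ix : ℝ) - iu := by rw [sub_pos]; exact_mod_cast h2'
  obtain ⟨p, hpe⟩ : ∃ p : ℝ, p = (iv : ℝ) - iu := ⟨_, rfl⟩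
  obtain ⟨q, hqe⟩ : ∃ q : ℝ, q = (ix : ℝ) - iu := ⟨_, rfl⟩
  have hQ0 : (0 : ℝ) < Q := by exact_mod_cast hQ
  have hρ0 : (0 : ℝ) < ρ := by exact_mod_cast hρ
  have hm0' : (0 : ℝ) < m := by exact_mod_cast hm0
  have hA : |z (n + ix * Q) - z (n + iu * Q) - ((ix : ℝ) - iu) * Q| ≤
      2 * K + 1 / (8 * (m * ρ * Q)) * (((ix : ℝ) - iu) * Q) := by
    rw [abs_le] at hu hx hy ⊢
    constructor <;> linarith [hu.1, hu.2, hx.1, hx.2, hy.1, hy.2]
  have h5 := slopes z ε hε Q n I iu iv ix h1 h2' h3 h4 hz hA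
  have h6 : ((iv : ℝ) - iu) / ((ix : ℝ) - iu) *
      (2 * K + 1 / (8 * (m * ρ * Q)) * (((ix : ℝ) - iu) * Q)) ≤ 1 / 8 + 1 / 8 := by
    have hq0' : 0 < q := by rw [hqe]; exact hq0
    have hp' : p ≤ m * ρ := by rw [hpe]; exact hp
    have hq' : (S : ℝ) - m * ρ ≤ q := by rw [hqe]; exact hq
    rw [← hpe, ← hqe]
    have e : p / q * (2 * K + 1 / (8 * (m * ρ * Q)) * (q * Q)) =
        p * (2 * K) / q + p / (8 * (m * ρ)) := by
      field_simp
    rw [e]
    apply add_le_add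
    · rw [div_le_iff₀ hq0']
      have h7 : p * (2 * K) ≤ (m * ρ) * (2 * K) := mul_le_mul_of_nonneg_right hp' (by positivity)
      linarith
    · rw [div_le_iff₀ (by positivity)]
      linarith
  rw [abs_le] at hu hv h5 ⊢
  constructor <;> linarith [hu.1, hu.2, hv.1, hv.2, h5.1, h5.2]

lemma union4 {A B C D G : Finset ℕ} (h : G ⊆ ((A ∪ B) ∪ C) ∪ D) :
    (G.card : ℝ) ≤ A.card + B.card + C.card + D.card := by
  have h1 := Finset.card_le_card h
  have h2 := Finset.card_union_le ((A ∪ B) ∪ C) D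
  have h3 := Finset.card_union_le (A ∪ B) C
  have h4 := Finset.card_union_le A B
  have : G.card ≤ A.card + B.card + C.card + D.card := by omega
  exact_mod_cast this

/-- the main estimate, with all the parameters fixed -/
theorem fixed {y : ℕ → ℝ} {Q m ρ S I : ℕ} {K η ε : ℝ} (hη : 0 < η) (hK : 0 ≤ K) (hQ : 1 ≤ Q)
    (hm2' : 2 ≤ m) (hmη : 8 ≤ m * η) (hρ1 : 1 ≤ ρ) (hSρ : m * ρ < S)
    (hS2 : 16 * K * (m * ρ) ≤ (S : ℝ) - m * ρ) (hI : I = 2 * m * S) (hε0 : 0 < ε)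
    (hε1 : 4 * ε * (I : ℝ) ^ 3 ≤ 1 / 8) (hε2 : ε * I ≤ η / 16)
    (hr1 : ∀ r : ℕ, ρ ≤ r → ∀ᶠ N : ℕ in atTop,
      (((Icc 1 N).filter (fun n => |y (n + r) - y n - r| ≤ 2 * K + 1)).card : ℝ) ≤
        η / (16 * (m : ℝ) ^ 3) * N)
    (hs1 : ∀ s : ℕ, S - m * ρ ≤ s → ∀ᶠ N : ℕ in atTop,
      (((Icc 1 N).filter (fun n => 1 / (8 * (m * ρ * Q)) * s ≤ |y (n + s) - y n - s|)).card : ℝ) ≤
        η / (16 * (m : ℝ) ^ 4) * N) :
    ∀ᶠ N : ℕ in atTop, ∀ z : ℕ → ℝ,
    (((Icc 1 N).filter (fun n => ε < |z (n + 2 * Q) - 2 * z (n + Q) + z n|)).card : ℝ) ≤ ε * N →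
    (((Icc 1 N).filter (fun n => |y n - z n| ≤ K)).card : ℝ) ≤ η * N := by
  classical
  have hm2 : (2 : ℝ) ≤ m := by exact_mod_cast hm2'
  have hm0 : (0 : ℝ) < m := by linarith
  obtain ⟨θ, hθ⟩ : ∃ θ : ℝ, θ = η / (16 * (m : ℝ) ^ 3) := ⟨_, rfl⟩
  have hθ0 : 0 < θ := by rw [hθ]; positivity
  obtain ⟨θ2, hθ2⟩ : ∃ θ2 : ℝ, θ2 = η / (16 * (m : ℝ) ^ 4) := ⟨_, rfl⟩
  have hθ20 : 0 < θ2 := by rw [hθ2]; positivity
  rw [← hθ] at hr1
  rw [← hθ2] at hs1
  have hρ0 : (0 : ℝ) < ρ := by exact_mod_cast hρ1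
  have hQ0 : (0 : ℝ) < Q := by exact_mod_cast hQ
  have hI1 : 1 ≤ I := by
    rw [hI]
    have h0 : 0 < S := by omega
    have h1 : 0 < m := by omega
    have : 0 < 2 * m * S := by positivity
    omega
  have hI0 : (0 : ℝ) < I := by exact_mod_cast hI1
  obtain ⟨B, hB⟩ : ∃ B : ℕ, B = I * Q := ⟨_, rfl⟩
  -- the events of the anti-concentration and of the law of large numbers
  have hev1 : ∀ᶠ N : ℕ in atTop, ∀ r ∈ Finset.Icc ρ B,
      (((Icc 1 N).filter (fun n => |y (n + r) - y n - r| ≤ 2 * K + 1)).card : ℝ) ≤ θ * N := by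
    rw [Filter.eventually_all_finset]
    intro r hr
    exact hr1 r (Finset.mem_Icc.mp hr).1
  have hev2 : ∀ᶠ N : ℕ in atTop, ∀ s ∈ Finset.Icc (S - m * ρ) B,
      (((Icc 1 N).filter (fun n => 1 / (8 * (m * ρ * Q)) * s ≤ |y (n + s) - y n - s|)).card : ℝ) ≤
        θ2 * N := by
    rw [Filter.eventually_all_finset]
    intro s hs
    exact hs1 s (Finset.mem_Icc.mp hs).1
  have hbig : ∀ᶠ N : ℕ in atTop, 3 * (B : ℝ) + 4 ≤ η / 4 * N := by
    have h1 : Tendsto (fun N : ℕ => η / 4 * (N : ℝ)) atTop atTop :=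
      tendsto_natCast_atTop_atTop.const_mul_atTop (by positivity)
    exact h1.eventually_ge_atTop _
  filter_upwards [hev1, hev2, hbig, eventually_ge_atTop 1] with N h1 h2 h3 hN1 z hz
  by_contra hcon
  push Not at hcon
  obtain ⟨G, hG⟩ : ∃ G : Finset ℕ, G = (Icc 1 N).filter (fun n => |y n - z n| ≤ K) := ⟨_, rfl⟩
  rw [← hG] at hcon
  have hGs : G ⊆ range (N + 1) := by
    intro g hg
    rw [hG, Finset.mem_filter, Finset.mem_Icc] at hg
    rw [Finset.mem_range]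
    omega
  -- first level
  have l1 := two_hits N m (m * (ρ * Q)) G hGs (fun i => i * (ρ * Q)) (fun i hi => by
    exact Nat.mul_le_mul_right _ hi.le)
  obtain ⟨G1, hG1⟩ : ∃ G1 : Finset ℕ, G1 = (range (N + 1)).filter
      (fun n => 2 ≤ ((range m).filter (fun i => n + i * (ρ * Q) ∈ G)).card) := ⟨_, rfl⟩
  rw [← hG1] at l1
  have hG1s : G1 ⊆ range (N + 1) := by rw [hG1]; exact Finset.filter_subset _ _
  -- second level
  have l2 := two_hits N m (m * (S * Q)) G1 hG1s (fun i => i * (S * Q)) (fun i hi => by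
    exact Nat.mul_le_mul_right _ hi.le)
  obtain ⟨G2, hG2⟩ : ∃ G2 : Finset ℕ, G2 = (range (N + 1)).filter
      (fun n => 2 ≤ ((range m).filter (fun i => n + i * (S * Q) ∈ G1)).card) := ⟨_, rfl⟩
  rw [← hG2] at l2
  have hN0 : (0 : ℝ) ≤ N := Nat.cast_nonneg _
  -- sizes
  have hB1 : m * (ρ * Q) ≤ B := by
    rw [hB, hI]
    have h4 : m * ρ ≤ 2 * m * S := by
      have : 2 * m * S = m * S + m * S := by ring
      have h5 : 1 * S ≤ m * S := Nat.mul_le_mul_right _ (by omega)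
      omega
    calc m * (ρ * Q) = (m * ρ) * Q := by ring
      _ ≤ (2 * m * S) * Q := Nat.mul_le_mul_right _ h4
  have hB2 : m * (S * Q) ≤ B := by
    rw [hB, hI]
    have h4 : m * S ≤ 2 * m * S := by
      have : 2 * m * S = m * S + m * S := by ring
      omega
    calc m * (S * Q) = (m * S) * Q := by ring
      _ ≤ (2 * m * S) * Q := Nat.mul_le_mul_right _ h4
  have c1 : (m : ℝ) * G.card ≤ (N + 1) + m * G1.card + m * B := by
    have : m * G.card ≤ (N + 1) + m * G1.card + m * B :=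
      l1.trans (Nat.add_le_add_left (Nat.mul_le_mul_left _ hB1) _)
    exact_mod_cast this
  have c2 : (m : ℝ) * G1.card ≤ (N + 1) + m * G2.card + m * B := by
    have : m * G1.card ≤ (N + 1) + m * G2.card + m * B :=
      l2.trans (Nat.add_le_add_left (Nat.mul_le_mul_left _ hB2) _)
    exact_mod_cast this
  have c3 : η * N - 2 * (N + 1) / m - 2 * B ≤ G2.card := by
    have h5 : (m : ℝ) * (η * N - 2 * (N + 1) / m - 2 * B) ≤ m * G2.card := by
      have h6 : (m : ℝ) * (η * N) ≤ m * G.card := mul_le_mul_of_nonneg_left hcon.le hm0.le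
      have e : (m : ℝ) * (η * N - 2 * (N + 1) / m - 2 * B) =
          m * (η * N) - 2 * (N + 1) - 2 * (m * B) := by field_simp
      rw [e]
      linarith
    exact le_of_mul_le_mul_left h5 hm0
  have c4 : 2 * ((N : ℝ) + 1) / m ≤ η / 4 * (N + 1) := by
    rw [div_le_iff₀ hm0]
    have : η / 4 * ((N : ℝ) + 1) * m = (m * η) / 4 * (N + 1) := by ring
    rw [this]
    have h5 : (2 : ℝ) ≤ (m * η) / 4 := by linarith
    exact mul_le_mul_of_nonneg_right h5 (by linarith)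
  -- the bad sets
  obtain ⟨E1, hE1⟩ : ∃ E1 : Finset ℕ, E1 = (Icc 1 N).filter
      (fun n => ε < |z (n + 2 * Q) - 2 * z (n + Q) + z n|) := ⟨_, rfl⟩
  rw [← hE1] at hz
  obtain ⟨E2, hE2⟩ : ∃ E2 : ℕ → Finset ℕ, E2 = fun s => (Icc 1 N).filter
      (fun n => 1 / (8 * (m * ρ * Q)) * s ≤ |y (n + s) - y n - s|) := ⟨_, rfl⟩
  obtain ⟨E3, hE3⟩ : ∃ E3 : ℕ → Finset ℕ, E3 = fun r => (Icc 1 N).filter
      (fun n => |y (n + r) - y n - r| ≤ 2 * K + 1) := ⟨_, rfl⟩
  obtain ⟨D, hD⟩ : ∃ D : Finset ℕ, D = Icc 1 (N - B) := ⟨_, rfl⟩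
  -- configurations
  have key : G2 ⊆ ((({0} ∪ Finset.Ioc (N - B) N) ∪
      (range I).biUnion (fun i => D.filter (fun n => n + i * Q ∈ E1))) ∪
      ((range m ×ˢ range m) ×ˢ (range m ×ˢ range m)).biUnion (fun x =>
        D.filter (fun n => n + (x.1.1 * S + x.1.2 * ρ) * Q ∈
          E2 (((x.2.1 * S + x.2.2 * ρ) - (x.1.1 * S + x.1.2 * ρ)) * Q)) |>.filter
            (fun _ => x.1.1 < x.2.1))) ∪
      (range m ×ˢ (range m ×ˢ range m)).biUnion (fun x =>
        D.filter (fun n => n + (x.1 * S + x.2.1 * ρ) * Q ∈ E3 (((x.2.2 - x.2.1) * ρ) * Q)) |>.filter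
          (fun _ => x.2.1 < x.2.2)) := by
    intro n hn
    rw [hG2, Finset.mem_filter, Finset.mem_range] at hn
    obtain ⟨hn1, hn2⟩ := hn
    by_contra hcon2
    simp only [Finset.mem_union, Finset.mem_biUnion, Finset.mem_filter, not_or, not_exists,
      Finset.mem_singleton, Finset.mem_Ioc, not_and, Finset.mem_product, Finset.mem_range] at hcon2
    obtain ⟨⟨⟨hz1, hz2⟩, hz3⟩, hz4⟩ := hcon2
    have hnB : n ≤ N - B := by
      by_contra h
      push Not at h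
      exact hz1.2 h (by omega)
    have hnD : n ∈ D := by
      rw [hD, Finset.mem_Icc]
      exact ⟨by have := hz1.1; omega, hnB⟩
    have hn1' : 1 ≤ n := by have := hz1.1; omega
    obtain ⟨j, k, hjk, hk, hj1, hk1⟩ := two_of_card hn2
    rw [hG1, Finset.mem_filter] at hj1 hk1
    obtain ⟨a, b, hab, hb, ha1, hb1⟩ := two_of_card hj1.2
    obtain ⟨c, c', hcc, hc', hc1, hc1'⟩ := two_of_card hk1.2
    have hcm : c < m := by omega
    rw [hG, Finset.mem_filter] at ha1 hb1 hc1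
    have e1 : n + j * (S * Q) + a * (ρ * Q) = n + (j * S + a * ρ) * Q := by ring
    have e2 : n + j * (S * Q) + b * (ρ * Q) = n + (j * S + b * ρ) * Q := by ring
    have e3 : n + k * (S * Q) + c * (ρ * Q) = n + (k * S + c * ρ) * Q := by ring
    rw [e1] at ha1
    rw [e2] at hb1
    rw [e3] at hc1
    have haρ : a * ρ ≤ m * ρ := Nat.mul_le_mul_right _ (by omega)
    have hbρ : b * ρ ≤ m * ρ := Nat.mul_le_mul_right _ (by omega)
    have hcρ : c * ρ ≤ m * ρ := Nat.mul_le_mul_right _ (by omega)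
    have hjS : (j + 1) * S ≤ k * S := Nat.mul_le_mul_right _ (by omega)
    have hkS : k * S ≤ m * S := Nat.mul_le_mul_right _ (by omega)
    have hmS : 1 * S ≤ m * S := Nat.mul_le_mul_right _ (by omega)
    have hjS' : (j + 1) * S = j * S + S := by ring
    have habρ : a * ρ ≤ b * ρ := Nat.mul_le_mul_right _ (by omega)
    have hI2 : 2 * m * S = m * S + m * S := by ring
    have hle : j * S + a * ρ ≤ k * S + c * ρ := by omega
    -- the numbers `iu`, `iv`, `ix`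
    have hzI : ∀ i < I, |z (n + i * Q + 2 * Q) - 2 * z (n + i * Q + Q) + z (n + i * Q)| ≤ ε := by
      intro i hi
      have h5 := hz2 i hi hnD
      rw [hE1, Finset.mem_filter, not_and] at h5
      have h6 : n + i * Q ∈ Icc 1 N := by
        rw [Finset.mem_Icc]
        have h7 : i * Q ≤ I * Q := Nat.mul_le_mul_right _ hi.le
        rw [← hB] at h7
        omega
      exact not_lt.mp (h5 h6)
    -- the large distance
    have hdist : (((k * S + c * ρ : ℕ) : ℝ) - ((j * S + a * ρ : ℕ) : ℝ)) * Q =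
        ((((k * S + c * ρ) - (j * S + a * ρ)) * Q : ℕ) : ℝ) := by
      push_cast [Nat.cast_sub hle]
      ring
    have hsum : n + (j * S + a * ρ) * Q + ((k * S + c * ρ) - (j * S + a * ρ)) * Q =
        n + (k * S + c * ρ) * Q := by
      rw [add_assoc, ← add_mul, Nat.add_sub_cancel' hle]
    have huI : n + (j * S + a * ρ) * Q ∈ Icc 1 N := ha1.1
    have hy1 := hz3 ((j, a), (k, c)) ⟨⟨by show j < m; omega, by show a < m; omega⟩, hk, hcm⟩
    have hy2 : |y (n + (k * S + c * ρ) * Q) - y (n + (j * S + a * ρ) * Q) -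
      (((k * S + c * ρ : ℕ) : ℝ) - ((j * S + a * ρ : ℕ) : ℝ)) * Q| ≤
        1 / (8 * (m * ρ * Q)) * ((((k * S + c * ρ : ℕ) : ℝ) - ((j * S + a * ρ : ℕ) : ℝ)) * Q) := by
      by_contra h5
      push Not at h5
      refine hy1 ⟨hnD, ?_⟩ hjk
      rw [hE2]
      show _ ∈ (Icc 1 N).filter _
      rw [Finset.mem_filter]
      refine ⟨huI, ?_⟩
      rw [hsum, ← hdist]
      exact h5.le
    have hfin := config hK hε0.le hQ hρ1 hab hb hcm hjk hk hSρ (le_of_eq hI.symm) hS2 hε1 hzI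
      ha1.2 hb1.2 hc1.2 hy2
    have hle2 : j * S + a * ρ ≤ j * S + b * ρ := by omega
    have hba : (b - a) * ρ = (j * S + b * ρ) - (j * S + a * ρ) := by
      rw [Nat.sub_mul]
      omega
    have hdist2 : (((j * S + b * ρ : ℕ) : ℝ) - ((j * S + a * ρ : ℕ) : ℝ)) * Q =
        ((((b - a) * ρ) * Q : ℕ) : ℝ) := by
      rw [hba]
      push_cast [Nat.cast_sub hle2]
      ring
    have hsum2 : n + (j * S + a * ρ) * Q + ((b - a) * ρ) * Q = n + (j * S + b * ρ) * Q := by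
      rw [hba, add_assoc, ← add_mul, Nat.add_sub_cancel' hle2]
    refine hz4 (j, (a, b)) ⟨by show j < m; omega, by show a < m; omega, hb⟩ ⟨hnD, ?_⟩ hab
    rw [hE3]
    show _ ∈ (Icc 1 N).filter _
    rw [Finset.mem_filter]
    refine ⟨huI, ?_⟩
    show |y (n + (j * S + a * ρ) * Q + ((b - a) * ρ) * Q) - y (n + (j * S + a * ρ) * Q) -
      ((((b - a) * ρ) * Q : ℕ) : ℝ)| ≤ 2 * K + 1
    rw [hsum2, ← hdist2]
    exact hfin
  -- sizes of the bad sets
  have b0 : (({0} ∪ Finset.Ioc (N - B) N : Finset ℕ)).card ≤ 1 + B := by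
    refine (Finset.card_union_le _ _).trans ?_
    rw [Finset.card_singleton, Nat.card_Ioc]
    omega
  have b1 : ((range I).biUnion (fun i => D.filter (fun n => n + i * Q ∈ E1))).card ≤ I * E1.card := by
    refine Finset.card_biUnion_le.trans ?_
    refine (Finset.sum_le_sum fun i _ => shift_card D E1 (i * Q)).trans ?_
    rw [Finset.sum_const, Finset.card_range, smul_eq_mul]
  have b2 : ((((range m ×ˢ range m) ×ˢ (range m ×ˢ range m)).biUnion (fun x =>
        D.filter (fun n => n + (x.1.1 * S + x.1.2 * ρ) * Q ∈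
          E2 (((x.2.1 * S + x.2.2 * ρ) - (x.1.1 * S + x.1.2 * ρ)) * Q)) |>.filter
            (fun _ => x.1.1 < x.2.1))).card : ℝ) ≤ (m : ℝ) ^ 4 * (θ2 * N) := by
    have h5 : ∀ x ∈ (range m ×ˢ range m) ×ˢ (range m ×ˢ range m),
        (((D.filter (fun n => n + (x.1.1 * S + x.1.2 * ρ) * Q ∈
          E2 (((x.2.1 * S + x.2.2 * ρ) - (x.1.1 * S + x.1.2 * ρ)) * Q)) |>.filter
            (fun _ => x.1.1 < x.2.1))).card : ℝ) ≤ θ2 * N := by
      intro x hx
      simp only [Finset.mem_product, Finset.mem_range] at hx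
      obtain ⟨⟨x1, x2⟩, x3, x4⟩ := hx
      by_cases hlt : x.1.1 < x.2.1
      · have haρ : x.1.2 * ρ ≤ m * ρ := Nat.mul_le_mul_right _ (by omega)
        have hcρ : x.2.2 * ρ ≤ m * ρ := Nat.mul_le_mul_right _ (by omega)
        have hjS : (x.1.1 + 1) * S ≤ x.2.1 * S := Nat.mul_le_mul_right _ (by omega)
        have hkS : x.2.1 * S ≤ m * S := Nat.mul_le_mul_right _ (by omega)
        have hmS : 1 * S ≤ m * S := Nat.mul_le_mul_right _ (by omega)
        have hjS' : (x.1.1 + 1) * S = x.1.1 * S + S := by ring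
        have hI2 : 2 * m * S = m * S + m * S := by ring
        have h6 : S - m * ρ ≤ (x.2.1 * S + x.2.2 * ρ) - (x.1.1 * S + x.1.2 * ρ) := by omega
        have h7 : (x.2.1 * S + x.2.2 * ρ) - (x.1.1 * S + x.1.2 * ρ) ≤ I := by omega
        have h8 := h2 (((x.2.1 * S + x.2.2 * ρ) - (x.1.1 * S + x.1.2 * ρ)) * Q) (by
          rw [Finset.mem_Icc, hB]
          exact ⟨h6.trans (Nat.le_mul_of_pos_right _ (by omega)), Nat.mul_le_mul_right _ h7⟩)
        refine le_trans ?_ h8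
        have h9 := (Finset.card_filter_le (D.filter (fun n => n + (x.1.1 * S + x.1.2 * ρ) * Q ∈
          E2 (((x.2.1 * S + x.2.2 * ρ) - (x.1.1 * S + x.1.2 * ρ)) * Q)))
            (fun _ => x.1.1 < x.2.1)).trans (shift_card D
            (E2 (((x.2.1 * S + x.2.2 * ρ) - (x.1.1 * S + x.1.2 * ρ)) * Q))
            ((x.1.1 * S + x.1.2 * ρ) * Q))
        rw [hE2] at h9 ⊢
        exact_mod_cast h9
      · rw [Finset.filter_false_of_mem (fun _ _ => hlt), Finset.card_empty]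
        simp
        positivity
    calc _ ≤ ((∑ x ∈ (range m ×ˢ range m) ×ˢ (range m ×ˢ range m),
        ((D.filter (fun n => n + (x.1.1 * S + x.1.2 * ρ) * Q ∈
          E2 (((x.2.1 * S + x.2.2 * ρ) - (x.1.1 * S + x.1.2 * ρ)) * Q)) |>.filter
            (fun _ => x.1.1 < x.2.1))).card : ℕ) : ℝ) := by
          exact_mod_cast Finset.card_biUnion_le
      _ ≤ ∑ x ∈ (range m ×ˢ range m) ×ˢ (range m ×ˢ range m), θ2 * N := by
          push_cast
          exact Finset.sum_le_sum h5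
      _ = (m : ℝ) ^ 4 * (θ2 * N) := by
          rw [Finset.sum_const, Finset.card_product, Finset.card_product, Finset.card_range,
            nsmul_eq_mul]
          push_cast
          ring
  have b3 : (((range m ×ˢ (range m ×ˢ range m)).biUnion (fun x =>
        D.filter (fun n => n + (x.1 * S + x.2.1 * ρ) * Q ∈ E3 (((x.2.2 - x.2.1) * ρ) * Q)) |>.filter
          (fun _ => x.2.1 < x.2.2))).card : ℝ) ≤ (m : ℝ) ^ 3 * (θ * N) := by
    have h5 : ∀ x ∈ range m ×ˢ (range m ×ˢ range m),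
        ((D.filter (fun n => n + (x.1 * S + x.2.1 * ρ) * Q ∈ E3 (((x.2.2 - x.2.1) * ρ) * Q)) |>.filter
          (fun _ => x.2.1 < x.2.2)).card : ℝ) ≤ θ * N := by
      intro x hx
      simp only [Finset.mem_product, Finset.mem_range] at hx
      obtain ⟨x1, x2, x3⟩ := hx
      by_cases hlt : x.2.1 < x.2.2
      · have hkS : x.1 * S ≤ m * S := Nat.mul_le_mul_right _ (by omega)
        have h6 : ρ ≤ (x.2.2 - x.2.1) * ρ := Nat.le_mul_of_pos_left _ (by omega)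
        have h7 : (x.2.2 - x.2.1) * ρ ≤ m * ρ := Nat.mul_le_mul_right _ (by omega)
        have hmS : 1 * S ≤ m * S := Nat.mul_le_mul_right _ (by omega)
        have hI2 : 2 * m * S = m * S + m * S := by ring
        have h7' : (x.2.2 - x.2.1) * ρ ≤ I := by omega
        have h8 := h1 (((x.2.2 - x.2.1) * ρ) * Q) (by
          rw [Finset.mem_Icc, hB]
          refine ⟨?_, Nat.mul_le_mul_right _ h7'⟩
          have : (x.2.2 - x.2.1) * ρ ≤ ((x.2.2 - x.2.1) * ρ) * Q :=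
            Nat.le_mul_of_pos_right _ (by omega)
          omega)
        refine le_trans ?_ h8
        have h9 := (Finset.card_filter_le (D.filter (fun n => n + (x.1 * S + x.2.1 * ρ) * Q ∈
          E3 (((x.2.2 - x.2.1) * ρ) * Q))) (fun _ => x.2.1 < x.2.2)).trans (shift_card D
            (E3 (((x.2.2 - x.2.1) * ρ) * Q)) ((x.1 * S + x.2.1 * ρ) * Q))
        rw [hE3] at h9 ⊢
        exact_mod_cast h9
      · rw [Finset.filter_false_of_mem (fun _ _ => hlt), Finset.card_empty]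
        simp
        positivity
    calc _ ≤ ((∑ x ∈ range m ×ˢ (range m ×ˢ range m),
        (D.filter (fun n => n + (x.1 * S + x.2.1 * ρ) * Q ∈ E3 (((x.2.2 - x.2.1) * ρ) * Q)) |>.filter
          (fun _ => x.2.1 < x.2.2)).card : ℕ) : ℝ) := by
          exact_mod_cast Finset.card_biUnion_le
      _ ≤ ∑ x ∈ range m ×ˢ (range m ×ˢ range m), θ * N := by
          push_cast
          exact Finset.sum_le_sum h5
      _ = (m : ℝ) ^ 3 * (θ * N) := by
          rw [Finset.sum_const, Finset.card_product, Finset.card_product, Finset.card_range,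
            nsmul_eq_mul]
          push_cast
          ring
  have k2 : (G2.card : ℝ) ≤ (1 + B) + I * E1.card + (m : ℝ) ^ 4 * (θ2 * N) + (m : ℝ) ^ 3 * (θ * N) := by
    have k3 := union4 key
    have b0' : ((({0} ∪ Finset.Ioc (N - B) N : Finset ℕ)).card : ℝ) ≤ 1 + B := by exact_mod_cast b0
    have b1' : (((range I).biUnion (fun i => D.filter (fun n => n + i * Q ∈ E1))).card : ℝ) ≤
      I * E1.card := by exact_mod_cast b1
    linarith
  have k5 : (m : ℝ) ^ 4 * (θ2 * N) = η / 16 * N := by rw [hθ2]; field_simp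
  have k6 : (m : ℝ) ^ 3 * (θ * N) = η / 16 * N := by rw [hθ]; field_simp
  have k7 : (I : ℝ) * E1.card ≤ η / 16 * N := by
    calc (I : ℝ) * E1.card ≤ I * (ε * N) := mul_le_mul_of_nonneg_left hz hI0.le
      _ = ε * I * N := by ring
      _ ≤ η / 16 * N := mul_le_mul_of_nonneg_right hε2 hN0
  rw [k5, k6] at k2
  have hηN : η ≤ η * N := by
    have : (1 : ℝ) ≤ N := by exact_mod_cast hN1
    nlinarith
  linarith


/-- **locally linear approximations**: if the sums of `r` consecutive increments of `y` are not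
concentrated, then `y` cannot be approximated up to `O(1)`, even on a positive proportion of the
indices, by a sequence which is locally linear along the progressions modulo `Q` -/
theorem no_approx {y : ℕ → ℝ} (hA : Anti y) (hL : Lln y) (Q : ℕ) (hQ : 1 ≤ Q) (K η : ℝ)
    (hη : 0 < η) : ∃ ε : ℝ, 0 < ε ∧ ∀ᶠ N : ℕ in atTop, ∀ z : ℕ → ℝ,
    (((Icc 1 N).filter (fun n => ε < |z (n + 2 * Q) - 2 * z (n + Q) + z n|)).card : ℝ) ≤ ε * N →
    (((Icc 1 N).filter (fun n => |y n - z n| ≤ K)).card : ℝ) ≤ η * N := by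
  classical
  -- reduction to `0 ≤ K`
  wlog hK : 0 ≤ K generalizing K
  · obtain ⟨ε, hε, h⟩ := this 0 le_rfl
    refine ⟨ε, hε, ?_⟩
    filter_upwards [h] with N hN z hz
    refine le_trans ?_ (hN z hz)
    have : (Icc 1 N).filter (fun n => |y n - z n| ≤ K) ⊆
        (Icc 1 N).filter (fun n => |y n - z n| ≤ 0) := by
      intro n hn
      rw [Finset.mem_filter] at hn ⊢
      exact ⟨hn.1, hn.2.trans (le_of_not_ge hK)⟩
    exact_mod_cast Finset.card_le_card this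
  -- the number of shifts
  obtain ⟨m, hm⟩ : ∃ m : ℕ, 8 / η + 2 ≤ m := ⟨_, Nat.le_ceil _⟩
  have hm2 : (2 : ℝ) ≤ m := by
    have : 0 < 8 / η := by positivity
    linarith
  have hm2' : 2 ≤ m := by exact_mod_cast hm2
  have hmη : 8 ≤ m * η := by
    have : 8 / η ≤ m := by linarith
    rwa [div_le_iff₀ hη] at this
  have hm0 : (0 : ℝ) < m := by linarith
  -- the small shift
  obtain ⟨θ, hθ⟩ : ∃ θ : ℝ, θ = η / (16 * (m : ℝ) ^ 3) := ⟨_, rfl⟩
  have hθ0 : 0 < θ := by rw [hθ]; positivity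
  obtain ⟨r1, hr1⟩ := (hA (2 * K + 1) θ hθ0).exists_forall_of_atTop
  obtain ⟨ρ, hρ⟩ : ∃ ρ : ℕ, ρ = r1 + 1 := ⟨_, rfl⟩
  have hρ1 : 1 ≤ ρ := by omega
  -- the large shift
  obtain ⟨θ2, hθ2⟩ : ∃ θ2 : ℝ, θ2 = η / (16 * (m : ℝ) ^ 4) := ⟨_, rfl⟩
  have hθ20 : 0 < θ2 := by rw [hθ2]; positivity
  have hρ0 : (0 : ℝ) < ρ := by exact_mod_cast hρ1
  have hQ0 : (0 : ℝ) < Q := by exact_mod_cast hQ
  obtain ⟨s1, hs1⟩ := (hL (1 / (8 * (m * ρ * Q))) θ2 (by positivity) hθ20).exists_forall_of_atTop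
  obtain ⟨S0, hS0⟩ : ∃ S0 : ℕ, 16 * K * (m * ρ) ≤ S0 := ⟨_, Nat.le_ceil _⟩
  obtain ⟨S, hS⟩ : ∃ S : ℕ, S = m * ρ + s1 + S0 + 1 := ⟨_, rfl⟩
  have hSρ : m * ρ < S := by omega
  have hS2 : 16 * K * (m * ρ) ≤ (S : ℝ) - m * ρ := by
    rw [hS]
    push_cast
    have : (0 : ℝ) ≤ s1 := Nat.cast_nonneg _
    linarith
  obtain ⟨I, hI⟩ : ∃ I : ℕ, I = 2 * m * S := ⟨_, rfl⟩
  have hI1 : 1 ≤ I := by
    rw [hI]
    have h0 : 0 < S := by omega
    have h1 : 0 < m := by omega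
    have : 0 < 2 * m * S := by positivity
    omega
  have hI0 : (0 : ℝ) < I := by exact_mod_cast hI1
  obtain ⟨ε, hε⟩ : ∃ ε : ℝ, ε = min (1 / (32 * (I : ℝ) ^ 3)) (η / (16 * I)) := ⟨_, rfl⟩
  have hε0 : 0 < ε := by rw [hε]; exact lt_min (by positivity) (by positivity)
  have hε1 : 4 * ε * (I : ℝ) ^ 3 ≤ 1 / 8 := by
    have : ε ≤ 1 / (32 * (I : ℝ) ^ 3) := by rw [hε]; exact min_le_left _ _
    rw [le_div_iff₀ (by positivity)] at this
    linarith
  have hε2 : ε * I ≤ η / 16 := by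
    have : ε ≤ η / (16 * I) := by rw [hε]; exact min_le_right _ _
    rw [le_div_iff₀ (by positivity)] at this
    linarith
  refine ⟨ε, hε0, fixed hη hK hQ hm2' hmη hρ1 hSρ hS2 hI hε0 hε1 hε2 (fun r hr => ?_)
    (fun s hs => ?_)⟩
  · rw [← hθ]
    exact hr1 r (by omega)
  · rw [← hθ2]
    exact hs1 s (by omega)

end Pool.Agent.X112.GS
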