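import Pool.Agent.X112.GS.Core

/-! # The increments are not periodic, and not a monotone function of an earlier increment -/

set_option autoImplicit false

open Filter Finset

namespace Pool.Agent.X112.GS

/-- the increments -/
def inc (y : ℕ → ℝ) (n : ℕ) : ℝ := y (n + 1) - y n

/-- no period -/
def NoPer (x : ℕ → ℝ) : Prop := ∀ Q : ℕ, 1 ≤ Q → ∃ ε : ℝ, 0 < ε ∧ ∀ᶠ N : ℕ in atTop,
  ε * N ≤ (((Icc 1 N).filter (fun n => ε ≤ |x (n + Q) - x n|)).card : ℝ)

lemma sum_inc (y : ℕ → ℝ) (n Q : ℕ) : ∑ i ∈ range Q, inc y (n + i) = y (n + Q) - y n := by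
  induction Q with
  | zero => simp
  | succ Q ih =>
    rw [Finset.sum_range_succ, ih]
    unfold inc
    rw [show n + (Q + 1) = n + Q + 1 by ring]
    ring

/-- counting along a shifted window -/
lemma card_shift (P : ℕ → Prop) [DecidablePred P] (N i : ℕ) :
    ((Icc 1 N).filter (fun n => P (n + i))).card ≤ ((Icc 1 N).filter P).card + i := by
  have h : ((Icc 1 N).filter (fun n => P (n + i))).image (fun n => n + i) ⊆
      (Icc 1 N).filter P ∪ Finset.Ioc N (N + i) := by
    intro a ha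
    rw [Finset.mem_image] at ha
    obtain ⟨n, hn, rfl⟩ := ha
    rw [Finset.mem_filter, Finset.mem_Icc] at hn
    rw [Finset.mem_union, Finset.mem_filter, Finset.mem_Icc, Finset.mem_Ioc]
    by_cases h : n + i ≤ N
    · exact Or.inl ⟨⟨by omega, h⟩, hn.2⟩
    · exact Or.inr ⟨by omega, by omega⟩
  have h1 := Finset.card_le_card h
  rw [Finset.card_image_of_injective _ (fun a b hab => by simpa using hab)] at h1
  have h2 := Finset.card_union_le ((Icc 1 N).filter P) (Finset.Ioc N (N + i))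
  rw [Nat.card_Ioc] at h2
  omega

theorem noPer_of {y : ℕ → ℝ} (hA : Anti y) (hL : Lln y) : NoPer (inc y) := by
  classical
  intro Q hQ
  obtain ⟨ε, hε, h⟩ := no_approx hA hL Q hQ 0 (1 / 2) (by norm_num)
  have hQ0 : (0 : ℝ) < Q := by exact_mod_cast hQ
  have hQ1 : (1 : ℝ) ≤ Q := by exact_mod_cast hQ
  refine ⟨ε / (2 * Q), by positivity, ?_⟩
  have hbig : ∀ᶠ N : ℕ in atTop, (Q : ℝ) * Q ≤ ε / 2 * N :=
    (tendsto_natCast_atTop_atTop.const_mul_atTop (show (0 : ℝ) < ε / 2 by positivity)).eventually_ge_atTop _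
  filter_upwards [h, hbig, eventually_ge_atTop 1] with N hN hb hN1
  have hN0 : (0 : ℝ) < N := by exact_mod_cast hN1
  -- many large second differences
  have h1 : ε * N < (((Icc 1 N).filter
      (fun n => ε < |y (n + 2 * Q) - 2 * y (n + Q) + y n|)).card : ℝ) := by
    by_contra hcon
    push Not at hcon
    have h2 := hN y hcon
    have h3 : (Icc 1 N).filter (fun n => |y n - y n| ≤ 0) = Icc 1 N := by
      apply Finset.filter_true_of_mem
      intro n _
      simp
    rw [h3, Nat.card_Icc, Nat.add_sub_cancel] at h2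
    linarith
  obtain ⟨P, hP⟩ : ∃ P : ℕ → Prop, P = fun n => ε / (2 * Q) ≤ |inc y (n + Q) - inc y n| := ⟨_, rfl⟩
  have h2 : (Icc 1 N).filter (fun n => ε < |y (n + 2 * Q) - 2 * y (n + Q) + y n|) ⊆
      (range Q).biUnion (fun i => (Icc 1 N).filter (fun n => P (n + i))) := by
    intro n hn
    rw [Finset.mem_filter] at hn
    rw [Finset.mem_biUnion]
    by_contra hcon
    push Not at hcon
    have h3 : ∀ i ∈ range Q, |inc y (n + Q + i) - inc y (n + i)| ≤ ε / (2 * Q) := by
      intro i hi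
      have h4 := hcon i hi
      rw [Finset.mem_filter, not_and] at h4
      have h5 := h4 hn.1
      rw [hP] at h5
      dsimp only at h5
      rw [show n + i + Q = n + Q + i by ring] at h5
      exact (not_le.mp h5).le
    have e : y (n + 2 * Q) - 2 * y (n + Q) + y n =
        ∑ i ∈ range Q, (inc y (n + Q + i) - inc y (n + i)) := by
      rw [Finset.sum_sub_distrib, sum_inc, sum_inc, show n + Q + Q = n + 2 * Q by ring]
      ring
    have h6 : |y (n + 2 * Q) - 2 * y (n + Q) + y n| ≤ ε / 2 := by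
      rw [e]
      refine (Finset.abs_sum_le_sum_abs _ _).trans ((Finset.sum_le_sum h3).trans ?_)
      rw [Finset.sum_const, Finset.card_range, nsmul_eq_mul]
      apply le_of_eq
      field_simp
    linarith [hn.2]
  have h3 : (((Icc 1 N).filter
      (fun n => ε < |y (n + 2 * Q) - 2 * y (n + Q) + y n|)).card : ℝ) ≤
      Q * (((Icc 1 N).filter P).card + Q) := by
    have h4 : ((Icc 1 N).filter
      (fun n => ε < |y (n + 2 * Q) - 2 * y (n + Q) + y n|)).card ≤
      Q * (((Icc 1 N).filter P).card + Q) := by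
      refine (Finset.card_le_card h2).trans (Finset.card_biUnion_le.trans ?_)
      calc _ ≤ ∑ i ∈ range Q, (((Icc 1 N).filter P).card + Q) := by
            refine Finset.sum_le_sum fun i hi => (card_shift P N i).trans ?_
            have := Finset.mem_range.mp hi
            omega
        _ = _ := by rw [Finset.sum_const, Finset.card_range, smul_eq_mul]
    exact_mod_cast h4
  have h4 : ε / (2 * Q) * N ≤ (((Icc 1 N).filter P).card : ℝ) := by
    have h5 : ε * N ≤ Q * (((Icc 1 N).filter P).card : ℝ) + Q * Q := by linarith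
    have h6 : ε / 2 * N ≤ Q * (((Icc 1 N).filter P).card : ℝ) := by linarith
    rw [div_mul_eq_mul_div, div_le_iff₀ (by positivity)]
    linarith
  rw [hP] at h4
  exact h4

/-- the telescoping sum -/
lemma tele (h : ℕ → ℤ) (h0 : ∀ n, 0 ≤ h n) (h1 : ∀ n, h n ≤ 1) (N k : ℕ) :
    ∑ m ∈ Icc 1 N, (h (m + k) - h m) ≤ k := by
  have e : ∑ m ∈ Icc 1 N, (h (m + k) - h m) =
      ∑ m ∈ Icc 1 k, (h (N + m) - h m) := by
    induction N with
    | zero => simp
    | succ N ih =>
      have h2 : ∀ k : ℕ, ∑ m ∈ Icc 1 k, (h (N + 1 + m) - h m) =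
          ∑ m ∈ Icc 1 k, (h (N + m) - h m) + (h (N + k + 1) - h (N + 1)) := by
        intro k
        induction k with
        | zero => simp
        | succ k ih2 =>
          rw [Finset.sum_Icc_succ_top (by omega), Finset.sum_Icc_succ_top (by omega), ih2]
          rw [show N + 1 + (k + 1) = N + (k + 1) + 1 by ring, show N + k + 1 = N + (k + 1) by ring]
          ring
      rw [Finset.sum_Icc_succ_top (by omega), ih, h2 k, show N + 1 + k = N + k + 1 by ring]
  rw [e]
  calc ∑ m ∈ Icc 1 k, (h (N + m) - h m) ≤ ∑ m ∈ Icc 1 k, 1 :=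
        Finset.sum_le_sum fun m _ => by linarith [h1 (N + m), h0 m]
    _ = k := by rw [Finset.sum_const, Nat.card_Icc]; simp

/-- up-crossings -/
lemma upcross (x : ℕ → ℝ) (f : ℝ → ℝ) (hf : Monotone f) (N k : ℕ) (a ε : ℝ) :
    ((Icc 1 N).filter (fun n => x n < a ∧ a + 2 * ε ≤ x (n + k))).card ≤
      ((Icc 1 N).filter (fun n => ε ≤ |x (n + k) - f (x n)|)).card + k := by
  classical
  obtain ⟨B, hB⟩ : ∃ B : Finset ℕ, B = (Icc 1 N).filter (fun n => ε ≤ |x (n + k) - f (x n)|) :=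
    ⟨_, rfl⟩
  obtain ⟨U, hU⟩ : ∃ U : Finset ℕ, U = (Icc 1 N).filter
      (fun n => x n < a ∧ a + 2 * ε ≤ x (n + k)) := ⟨_, rfl⟩
  rw [← hB, ← hU]
  by_cases hs : U ⊆ B
  · exact (Finset.card_le_card hs).trans (Nat.le_add_right _ _)
  obtain ⟨n0, hn0, hn0B⟩ := Finset.not_subset.mp hs
  rw [hU, Finset.mem_filter] at hn0
  rw [hB, Finset.mem_filter, not_and, not_le] at hn0B
  have hb0 := abs_lt.mp (hn0B hn0.1)
  have hhigh : ∀ t : ℝ, a ≤ t → a + ε < f t := by
    intro t ht
    have := hf (hn0.2.1.le.trans ht)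
    linarith [hb0.1, hb0.2, hn0.2.2]
  obtain ⟨h, hh⟩ : ∃ h : ℕ → ℤ, h = fun n => if a ≤ x n then 1 else 0 := ⟨_, rfl⟩
  have h0 : ∀ n, 0 ≤ h n := fun n => by rw [hh]; dsimp only; split_ifs <;> norm_num
  have h1 : ∀ n, h n ≤ 1 := fun n => by rw [hh]; dsimp only; split_ifs <;> norm_num
  have h2 : ∀ m ∈ Icc 1 N, (if m ∈ U then (1 : ℤ) else 0) - (if m ∈ B then 1 else 0) ≤
      h (m + k) - h m := by
    intro m hm
    by_cases hmU : m ∈ U
    · rw [if_pos hmU]
      have hmU' := hmU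
      rw [hU, Finset.mem_filter] at hmU'
      have e1 : h m = 0 := by
        rw [hh]; exact if_neg (not_le.mpr hmU'.2.1)
      have e2 : h (m + k) = 1 := by
        rw [hh]
        refine if_pos ?_
        by_cases hmB : m ∈ B
        · -- `ε` may be negative only if the bad set is everything
          by_contra hcon
          push Not at hcon
          have : ε < 0 := by linarith [hmU'.2.2]
          have h4 := (abs_nonneg _).trans_lt (hn0B hn0.1)
          linarith
        · have h4 := (abs_nonneg _).trans_lt (hn0B hn0.1)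
          linarith [hmU'.2.2]
      rw [e1, e2]
      split_ifs <;> norm_num
    · rw [if_neg hmU]
      by_cases hmB : m ∈ B
      · rw [if_pos hmB]
        linarith [h0 (m + k), h1 m]
      · rw [if_neg hmB]
        have hmB' := hmB
        rw [hB, Finset.mem_filter, not_and, not_le] at hmB'
        have h5 := abs_lt.mp (hmB' hm)
        by_cases hx : a ≤ x m
        · have h6 := hhigh (x m) hx
          have e2 : h (m + k) = 1 := by
            rw [hh]
            refine if_pos ?_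
            linarith [h5.1]
          linarith [h1 m]
        · have e1 : h m = 0 := by rw [hh]; exact if_neg hx
          linarith [h0 (m + k)]
  have h3 := (Finset.sum_le_sum h2).trans (tele h h0 h1 N k)
  rw [Finset.sum_sub_distrib, Finset.sum_ite_mem, Finset.sum_ite_mem] at h3
  have e1 : Icc 1 N ∩ U = U := by
    rw [hU]; exact Finset.inter_eq_right.mpr (Finset.filter_subset _ _)
  have e2 : Icc 1 N ∩ B = B := by
    rw [hB]; exact Finset.inter_eq_right.mpr (Finset.filter_subset _ _)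
  rw [e1, e2] at h3
  simp only [Finset.sum_const, nsmul_eq_mul, mul_one] at h3
  have : (U.card : ℤ) ≤ B.card + k := by linarith
  exact_mod_cast this

/-- down-crossings -/
lemma downcross (x : ℕ → ℝ) (f : ℝ → ℝ) (hf : Monotone f) (N k : ℕ) (a ε : ℝ) :
    ((Icc 1 N).filter (fun n => a + 2 * ε < x n ∧ x (n + k) ≤ a)).card ≤
      ((Icc 1 N).filter (fun n => ε ≤ |x (n + k) - f (x n)|)).card + k := by
  have h := upcross (fun n => -x n) (fun t => -f (-t)) (fun s t hst => by
    have := hf (neg_le_neg hst)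
    simp only
    linarith) N k (-(a + 2 * ε)) ε
  have e1 : (Icc 1 N).filter (fun n => -x n < -(a + 2 * ε) ∧ -(a + 2 * ε) + 2 * ε ≤ -x (n + k)) =
      (Icc 1 N).filter (fun n => a + 2 * ε < x n ∧ x (n + k) ≤ a) := by
    apply Finset.filter_congr
    intro n _
    constructor
    · rintro ⟨h1, h2⟩
      exact ⟨by linarith, by linarith⟩
    · rintro ⟨h1, h2⟩
      exact ⟨by linarith, by linarith⟩
  have e2 : (Icc 1 N).filter (fun n => ε ≤ |-x (n + k) - -f (- -x n)|) =
      (Icc 1 N).filter (fun n => ε ≤ |x (n + k) - f (x n)|) := by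
    apply Finset.filter_congr
    intro n _
    rw [neg_neg, ← abs_neg, show -(-x (n + k) - -f (x n)) = x (n + k) - f (x n) by ring]
  rw [e1, e2] at h
  exact h

/-- if `x (n + k)` is mostly near a monotone function of `x n`, then it is mostly near `x n` -/
lemma mono_step (x : ℕ → ℝ) (f : ℝ → ℝ) (hf : Monotone f) (N k J n1 : ℕ) (c ε : ℝ) (hc : 0 < c)
    (hεc : 8 * ε ≤ c) (hx0 : ∀ n, n1 ≤ n → 0 ≤ x n) :
    ((Icc 1 N).filter (fun n => c ≤ |x (n + k) - x n|)).card ≤
      (J + 1) * (2 * (((Icc 1 N).filter (fun n => ε ≤ |x (n + k) - f (x n)|)).card + k)) +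
      ((Icc 1 N).filter (fun n => c / 4 * J < x n)).card +
      ((Icc 1 N).filter (fun n => c / 4 * J < x (n + k))).card + n1 := by
  classical
  obtain ⟨b, hb⟩ : ∃ b : ℕ, b = ((Icc 1 N).filter (fun n => ε ≤ |x (n + k) - f (x n)|)).card + k :=
    ⟨_, rfl⟩
  rw [← hb]
  have key : (Icc 1 N).filter (fun n => c ≤ |x (n + k) - x n|) ⊆
      (((range (J + 1)).biUnion (fun i =>
        (Icc 1 N).filter (fun n => x n < c / 4 * (i + 1) ∧ c / 4 * (i + 1) + 2 * ε ≤ x (n + k)) ∪
        (Icc 1 N).filter (fun n => c / 4 * (i + 1) + 2 * ε < x n ∧ x (n + k) ≤ c / 4 * (i + 1))) ∪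
      (Icc 1 N).filter (fun n => c / 4 * J < x n)) ∪
      (Icc 1 N).filter (fun n => c / 4 * J < x (n + k))) ∪ Icc 1 n1 := by
    intro n hn
    rw [Finset.mem_filter] at hn
    obtain ⟨hn1, hn2⟩ := hn
    have hn1' := (Finset.mem_Icc.mp hn1).1
    by_contra hcon
    simp only [Finset.mem_union, Finset.mem_biUnion, Finset.mem_filter, not_or, not_exists,
      not_and, Finset.mem_range, Finset.mem_Icc] at hcon
    obtain ⟨⟨⟨h1, h2⟩, h3⟩, h0⟩ := hcon
    have h0' : n1 ≤ n := by
      have := h0 hn1'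
      omega
    simp only [Finset.mem_Icc] at hn1
    have h2' := not_lt.mp (h2 hn1)
    have h3' := not_lt.mp (h3 hn1)
    have hc4 : 0 < c / 4 := by positivity
    -- the grid point
    have grid : ∀ u : ℝ, 0 ≤ u → u ≤ c / 4 * J → ∃ i : ℕ, i < J + 1 ∧ u < c / 4 * (i + 1) ∧
        c / 4 * (i + 1) ≤ u + c / 4 := by
      intro u hu hJ
      refine ⟨⌊u / (c / 4)⌋₊, ?_, ?_, ?_⟩
      · have h4 : u / (c / 4) ≤ J := by rw [div_le_iff₀ hc4]; linarith
        have h5 := Nat.floor_le_of_le h4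
        omega
      · have h4 := Nat.lt_floor_add_one (u / (c / 4))
        rw [div_lt_iff₀ hc4] at h4
        linarith
      · have h4 := Nat.floor_le (show 0 ≤ u / (c / 4) by positivity)
        rw [le_div_iff₀ hc4] at h4
        linarith
    rcases le_total (x n) (x (n + k)) with h | h
    · rw [abs_of_nonneg (by linarith)] at hn2
      obtain ⟨i, hi, g1, g2⟩ := grid (x n) (hx0 n h0') h2'
      have h5 := (h1 i hi).1 hn1 g1
      apply h5
      linarith
    · rw [abs_of_nonpos (by linarith)] at hn2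
      obtain ⟨i, hi, g1, g2⟩ := grid (x (n + k)) (hx0 (n + k) (by omega)) h3'
      have h5 := (h1 i hi).2 hn1 (by linarith)
      exact h5 g1.le
  have h1 := (Finset.card_le_card key).trans (Finset.card_union_le _ _)
  rw [Nat.card_Icc, Nat.add_sub_cancel] at h1
  have h2 := Finset.card_union_le ((range (J + 1)).biUnion (fun i =>
        (Icc 1 N).filter (fun n => x n < c / 4 * (i + 1) ∧ c / 4 * (i + 1) + 2 * ε ≤ x (n + k)) ∪
        (Icc 1 N).filter (fun n => c / 4 * (i + 1) + 2 * ε < x n ∧ x (n + k) ≤ c / 4 * (i + 1))) ∪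
      (Icc 1 N).filter (fun n => c / 4 * J < x n)) ((Icc 1 N).filter (fun n => c / 4 * J < x (n + k)))
  have h3 := Finset.card_union_le ((range (J + 1)).biUnion (fun i =>
        (Icc 1 N).filter (fun n => x n < c / 4 * (i + 1) ∧ c / 4 * (i + 1) + 2 * ε ≤ x (n + k)) ∪
        (Icc 1 N).filter (fun n => c / 4 * (i + 1) + 2 * ε < x n ∧ x (n + k) ≤ c / 4 * (i + 1))))
      ((Icc 1 N).filter (fun n => c / 4 * J < x n))
  have h4 : ((range (J + 1)).biUnion (fun i =>
        (Icc 1 N).filter (fun n => x n < c / 4 * (i + 1) ∧ c / 4 * (i + 1) + 2 * ε ≤ x (n + k)) ∪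
        (Icc 1 N).filter (fun n => c / 4 * (i + 1) + 2 * ε < x n ∧ x (n + k) ≤ c / 4 * (i + 1)))).card
        ≤ (J + 1) * (2 * b) := by
    refine Finset.card_biUnion_le.trans ?_
    calc _ ≤ ∑ i ∈ range (J + 1), 2 * b := by
          refine Finset.sum_le_sum fun i _ => ?_
          refine (Finset.card_union_le _ _).trans ?_
          have u1 := upcross x f hf N k (c / 4 * (i + 1)) ε
          have u2 := downcross x f hf N k (c / 4 * (i + 1)) ε
          rw [← hb] at u1 u2
          omega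
      _ = _ := by rw [Finset.sum_const, Finset.card_range, smul_eq_mul]
  omega

/-- Markov's inequality -/
lemma markov {x : ℕ → ℝ} {C : ℝ} {N : ℕ}
    (hC : ∑ n ∈ Icc 1 N, |x n| ≤ C) {M : ℝ} (hM : 0 < M) :
    (((Icc 1 N).filter (fun n => M < x n)).card : ℝ) ≤ C / M := by
  rw [le_div_iff₀ hM]
  calc (((Icc 1 N).filter (fun n => M < x n)).card : ℝ) * M =
        ∑ n ∈ (Icc 1 N).filter (fun n => M < x n), M := by
          rw [Finset.sum_const, nsmul_eq_mul]
    _ ≤ ∑ n ∈ (Icc 1 N).filter (fun n => M < x n), |x n| :=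
        Finset.sum_le_sum fun n hn => (Finset.mem_filter.mp hn).2.le.trans (le_abs_self _)
    _ ≤ ∑ n ∈ Icc 1 N, |x n| := Finset.sum_le_sum_of_subset_of_nonneg (Finset.filter_subset _ _)
        fun n _ _ => abs_nonneg _
    _ ≤ C := hC

/-- **no monotone prediction** -/
theorem no_mono {x : ℕ → ℝ} (hP : NoPer x) {n1 : ℕ} (hx0 : ∀ n, n1 ≤ n → 0 ≤ x n) {C : ℝ}
    (hC0 : 0 < C) (hC : ∀ N : ℕ, ∑ n ∈ Icc 1 N, |x n| ≤ C * (N + 1)) (k : ℕ) (hk : 1 ≤ k) :
    ∃ ε : ℝ, 0 < ε ∧ ∀ᶠ N : ℕ in atTop, ∀ f : ℝ → ℝ, Monotone f →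
      ε * N ≤ (((Icc 1 N).filter (fun n => ε ≤ |x (n + k) - f (x n)|)).card : ℝ) := by
  classical
  obtain ⟨c, hc, h⟩ := hP k hk
  obtain ⟨J, hJ⟩ : ∃ J : ℕ, 64 * C / c ^ 2 + 1 ≤ J := ⟨_, Nat.le_ceil _⟩
  have hJ1 : (1 : ℝ) ≤ J := by
    have : 0 < 64 * C / c ^ 2 := by positivity
    linarith
  have hJ0 : (0 : ℝ) < J := by linarith
  have hM : 0 < c / 4 * J := by positivity
  have hCM : C / (c / 4 * J) ≤ c / 16 := by
    rw [div_le_iff₀ hM]
    have h1 : 64 * C / c ^ 2 ≤ J := by linarith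
    rw [div_le_iff₀ (by positivity)] at h1
    nlinarith
  obtain ⟨ε, hε⟩ : ∃ ε : ℝ, ε = min (c / 8) (c / (16 * (J + 1))) := ⟨_, rfl⟩
  have hε0 : 0 < ε := by rw [hε]; exact lt_min (by positivity) (by positivity)
  have hε1 : 8 * ε ≤ c := by
    have : ε ≤ c / 8 := by rw [hε]; exact min_le_left _ _
    linarith
  have hε2 : (J + 1) * (2 * ε) ≤ c / 8 := by
    have : ε ≤ c / (16 * (J + 1)) := by rw [hε]; exact min_le_right _ _
    rw [le_div_iff₀ (by positivity)] at this
    linarith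
  refine ⟨ε, hε0, ?_⟩
  have hbig : ∀ᶠ N : ℕ in atTop, ((J : ℝ) + 1) * (2 * k) + k + n1 + c + 1 ≤ c / 2 * N :=
    (tendsto_natCast_atTop_atTop.const_mul_atTop (show (0 : ℝ) < c / 2 by positivity)).eventually_ge_atTop _
  filter_upwards [h, hbig] with N hN hb f hf
  by_contra hcon
  push Not at hcon
  have h1 := mono_step x f hf N k J n1 c ε hc hε1 hx0
  have h2 : (((Icc 1 N).filter (fun n => c ≤ |x (n + k) - x n|)).card : ℝ) ≤
      (J + 1) * (2 * (((Icc 1 N).filter (fun n => ε ≤ |x (n + k) - f (x n)|)).card + k)) +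
      ((Icc 1 N).filter (fun n => c / 4 * J < x n)).card +
      ((Icc 1 N).filter (fun n => c / 4 * J < x (n + k))).card + n1 := by exact_mod_cast h1
  have h3 := markov (hC N) hM
  have h4 : (((Icc 1 N).filter (fun n => c / 4 * J < x (n + k))).card : ℝ) ≤
      C * (N + 1) / (c / 4 * J) + k := by
    have h5 := card_shift (fun n => c / 4 * J < x n) N k
    have h6 : (((Icc 1 N).filter (fun n => c / 4 * J < x (n + k))).card : ℝ) ≤
      ((Icc 1 N).filter (fun n => c / 4 * J < x n)).card + k := by exact_mod_cast h5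
    linarith
  have h5 : C * ((N : ℝ) + 1) / (c / 4 * J) ≤ c / 16 * (N + 1) := by
    rw [mul_comm C, mul_div_assoc, mul_comm (c / 16)]
    exact mul_le_mul_of_nonneg_left hCM (by positivity)
  have h6 : ((J : ℝ) + 1) * (2 * (((Icc 1 N).filter (fun n => ε ≤ |x (n + k) - f (x n)|)).card + k)) ≤
      (J + 1) * (2 * (ε * N + k)) := by
    apply mul_le_mul_of_nonneg_left _ (by positivity)
    linarith
  have h7 : ((J : ℝ) + 1) * (2 * (ε * N + k)) = (J + 1) * (2 * ε) * N + (J + 1) * (2 * k) := by ring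
  have hN0 : (0 : ℝ) ≤ N := Nat.cast_nonneg _
  have h8 : ((J : ℝ) + 1) * (2 * ε) * N ≤ c / 8 * N := mul_le_mul_of_nonneg_right hε2 hN0
  have hk0 : (0 : ℝ) ≤ k := Nat.cast_nonneg _
  -- total
  have h9 : c * N ≤ c / 8 * N + (J + 1) * (2 * k) + 2 * (c / 16 * (N + 1)) + k + n1 := by linarith
  have hcN : 0 ≤ c * N := by positivity
  linarith

/-- no prediction by a decreasing Lipschitz function -/
theorem no_anti {x : ℕ → ℝ} (hP : NoPer x) {n1 : ℕ} (hx0 : ∀ n, n1 ≤ n → 0 ≤ x n) {C : ℝ}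
    (hC0 : 0 < C) (hC : ∀ N : ℕ, ∑ n ∈ Icc 1 N, |x n| ≤ C * (N + 1)) (k : ℕ) (hk : 1 ≤ k) (Λ : ℝ)
    (hΛ : 0 ≤ Λ) :
    ∃ ε : ℝ, 0 < ε ∧ ∀ᶠ N : ℕ in atTop, ∀ f : ℝ → ℝ, Antitone f →
      (∀ s t : ℝ, |f s - f t| ≤ Λ * |s - t|) →
      ε * N ≤ (((Icc 1 N).filter (fun n => ε ≤ |x (n + k) - f (x n)|)).card : ℝ) := by
  classical
  obtain ⟨e, he, h⟩ := no_mono hP hx0 hC0 hC (2 * k) (by omega)
  refine ⟨min (e / 4) (e / (2 * (1 + Λ))), by positivity, ?_⟩
  obtain ⟨ε, hε⟩ : ∃ ε : ℝ, ε = min (e / 4) (e / (2 * (1 + Λ))) := ⟨_, rfl⟩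
  rw [← hε]
  have hε1 : ε ≤ e / 4 := by rw [hε]; exact min_le_left _ _
  have hε2 : (1 + Λ) * ε ≤ e / 2 := by
    have : ε ≤ e / (2 * (1 + Λ)) := by rw [hε]; exact min_le_right _ _
    rw [le_div_iff₀ (by positivity)] at this
    linarith
  have hbig : ∀ᶠ N : ℕ in atTop, (k : ℝ) + 1 ≤ e / 4 * N :=
    (tendsto_natCast_atTop_atTop.const_mul_atTop (show (0 : ℝ) < e / 4 by positivity)).eventually_ge_atTop _
  filter_upwards [h, hbig] with N hN hb f hf hL
  by_contra hcon
  push Not at hcon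
  have h1 := hN (fun t => f (f t)) (fun s t hst => hf (hf hst))
  have h2 : (Icc 1 N).filter (fun n => e ≤ |x (n + 2 * k) - f (f (x n))|) ⊆
      (Icc 1 N).filter (fun n => ε ≤ |x (n + k) - f (x n)|) ∪
      (Icc 1 N).filter (fun n => ε ≤ |x (n + k + k) - f (x (n + k))|) := by
    intro n hn
    rw [Finset.mem_filter] at hn
    rw [Finset.mem_union, Finset.mem_filter, Finset.mem_filter]
    by_contra hc
    rw [not_or, not_and, not_and, not_le, not_le] at hc
    have a1 := hc.1 hn.1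
    have a2 := hc.2 hn.1
    have a3 := hL (x (n + k)) (f (x n))
    have a4 : Λ * |x (n + k) - f (x n)| ≤ Λ * ε := mul_le_mul_of_nonneg_left a1.le hΛ
    have a5 := abs_add_le (x (n + k + k) - f (x (n + k))) (f (x (n + k)) - f (f (x n)))
    rw [show x (n + k + k) - f (x (n + k)) + (f (x (n + k)) - f (f (x n))) =
      x (n + 2 * k) - f (f (x n)) by rw [show n + k + k = n + 2 * k by ring]; ring] at a5
    linarith [hn.2]
  have h3 := (Finset.card_le_card h2).trans (Finset.card_union_le _ _)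
  have h4 := card_shift (fun n => ε ≤ |x (n + k) - f (x n)|) N k
  have h5 : (((Icc 1 N).filter (fun n => e ≤ |x (n + 2 * k) - f (f (x n))|)).card : ℝ) ≤
      2 * ((Icc 1 N).filter (fun n => ε ≤ |x (n + k) - f (x n)|)).card + k := by
    have : ((Icc 1 N).filter (fun n => e ≤ |x (n + 2 * k) - f (f (x n))|)).card ≤
      2 * ((Icc 1 N).filter (fun n => ε ≤ |x (n + k) - f (x n)|)).card + k := by omega
    exact_mod_cast this
  have hN0 : (0 : ℝ) ≤ N := Nat.cast_nonneg _
  have h6 : ε * N ≤ e / 4 * N := mul_le_mul_of_nonneg_right hε1 hN0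
  linarith

end Pool.Agent.X112.GS
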