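import Pool.Agent.X112.GS.Fin2
import Pool.Agent.X112.GS.Cor

/-! # From dyadic blocks to all indices, sharp forms -/

set_option autoImplicit false

open Filter Finset

namespace Pool.Agent.X112.GS

open SG (ord NZ)

lemma XN_le (ε : ℝ) (hε : 0 < ε) (hε1 : ε ≤ 1) : ∀ᶠ N : ℕ in atTop,
    ord N * Real.log (ord N) / (2 * Real.pi) ≤ (1 + ε) * N := by
  have hpi := Real.pi_pos
  obtain ⟨κ, hκ⟩ : ∃ κ : ℝ, κ = ε / 8 := ⟨_, rfl⟩
  have hκ0 : 0 < κ := by rw [hκ]; positivity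
  have hκ1 : κ ≤ 1 / 8 := by rw [hκ]; linarith
  obtain ⟨T1, hT1⟩ := W200.HW.NZ_lower κ hκ0
  have hord : Tendsto ord atTop atTop := Pool.Agent.Y743.LR.ord_tendsto
  have hlog := Real.tendsto_log_atTop.comp hord
  filter_upwards [hord.eventually_ge_atTop (max (2 * T1) 4),
    hlog.eventually_ge_atTop (-Real.log (1 - κ) / κ), eventually_ge_atTop 1] with N h1 h2 h3
  obtain ⟨T, hT⟩ : ∃ T : ℝ, T = ord N := ⟨_, rfl⟩
  have h2 : -Real.log (1 - κ) / κ ≤ Real.log (ord N) := h2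
  rw [← hT] at h1 h2 ⊢
  rw [div_le_iff₀ hκ0] at h2
  have hTT1 : 2 * T1 ≤ T := (le_max_left _ _).trans h1
  have hT4 : 4 ≤ T := (le_max_right _ _).trans h1
  have hN2 : NZ ((1 - κ) * T) < N := by
    by_contra hcon
    push Not at hcon
    have := (SG.ord_le_iff h3 _).mpr hcon
    rw [← hT] at this
    nlinarith
  have h6 := hT1 ((1 - κ) * T) (by nlinarith)
  have h7 : (NZ ((1 - κ) * T) : ℝ) ≤ N := by exact_mod_cast hN2.le
  have hlogT : 0 ≤ Real.log T := Real.log_nonneg (by linarith)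
  have h8 : (1 - κ) * Real.log T ≤ Real.log ((1 - κ) * T) := by
    rw [Real.log_mul (by linarith) (by linarith)]
    linarith
  obtain ⟨X, hX⟩ : ∃ X : ℝ, X = T * Real.log T / (2 * Real.pi) := ⟨_, rfl⟩
  have hX0 : 0 ≤ X := by rw [hX]; positivity
  have h9 : (1 - κ) ^ 3 * X ≤ N := by
    have h10 : (1 - κ) * ((1 - κ) * T / (2 * Real.pi) * ((1 - κ) * Real.log T)) ≤
        (1 - κ) * ((1 - κ) * T / (2 * Real.pi) * Real.log ((1 - κ) * T)) := by
      apply mul_le_mul_of_nonneg_left _ (by linarith)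
      apply mul_le_mul_of_nonneg_left h8
      have : 0 ≤ (1 - κ) * T := mul_nonneg (by linarith) (by linarith)
      positivity
    have e : (1 - κ) ^ 3 * X = (1 - κ) * ((1 - κ) * T / (2 * Real.pi) * ((1 - κ) * Real.log T)) := by
      rw [hX]; ring
    rw [e]
    linarith
  rw [← hX]
  have h11 : 1 - 3 * κ ≤ (1 - κ) ^ 3 := by nlinarith [sq_nonneg κ]
  have h12 : (1 - 3 * κ) * X ≤ N := by nlinarith
  have h13 : (1 : ℝ) ≤ (1 + ε) * (1 - 3 * κ) := by
    rw [hκ]
    nlinarith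
  have hN0 : (0 : ℝ) ≤ N := Nat.cast_nonneg _
  have h14 : X ≤ (1 + ε) * ((1 - 3 * κ) * X) := by nlinarith
  have h15 : (1 + ε) * ((1 - 3 * κ) * X) ≤ (1 + ε) * N := mul_le_mul_of_nonneg_left h12 (by linarith)
  linarith

/-- from the dyadic blocks to all indices, sharp form -/
lemma dyadic_sharp (P : ℕ → Prop) [DecidablePred P] (θ T0 : ℝ) (hθ : 0 ≤ θ) (hT0 : 1 ≤ T0)
    (h : ∀ T : ℝ, T0 ≤ T → (((Finset.Ioc (NZ T) (NZ (2 * T))).filter P).card : ℝ) ≤
      θ * (T * Real.log T / (2 * Real.pi))) (ε : ℝ) (hε : 0 < ε) :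
    ∀ᶠ N : ℕ in atTop, (((Icc 1 N).filter P).card : ℝ) ≤ (θ + ε) * N := by
  have hpi := Real.pi_pos
  obtain ⟨X, hX⟩ : ∃ X : ℝ → ℝ, X = fun T => T * Real.log T / (2 * Real.pi) := ⟨_, rfl⟩
  have key : ∀ k : ℕ, ∀ T : ℝ, T0 ≤ T → T < T0 * 2 ^ (k + 1) →
      (((Icc 1 (NZ T)).filter P).card : ℝ) ≤ NZ (2 * T0) + θ * X T := by
    intro k
    induction k with
    | zero =>
      intro T hT hT2
      have hX0 : 0 ≤ X T := by
        rw [hX]
        have := Real.log_nonneg (hT0.trans hT)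
        have : 0 ≤ T := by linarith
        positivity
      have h1 : ((Icc 1 (NZ T)).filter P).card ≤ NZ (2 * T0) := by
        refine (Finset.card_filter_le _ _).trans ?_
        rw [Nat.card_Icc, Nat.add_sub_cancel]
        apply SG.NZ_mono
        rw [zero_add, pow_one] at hT2
        linarith
      have h2 : (((Icc 1 (NZ T)).filter P).card : ℝ) ≤ NZ (2 * T0) := by exact_mod_cast h1
      have : 0 ≤ θ * X T := by positivity
      linarith
    | succ k ih =>
      intro T hT hT2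
      by_cases hT3 : T < T0 * 2 ^ (k + 1)
      · exact ih T hT hT3
      push Not at hT3
      have hpow : (1 : ℝ) ≤ 2 ^ k := one_le_pow₀ (by norm_num)
      have hT4 : T0 ≤ T / 2 := by
        rw [pow_succ] at hT3
        nlinarith
      have h1 := ih (T / 2) hT4 (by
        rw [pow_succ] at hT2
        linarith)
      have h2 := h (T / 2) hT4
      rw [show 2 * (T / 2) = T by ring] at h2
      have h3 : (Icc 1 (NZ T)).filter P ⊆ (Icc 1 (NZ (T / 2))).filter P ∪
          (Finset.Ioc (NZ (T / 2)) (NZ T)).filter P := by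
        intro n hn
        rw [Finset.mem_filter, Finset.mem_Icc] at hn
        rw [Finset.mem_union, Finset.mem_filter, Finset.mem_filter, Finset.mem_Icc,
          Finset.mem_Ioc]
        by_cases hh : n ≤ NZ (T / 2)
        · exact Or.inl ⟨⟨hn.1.1, hh⟩, hn.2⟩
        · exact Or.inr ⟨⟨by omega, hn.1.2⟩, hn.2⟩
      have h4 := (Finset.card_le_card h3).trans (Finset.card_union_le _ _)
      have h5 : (((Icc 1 (NZ T)).filter P).card : ℝ) ≤ ((Icc 1 (NZ (T / 2))).filter P).card +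
          ((Finset.Ioc (NZ (T / 2)) (NZ T)).filter P).card := by exact_mod_cast h4
      have hT1 : 1 ≤ T / 2 := hT0.trans hT4
      have h6 : X (T / 2) ≤ X T / 2 := by
        rw [hX]
        dsimp only
        rw [div_div, mul_comm (2 * Real.pi) 2, ← div_div (T * Real.log T) 2]
        apply div_le_div_of_nonneg_right _ (by positivity)
        have h7 : Real.log (T / 2) ≤ Real.log T := Real.log_le_log (by linarith) (by linarith)
        have h8 : T / 2 * Real.log (T / 2) ≤ T / 2 * Real.log T :=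
          mul_le_mul_of_nonneg_left h7 (by linarith)
        linarith
      have h10 : θ * (T / 2 * Real.log (T / 2) / (2 * Real.pi)) = θ * X (T / 2) := by rw [hX]
      rw [h10] at h2
      have h11 : θ * X (T / 2) ≤ θ * (X T / 2) := mul_le_mul_of_nonneg_left h6 hθ
      linarith
  -- the sizes
  have hord : Tendsto ord atTop atTop := Pool.Agent.Y743.LR.ord_tendsto
  have hbig : ∀ᶠ N : ℕ in atTop, (NZ (2 * T0) : ℝ) ≤ ε / 2 * N :=
    (tendsto_natCast_atTop_atTop.const_mul_atTop (show (0 : ℝ) < ε / 2 by positivity)).eventually_ge_atTop _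
  have hκ0 : 0 < min 1 (ε / (2 * (θ + 1))) := lt_min one_pos (by positivity)
  filter_upwards [hord.eventually_ge_atTop T0, hbig, eventually_ge_atTop 1,
    XN_le (min 1 (ε / (2 * (θ + 1)))) hκ0 (min_le_left _ _)]
    with N h1 h2 h3 h8
  obtain ⟨T, hT⟩ : ∃ T : ℝ, T = ord N := ⟨_, rfl⟩
  rw [← hT] at h1 h8
  have hN1 : N ≤ NZ T := by
    rw [hT]
    exact (SG.ord_le_iff h3 _).mp le_rfl
  obtain ⟨k, hk⟩ : ∃ k : ℕ, T < T0 * 2 ^ (k + 1) := by
    obtain ⟨k, hk⟩ := pow_unbounded_of_one_lt (T / T0) (show (1 : ℝ) < 2 by norm_num)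
    refine ⟨k, ?_⟩
    rw [div_lt_iff₀ (by linarith)] at hk
    have : (2 : ℝ) ^ k ≤ 2 ^ (k + 1) := pow_le_pow_right₀ (by norm_num) (by omega)
    nlinarith
  have h4 := key k T h1 hk
  have h5 : ((Icc 1 N).filter P).card ≤ ((Icc 1 (NZ T)).filter P).card := by
    apply Finset.card_le_card
    intro n hn
    rw [Finset.mem_filter, Finset.mem_Icc] at hn ⊢
    exact ⟨⟨hn.1.1, hn.1.2.trans hN1⟩, hn.2⟩
  have h5' : (((Icc 1 N).filter P).card : ℝ) ≤ ((Icc 1 (NZ T)).filter P).card := by exact_mod_cast h5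
  have hN0 : (0 : ℝ) ≤ N := Nat.cast_nonneg _
  have h9 : X T ≤ (1 + min 1 (ε / (2 * (θ + 1)))) * N := by rw [hX]; exact h8
  have h10 : θ * X T ≤ θ * ((1 + min 1 (ε / (2 * (θ + 1)))) * N) := mul_le_mul_of_nonneg_left h9 hθ
  have h11 : θ * min 1 (ε / (2 * (θ + 1))) ≤ ε / 2 := by
    calc θ * min 1 (ε / (2 * (θ + 1))) ≤ (θ + 1) * (ε / (2 * (θ + 1))) :=
          mul_le_mul (by linarith) (min_le_right _ _) hκ0.le (by linarith)
      _ = ε / 2 := by field_simp
  have h12 : θ * min 1 (ε / (2 * (θ + 1))) * N ≤ ε / 2 * N := mul_le_mul_of_nonneg_right h11 hN0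
  linarith

/-- from blocks to all indices, sums of nonnegative quantities -/
lemma dyadic_sum (g : ℕ → ℝ) (hg : ∀ n, 0 ≤ g n) (θ T0 : ℝ) (hθ : 0 < θ) (hT0 : 10 ≤ T0)
    (h : ∀ T : ℝ, T0 ≤ T → ∀ I : Finset ℕ, (∀ n ∈ I, 1 ≤ n ∧ T + 1 ≤ ord n ∧ ord n + 1 ≤ 2 * T) →
      ∑ n ∈ I, g n ≤ θ * (T * Real.log T)) :
    ∀ᶠ N : ℕ in atTop, ∑ n ∈ Icc 1 N, g n ≤ 40 * θ * N := by
  have hpi := Real.pi_pos
  have hpi4 := Real.pi_le_four
  obtain ⟨B0, hB0⟩ : ∃ B0 : ℝ, B0 = ∑ n ∈ Icc 1 (NZ (3 * T0)), g n := ⟨_, rfl⟩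
  have key : ∀ k : ℕ, ∀ T : ℝ, T0 ≤ T → T < T0 * (3 / 2) ^ (k + 1) →
      ∑ n ∈ Icc 1 (NZ (2 * T - 1)), g n ≤ B0 + 3 * θ * (T * Real.log T) := by
    intro k
    induction k with
    | zero =>
      intro T hT hT2
      have hX0 : 0 ≤ T * Real.log T := mul_nonneg (by linarith) (Real.log_nonneg (by linarith))
      have h1 : ∑ n ∈ Icc 1 (NZ (2 * T - 1)), g n ≤ B0 := by
        rw [hB0]
        apply Finset.sum_le_sum_of_subset_of_nonneg
        · apply Finset.Icc_subset_Icc_right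
          apply SG.NZ_mono
          rw [zero_add, pow_one] at hT2
          linarith
        · exact fun _ _ _ => hg _
      have : 0 ≤ 3 * θ * (T * Real.log T) := by positivity
      linarith
    | succ k ih =>
      intro T hT hT2
      by_cases hT3 : T < T0 * (3 / 2) ^ (k + 1)
      · exact ih T hT hT3
      push Not at hT3
      have hpow : (1 : ℝ) ≤ (3 / 2) ^ k := one_le_pow₀ (by norm_num)
      have hT4 : T0 ≤ 2 / 3 * T := by
        rw [pow_succ] at hT3
        nlinarith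
      have h1 := ih (2 / 3 * T) hT4 (by
        rw [pow_succ] at hT2
        linarith)
      have hTp : 10 ≤ T := by linarith
      have h2 := h T hT (Finset.Ioc (NZ (2 * (2 / 3 * T) - 1)) (NZ (2 * T - 1))) (by
        intro n hn
        rw [Finset.mem_Ioc] at hn
        have hn1 : 1 ≤ n := by omega
        refine ⟨hn1, ?_, ?_⟩
        · have h3 : ¬ (ord n ≤ 2 * (2 / 3 * T) - 1) := by
            rw [SG.ord_le_iff hn1]
            omega
          push Not at h3
          linarith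
        · have h3 := (SG.ord_le_iff hn1 (2 * T - 1)).mpr hn.2
          linarith)
      have h3 : Icc 1 (NZ (2 * T - 1)) ⊆ Icc 1 (NZ (2 * (2 / 3 * T) - 1)) ∪
          Finset.Ioc (NZ (2 * (2 / 3 * T) - 1)) (NZ (2 * T - 1)) := by
        intro n hn
        rw [Finset.mem_Icc] at hn
        rw [Finset.mem_union, Finset.mem_Icc, Finset.mem_Ioc]
        omega
      have h4 : ∑ n ∈ Icc 1 (NZ (2 * T - 1)), g n ≤ ∑ n ∈ Icc 1 (NZ (2 * (2 / 3 * T) - 1)), g n +
          ∑ n ∈ Finset.Ioc (NZ (2 * (2 / 3 * T) - 1)) (NZ (2 * T - 1)), g n := by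
        refine (Finset.sum_le_sum_of_subset_of_nonneg h3 fun _ _ _ => hg _).trans ?_
        have := Finset.sum_union_inter (s₁ := Icc 1 (NZ (2 * (2 / 3 * T) - 1)))
          (s₂ := Finset.Ioc (NZ (2 * (2 / 3 * T) - 1)) (NZ (2 * T - 1))) (f := g)
        have h5 : 0 ≤ ∑ n ∈ Icc 1 (NZ (2 * (2 / 3 * T) - 1)) ∩
          Finset.Ioc (NZ (2 * (2 / 3 * T) - 1)) (NZ (2 * T - 1)), g n :=
          Finset.sum_nonneg fun _ _ => hg _
        linarith
      have hlog0 : 0 ≤ Real.log (2 / 3 * T) := Real.log_nonneg (by linarith)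
      have hlog1 : Real.log (2 / 3 * T) ≤ Real.log T := Real.log_le_log (by linarith) (by linarith)
      have h6 : 2 / 3 * T * Real.log (2 / 3 * T) ≤ 2 / 3 * (T * Real.log T) := by
        rw [← mul_assoc]
        exact mul_le_mul_of_nonneg_left hlog1 (by linarith)
      have h7 : 3 * θ * (2 / 3 * T * Real.log (2 / 3 * T)) ≤ 3 * θ * (2 / 3 * (T * Real.log T)) :=
        mul_le_mul_of_nonneg_left h6 (by positivity)
      linarith
  have hord : Tendsto ord atTop atTop := Pool.Agent.Y743.LR.ord_tendsto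
  have hbig : ∀ᶠ N : ℕ in atTop, B0 ≤ 2 * θ * N :=
    (tendsto_natCast_atTop_atTop.const_mul_atTop (show (0 : ℝ) < 2 * θ by positivity)).eventually_ge_atTop _
  filter_upwards [hord.eventually_ge_atTop (2 * T0), hbig, eventually_ge_atTop 1,
    XN_le (1 / 2) (by norm_num) (by norm_num)] with N h1 h2 h3 h8
  obtain ⟨T, hT⟩ : ∃ T : ℝ, T = (ord N + 1) / 2 := ⟨_, rfl⟩
  have hT2 : 2 * T - 1 = ord N := by rw [hT]; ring
  have hTT0 : T0 ≤ T := by linarith
  have hN1 : N ≤ NZ (2 * T - 1) := by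
    rw [hT2]
    exact (SG.ord_le_iff h3 _).mp le_rfl
  obtain ⟨k, hk⟩ : ∃ k : ℕ, T < T0 * (3 / 2) ^ (k + 1) := by
    obtain ⟨k, hk⟩ := pow_unbounded_of_one_lt (T / T0) (show (1 : ℝ) < 3 / 2 by norm_num)
    refine ⟨k, ?_⟩
    rw [div_lt_iff₀ (by linarith)] at hk
    have : (3 / 2 : ℝ) ^ k ≤ (3 / 2) ^ (k + 1) := pow_le_pow_right₀ (by norm_num) (by omega)
    nlinarith
  have h4 := key k T hTT0 hk
  have h5 : ∑ n ∈ Icc 1 N, g n ≤ ∑ n ∈ Icc 1 (NZ (2 * T - 1)), g n :=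
    Finset.sum_le_sum_of_subset_of_nonneg (Finset.Icc_subset_Icc_right hN1) fun _ _ _ => hg _
  have hN0 : (0 : ℝ) ≤ N := Nat.cast_nonneg _
  have h9 : T * Real.log T ≤ ord N * Real.log (ord N) := by
    have hTo : T ≤ ord N := by rw [hT]; linarith
    apply mul_le_mul hTo (Real.log_le_log (by linarith) hTo) (Real.log_nonneg (by linarith))
      (by linarith)
  rw [div_le_iff₀ (by positivity)] at h8
  have h10 : T * Real.log T ≤ 12 * N := by
    have : (1 + 1 / 2) * (N : ℝ) * (2 * Real.pi) ≤ 12 * N := by nlinarith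
    linarith
  have h11 : 3 * θ * (T * Real.log T) ≤ 3 * θ * (12 * N) := mul_le_mul_of_nonneg_left h10 (by positivity)
  have h12 : 0 ≤ θ * N := by positivity
  linarith

end Pool.Agent.X112.GS
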