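import Pool.Agent.X112.GS.NT

/-! # The spacings of the zeros of zeta: the theorems -/

set_option autoImplicit false

open Filter Finset

namespace Pool.Agent.X112.GS

open SG (ord NZ)

lemma yy_le : ∀ᶠ N : ℕ in atTop, yy N ≤ 8 * N := by
  have hpi := Real.pi_pos
  obtain ⟨T1, hT1⟩ := W200.HW.NZ_lower (1 / 2) (by norm_num)
  have hord : Tendsto ord atTop atTop := Pool.Agent.Y743.LR.ord_tendsto
  filter_upwards [hord.eventually_ge_atTop (max (2 * T1) 4), eventually_ge_atTop 1] with N h1 h3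
  obtain ⟨T, hT⟩ : ∃ T : ℝ, T = ord N := ⟨_, rfl⟩
  rw [← hT] at h1
  have hTT1 : 2 * T1 ≤ T := (le_max_left _ _).trans h1
  have hT4 : 4 ≤ T := (le_max_right _ _).trans h1
  have hN2 : NZ (T / 2) < N := by
    by_contra hcon
    push Not at hcon
    have := (SG.ord_le_iff h3 _).mpr hcon
    rw [← hT] at this
    linarith
  have h6 := hT1 (T / 2) (by linarith)
  have h7 : (NZ (T / 2) : ℝ) ≤ N := by exact_mod_cast hN2.le
  have hlog : Real.log T ≤ 2 * Real.log (T / 2) := by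
    have e : 2 * Real.log (T / 2) = Real.log ((T / 2) ^ 2) := by
      rw [Real.log_pow]; norm_num
    rw [e]
    apply Real.log_le_log (by linarith)
    nlinarith
  have h9 : yy N ≤ 8 * ((1 - 1 / 2) * (T / 2 / (2 * Real.pi) * Real.log (T / 2))) := by
    unfold yy
    rw [← hT]
    have e : 8 * ((1 - 1 / 2) * (T / 2 / (2 * Real.pi) * Real.log (T / 2))) =
        T * (2 * Real.log (T / 2)) / (2 * Real.pi) := by ring
    rw [e]
    apply div_le_div_of_nonneg_right _ (by positivity)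
    exact mul_le_mul_of_nonneg_left hlog (by linarith)
  linarith

lemma inc_nonneg : ∃ n1 : ℕ, ∀ n, n1 ≤ n → 0 ≤ inc yy n := by
  have hpi := Real.pi_pos
  have hord : Tendsto ord atTop atTop := Pool.Agent.Y743.LR.ord_tendsto
  obtain ⟨n1, h⟩ := (hord.eventually_ge_atTop 1).exists_forall_of_atTop
  refine ⟨max n1 1, fun n hn => ?_⟩
  have h1 := h n ((le_max_left _ _).trans hn)
  have hn1 : 1 ≤ n := (le_max_right _ _).trans hn
  have h2 : ord n ≤ ord (n + 1) := SG.ord_mono hn1 (by omega)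
  unfold inc yy
  rw [sub_nonneg]
  apply div_le_div_of_nonneg_right _ (by positivity)
  apply mul_le_mul h2 (Real.log_le_log (by linarith) h2) (Real.log_nonneg h1) (by linarith)

lemma sum_abs : ∃ C : ℝ, 0 < C ∧ ∀ N : ℕ, ∑ n ∈ Icc 1 N, |inc yy n| ≤ C * (N + 1) := by
  obtain ⟨n1, hn1⟩ := inc_nonneg
  obtain ⟨N0, hN0⟩ := yy_le.exists_forall_of_atTop
  obtain ⟨C1, hC1⟩ : ∃ C1 : ℝ, C1 = ∑ n ∈ Icc 1 (n1 + N0), |inc yy n| + |yy (n1 + N0 + 1)| := ⟨_, rfl⟩
  have hC10 : 0 ≤ C1 := by rw [hC1]; positivity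
  refine ⟨C1 + 9, by linarith, fun N => ?_⟩
  have hN0' : (0 : ℝ) ≤ N := Nat.cast_nonneg _
  rcases le_total N (n1 + N0) with h | h
  · have h1 : ∑ n ∈ Icc 1 N, |inc yy n| ≤ ∑ n ∈ Icc 1 (n1 + N0), |inc yy n| :=
      Finset.sum_le_sum_of_subset_of_nonneg (Finset.Icc_subset_Icc_right h) fun _ _ _ => abs_nonneg _
    have h2 : ∑ n ∈ Icc 1 N, |inc yy n| ≤ C1 := by
      rw [hC1]
      linarith [abs_nonneg (yy (n1 + N0 + 1))]
    nlinarith
  · have h1 : ∀ m : ℕ, ∑ n ∈ Icc 1 (n1 + N0 + m), |inc yy n| =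
        ∑ n ∈ Icc 1 (n1 + N0), |inc yy n| + (yy (n1 + N0 + m + 1) - yy (n1 + N0 + 1)) := by
      intro m
      induction m with
      | zero => simp
      | succ m ih =>
        rw [show n1 + N0 + (m + 1) = n1 + N0 + m + 1 by ring, Finset.sum_Icc_succ_top (by omega), ih]
        have := hn1 (n1 + N0 + m + 1) (by omega)
        rw [abs_of_nonneg this]
        unfold inc
        ring
    obtain ⟨m, rfl⟩ := Nat.exists_eq_add_of_le h
    rw [h1 m]
    have h2 := hN0 (n1 + N0 + m + 1) (by omega)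
    have h3 := neg_abs_le (yy (n1 + N0 + 1))
    have h4 : ∑ n ∈ Icc 1 (n1 + N0), |inc yy n| - yy (n1 + N0 + 1) ≤ C1 := by
      rw [hC1]
      linarith
    push_cast at h2 ⊢
    push_cast at hN0'
    nlinarith

/-- **no smooth approximation** -/
theorem smooth (Q : ℕ) (hQ : 1 ≤ Q) (K η : ℝ) (hη : 0 < η) : ∃ ε : ℝ, 0 < ε ∧
    ∀ᶠ N : ℕ in atTop, ∀ z : ℕ → ℝ,
    (((Icc 1 N).filter (fun n => ε < |z (n + 2 * Q) - 2 * z (n + Q) + z n|)).card : ℝ) ≤ ε * N →
    (((Icc 1 N).filter (fun n => |yy n - z n| ≤ K)).card : ℝ) ≤ η * N :=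
  no_approx anti_yy lln_yy Q hQ K η hη

/-- **the spacings are not a coboundary** -/
theorem coboundary (K η : ℝ) (hη : 0 < η) : ∃ ε : ℝ, 0 < ε ∧
    ∀ᶠ N : ℕ in atTop, ∀ (x : ℕ → ℝ) (b : ℝ),
    (((Icc 1 N).filter (fun n => ε ≤ |inc yy n - b - (x (n + 1) - x n)|)).card : ℝ) < ε * N →
    (((Icc 1 N).filter (fun n => |x n| ≤ K)).card : ℝ) ≤ η * N := by
  classical
  obtain ⟨ε, hε, h⟩ := smooth 1 le_rfl K η hη
  refine ⟨ε / 4, by positivity, ?_⟩
  have hbig : ∀ᶠ N : ℕ in atTop, (1 : ℝ) ≤ ε / 4 * N :=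
    (tendsto_natCast_atTop_atTop.const_mul_atTop (show (0 : ℝ) < ε / 4 by positivity)).eventually_ge_atTop _
  filter_upwards [h, hbig] with N hN hb x b hx
  have h1 := hN (fun n => yy n - x n) (by
    have h2 : (Icc 1 N).filter (fun n => ε < |(yy (n + 2 * 1) - x (n + 2 * 1)) -
        2 * (yy (n + 1) - x (n + 1)) + (yy n - x n)|) ⊆
        (Icc 1 N).filter (fun n => ε / 4 ≤ |inc yy n - b - (x (n + 1) - x n)|) ∪
        (Icc 1 N).filter (fun n => ε / 4 ≤ |inc yy (n + 1) - b - (x (n + 1 + 1) - x (n + 1))|) := by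
      intro n hn
      rw [Finset.mem_filter] at hn
      rw [Finset.mem_union, Finset.mem_filter, Finset.mem_filter]
      by_contra hcon
      rw [not_or, not_and, not_and, not_le, not_le] at hcon
      have a1 := abs_lt.mp (hcon.1 hn.1)
      have a2 := abs_lt.mp (hcon.2 hn.1)
      have a3 : |(yy (n + 2 * 1) - x (n + 2 * 1)) -
        2 * (yy (n + 1) - x (n + 1)) + (yy n - x n)| ≤ ε / 2 := by
        unfold inc at a1 a2
        rw [show n + 2 * 1 = n + 1 + 1 by ring, abs_le]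
        constructor <;> linarith [a1.1, a1.2, a2.1, a2.2]
      linarith [hn.2]
    have h3 := (Finset.card_le_card h2).trans (Finset.card_union_le _ _)
    have h4 := card_shift (fun n => ε / 4 ≤ |inc yy n - b - (x (n + 1) - x n)|) N 1
    have h5 : (((Icc 1 N).filter (fun n => ε < |(yy (n + 2 * 1) - x (n + 2 * 1)) -
        2 * (yy (n + 1) - x (n + 1)) + (yy n - x n)|)).card : ℝ) ≤
        2 * ((Icc 1 N).filter (fun n => ε / 4 ≤ |inc yy n - b - (x (n + 1) - x n)|)).card + 1 := by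
      have : ((Icc 1 N).filter (fun n => ε < |(yy (n + 2 * 1) - x (n + 2 * 1)) -
        2 * (yy (n + 1) - x (n + 1)) + (yy n - x n)|)).card ≤
        2 * ((Icc 1 N).filter (fun n => ε / 4 ≤ |inc yy n - b - (x (n + 1) - x n)|)).card + 1 := by
        omega
      exact_mod_cast this
    linarith)
  refine le_trans ?_ h1
  have : (Icc 1 N).filter (fun n => |x n| ≤ K) ⊆
      (Icc 1 N).filter (fun n => |yy n - (yy n - x n)| ≤ K) := by
    intro n hn
    rw [Finset.mem_filter] at hn ⊢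
    rw [show yy n - (yy n - x n) = x n by ring]
    exact hn
  exact_mod_cast Finset.card_le_card this

/-- **no monotone prediction** -/
theorem mono (k : ℕ) (hk : 1 ≤ k) : ∃ ε : ℝ, 0 < ε ∧ ∀ᶠ N : ℕ in atTop, ∀ f : ℝ → ℝ,
    Monotone f → ε * N ≤ (((Icc 1 N).filter (fun n => ε ≤ |inc yy (n + k) - f (inc yy n)|)).card : ℝ) := by
  obtain ⟨n1, hn1⟩ := inc_nonneg
  obtain ⟨C, hC0, hC⟩ := sum_abs
  exact no_mono (noPer_of anti_yy lln_yy) hn1 hC0 hC k hk

theorem anti (k : ℕ) (hk : 1 ≤ k) (Λ : ℝ) (hΛ : 0 ≤ Λ) : ∃ ε : ℝ, 0 < ε ∧ ∀ᶠ N : ℕ in atTop,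
    ∀ f : ℝ → ℝ, Antitone f → (∀ s t : ℝ, |f s - f t| ≤ Λ * |s - t|) →
    ε * N ≤ (((Icc 1 N).filter (fun n => ε ≤ |inc yy (n + k) - f (inc yy n)|)).card : ℝ) := by
  obtain ⟨n1, hn1⟩ := inc_nonneg
  obtain ⟨C, hC0, hC⟩ := sum_abs
  exact no_anti (noPer_of anti_yy lln_yy) hn1 hC0 hC k hk Λ hΛ

/-- **more than `L` patterns** -/
theorem pats (L : ℕ) (hL : 1 ≤ L) :
    ∃ ε : ℝ, 0 < ε ∧ ∀ᶠ N : ℕ in atTop, ∀ v : ℕ → ℕ → ℝ,
      ε * N ≤ (((Icc 1 N).filter (fun n => ∀ j < L, ∃ i < L, ε ≤ |inc yy (n + i) - v j i|)).card : ℝ) :=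
  patterns (noPer_of anti_yy lln_yy) L hL

end Pool.Agent.X112.GS
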