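import Pool.Agent.X112.GS.Diff

/-! # Locally linear approximations: the quantitative form -/

set_option autoImplicit false

open Filter Finset

namespace Pool.Agent.X112.GS

/-- the fluctuations of the sums of `r` consecutive terms are not smaller than `√(log r)` -/
def Anti2 (y : ℕ → ℝ) : Prop := ∀ θ : ℝ, 0 < θ → ∃ c : ℝ, 0 < c ∧ ∃ r0 : ℕ, ∀ r : ℕ, r0 ≤ r →
  ∀ᶠ N : ℕ in atTop,
  (((Icc 1 N).filter (fun n => |y (n + r) - y n - r| ≤ c * Real.sqrt (Real.log r))).card : ℝ) ≤ θ * N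

/-- the fluctuations of the sums of `s` consecutive terms are not larger than `√(log s)` -/
def Lln2 (y : ℕ → ℝ) : Prop := ∀ θ : ℝ, 0 < θ → ∃ A : ℝ, 0 < A ∧ ∃ s0 : ℕ, ∀ s : ℕ, s0 ≤ s →
  ∀ᶠ N : ℕ in atTop,
  (((Icc 1 N).filter (fun n => A * Real.sqrt (Real.log s) ≤ |y (n + s) - y n - s|)).card : ℝ) ≤ θ * N

/-- **the quantitative form** -/
theorem quant {y : ℕ → ℝ} (hA : Anti2 y) (hL : Lln2 y) (Q : ℕ) (hQ : 1 ≤ Q) (η : ℝ)
    (hη : 0 < η) : ∃ C : ℝ, 0 < C ∧ ∀ K : ℝ, 1 ≤ K → ∀ᶠ N : ℕ in atTop, ∀ z : ℕ → ℝ,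
    (((Icc 1 N).filter (fun n => Real.exp (-C * K ^ 2) <
      |z (n + 2 * Q) - 2 * z (n + Q) + z n|)).card : ℝ) ≤ Real.exp (-C * K ^ 2) * N →
    (((Icc 1 N).filter (fun n => |y n - z n| ≤ K)).card : ℝ) ≤ η * N := by
  classical
  obtain ⟨m, hm⟩ : ∃ m : ℕ, 8 / η + 2 ≤ m := ⟨_, Nat.le_ceil _⟩
  have hm2 : (2 : ℝ) ≤ m := by
    have : 0 < 8 / η := by positivity
    linarith
  have hm2' : 2 ≤ m := by exact_mod_cast hm2
  have hmη : 8 ≤ m * η := by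
    have : 8 / η ≤ m := by linarith
    rwa [div_le_iff₀ hη] at this
  have hm0 : (0 : ℝ) < m := by linarith
  obtain ⟨c, hc, r1, hr1⟩ := hA (η / (16 * (m : ℝ) ^ 3)) (by positivity)
  obtain ⟨A, hA0, s1, hs1⟩ := hL (η / (16 * (m : ℝ) ^ 4)) (by positivity)
  have hQ0 : (0 : ℝ) < Q := by exact_mod_cast hQ
  obtain ⟨D, hD⟩ : ∃ D : ℝ, D = 9 / c ^ 2 := ⟨_, rfl⟩
  have hD0 : 0 < D := by rw [hD]; positivity
  obtain ⟨M1, hM1⟩ : ∃ M1 : ℝ, M1 = m * ((r1 : ℝ) + 3) := ⟨_, rfl⟩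
  have hM10 : 0 < M1 := by rw [hM1]; positivity
  obtain ⟨S', hS'⟩ : ∃ S' : ℝ, S' = M1 + s1 + 16 * M1 + (8 * M1 * Q * A) ^ 2 + 3 := ⟨_, rfl⟩
  have hS'0 : 0 < S' := by rw [hS']; positivity
  obtain ⟨I', hI'⟩ : ∃ I' : ℝ, I' = 2 * m * S' := ⟨_, rfl⟩
  have hI'0 : 0 < I' := by rw [hI']; positivity
  obtain ⟨C0, hC0⟩ : ∃ C0 : ℝ, C0 = 32 * I' ^ 3 + 16 * I' / η := ⟨_, rfl⟩
  have hC00 : 0 < C0 := by rw [hC0]; positivity
  refine ⟨6 * (D + 1) + C0, by positivity, fun K hK => ?_⟩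
  have hK0 : 0 < K := by linarith
  obtain ⟨E, hE⟩ : ∃ E : ℝ, E = Real.exp (D * K ^ 2) := ⟨_, rfl⟩
  have hE1 : 1 ≤ E := by rw [hE]; exact Real.one_le_exp (by positivity)
  obtain ⟨H, hH⟩ : ∃ H : ℝ, H = Real.exp ((D + 1) * K ^ 2) := ⟨_, rfl⟩
  have hK2 : (1 : ℝ) ≤ K ^ 2 := one_le_pow₀ hK
  have hEH : E ≤ H := by
    rw [hE, hH]
    apply Real.exp_le_exp.mpr
    nlinarith
  have hKH : K ≤ H := by
    rw [hH]
    have h1 := Real.add_one_le_exp ((D + 1) * K ^ 2)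
    nlinarith
  have hH1 : 1 ≤ H := hE1.trans hEH
  have hH0 : 0 < H := by linarith
  obtain ⟨ρ, hρ⟩ : ∃ ρ : ℕ, ρ = r1 + 1 + ⌈E⌉₊ := ⟨_, rfl⟩
  have hρ1 : 1 ≤ ρ := by omega
  have hρ0 : (0 : ℝ) < ρ := by exact_mod_cast hρ1
  have hEρ : E ≤ ρ := by
    rw [hρ]
    push_cast
    have := Nat.le_ceil E
    have : (0 : ℝ) ≤ r1 := Nat.cast_nonneg _
    linarith
  have hρH : (ρ : ℝ) ≤ (r1 + 3) * H := by
    rw [hρ]
    push_cast
    have h1 := Nat.ceil_lt_add_one (show 0 ≤ E by linarith)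
    have h2 : (0 : ℝ) ≤ r1 := Nat.cast_nonneg _
    nlinarith
  have hmρ : (m : ℝ) * ρ ≤ M1 * H := by
    rw [hM1, mul_assoc]
    exact mul_le_mul_of_nonneg_left hρH hm0.le
  have hmρ0 : 0 < (m : ℝ) * ρ := by positivity
  obtain ⟨S, hS⟩ : ∃ S : ℕ, S = m * ρ + s1 + ⌈16 * K * (m * ρ)⌉₊ + ⌈(8 * (m * ρ) * Q * A) ^ 2⌉₊ + 1 :=
    ⟨_, rfl⟩
  have hSρ : m * ρ < S := by omega
  have c1 := Nat.le_ceil (16 * K * ((m : ℝ) * ρ))
  have c2 := Nat.le_ceil ((8 * ((m : ℝ) * ρ) * Q * A) ^ 2)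
  have c3 := Nat.ceil_lt_add_one (show 0 ≤ 16 * K * ((m : ℝ) * ρ) by positivity)
  have c4 := Nat.ceil_lt_add_one (show 0 ≤ (8 * ((m : ℝ) * ρ) * Q * A) ^ 2 by positivity)
  have hs10 : (0 : ℝ) ≤ s1 := Nat.cast_nonneg _
  have hS2 : 16 * K * (m * ρ) ≤ (S : ℝ) - m * ρ := by
    rw [hS]
    push_cast
    have : (0 : ℝ) ≤ (⌈(8 * ((m : ℝ) * ρ) * Q * A) ^ 2⌉₊ : ℝ) := Nat.cast_nonneg _
    linarith
  have hSH : (S : ℝ) ≤ S' * H ^ 2 := by
    have e1 : (S : ℝ) = m * ρ + s1 + (⌈16 * K * ((m : ℝ) * ρ)⌉₊ : ℝ) +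
        (⌈(8 * ((m : ℝ) * ρ) * Q * A) ^ 2⌉₊ : ℝ) + 1 := by
      rw [hS]; push_cast; ring
    have hH2 : (1 : ℝ) ≤ H ^ 2 := one_le_pow₀ hH1
    have hHH : H ≤ H ^ 2 := by nlinarith
    have t1 : (m : ℝ) * ρ ≤ M1 * H ^ 2 := hmρ.trans (mul_le_mul_of_nonneg_left hHH hM10.le)
    have t2 : (s1 : ℝ) ≤ s1 * H ^ 2 := by nlinarith
    have t3 : 16 * K * ((m : ℝ) * ρ) ≤ 16 * M1 * H ^ 2 := by
      calc 16 * K * ((m : ℝ) * ρ) ≤ 16 * H * (M1 * H) := by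
            apply mul_le_mul _ hmρ hmρ0.le (by positivity)
            linarith
        _ = _ := by ring
    have t4 : (8 * ((m : ℝ) * ρ) * Q * A) ^ 2 ≤ (8 * M1 * Q * A) ^ 2 * H ^ 2 := by
      rw [← mul_pow]
      apply pow_le_pow_left₀ (by positivity)
      calc 8 * ((m : ℝ) * ρ) * Q * A ≤ 8 * (M1 * H) * Q * A := by gcongr
        _ = _ := by ring
    rw [e1, hS']
    have : (M1 + s1 + 16 * M1 + (8 * M1 * Q * A) ^ 2 + 3) * H ^ 2 =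
        M1 * H ^ 2 + s1 * H ^ 2 + 16 * M1 * H ^ 2 + (8 * M1 * Q * A) ^ 2 * H ^ 2 + 3 * H ^ 2 := by ring
    rw [this]
    linarith
  obtain ⟨I, hI⟩ : ∃ I : ℕ, I = 2 * m * S := ⟨_, rfl⟩
  have hIH : (I : ℝ) ≤ I' * H ^ 2 := by
    rw [hI, hI']
    push_cast
    calc 2 * (m : ℝ) * S ≤ 2 * m * (S' * H ^ 2) := by gcongr
      _ = _ := by ring
  have hI0 : (0 : ℝ) ≤ I := Nat.cast_nonneg _
  obtain ⟨ε, hε⟩ : ∃ ε : ℝ, ε = Real.exp (-(6 * (D + 1) + C0) * K ^ 2) := ⟨_, rfl⟩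
  have hε0 : 0 < ε := by rw [hε]; exact Real.exp_pos _
  have hH6 : H ^ 6 * ε ≤ 1 / C0 := by
    have e1 : H ^ 6 * ε = Real.exp (-(C0 * K ^ 2)) := by
      rw [hH, hε, ← Real.exp_nat_mul, ← Real.exp_add]
      congr 1
      push_cast
      ring
    rw [e1, Real.exp_neg, ← one_div]
    apply one_div_le_one_div_of_le hC00
    have := Real.add_one_le_exp (C0 * K ^ 2)
    nlinarith
  have hε1 : 4 * ε * (I : ℝ) ^ 3 ≤ 1 / 8 := by
    have h1 : (I : ℝ) ^ 3 ≤ (I' * H ^ 2) ^ 3 := pow_le_pow_left₀ hI0 hIH 3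
    have h2 : (I' * H ^ 2) ^ 3 = I' ^ 3 * H ^ 6 := by ring
    rw [h2] at h1
    calc 4 * ε * (I : ℝ) ^ 3 ≤ 4 * ε * (I' ^ 3 * H ^ 6) := by gcongr
      _ = 4 * I' ^ 3 * (H ^ 6 * ε) := by ring
      _ ≤ 4 * I' ^ 3 * (1 / C0) := by gcongr
      _ ≤ 1 / 8 := by
        rw [mul_one_div, div_le_iff₀ hC00, hC0]
        have : 0 ≤ 16 * I' / η := by positivity
        linarith
  have hε2 : ε * I ≤ η / 16 := by
    have hH2 : H ^ 2 ≤ H ^ 6 := pow_le_pow_right₀ hH1 (by norm_num)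
    calc ε * I ≤ ε * (I' * H ^ 2) := by gcongr
      _ ≤ ε * (I' * H ^ 6) := by gcongr
      _ = I' * (H ^ 6 * ε) := by ring
      _ ≤ I' * (1 / C0) := by gcongr
      _ ≤ η / 16 := by
        rw [mul_one_div, div_le_iff₀ hC00, hC0]
        have e1 : η / 16 * (32 * I' ^ 3 + 16 * I' / η) = I' + 2 * η * I' ^ 3 := by field_simp; ring
        rw [e1]
        have : 0 ≤ 2 * η * I' ^ 3 := by positivity
        linarith
  rw [← hε]
  refine fixed hη hK0.le hQ hm2' hmη hρ1 hSρ hS2 hI hε0 hε1 hε2 (fun r hr => ?_) (fun s hs => ?_)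
  · filter_upwards [hr1 r (by omega)] with N hN
    refine le_trans ?_ hN
    have hlog : D * K ^ 2 ≤ Real.log r := by
      have h1 : E ≤ r := hEρ.trans (by exact_mod_cast hr)
      rw [Real.le_log_iff_exp_le (by linarith), ← hE]
      exact h1
    have h3K : 3 * K ≤ c * Real.sqrt (Real.log r) := by
      have h1 : Real.sqrt (D * K ^ 2) ≤ Real.sqrt (Real.log r) := Real.sqrt_le_sqrt hlog
      have h2 : Real.sqrt (D * K ^ 2) = 3 / c * K := by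
        rw [hD, show 9 / c ^ 2 * K ^ 2 = (3 / c * K) ^ 2 by ring, Real.sqrt_sq (by positivity)]
      rw [h2] at h1
      calc 3 * K = c * (3 / c * K) := by field_simp
        _ ≤ _ := mul_le_mul_of_nonneg_left h1 hc.le
    have : (Icc 1 N).filter (fun n => |y (n + r) - y n - r| ≤ 2 * K + 1) ⊆
        (Icc 1 N).filter (fun n => |y (n + r) - y n - r| ≤ c * Real.sqrt (Real.log r)) := by
      intro n hn
      rw [Finset.mem_filter] at hn ⊢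
      exact ⟨hn.1, by linarith [hn.2]⟩
    exact_mod_cast Finset.card_le_card this
  · have hs1' : s1 ≤ s := by omega
    filter_upwards [hs1 s hs1'] with N hN
    refine le_trans ?_ hN
    have hsq : (8 * ((m : ℝ) * ρ) * Q * A) ^ 2 ≤ s := by
      have h1 : ⌈(8 * ((m : ℝ) * ρ) * Q * A) ^ 2⌉₊ ≤ s := by omega
      exact c2.trans (by exact_mod_cast h1)
    have hs0 : (0 : ℝ) < s := lt_of_lt_of_le (by positivity) hsq
    have h2 : 8 * ((m : ℝ) * ρ) * Q * A ≤ Real.sqrt s := by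
      rw [Real.le_sqrt (by positivity) hs0.le]
      exact hsq
    have h3 : Real.sqrt (Real.log s) ≤ Real.sqrt s := by
      apply Real.sqrt_le_sqrt
      have := Real.log_le_sub_one_of_pos hs0
      linarith
    have h4 : A * Real.sqrt (Real.log s) ≤ 1 / (8 * (m * ρ * Q)) * s := by
      rw [one_div, ← div_eq_inv_mul, le_div_iff₀ (by positivity)]
      calc A * Real.sqrt (Real.log s) * (8 * (m * ρ * Q)) ≤
            A * Real.sqrt s * (8 * (m * ρ * Q)) := by gcongr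
        _ = (8 * ((m : ℝ) * ρ) * Q * A) * Real.sqrt s := by ring
        _ ≤ Real.sqrt s * Real.sqrt s := by gcongr
        _ = s := Real.mul_self_sqrt hs0.le
    have : (Icc 1 N).filter (fun n => 1 / (8 * (m * ρ * Q)) * s ≤ |y (n + s) - y n - s|) ⊆
        (Icc 1 N).filter (fun n => A * Real.sqrt (Real.log s) ≤ |y (n + s) - y n - s|) := by
      intro n hn
      rw [Finset.mem_filter] at hn ⊢
      exact ⟨hn.1, h4.trans hn.2⟩
    exact_mod_cast Finset.card_le_card this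

end Pool.Agent.X112.GS
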