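import Pool.Agent.X112.GS.NT
import Pool.Agent.X112.GS.Quant

/-! # The sums of `r` consecutive spacings of the zeros of zeta: quantitative form -/

set_option autoImplicit false

open Filter Finset

namespace Pool.Agent.X112.GS

open SG (ord NZ)
open Pool.Agent.Y743.CL (Ph lm Ev bU bL Ph_lip gs_bot gs_top gs_compl gs)

lemma lm_tend : Tendsto (fun r : ℕ => lm r) atTop atTop := by
  unfold lm
  apply Tendsto.atTop_div_const Real.pi_pos
  exact Real.tendsto_sqrt_atTop.comp (Real.tendsto_log_atTop.comp tendsto_natCast_atTop_atTop)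

/-- anti-concentration in a dyadic block -/
lemma block_anti2 (δ : ℝ) (hδ : 0 < δ) : ∀ᶠ r : ℕ in atTop, ∃ T0 : ℝ, 1 ≤ T0 ∧ ∀ T : ℝ, T0 ≤ T →
    (((Finset.Ioc (NZ T) (NZ (2 * T))).filter
      (fun n => |yy (n + r) - yy n - r| ≤ δ / 2 * lm r)).card : ℝ) ≤
      5 * δ * (T * Real.log T / (2 * Real.pi)) := by
  classical
  have hpi := Real.pi_pos
  obtain ⟨Tb, hTb1, hTb⟩ := block_low δ hδ
  filter_upwards [bU δ δ hδ, bL (-δ) δ hδ, lm_tend.eventually_gt_atTop 0] with r h1 h2 h3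
  refine ⟨max Tb (Real.exp (r * Real.log r)), hTb1.trans (le_max_left _ _), fun T hT => ?_⟩
  have hTb' : Tb ≤ T := (le_max_left _ _).trans hT
  have hT1 : 1 ≤ T := hTb1.trans hTb'
  have hlogT : 0 ≤ Real.log T := Real.log_nonneg hT1
  have hrT : r * Real.log r ≤ 2 * Real.log T := by
    have h4 : Real.exp (r * Real.log r) ≤ T := (le_max_right _ _).trans hT
    have h5 := (Real.le_log_iff_exp_le (by linarith)).mpr h4
    linarith
  have g1 := h1 T hT1 hrT
  have g2 := h2 T hT1 hrT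
  have g3 := hTb T hTb'
  obtain ⟨X, hX⟩ : ∃ X : ℝ, X = T * Real.log T / (2 * Real.pi) := ⟨_, rfl⟩
  have hX0 : 0 ≤ X := by rw [hX]; positivity
  rw [← hX] at g1 g2 g3 ⊢
  obtain ⟨A, hA⟩ : ∃ A : Finset ℕ, A = (Finset.Ioc (NZ T) (NZ (2 * T))).filter (fun n => Ev δ r n) :=
    ⟨_, rfl⟩
  obtain ⟨B, hB⟩ : ∃ B : Finset ℕ, B = (Finset.Ioc (NZ T) (NZ (2 * T))).filter
      (fun n => ¬ Ev (-δ) r n) := ⟨_, rfl⟩
  have hA' : (A.card : ℝ) ≤ X * (Ph δ + δ) := by rw [hA]; exact g1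
  have hB' : (B.card : ℝ) ≤ X * (1 - Ph (-δ) + δ) := by
    rw [hB]
    refine le_trans (le_of_eq ?_) g2
    congr!
  have hδl : 0 < δ * lm r := by positivity
  have hunion : Finset.Ioc (NZ T) (NZ (2 * T)) ⊆ A ∪ B := by
    intro n hn
    rw [Finset.mem_union, hA, hB, Finset.mem_filter, Finset.mem_filter]
    by_cases h : Ev (-δ) r n
    · left
      refine ⟨hn, ?_⟩
      unfold Ev at h ⊢
      linarith
    · exact Or.inr ⟨hn, h⟩
  have hinter : (Finset.Ioc (NZ T) (NZ (2 * T))).filter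
      (fun n => |yy (n + r) - yy n - r| ≤ δ / 2 * lm r) ⊆ A ∩ B := by
    intro n hn
    rw [Finset.mem_filter] at hn
    obtain ⟨hn1, hn2⟩ := hn
    have hn3 := abs_le.mp hn2
    unfold yy at hn3
    rw [Finset.mem_inter, hA, hB, Finset.mem_filter, Finset.mem_filter]
    refine ⟨⟨hn1, ?_⟩, hn1, ?_⟩
    · unfold Ev
      linarith [hn3.2]
    · unfold Ev
      rw [not_le]
      linarith [hn3.1]
  have c1 := Finset.card_union_add_card_inter A B
  have c2 := Finset.card_le_card hunion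
  have c3 := Finset.card_le_card hinter
  rw [Nat.card_Ioc] at c2
  have hmono : NZ T ≤ NZ (2 * T) := SG.NZ_mono (by linarith)
  have c4 : (((Finset.Ioc (NZ T) (NZ (2 * T))).filter
      (fun n => |yy (n + r) - yy n - r| ≤ δ / 2 * lm r)).card : ℝ) ≤
        A.card + B.card - (NZ (2 * T) - NZ T) := by
    have : ((Finset.Ioc (NZ T) (NZ (2 * T))).filter
      (fun n => |yy (n + r) - yy n - r| ≤ δ / 2 * lm r)).card + NZ (2 * T) ≤
        A.card + B.card + NZ T := by omega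
    have h5 : ((((Finset.Ioc (NZ T) (NZ (2 * T))).filter
      (fun n => |yy (n + r) - yy n - r| ≤ δ / 2 * lm r)).card + NZ (2 * T) : ℕ) : ℝ) ≤
        ((A.card + B.card + NZ T : ℕ) : ℝ) := by exact_mod_cast this
    push_cast at h5
    linarith
  have h6 := Ph_lip (show -δ ≤ δ by linarith)
  have h7 : X * (Ph δ + δ) + X * (1 - Ph (-δ) + δ) - (1 - δ) * X ≤ 5 * δ * X := by
    have : X * (Ph δ) ≤ X * (Ph (-δ) + (δ - -δ)) := mul_le_mul_of_nonneg_left h6 hX0
    linarith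
  linarith

/-- upper bound for the fluctuations in a dyadic block -/
lemma block_lln2 (δ : ℝ) (hδ : 0 < δ) : ∃ A : ℝ, 0 < A ∧ ∀ᶠ r : ℕ in atTop, ∃ T0 : ℝ, 1 ≤ T0 ∧
    ∀ T : ℝ, T0 ≤ T →
    (((Finset.Ioc (NZ T) (NZ (2 * T))).filter
      (fun n => A * Real.sqrt (Real.log r) ≤ |yy (n + r) - yy n - r|)).card : ℝ) ≤
      4 * δ * (T * Real.log T / (2 * Real.pi)) := by
  classical
  have hpi := Real.pi_pos
  obtain ⟨K1, hK1⟩ := gs_bot hδ
  obtain ⟨K2, hK2⟩ := gs_top hδ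
  obtain ⟨K, hK⟩ : ∃ K : ℝ, K = max (max K1 K2) 0 := ⟨_, rfl⟩
  have hK00 : 0 ≤ K := by rw [hK]; exact le_max_right _ _
  have hb : Ph (-K) ≤ δ := hK1 K (by rw [hK]; exact (le_max_left _ _).trans (le_max_left _ _))
  have ht : 1 - Ph K ≤ δ := by
    rw [← gs_compl]
    refine le_trans ?_ (hK2 K (by rw [hK]; exact (le_max_right _ _).trans (le_max_left _ _)))
    exact MeasureTheory.measureReal_mono Set.Ioi_subset_Ici_self (MeasureTheory.measure_ne_top _ _)
  refine ⟨(K + 1) / Real.pi, by positivity, ?_⟩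
  filter_upwards [bU (-K) δ hδ, bL K δ hδ, lm_tend.eventually_gt_atTop 0, eventually_ge_atTop 1]
    with r h1 h2 h3 hr
  have hr0 : (0 : ℝ) < r := by exact_mod_cast hr
  refine ⟨max 1 (Real.exp (r * Real.log r)), le_max_left _ _, fun T hT => ?_⟩
  have hT1 : 1 ≤ T := (le_max_left _ _).trans hT
  have hlogT : 0 ≤ Real.log T := Real.log_nonneg hT1
  have hrT : r * Real.log r ≤ 2 * Real.log T := by
    have h4 : Real.exp (r * Real.log r) ≤ T := (le_max_right _ _).trans hT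
    have h5 := (Real.le_log_iff_exp_le (by linarith)).mpr h4
    linarith
  have g1 := h1 T hT1 hrT
  have g2 := h2 T hT1 hrT
  obtain ⟨X, hX⟩ : ∃ X : ℝ, X = T * Real.log T / (2 * Real.pi) := ⟨_, rfl⟩
  have hX0 : 0 ≤ X := by rw [hX]; positivity
  rw [← hX] at g1 g2 ⊢
  have hAl : (K + 1) / Real.pi * Real.sqrt (Real.log r) = K * lm r + lm r := by
    unfold lm
    field_simp
  rw [hAl]
  have hsub : (Finset.Ioc (NZ T) (NZ (2 * T))).filter
      (fun n => K * lm r + lm r ≤ |yy (n + r) - yy n - r|) ⊆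
      (Finset.Ioc (NZ T) (NZ (2 * T))).filter (fun n => Ev (-K) r n) ∪
      (Finset.Ioc (NZ T) (NZ (2 * T))).filter (fun n => ¬ Ev K r n) := by
    intro n hn
    rw [Finset.mem_filter] at hn
    obtain ⟨hn1, hn2⟩ := hn
    unfold yy at hn2
    rw [Finset.mem_union, Finset.mem_filter, Finset.mem_filter]
    rcases le_abs.mp hn2 with h | h
    · right
      refine ⟨hn1, ?_⟩
      unfold Ev
      rw [not_le]
      linarith
    · left
      refine ⟨hn1, ?_⟩
      unfold Ev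
      linarith
  have c1 := (Finset.card_le_card hsub).trans (Finset.card_union_le _ _)
  have c2 : (((Finset.Ioc (NZ T) (NZ (2 * T))).filter
      (fun n => K * lm r + lm r ≤ |yy (n + r) - yy n - r|)).card : ℝ) ≤
      ((Finset.Ioc (NZ T) (NZ (2 * T))).filter (fun n => Ev (-K) r n)).card +
      ((Finset.Ioc (NZ T) (NZ (2 * T))).filter (fun n => ¬ Ev K r n)).card := by
    exact_mod_cast c1
  have c3 : (((Finset.Ioc (NZ T) (NZ (2 * T))).filter (fun n => ¬ Ev K r n)).card : ℝ) ≤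
      X * (1 - Ph K + δ) := by
    refine le_trans (le_of_eq ?_) g2
    congr!
  have c4 : X * (Ph (-K) + δ) ≤ X * (2 * δ) := mul_le_mul_of_nonneg_left (by linarith) hX0
  have c5 : X * (1 - Ph K + δ) ≤ X * (2 * δ) := mul_le_mul_of_nonneg_left (by linarith) hX0
  linarith

theorem anti2_yy : Anti2 yy := by
  intro θ hθ
  obtain ⟨δ, hδ⟩ : ∃ δ : ℝ, δ = θ / 85 := ⟨_, rfl⟩
  have hδ0 : 0 < δ := by rw [hδ]; positivity
  have hpi := Real.pi_pos
  obtain ⟨r0, hr0⟩ := (block_anti2 δ hδ0).exists_forall_of_atTop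
  refine ⟨δ / (2 * Real.pi), by positivity, r0, fun r hr => ?_⟩
  obtain ⟨T0, hT0, h⟩ := hr0 r hr
  have e : δ / (2 * Real.pi) * Real.sqrt (Real.log r) = δ / 2 * lm r := by
    unfold lm
    ring
  rw [e]
  have := dyadic (fun n => |yy (n + r) - yy n - r| ≤ δ / 2 * lm r) (5 * δ) T0 (by positivity) hT0 h
  filter_upwards [this] with N hN
  refine hN.trans (le_of_eq ?_)
  rw [hδ]
  ring

theorem lln2_yy : Lln2 yy := by
  intro θ hθ
  obtain ⟨A, hA, h1⟩ := block_lln2 (θ / 68) (by positivity)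
  obtain ⟨r0, hr0⟩ := h1.exists_forall_of_atTop
  refine ⟨A, hA, r0, fun r hr => ?_⟩
  obtain ⟨T0, hT0, h⟩ := hr0 r hr
  have := dyadic (fun n => A * Real.sqrt (Real.log r) ≤ |yy (n + r) - yy n - r|)
    (4 * (θ / 68)) T0 (by positivity) hT0 h
  filter_upwards [this] with N hN
  refine hN.trans (le_of_eq ?_)
  ring

end Pool.Agent.X112.GS
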