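import Pool.Agent.X112.GS.Quant

/-! # Piecewise linear approximation -/

set_option autoImplicit false

open Filter Finset

namespace Pool.Agent.X112.GS

/-- the position in the block of the grid `a + L ℤ` -/
def pj (L a n : ℕ) : ℕ := (n + (L - a)) % L

/-- the piecewise linear interpolation at the points of the grid `a + L ℤ` -/
noncomputable def zz (y : ℕ → ℝ) (L a n : ℕ) : ℝ :=
  y (n - pj L a n) + (pj L a n : ℝ) / L * (y (n - pj L a n + L) - y (n - pj L a n))

lemma pj_lt {L a n : ℕ} (hL : 0 < L) : pj L a n < L := Nat.mod_lt _ hL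

lemma pj_succ {L a n : ℕ} (h : pj L a n + 1 < L) : pj L a (n + 1) = pj L a n + 1 := by
  unfold pj at h ⊢
  rw [show n + 1 + (L - a) = n + (L - a) + 1 by ring, Nat.add_mod, Nat.mod_eq_of_lt (by omega : 1 < L)]
  exact Nat.mod_eq_of_lt h

lemma pj_wrap {L a n : ℕ} (hL : 1 < L) (h : pj L a n + 1 = L) : pj L a (n + 1) = 0 := by
  unfold pj at h ⊢
  rw [show n + 1 + (L - a) = n + (L - a) + 1 by ring, Nat.add_mod, Nat.mod_eq_of_lt (by omega : 1 < L),
    h, Nat.mod_self]

lemma pj_mod {L a n : ℕ} (hL : 0 < L) (ha : a < L) (hn : L ≤ n) : (n - pj L a n) % L = a := by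
  have h1 := pj_lt (a := a) (n := n) hL
  obtain ⟨p, hp⟩ : ∃ p, p = n - pj L a n := ⟨_, rfl⟩
  have h2 : p + pj L a n = n := by omega
  have h3 : (n + (L - a)) % L = pj L a n := rfl
  rw [← hp]
  rw [← h2] at h3
  have h4 : (p + (L - a) + pj L a n) % L = (0 + pj L a n) % L := by
    rw [zero_add, Nat.mod_eq_of_lt h1]
    rw [h2] at h3
    rw [show p + (L - a) + pj L a n = p + pj L a n + (L - a) by ring, h2]
    exact h3
  have h5 : (p + (L - a)) ≡ 0 [MOD L] := Nat.ModEq.add_right_cancel' _ h4
  have h6 : (p + (L - a) + a) ≡ 0 + a [MOD L] := h5.add_right a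
  rw [show p + (L - a) + a = p + L by omega, zero_add] at h6
  have h7 : (p + L) % L = a % L := h6
  rw [Nat.add_mod_right, Nat.mod_eq_of_lt ha] at h7
  exact h7

/-- the second differences of the interpolation -/
lemma zz_lin {y : ℕ → ℝ} {L a n : ℕ} (hL : 2 ≤ L) (hn : L ≤ n) (h : pj L a n + 1 < L) :
    zz y L a (n + 2) - 2 * zz y L a (n + 1) + zz y L a n = 0 := by
  have hL0 : (L : ℝ) ≠ 0 := by
    have : (0 : ℝ) < L := by exact_mod_cast (by omega : 0 < L)
    exact this.ne'
  have h1 := pj_succ h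
  have e1 : n + 1 - (pj L a n + 1) = n - pj L a n := by omega
  by_cases h2 : pj L a (n + 1) + 1 < L
  · have h3 := pj_succ h2
    have e2 : n + 1 + 1 - (pj L a n + 1 + 1) = n - pj L a n := by omega
    rw [h1] at h3
    unfold zz
    rw [show n + 2 = n + 1 + 1 by ring, h3, h1, e2, e1]
    push_cast
    ring
  · have h3 : pj L a (n + 1) + 1 = L := by
      have := pj_lt (L := L) (a := a) (n := n + 1) (by omega)
      omega
    have h4 := pj_wrap (by omega) h3
    have e2 : n + 1 + 1 = n - pj L a n + L := by omega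
    have e3 : (pj L a n : ℝ) + 2 = L := by
      have : pj L a n + 2 = L := by omega
      exact_mod_cast this
    unfold zz
    rw [show n + 2 = n + 1 + 1 by ring, h4, h1, e1, Nat.sub_zero, e2]
    push_cast
    have e4 : (pj L a n : ℝ) = L - 2 := by linarith
    rw [e4]
    field_simp
    ring

lemma class_card {L a : ℕ} (hL : 0 < L) (N : ℕ) :
    ((Icc 1 N).filter (fun n => pj L a n + 1 = L)).card ≤ N / L + 1 := by
  rw [← Finset.card_range (N / L + 1)]
  apply Finset.card_le_card_of_injOn (fun n => n / L)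
  · intro n hn
    rw [Finset.mem_coe, Finset.mem_filter, Finset.mem_Icc] at hn
    rw [Finset.mem_coe, Finset.mem_range]
    have := Nat.div_le_div_right (c := L) hn.1.2
    show n / L < N / L + 1
    omega
  · intro n hn n' hn' h
    rw [Finset.mem_coe, Finset.mem_filter, Finset.mem_Icc] at hn hn'
    have h1 : pj L a n = pj L a n' := by omega
    unfold pj at h1
    have h2 : n ≡ n' [MOD L] := Nat.ModEq.add_right_cancel' _ h1
    have h3 : n % L = n' % L := h2
    have h4 := Nat.div_add_mod n L
    have h5 := Nat.div_add_mod n' L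
    simp only at h
    rw [h, h3] at h4
    omega

/-- **piecewise linear approximation** -/
theorem sharp {y : ℕ → ℝ} (hL : Lln2 y) {n1 : ℕ} (hmono : ∀ n m, n1 ≤ n → n ≤ m → y n ≤ y m)
    (η : ℝ) (hη : 0 < η) : ∃ c : ℝ, 0 < c ∧ ∀ᶠ K : ℝ in atTop, ∀ᶠ N : ℕ in atTop, ∃ z : ℕ → ℝ,
    (((Icc 1 N).filter (fun n => z (n + 2) - 2 * z (n + 1) + z n ≠ 0)).card : ℝ) ≤
      Real.exp (-c * K ^ 2) * N ∧
    (1 - η) * N ≤ (((Icc 1 N).filter (fun n => |y n - z n| ≤ K)).card : ℝ) := by
  classical
  obtain ⟨A, hA, s0, hs0⟩ := hL (η / 16) (by positivity)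
  obtain ⟨c, hc⟩ : ∃ c : ℝ, c = 1 / (8 * A ^ 2) := ⟨_, rfl⟩
  have hc0 : 0 < c := by rw [hc]; positivity
  refine ⟨c, hc0, ?_⟩
  obtain ⟨s1, hs1⟩ : ∃ s1 : ℕ, s1 = max s0 2 := ⟨_, rfl⟩
  have hKe : ∀ᶠ K : ℝ in atTop, 16 ≤ Real.exp (c * K ^ 2) := by
    have h1 : Tendsto (fun K : ℝ => Real.exp (c * K ^ 2)) atTop atTop := by
      apply Real.tendsto_exp_atTop.comp
      exact (tendsto_pow_atTop (by norm_num)).const_mul_atTop hc0
    exact h1.eventually_ge_atTop 16
  filter_upwards [hKe, eventually_ge_atTop (2 * (s1 + A * Real.sqrt (Real.log s1))),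
    eventually_ge_atTop 1] with K hK1 hK2 hK3
  obtain ⟨E, hE⟩ : ∃ E : ℝ, E = Real.exp (c * K ^ 2) := ⟨_, rfl⟩
  rw [← hE] at hK1
  obtain ⟨L, hLd⟩ : ∃ L : ℕ, L = ⌊E ^ 2⌋₊ := ⟨_, rfl⟩
  have hE0 : 0 < E := by linarith
  have hL1 : (L : ℝ) ≤ E ^ 2 := by rw [hLd]; exact Nat.floor_le (by positivity)
  have hL2 : E ^ 2 < L + 1 := by rw [hLd]; exact Nat.lt_floor_add_one _
  have hL3 : E * 8 ≤ L := by nlinarith
  have hL4 : (2 : ℝ) ≤ L := by linarith
  have hL4' : 2 ≤ L := by exact_mod_cast hL4
  have hL0 : (0 : ℝ) < L := by linarith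
  have hlogL : A * Real.sqrt (Real.log L) ≤ K / 2 := by
    have h1 : Real.log L ≤ (K / (2 * A)) ^ 2 := by
      have h2 : Real.log L ≤ Real.log (E ^ 2) := Real.log_le_log hL0 hL1
      rw [Real.log_pow, hE, Real.log_exp, hc] at h2
      refine h2.trans (le_of_eq ?_)
      push_cast
      field_simp
      ring
    have h3 : Real.sqrt (Real.log L) ≤ K / (2 * A) := by
      rw [← Real.sqrt_sq (show 0 ≤ K / (2 * A) by positivity)]
      exact Real.sqrt_le_sqrt h1
    calc A * Real.sqrt (Real.log L) ≤ A * (K / (2 * A)) := mul_le_mul_of_nonneg_left h3 hA.le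
      _ = K / 2 := by field_simp
  obtain ⟨bad, hbad⟩ : ∃ bad : ℕ → ℕ → Prop, bad = fun s n => K / 2 < |y (n + s) - y n - s| :=
    ⟨_, rfl⟩
  -- few bad places
  have hfew : ∀ᶠ N : ℕ in atTop, ∀ s ∈ range (L + 1),
      (((Icc 1 N).filter (bad s)).card : ℝ) ≤ η / 8 * N := by
    rw [Filter.eventually_all_finset]
    intro s hs
    rw [Finset.mem_range] at hs
    rcases le_total s1 s with h | h
    · have h0 : s0 ≤ s := by omega
      filter_upwards [hs0 s h0] with N hN
      have hN0 : (0 : ℝ) ≤ N := Nat.cast_nonneg _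
      have h1 : (Icc 1 N).filter (bad s) ⊆
          (Icc 1 N).filter (fun n => A * Real.sqrt (Real.log s) ≤ |y (n + s) - y n - s|) := by
        intro n hn
        rw [Finset.mem_filter] at hn ⊢
        refine ⟨hn.1, ?_⟩
        have h2 := hn.2
        rw [hbad] at h2
        have h3 : A * Real.sqrt (Real.log s) ≤ A * Real.sqrt (Real.log L) := by
          apply mul_le_mul_of_nonneg_left _ hA.le
          apply Real.sqrt_le_sqrt
          apply Real.log_le_log
          · have : 0 < s := by omega
            exact_mod_cast this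
          · exact_mod_cast (by omega : s ≤ L)
        exact (h3.trans hlogL).trans h2.le
      have h2 : (((Icc 1 N).filter (bad s)).card : ℝ) ≤
        ((Icc 1 N).filter (fun n => A * Real.sqrt (Real.log s) ≤ |y (n + s) - y n - s|)).card := by
        exact_mod_cast Finset.card_le_card h1
      have : η / 16 * (N : ℝ) ≤ η / 8 * N := by
        apply mul_le_mul_of_nonneg_right _ hN0
        linarith
      linarith
    · have h0 : s0 ≤ s1 := by omega
      have hbig : ∀ᶠ N : ℕ in atTop, (n1 : ℝ) ≤ η / 16 * N :=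
        (tendsto_natCast_atTop_atTop.const_mul_atTop (show (0 : ℝ) < η / 16 by positivity)).eventually_ge_atTop _
      filter_upwards [hs0 s1 h0, hbig] with N hN hb
      have h1 : (Icc 1 N).filter (bad s) ⊆
          (Icc 1 N).filter (fun n => A * Real.sqrt (Real.log s1) ≤ |y (n + s1) - y n - s1|) ∪
          Icc 1 n1 := by
        intro n hn
        rw [Finset.mem_filter] at hn
        rw [Finset.mem_union, Finset.mem_filter]
        by_contra hcon
        rw [not_or, not_and, not_le] at hcon
        have a1 := hcon.1 hn.1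
        have a2 : n1 ≤ n := by
          have h1 := (Finset.mem_Icc.mp hn.1).1
          have h2 : ¬ (1 ≤ n ∧ n ≤ n1) := fun h => hcon.2 (Finset.mem_Icc.mpr h)
          omega
        have a3 := hmono n (n + s) a2 (by omega)
        have a4 := hmono (n + s) (n + s1) (by omega) (by omega)
        have a5 := abs_lt.mp a1
        have a6 := hn.2
        rw [hbad] at a6
        have a7 : (s : ℝ) ≤ s1 := by exact_mod_cast h
        have a8 : (0 : ℝ) ≤ s := Nat.cast_nonneg _
        have a9 : 0 ≤ A * Real.sqrt (Real.log s1) := by positivity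
        have a10 : |y (n + s) - y n - s| ≤ s1 + A * Real.sqrt (Real.log s1) := by
          rw [abs_le]
          constructor <;> linarith [a5.1, a5.2]
        have a6' : K / 2 < |y (n + s) - y n - s| := a6
        linarith
      have h2 := (Finset.card_le_card h1).trans (Finset.card_union_le _ _)
      rw [Nat.card_Icc, Nat.add_sub_cancel] at h2
      have h3 : (((Icc 1 N).filter (bad s)).card : ℝ) ≤
        ((Icc 1 N).filter (fun n => A * Real.sqrt (Real.log s1) ≤ |y (n + s1) - y n - s1|)).card + n1 := by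
        exact_mod_cast h2
      linarith
  have hbig : ∀ᶠ N : ℕ in atTop, (L : ℝ) ≤ η / 4 * N :=
    (tendsto_natCast_atTop_atTop.const_mul_atTop (show (0 : ℝ) < η / 4 by positivity)).eventually_ge_atTop _
  have hbig2 : ∀ᶠ N : ℕ in atTop, (L : ℝ) + 1 ≤ 1 / (2 * E) * N :=
    (tendsto_natCast_atTop_atTop.const_mul_atTop (show (0 : ℝ) < 1 / (2 * E) by positivity)).eventually_ge_atTop _
  filter_upwards [hfew, hbig, hbig2] with N hN hb1 hb2
  have hN0 : (0 : ℝ) ≤ N := Nat.cast_nonneg _
  -- the choice of the grid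
  obtain ⟨U, hU⟩ : ∃ U : ℕ → Finset ℕ, U = fun j => (Icc 1 N).filter (fun p => bad j p ∨ bad L p) :=
    ⟨_, rfl⟩
  have hUc : ∀ j < L, ((U j).card : ℝ) ≤ η / 4 * N := by
    intro j hj
    have h1 : U j ⊆ (Icc 1 N).filter (bad j) ∪ (Icc 1 N).filter (bad L) := by
      intro p hp
      rw [hU] at hp
      have hp : p ∈ (Icc 1 N).filter (fun p => bad j p ∨ bad L p) := hp
      rw [Finset.mem_filter] at hp
      rw [Finset.mem_union, Finset.mem_filter, Finset.mem_filter]
      rcases hp.2 with h | h
      · exact Or.inl ⟨hp.1, h⟩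
      · exact Or.inr ⟨hp.1, h⟩
    have h2 := (Finset.card_le_card h1).trans (Finset.card_union_le _ _)
    have h3 : ((U j).card : ℝ) ≤ ((Icc 1 N).filter (bad j)).card + ((Icc 1 N).filter (bad L)).card := by
      exact_mod_cast h2
    have h4 := hN j (Finset.mem_range.mpr (by omega))
    have h5 := hN L (Finset.mem_range.mpr (by omega))
    linarith
  obtain ⟨a, ha, hWa⟩ : ∃ a < L, ((∑ j ∈ range L, ((U j).filter (fun p => p % L = a)).card : ℕ) : ℝ) ≤
      η / 4 * N := by
    by_contra hcon
    push Not at hcon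
    have h1 : ∑ a ∈ range L, ((∑ j ∈ range L, ((U j).filter (fun p => p % L = a)).card : ℕ) : ℝ) =
        ∑ j ∈ range L, ((U j).card : ℝ) := by
      push_cast
      rw [Finset.sum_comm]
      apply Finset.sum_congr rfl
      intro j _
      rw [Finset.card_eq_sum_card_fiberwise (f := fun p => p % L) (t := range L)
        (fun p _ => by
          rw [Finset.mem_coe, Finset.mem_range]
          exact Nat.mod_lt _ (by omega))]
      push_cast
      rfl
    have h2 : ∑ j ∈ range L, ((U j).card : ℝ) ≤ L * (η / 4 * N) := by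
      calc _ ≤ ∑ j ∈ range L, (η / 4 * N) :=
            Finset.sum_le_sum fun j hj => hUc j (Finset.mem_range.mp hj)
        _ = _ := by rw [Finset.sum_const, Finset.card_range, nsmul_eq_mul]
    have h3 : L * (η / 4 * N) <
        ∑ a ∈ range L, ((∑ j ∈ range L, ((U j).filter (fun p => p % L = a)).card : ℕ) : ℝ) := by
      calc (L : ℝ) * (η / 4 * N) = ∑ a ∈ range L, (η / 4 * (N : ℝ)) := by
            rw [Finset.sum_const, Finset.card_range, nsmul_eq_mul]
        _ < _ := by
          apply Finset.sum_lt_sum_of_nonempty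
          · rw [Finset.nonempty_range_iff]; omega
          · intro a ha
            exact_mod_cast hcon a (Finset.mem_range.mp ha)
    linarith
  refine ⟨zz y L a, ?_, ?_⟩
  · have h1 : (Icc 1 N).filter (fun n => zz y L a (n + 2) - 2 * zz y L a (n + 1) + zz y L a n ≠ 0) ⊆
        Icc 1 L ∪ (Icc 1 N).filter (fun n => pj L a n + 1 = L) := by
      intro n hn
      rw [Finset.mem_filter] at hn
      rw [Finset.mem_union, Finset.mem_filter]
      by_contra hcon
      rw [not_or] at hcon
      have h2 : ¬ (1 ≤ n ∧ n ≤ L) := fun h => hcon.1 (Finset.mem_Icc.mpr h)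
      have h3 := (Finset.mem_Icc.mp hn.1).1
      have h4 : pj L a n + 1 ≠ L := fun h => hcon.2 ⟨hn.1, h⟩
      have h5 := pj_lt (L := L) (a := a) (n := n) (by omega)
      exact hn.2 (zz_lin hL4' (by omega) (by omega))
    have h2 := (Finset.card_le_card h1).trans (Finset.card_union_le _ _)
    rw [Nat.card_Icc, Nat.add_sub_cancel] at h2
    have h3 := h2.trans (Nat.add_le_add_left (class_card (a := a) (by omega : 0 < L) N) L)
    have h4 : (((Icc 1 N).filter (fun n => zz y L a (n + 2) - 2 * zz y L a (n + 1) +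
        zz y L a n ≠ 0)).card : ℝ) ≤ L + (((N / L : ℕ) : ℝ) + 1) := by exact_mod_cast h3
    have h5 : ((N / L : ℕ) : ℝ) ≤ N / L := Nat.cast_div_le
    have h6 : (N : ℝ) / L ≤ 1 / (2 * E) * N := by
      rw [div_le_iff₀ hL0]
      have e : 1 / (2 * E) * N * L = (L / (2 * E)) * N := by field_simp
      rw [e]
      have : 1 ≤ (L : ℝ) / (2 * E) := by
        rw [le_div_iff₀ (by positivity)]
        linarith
      nlinarith
    have h7 : Real.exp (-c * K ^ 2) = 1 / E := by
      rw [hE, neg_mul, Real.exp_neg, one_div]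
    rw [h7]
    have h8 : 1 / (2 * E) * N + 1 / (2 * E) * N = 1 / E * N := by
      field_simp
      ring
    linarith
  · -- the places where the approximation is bad
    have h1 : (Icc 1 N).filter (fun n => ¬ |y n - zz y L a n| ≤ K) ⊆
        Icc 1 L ∪ (range L).biUnion (fun j => ((U j).filter (fun p => p % L = a)).image (fun p => p + j)) := by
      intro n hn
      rw [Finset.mem_filter, Finset.mem_Icc] at hn
      rw [Finset.mem_union, Finset.mem_biUnion]
      by_contra hcon
      rw [not_or] at hcon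
      obtain ⟨h2, h3⟩ := hcon
      have h2 : ¬ (1 ≤ n ∧ n ≤ L) := fun h => h2 (Finset.mem_Icc.mpr h)
      have hnL : L ≤ n := by omega
      obtain ⟨j, hj⟩ : ∃ j, j = pj L a n := ⟨_, rfl⟩
      have hjL : j < L := by rw [hj]; exact pj_lt (by omega)
      obtain ⟨p, hp⟩ : ∃ p, p = n - pj L a n := ⟨_, rfl⟩
      have hpa : p % L = a := by rw [hp]; exact pj_mod (by omega) ha hnL
      have hpn : p + j = n := by omega
      have h4 : p ∉ U j := by
        intro h5
        apply h3
        refine ⟨j, Finset.mem_range.mpr hjL, ?_⟩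
        rw [Finset.mem_image]
        exact ⟨p, Finset.mem_filter.mpr ⟨h5, hpa⟩, hpn⟩
      rw [hU] at h4
      have h4 : p ∉ (Icc 1 N).filter (fun p => bad j p ∨ bad L p) := h4
      rw [Finset.mem_filter, not_and, not_or] at h4
      have h5 := h4 (Finset.mem_Icc.mpr ⟨by omega, by omega⟩)
      rw [hbad] at h5
      obtain ⟨h6, h7⟩ := h5
      have h6 : |y (p + j) - y p - j| ≤ K / 2 := not_lt.mp h6
      have h7 : |y (p + L) - y p - L| ≤ K / 2 := not_lt.mp h7
      apply hn.2
      have e : y n - zz y L a n = (y (p + j) - y p - j) - (j : ℝ) / L * (y (p + L) - y p - L) := by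
        unfold zz
        rw [← hj]
        have : n - j = p := by omega
        rw [this, hpn]
        field_simp
        ring
      rw [e]
      have h8 : (j : ℝ) / L ≤ 1 := by
        rw [div_le_one hL0]
        exact_mod_cast hjL.le
      have h9 : 0 ≤ (j : ℝ) / L := by positivity
      have h10 : |(j : ℝ) / L * (y (p + L) - y p - L)| ≤ K / 2 := by
        rw [abs_mul, abs_of_nonneg h9]
        calc (j : ℝ) / L * |y (p + L) - y p - L| ≤ 1 * |y (p + L) - y p - L| :=
              mul_le_mul_of_nonneg_right h8 (abs_nonneg _)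
          _ ≤ K / 2 := by rw [one_mul]; exact h7
      have h11 := abs_sub (y (p + j) - y p - j) ((j : ℝ) / L * (y (p + L) - y p - L))
      linarith
    have h2 := (Finset.card_le_card h1).trans (Finset.card_union_le _ _)
    rw [Nat.card_Icc, Nat.add_sub_cancel] at h2
    have h3 : ((range L).biUnion (fun j => ((U j).filter (fun p => p % L = a)).image
        (fun p => p + j))).card ≤ ∑ j ∈ range L, ((U j).filter (fun p => p % L = a)).card :=
      Finset.card_biUnion_le.trans (Finset.sum_le_sum fun j _ => Finset.card_image_le)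
    have h4 : (((Icc 1 N).filter (fun n => ¬ |y n - zz y L a n| ≤ K)).card : ℝ) ≤
        L + ((∑ j ∈ range L, ((U j).filter (fun p => p % L = a)).card : ℕ) : ℝ) := by
      exact_mod_cast h2.trans (Nat.add_le_add_left h3 L)
    have h5 := Finset.card_filter_add_card_filter_not (s := Icc 1 N) (fun n => |y n - zz y L a n| ≤ K)
    rw [Nat.card_Icc, Nat.add_sub_cancel] at h5
    have h6 : (((Icc 1 N).filter (fun n => |y n - zz y L a n| ≤ K)).card : ℝ) +
        ((Icc 1 N).filter (fun n => ¬ |y n - zz y L a n| ≤ K)).card = N := by exact_mod_cast h5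
    have h7 : 0 ≤ η * N := by positivity
    linarith

end Pool.Agent.X112.GS
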