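import Pool.Agent.X112.GS.Fin
import Pool.Agent.X112.GS.NT2
import Pool.Agent.X112.GS.Sharp

/-! # The spacings of the zeros of zeta: quantitative forms -/

set_option autoImplicit false

open Filter Finset

namespace Pool.Agent.X112.GS

open SG (ord NZ)

/-- **no smooth approximation**, quantitative form -/
theorem smooth_quant (Q : ℕ) (hQ : 1 ≤ Q) (η : ℝ) (hη : 0 < η) : ∃ C : ℝ, 0 < C ∧ ∀ K : ℝ, 1 ≤ K →
    ∀ᶠ N : ℕ in atTop, ∀ z : ℕ → ℝ,
    (((Icc 1 N).filter (fun n => Real.exp (-C * K ^ 2) <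
      |z (n + 2 * Q) - 2 * z (n + Q) + z n|)).card : ℝ) ≤ Real.exp (-C * K ^ 2) * N →
    (((Icc 1 N).filter (fun n => |yy n - z n| ≤ K)).card : ℝ) ≤ η * N :=
  quant anti2_yy lln2_yy Q hQ η hη

/-- **the spacings are not a coboundary**, quantitative form -/
theorem coboundary_quant (η : ℝ) (hη : 0 < η) : ∃ C : ℝ, 0 < C ∧ ∀ K : ℝ, 1 ≤ K →
    ∀ᶠ N : ℕ in atTop, ∀ (x : ℕ → ℝ) (b : ℝ),
    (((Icc 1 N).filter (fun n => Real.exp (-C * K ^ 2) ≤
      |inc yy n - b - (x (n + 1) - x n)|)).card : ℝ) < Real.exp (-C * K ^ 2) * N →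
    (((Icc 1 N).filter (fun n => |x n| ≤ K)).card : ℝ) ≤ η * N := by
  classical
  obtain ⟨C, hC, h0⟩ := smooth_quant 1 le_rfl η hη
  refine ⟨C + 2, by linarith, fun K hK => ?_⟩
  obtain ⟨ε, hεd⟩ : ∃ ε : ℝ, ε = Real.exp (-C * K ^ 2) := ⟨_, rfl⟩
  obtain ⟨ε', hεd'⟩ : ∃ ε' : ℝ, ε' = Real.exp (-(C + 2) * K ^ 2) := ⟨_, rfl⟩
  have h := h0 K hK
  rw [← hεd] at h
  rw [← hεd']
  have hε : 0 < ε := by rw [hεd]; exact Real.exp_pos _
  have hε' : 0 < ε' := by rw [hεd']; exact Real.exp_pos _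
  have hle : ε' ≤ ε / 4 := by
    have e : ε' = ε * Real.exp (-2 * K ^ 2) := by
      rw [hεd', hεd, ← Real.exp_add]
      congr 1
      ring
    have h1 : Real.exp (-2 * K ^ 2) ≤ 1 / 4 := by
      have h2 : Real.exp (-2 * K ^ 2) ≤ Real.exp (-2) := by
        apply Real.exp_le_exp.mpr
        nlinarith
      have h3 : (4 : ℝ) ≤ Real.exp 2 := by
        have := Real.add_one_le_exp (1 : ℝ)
        have e2 : Real.exp 2 = Real.exp 1 * Real.exp 1 := by rw [← Real.exp_add]; norm_num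
        rw [e2]
        nlinarith
      have h4 : Real.exp (-2) ≤ 1 / 4 := by
        rw [Real.exp_neg, ← one_div]
        exact one_div_le_one_div_of_le (by norm_num) h3
      linarith
    rw [e]
    nlinarith
  have hbig : ∀ᶠ N : ℕ in atTop, (1 : ℝ) ≤ ε / 4 * N :=
    (tendsto_natCast_atTop_atTop.const_mul_atTop (show (0 : ℝ) < ε / 4 by positivity)).eventually_ge_atTop _
  filter_upwards [h, hbig] with N hN hb x b hx
  have hN0 : (0 : ℝ) ≤ N := Nat.cast_nonneg _
  have hx2 : ε' * N ≤ ε / 4 * N := mul_le_mul_of_nonneg_right hle hN0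
  have h1 := hN (fun n => yy n - x n) (by
    have h2 : (Icc 1 N).filter (fun n => ε < |(yy (n + 2 * 1) - x (n + 2 * 1)) -
        2 * (yy (n + 1) - x (n + 1)) + (yy n - x n)|) ⊆
        (Icc 1 N).filter (fun n => ε' ≤ |inc yy n - b - (x (n + 1) - x n)|) ∪
        (Icc 1 N).filter (fun n => ε' ≤ |inc yy (n + 1) - b - (x (n + 1 + 1) - x (n + 1))|) := by
      intro n hn
      rw [Finset.mem_filter] at hn
      rw [Finset.mem_union, Finset.mem_filter, Finset.mem_filter]
      by_contra hcon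
      rw [not_or, not_and, not_and, not_le, not_le] at hcon
      have a1 := abs_lt.mp (hcon.1 hn.1)
      have a2 := abs_lt.mp (hcon.2 hn.1)
      have a3 : |(yy (n + 2 * 1) - x (n + 2 * 1)) -
        2 * (yy (n + 1) - x (n + 1)) + (yy n - x n)| ≤ ε / 2 := by
        unfold inc at a1 a2
        rw [show n + 2 * 1 = n + 1 + 1 by ring, abs_le]
        constructor <;> linarith [a1.1, a1.2, a2.1, a2.2]
      linarith [hn.2]
    have h3 := (Finset.card_le_card h2).trans (Finset.card_union_le _ _)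
    have h4 := card_shift (fun n => ε' ≤ |inc yy n - b - (x (n + 1) - x n)|) N 1
    have h5 : (((Icc 1 N).filter (fun n => ε < |(yy (n + 2 * 1) - x (n + 2 * 1)) -
        2 * (yy (n + 1) - x (n + 1)) + (yy n - x n)|)).card : ℝ) ≤
        2 * ((Icc 1 N).filter (fun n => ε' ≤ |inc yy n - b - (x (n + 1) - x n)|)).card + 1 := by
      have : ((Icc 1 N).filter (fun n => ε < |(yy (n + 2 * 1) - x (n + 2 * 1)) -
        2 * (yy (n + 1) - x (n + 1)) + (yy n - x n)|)).card ≤
        2 * ((Icc 1 N).filter (fun n => ε' ≤ |inc yy n - b - (x (n + 1) - x n)|)).card + 1 := by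
        omega
      exact_mod_cast this
    linarith)
  refine le_trans ?_ h1
  have : (Icc 1 N).filter (fun n => |x n| ≤ K) ⊆
      (Icc 1 N).filter (fun n => |yy n - (yy n - x n)| ≤ K) := by
    intro n hn
    rw [Finset.mem_filter] at hn ⊢
    rw [show yy n - (yy n - x n) = x n by ring]
    exact hn
  exact_mod_cast Finset.card_le_card this

/-- **piecewise linear approximation** -/
theorem sharp_yy (η : ℝ) (hη : 0 < η) : ∃ c : ℝ, 0 < c ∧ ∀ᶠ K : ℝ in atTop, ∀ᶠ N : ℕ in atTop,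
    ∃ z : ℕ → ℝ,
    (((Icc 1 N).filter (fun n => z (n + 2) - 2 * z (n + 1) + z n ≠ 0)).card : ℝ) ≤
      Real.exp (-c * K ^ 2) * N ∧
    (1 - η) * N ≤ (((Icc 1 N).filter (fun n => |yy n - z n| ≤ K)).card : ℝ) := by
  obtain ⟨n1, hn1⟩ := inc_nonneg
  refine sharp lln2_yy (n1 := n1) ?_ η hη
  intro n m h1 h2
  induction m, h2 using Nat.le_induction with
  | base => exact le_rfl
  | succ m hm ih =>
    have := hn1 m (by omega)
    unfold inc at this
    linarith

end Pool.Agent.X112.GS
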