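import Pool.Agent.X112.GS.VarLow
import Pool.Agent.Y747.Gp

/-! # Long range correlations of the spacings -/

set_option autoImplicit false

open Filter Finset MeasureTheory

namespace Pool.Agent.X112.GS

open SG (ord NZ)
open SP (RHs)

lemma rhs_of (RH : RiemannHypothesis) : RHs := by
  intro s h1 h2 h0
  apply RH s h0
  · rintro ⟨k, hk⟩
    have := congrArg Complex.re hk
    simp at this
    have hk0 : (0 : ℝ) ≤ k := Nat.cast_nonneg k
    linarith
  · intro h; rw [h] at h2; simp at h2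

/-- the boundary terms are negligible -/
lemma bdry (RH : RiemannHypothesis) (r : ℕ) (ε : ℝ) (hε : 0 < ε) : ∀ᶠ N : ℕ in atTop,
    |ww ee N r - aa ee N r| ≤ ε * N := by
  obtain ⟨C, hC, h⟩ := max_gap (rhs_of RH)
  have hlim : Tendsto (fun N : ℕ => 6 * (r : ℝ) ^ 3 * C ^ 2 * (Real.log N ^ 2 / N)) atTop
      (nhds (6 * (r : ℝ) ^ 3 * C ^ 2 * 0)) := by
    apply Tendsto.const_mul
    have h1 : Tendsto (fun x : ℝ => Real.log x ^ 2 / x) atTop (nhds 0) := by
      have := (isLittleO_log_rpow_rpow_atTop 2 one_pos).tendsto_div_nhds_zero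
      refine this.congr fun x => ?_
      rw [Real.rpow_one]
      norm_cast
    exact h1.comp tendsto_natCast_atTop_atTop
  rw [mul_zero] at hlim
  filter_upwards [h, hlim.eventually_lt_const hε, eventually_ge_atTop (r + 1)] with N hN hN2 hN3
  have hN0 : (0 : ℝ) < N := by exact_mod_cast (by omega : 0 < N)
  have hlog : 0 ≤ Real.log (N : ℝ) := Real.log_nonneg (by exact_mod_cast (by omega : 1 ≤ N))
  have h1 := ww_aa (e := ee) (N := N) (M := C * Real.log N) (by positivity) r
    (fun n h2 h3 => hN n h2 (by omega)) r le_rfl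
  refine h1.trans ?_
  have e1 : 6 * (r : ℝ) ^ 3 * C ^ 2 * (Real.log N ^ 2 / N) = 6 * (r : ℝ) ^ 3 * (C * Real.log N) ^ 2 / N := by
    ring
  rw [e1, div_lt_iff₀ hN0] at hN2
  exact hN2.le

lemma aa_up (RH : RiemannHypothesis) : ∃ C : ℝ, 0 < C ∧ ∀ r : ℕ, 1 ≤ r → ∀ᶠ N : ℕ in atTop,
    aa ee N r ≤ C * (1 + Real.log r) ^ 2 * N := by
  obtain ⟨C, hC, h⟩ := var_up (rhs_of RH)
  refine ⟨C + 1, by positivity, fun r hr => ?_⟩
  filter_upwards [h r hr, bdry RH r 1 one_pos] with N h1 h2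
  have h3 := (abs_le.mp h2).1
  have hlog : 0 ≤ Real.log (r : ℝ) := Real.log_nonneg (by exact_mod_cast hr)
  have hN0 : (0 : ℝ) ≤ N := Nat.cast_nonneg _
  have h4 : 1 * (N : ℝ) ≤ (1 + Real.log r) ^ 2 * N := by
    apply mul_le_mul_of_nonneg_right _ hN0
    nlinarith
  nlinarith

lemma aa_low (RH : RiemannHypothesis) (ε : ℝ) (hε : 0 < ε) : ∀ᶠ r : ℕ in atTop, ∀ᶠ N : ℕ in atTop,
    (1 / Real.pi ^ 2 - ε) * Real.log r * N ≤ aa ee N r := by
  have hlog : Tendsto (fun r : ℕ => Real.log (r : ℝ)) atTop atTop :=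
    Real.tendsto_log_atTop.comp tendsto_natCast_atTop_atTop
  filter_upwards [var_low (ε / 2) (by positivity), hlog.eventually_ge_atTop 1] with r hr hl
  filter_upwards [hr, bdry RH r (ε / 2) (by positivity)] with N h1 h2
  have h3 := (abs_le.mp h2).2
  have hN0 : (0 : ℝ) ≤ N := Nat.cast_nonneg _
  have h4 : ε / 2 * 1 * N ≤ ε / 2 * Real.log r * N := by
    apply mul_le_mul_of_nonneg_right _ hN0
    exact mul_le_mul_of_nonneg_left hl (by positivity)
  linarith

/-- the variance of the gaps -/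
lemma c0_low (RH : RiemannHypothesis) : ∀ᶠ N : ℕ in atTop, (0.0402 : ℝ) * N ≤ cc ee N 0 := by
  have hord : Tendsto ord atTop atTop := Pool.Agent.Y743.LR.ord_tendsto
  have hpi := Real.pi_pos
  have hpi3 := Real.pi_gt_three
  obtain ⟨n1, hn1⟩ := (hord.eventually_ge_atTop 1).exists_forall_of_atTop
  -- comparison of the two normalisations
  have hcomp : ∀ n, 1 ≤ n → 1 ≤ ord n → Y747.dl n - 1 ≤ ee n := by
    intro n hn h1
    have h2 : ord n ≤ ord (n + 1) := SG.ord_mono hn (by omega)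
    unfold Y747.dl ee inc yy
    rw [← sub_div, div_mul_eq_mul_div]
    apply sub_le_sub_right
    apply div_le_div_of_nonneg_right _ (by positivity)
    have h3 : Real.log (ord n / (2 * Real.pi)) ≤ Real.log (ord n) := by
      apply Real.log_le_log (by positivity)
      apply div_le_self (by linarith)
      linarith
    have h4 : Real.log (ord n) ≤ Real.log (ord (n + 1)) := Real.log_le_log (by linarith) h2
    have h5 : (ord (n + 1) - ord n) * Real.log (ord n / (2 * Real.pi)) ≤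
        (ord (n + 1) - ord n) * Real.log (ord n) := mul_le_mul_of_nonneg_left h3 (by linarith)
    have h6 : ord (n + 1) * Real.log (ord n) ≤ ord (n + 1) * Real.log (ord (n + 1)) :=
      mul_le_mul_of_nonneg_left h4 (by linarith)
    linarith
  obtain ⟨B, hB⟩ : ∃ B : ℝ, B = ∑ n ∈ Icc 1 n1, max 0 (Y747.dl n - 1) := ⟨_, rfl⟩
  have hsum : ∀ N : ℕ, ∑ n ∈ Icc 1 N, ee n = yy (N + 1) - yy 1 - N := by
    intro N
    induction N with
    | zero => simp
    | succ N ih =>
      rw [Finset.sum_Icc_succ_top (by omega), ih]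
      unfold ee inc
      push_cast
      ring
  have hbig : ∀ᶠ N : ℕ in atTop, B + |yy 1| + 2 ≤ 1 / 100000 * N :=
    (tendsto_natCast_atTop_atTop.const_mul_atTop (show (0 : ℝ) < 1 / 100000 by positivity)).eventually_ge_atTop _
  have hyN : ∀ᶠ N : ℕ in atTop, yy (N + 1) ≤ (1 + 1 / 100000) * ((N + 1 : ℕ) : ℝ) := by
    have := XN_le (1 / 100000) (by norm_num) (by norm_num)
    exact (tendsto_add_atTop_nat 1).eventually this
  filter_upwards [Y747.plus_ge RH (1 / 100000) (by norm_num), hbig, hyN, eventually_ge_atTop 1]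
    with N h1 h2 h3 h4
  have hNpos : (0 : ℝ) < N := by exact_mod_cast h4
  have hB2 : ∑ n ∈ Icc 1 N, max 0 (Y747.dl n - 1) ≤ B + ∑ n ∈ Icc 1 N, max 0 (ee n) := by
    have h5 : ∀ n ∈ Icc 1 N, max 0 (Y747.dl n - 1) ≤
        (if n ≤ n1 then max 0 (Y747.dl n - 1) else 0) + max 0 (ee n) := by
      intro n hn
      rw [Finset.mem_Icc] at hn
      split_ifs with h6
      · linarith [le_max_left 0 (ee n)]
      · rw [zero_add]
        exact max_le_max_left 0 (hcomp n hn.1 (hn1 n (by omega)))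
    refine (Finset.sum_le_sum h5).trans ?_
    rw [Finset.sum_add_distrib]
    apply add_le_add_left
    rw [hB, ← Finset.sum_filter]
    apply Finset.sum_le_sum_of_subset_of_nonneg
    · intro n hn
      rw [Finset.mem_filter, Finset.mem_Icc] at hn
      rw [Finset.mem_Icc]
      exact ⟨hn.1.1, hn.2⟩
    · exact fun _ _ _ => le_max_left _ _
  have habs : ∑ n ∈ Icc 1 N, |ee n| = 2 * ∑ n ∈ Icc 1 N, max 0 (ee n) - ∑ n ∈ Icc 1 N, ee n := by
    rw [Finset.mul_sum, ← Finset.sum_sub_distrib]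
    apply Finset.sum_congr rfl
    intro n _
    rcases le_total 0 (ee n) with h | h
    · rw [abs_of_nonneg h, max_eq_right h]; ring
    · rw [abs_of_nonpos h, max_eq_left h]; ring
  have hmad : (0.2008 : ℝ) * N ≤ ∑ n ∈ Icc 1 N, |ee n| := by
    rw [habs, hsum]
    push_cast at h3
    have h6 := neg_abs_le (yy 1)
    have h7 := abs_nonneg (yy 1)
    linarith
  have hcs : (∑ n ∈ Icc 1 N, |ee n|) ^ 2 ≤ N * cc ee N 0 := by
    have h5 := Finset.sum_mul_sq_le_sq_mul_sq (Icc 1 N) (fun _ => (1 : ℝ)) (fun n => |ee n|)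
    simp only [one_mul, one_pow, Finset.sum_const, Nat.card_Icc, Nat.add_sub_cancel, nsmul_eq_mul,
      mul_one] at h5
    unfold cc
    simp only [add_zero]
    have h6 : ∀ n, |ee n| ^ 2 = ee n * ee n := fun n => by rw [sq_abs, sq]
    simp only [h6] at h5
    exact h5
  have h5 : (0.2008 * (N : ℝ)) ^ 2 ≤ N * cc ee N 0 := by
    refine le_trans ?_ hcs
    exact pow_le_pow_left₀ (by positivity) hmad 2
  have h6 : (N : ℝ) * (0.0402 * N) ≤ N * cc ee N 0 := by
    refine le_trans ?_ h5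
    nlinarith
  exact le_of_mul_le_mul_left h6 hNpos

end Pool.Agent.X112.GS
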