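import Pool.Agent.X112.GS.Lrc

/-! # Long range correlations of the spacings: the theorems -/

set_option autoImplicit false

open Filter Finset MeasureTheory

namespace Pool.Agent.X112.GS

open SG (ord NZ)

/-- the normalised combination -/
lemma aa_eq (e : ℕ → ℝ) {N r : ℕ} (hr : 1 ≤ r) (hN : 1 ≤ N) :
    aa e N r = r * N * ((1 / N : ℝ) * cc e N 0 +
      2 * ∑ j ∈ Ico 1 r, (1 - (j : ℝ) / r) * ((1 / N : ℝ) * cc e N j)) := by
  have hr0 : (r : ℝ) ≠ 0 := by
    have : 0 < r := hr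
    exact_mod_cast this.ne'
  have hN0 : (N : ℝ) ≠ 0 := by
    have : 0 < N := hN
    exact_mod_cast this.ne'
  have h1 : ∑ j ∈ range r, (r - j - 1 : ℝ) * cc e N (j + 1) =
      ∑ j ∈ Ico 1 r, (r - j : ℝ) * cc e N j := by
    obtain ⟨p, rfl⟩ := Nat.exists_eq_add_of_le hr
    rw [Finset.sum_Ico_eq_sum_range, show 1 + p - 1 = p by omega, add_comm 1 p,
      Finset.sum_range_succ]
    have : ((p + 1 : ℕ) : ℝ) - p - 1 = 0 := by push_cast; ring
    rw [this, zero_mul, add_zero]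
    refine Finset.sum_congr rfl fun j _ => ?_
    rw [add_comm 1 j]
    push_cast
    ring
  unfold aa
  rw [h1, mul_add, Finset.mul_sum, Finset.mul_sum, Finset.mul_sum]
  congr 1
  · field_simp
  · refine Finset.sum_congr rfl fun j _ => ?_
    field_simp

/-- part 1, upper bound -/
theorem part1u (RH : RiemannHypothesis) : ∃ C : ℝ, 0 < C ∧ ∀ r : ℕ, 1 ≤ r → ∀ᶠ N : ℕ in atTop,
    (1 / N : ℝ) * cc ee N 0 + 2 * ∑ j ∈ Ico 1 r, (1 - (j : ℝ) / r) * ((1 / N : ℝ) * cc ee N j) ≤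
      C * (1 + Real.log r) ^ 2 / r := by
  obtain ⟨C, hC, h⟩ := aa_up RH
  refine ⟨C, hC, fun r hr => ?_⟩
  filter_upwards [h r hr, eventually_ge_atTop 1] with N hN hN1
  have hr0 : (0 : ℝ) < r := by exact_mod_cast hr
  have hN0 : (0 : ℝ) < N := by exact_mod_cast hN1
  rw [aa_eq ee hr hN1] at hN
  rw [le_div_iff₀ hr0]
  have h1 : (N : ℝ) * (((1 / N : ℝ) * cc ee N 0 + 2 * ∑ j ∈ Ico 1 r, (1 - (j : ℝ) / r) *
      ((1 / N : ℝ) * cc ee N j)) * r) ≤ N * (C * (1 + Real.log r) ^ 2) := by linarith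
  exact le_of_mul_le_mul_left h1 hN0

/-- part 1, lower bound -/
theorem part1l (RH : RiemannHypothesis) (ε : ℝ) (hε : 0 < ε) : ∀ᶠ r : ℕ in atTop,
    ∀ᶠ N : ℕ in atTop, (1 / Real.pi ^ 2 - ε) * Real.log r / r ≤
    (1 / N : ℝ) * cc ee N 0 + 2 * ∑ j ∈ Ico 1 r, (1 - (j : ℝ) / r) * ((1 / N : ℝ) * cc ee N j) := by
  filter_upwards [aa_low RH ε hε, eventually_ge_atTop 1] with r h hr
  filter_upwards [h, eventually_ge_atTop 1] with N hN hN1
  have hr0 : (0 : ℝ) < r := by exact_mod_cast hr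
  have hN0 : (0 : ℝ) < N := by exact_mod_cast hN1
  rw [aa_eq ee hr hN1] at hN
  rw [div_le_iff₀ hr0]
  have h1 : (N : ℝ) * ((1 / Real.pi ^ 2 - ε) * Real.log r) ≤ (N : ℝ) * (((1 / N : ℝ) * cc ee N 0 +
      2 * ∑ j ∈ Ico 1 r, (1 - (j : ℝ) / r) * ((1 / N : ℝ) * cc ee N j)) * r) := by linarith
  exact le_of_mul_le_mul_left h1 hN0

/-- part 2 -/
theorem part2 (RH : RiemannHypothesis) (ε : ℝ) (hε : 0 < ε) : ∀ᶠ R : ℕ in atTop,
    ∀ᶠ N : ℕ in atTop, (1 / (2 * Real.pi ^ 2) - ε) * Real.log R ≤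
    ∑ j ∈ Ico 1 R, (j : ℝ) * max (-((1 / N : ℝ) * cc ee N j)) 0 := by
  obtain ⟨C, hC, hup⟩ := aa_up RH
  have hpi3 := Real.pi_gt_three
  have hpi2 : (1 : ℝ) / Real.pi ^ 2 ≤ 1 := by
    rw [div_le_one (by positivity)]
    nlinarith
  have hlog : Tendsto (fun r : ℕ => Real.log (r : ℝ)) atTop atTop :=
    Real.tendsto_log_atTop.comp tendsto_natCast_atTop_atTop
  obtain ⟨f, hf⟩ : ∃ f : ℕ → ℕ, f = fun R : ℕ => ⌊(R : ℝ) / (1 + Real.log R) ^ 2⌋₊ := ⟨_, rfl⟩
  -- the size of `f`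
  have hsize : ∀ᶠ x : ℝ in atTop, 1 + Real.log x ≤ x ^ (ε / 4) ∧ (1 + Real.log x) ^ 2 ≤ x ^ (1 / 2 : ℝ) := by
    have h1 : ∀ᶠ x : ℝ in atTop, 1 + Real.log x ≤ x ^ (ε / 4) := by
      have h2 := (isLittleO_log_rpow_atTop (show (0 : ℝ) < ε / 8 by positivity)).bound
        (show (0 : ℝ) < 1 by norm_num)
      filter_upwards [h2, (tendsto_rpow_atTop (show (0 : ℝ) < ε / 8 by positivity)).eventually_ge_atTop 2,
        eventually_ge_atTop 1] with x h3 h4 h5
      rw [one_mul, Real.norm_of_nonneg (Real.log_nonneg h5), Real.norm_of_nonneg (by positivity)] at h3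
      have h6 : x ^ (ε / 4) = x ^ (ε / 8) * x ^ (ε / 8) := by
        rw [← Real.rpow_add (by linarith)]
        congr 1
        ring
      rw [h6]
      nlinarith
    have h1' : ∀ᶠ x : ℝ in atTop, (1 + Real.log x) ^ 2 ≤ x ^ (1 / 2 : ℝ) := by
      have h2 := (isLittleO_log_rpow_atTop (show (0 : ℝ) < 1 / 8 by positivity)).bound
        (show (0 : ℝ) < 1 by norm_num)
      filter_upwards [h2, (tendsto_rpow_atTop (show (0 : ℝ) < 1 / 8 by positivity)).eventually_ge_atTop 2,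
        eventually_ge_atTop 1] with x h3 h4 h5
      rw [one_mul, Real.norm_of_nonneg (Real.log_nonneg h5), Real.norm_of_nonneg (by positivity)] at h3
      have h6 : x ^ (1 / 2 : ℝ) = (x ^ (1 / 8 : ℝ) * x ^ (1 / 8 : ℝ)) ^ 2 := by
        rw [← Real.rpow_add (by linarith), ← Real.rpow_natCast, ← Real.rpow_mul (by linarith)]
        norm_num
      rw [h6]
      apply pow_le_pow_left₀
      · linarith [Real.log_nonneg h5]
      · nlinarith
    filter_upwards [h1, h1'] with x h2 h3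
    exact ⟨h2, h3⟩
  have hf_tend : Tendsto f atTop atTop := by
    rw [hf]
    apply tendsto_nat_floor_atTop.comp
    have h1 : Tendsto (fun x : ℝ => x ^ (1 / 2 : ℝ)) atTop atTop := tendsto_rpow_atTop (by norm_num)
    have h2 : Tendsto (fun x : ℝ => x / (1 + Real.log x) ^ 2) atTop atTop := by
      apply tendsto_atTop_mono' atTop _ h1
      filter_upwards [hsize, eventually_ge_atTop 1] with x hx hx1
      have h3 : 0 < (1 + Real.log x) ^ 2 := by
        have := Real.log_nonneg hx1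
        positivity
      rw [le_div_iff₀ h3]
      calc x ^ (1 / 2 : ℝ) * (1 + Real.log x) ^ 2 ≤ x ^ (1 / 2 : ℝ) * x ^ (1 / 2 : ℝ) :=
            mul_le_mul_of_nonneg_left hx.2 (by positivity)
        _ = x := by
            rw [← Real.rpow_add (by linarith)]
            norm_num
    exact h2.comp tendsto_natCast_atTop_atTop
  have hcast : Tendsto (fun r : ℕ => (r : ℝ)) atTop atTop := tendsto_natCast_atTop_atTop
  filter_upwards [hf_tend.eventually (aa_low RH (ε / 4) (by positivity)), hf_tend.eventually_ge_atTop 1,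
    hcast.eventually hsize, eventually_ge_atTop 3,
    hlog.eventually_ge_atTop ((C + 2) / (ε / 4))] with R h1 h2 h3 h4 h5
  obtain ⟨r, hr⟩ : ∃ r : ℕ, r = f R := ⟨_, rfl⟩
  rw [← hr] at h1 h2
  have hR1 : (1 : ℝ) ≤ R := by exact_mod_cast (by omega : 1 ≤ R)
  have hR0 : (0 : ℝ) < R := by linarith
  have hr0 : (0 : ℝ) < r := by exact_mod_cast h2
  have hlR : 0 ≤ Real.log (R : ℝ) := Real.log_nonneg hR1
  have hD : 1 ≤ (1 + Real.log (R : ℝ)) ^ 2 := by nlinarith
  have hD0 : 0 < (1 + Real.log (R : ℝ)) ^ 2 := by linarith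
  have hrR : (r : ℝ) ≤ R / (1 + Real.log (R : ℝ)) ^ 2 := by
    rw [hr, hf]
    exact Nat.floor_le (by positivity)
  have hrR2 : r ≤ R := by
    have : (r : ℝ) ≤ R := hrR.trans (div_le_self hR0.le hD)
    exact_mod_cast this
  have hrlow : R / (1 + Real.log (R : ℝ)) ^ 2 < r + 1 := by
    rw [hr, hf]
    exact Nat.lt_floor_add_one _
  have hr2 : (R : ℝ) / (2 * (1 + Real.log (R : ℝ)) ^ 2) ≤ r := by
    have h6 : (r : ℝ) + 1 ≤ 2 * r := by
      have : (1 : ℝ) ≤ r := by exact_mod_cast h2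
      linarith
    rw [div_le_iff₀ (by positivity)]
    rw [div_lt_iff₀ hD0] at hrlow
    nlinarith
  have hlogr : Real.log R - 2 * (ε / 4 * Real.log R) - 1 ≤ Real.log r := by
    have h6 : Real.log (R / (2 * (1 + Real.log (R : ℝ)) ^ 2)) ≤ Real.log r :=
      Real.log_le_log (by positivity) hr2
    rw [Real.log_div hR0.ne' (by positivity), Real.log_mul (by norm_num) hD0.ne', Real.log_pow] at h6
    have h7 : Real.log (1 + Real.log R) ≤ ε / 4 * Real.log R := by
      have h8 := Real.log_le_log (by linarith) h3.1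
      rwa [Real.log_rpow hR0] at h8
    have h8 := Real.log_two_lt_d9
    push_cast at h6
    linarith
  filter_upwards [h1, hup R (by omega), eventually_ge_atTop 1] with N g1 g2 g3
  have hN0 : (0 : ℝ) < N := by exact_mod_cast g3
  have h6 := two_scales (cc ee N) h2 hrR2
  have h7 : aa ee N r - (r : ℝ) / R * aa ee N R ≤ 2 * ∑ j ∈ Ico 1 R, (j : ℝ) * max (-cc ee N j) 0 := h6
  have h8 : (r : ℝ) / R * aa ee N R ≤ C * N := by
    have h9 : (r : ℝ) / R ≤ 1 / (1 + Real.log (R : ℝ)) ^ 2 := by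
      rw [div_le_div_iff₀ hR0 hD0]
      rw [le_div_iff₀ hD0] at hrR
      linarith
    calc (r : ℝ) / R * aa ee N R ≤ (r : ℝ) / R * (C * (1 + Real.log R) ^ 2 * N) :=
          mul_le_mul_of_nonneg_left g2 (by positivity)
      _ ≤ 1 / (1 + Real.log (R : ℝ)) ^ 2 * (C * (1 + Real.log R) ^ 2 * N) :=
          mul_le_mul_of_nonneg_right h9 (by positivity)
      _ = C * N := by field_simp
  have h9 : ∑ j ∈ Ico 1 R, (j : ℝ) * max (-((1 / N : ℝ) * cc ee N j)) 0 =
      (1 / N : ℝ) * ∑ j ∈ Ico 1 R, (j : ℝ) * max (-cc ee N j) 0 := by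
    rw [Finset.mul_sum]
    refine Finset.sum_congr rfl fun j _ => ?_
    have h10 : max (-((1 / N : ℝ) * cc ee N j)) 0 = (1 / N : ℝ) * max (-cc ee N j) 0 := by
      rw [← mul_neg, mul_max_of_nonneg _ _ (by positivity), mul_zero]
    rw [h10]
    ring
  rw [h9, one_div_mul_eq_div, le_div_iff₀ hN0]
  have h10 : (1 / Real.pi ^ 2 - ε / 4) * Real.log r * N - C * N ≤
      2 * ∑ j ∈ Ico 1 R, (j : ℝ) * max (-cc ee N j) 0 := by linarith
  -- comparison
  have h11 : (1 / Real.pi ^ 2 - 2 * ε) * Real.log R ≤ (1 / Real.pi ^ 2 - ε / 4) * Real.log r - C := by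
    have h5' : C + 2 ≤ ε / 4 * Real.log R := by
      rw [div_le_iff₀ (by positivity)] at h5
      linarith
    have hlr : Real.log r ≤ Real.log R := Real.log_le_log hr0 (by exact_mod_cast hrR2)
    have a1 : 1 / Real.pi ^ 2 * Real.log r ≥ 1 / Real.pi ^ 2 * (Real.log R - 2 * (ε / 4 * Real.log R) - 1) :=
      mul_le_mul_of_nonneg_left hlogr (by positivity)
    have a2 : ε / 4 * Real.log r ≤ ε / 4 * Real.log R := mul_le_mul_of_nonneg_left hlr (by positivity)
    have a3 : 1 / Real.pi ^ 2 * (2 * (ε / 4 * Real.log R) + 1) ≤ 1 * (2 * (ε / 4 * Real.log R) + 1) :=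
      mul_le_mul_of_nonneg_right hpi2 (by positivity)
    linarith
  have h12 := mul_le_mul_of_nonneg_right h11 hN0.le
  have h13 : (1 / (2 * Real.pi ^ 2) - ε) * Real.log R * N =
      ((1 / Real.pi ^ 2 - 2 * ε) * Real.log R * N) / 2 := by
    field_simp
    
  rw [h13]
  linarith

/-- part 3 -/
theorem part3 (RH : RiemannHypothesis) : ∀ᶠ r : ℕ in atTop, ∀ᶠ N : ℕ in atTop,
    (1 / 25 : ℝ) ≤ (1 / N : ℝ) * cc ee N 0 ∧
    ∑ j ∈ Ico 1 r, (1 - (j : ℝ) / r) * ((1 / N : ℝ) * cc ee N j) ≤ -(1 / 50) := by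
  obtain ⟨C, hC, h⟩ := part1u RH
  have hlim : Tendsto (fun r : ℕ => C * (1 + Real.log r) ^ 2 / r) atTop (nhds 0) := by
    have h1 : Tendsto (fun x : ℝ => Real.log x ^ 2 / x) atTop (nhds 0) := by
      have := (isLittleO_log_rpow_rpow_atTop 2 one_pos).tendsto_div_nhds_zero
      refine this.congr fun x => ?_
      rw [Real.rpow_one]
      norm_cast
    have h2 : Tendsto (fun x : ℝ => Real.log x / x) atTop (nhds 0) := by
      have := (isLittleO_log_rpow_rpow_atTop 1 one_pos).tendsto_div_nhds_zero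
      refine this.congr fun x => ?_
      rw [Real.rpow_one, Real.rpow_one]
    have h3 : Tendsto (fun x : ℝ => 1 / x) atTop (nhds 0) := by
      simpa using tendsto_inv_atTop_zero (𝕜 := ℝ)
    have h4 : Tendsto (fun x : ℝ => C * (1 / x + 2 * (Real.log x / x) + Real.log x ^ 2 / x)) atTop
        (nhds (C * (0 + 2 * 0 + 0))) := ((h3.add (h2.const_mul 2)).add h1).const_mul C
    have h5 : C * (0 + 2 * 0 + 0 : ℝ) = 0 := by ring
    rw [h5] at h4
    refine (h4.comp tendsto_natCast_atTop_atTop).congr fun r => ?_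
    simp only [Function.comp]
    ring
  filter_upwards [hlim.eventually_lt_const (show (0 : ℝ) < 0.0002 by norm_num), eventually_ge_atTop 1]
    with r h1 hr
  filter_upwards [h r hr, c0_low RH, eventually_ge_atTop 1] with N h2 h3 h4
  have hN0 : (0 : ℝ) < N := by exact_mod_cast h4
  have h5 : (0.0402 : ℝ) ≤ (1 / N : ℝ) * cc ee N 0 := by
    rw [one_div_mul_eq_div, le_div_iff₀ hN0]
    exact h3
  constructor
  · linarith
  · linarith

end Pool.Agent.X112.GS
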