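import Pool.Agent.X112.GS.Diff

/-! # The theorem of Morse and Hedlund, approximate form -/

set_option autoImplicit false

open Filter Finset

namespace Pool.Agent.X112.GS

open Classical in
/-- the block of length `l` at the position `i` -/
noncomputable def blk {α : Type} (s : ℕ → α) (l i : ℕ) : ℕ → Option α :=
  fun t => if t < l then some (s (i + t)) else none

lemma blk_eq {α : Type} {s : ℕ → α} {l i j : ℕ} :
    blk s l i = blk s l j ↔ ∀ t < l, s (i + t) = s (j + t) := by
  constructor
  · intro h t ht
    have := congrFun h t
    unfold blk at this
    rw [if_pos ht, if_pos ht] at this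
    exact Option.some.inj this
  · intro h
    funext t
    unfold blk
    split_ifs with ht
    · rw [h t ht]
    · rfl

open Classical in
/-- **Morse and Hedlund** -/
theorem mh {α : Type} (s : ℕ → α) (P L : ℕ) (hP : L + 1 ≤ P)
    (h : ((range P).image (blk s L)).card ≤ L) :
    ∃ q : ℕ, 1 ≤ q ∧ q ≤ L ∧ ∀ m, L ≤ m → m + q < P → s (m + q) = s m := by
  -- a length at which the complexity does not grow
  obtain ⟨l, hl, hlc⟩ : ∃ l, l < L ∧
      ((range P).image (blk s (l + 1))).card ≤ ((range P).image (blk s l)).card := by
    by_contra hcon
    push Not at hcon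
    have h1 : ∀ l ≤ L, l + 1 ≤ ((range P).image (blk s l)).card := by
      intro l
      induction l with
      | zero =>
        intro _
        have : ((range P).image (blk s 0)).Nonempty := by
          rw [Finset.image_nonempty, Finset.nonempty_range_iff]
          omega
        have := Finset.card_pos.mpr this
        omega
      | succ l ih =>
        intro hl
        have h2 := ih (by omega)
        have h3 := hcon l (by omega)
        omega
    have := h1 L le_rfl
    omega
  -- determinism
  have hdet : ∀ i < P, ∀ j < P, blk s l i = blk s l j → blk s (l + 1) i = blk s (l + 1) j := by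
    obtain ⟨R, hR⟩ : ∃ R : (ℕ → Option α) → (ℕ → Option α), R = fun g t => if t < l then g t else none :=
      ⟨_, rfl⟩
    have hRb : ∀ i, R (blk s (l + 1) i) = blk s l i := by
      intro i
      rw [hR]
      funext t
      dsimp only
      unfold blk
      by_cases ht : t < l
      · rw [if_pos ht, if_pos ht, if_pos (by omega)]
      · rw [if_neg ht, if_neg ht]
    have himg : ((range P).image (blk s (l + 1))).image R = (range P).image (blk s l) := by
      rw [Finset.image_image]
      apply Finset.image_congr
      intro i _
      exact hRb i
    have hcard : (((range P).image (blk s (l + 1))).image R).card =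
        ((range P).image (blk s (l + 1))).card := by
      apply le_antisymm Finset.card_image_le
      rw [himg]
      exact hlc
    have hinj := Finset.card_image_iff.mp hcard
    intro i hi j hj hij
    apply hinj
    · rw [Finset.mem_coe]; exact Finset.mem_image_of_mem _ (Finset.mem_range.mpr hi)
    · rw [Finset.mem_coe]; exact Finset.mem_image_of_mem _ (Finset.mem_range.mpr hj)
    · rw [hRb, hRb]; exact hij
  -- two equal blocks among the first `L + 1` ones
  have hmono : ((range P).image (blk s l)).card ≤ L := by
    refine le_trans ?_ h
    obtain ⟨R, hR⟩ : ∃ R : (ℕ → Option α) → (ℕ → Option α), R = fun g t => if t < l then g t else none :=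
      ⟨_, rfl⟩
    have himg : ((range P).image (blk s L)).image R = (range P).image (blk s l) := by
      rw [Finset.image_image]
      apply Finset.image_congr
      intro i _
      rw [hR]
      funext t
      simp only [Function.comp]
      unfold blk
      by_cases ht : t < l
      · rw [if_pos ht, if_pos ht, if_pos (by omega)]
      · rw [if_neg ht, if_neg ht]
    rw [← himg]
    exact Finset.card_image_le
  obtain ⟨i, hi, j, hj, hij, hb⟩ := Finset.exists_ne_map_eq_of_card_lt_of_maps_to
    (s := range (L + 1)) (t := (range P).image (blk s l)) (f := blk s l)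
    (by rw [Finset.card_range]; omega)
    (fun i hi => Finset.mem_image_of_mem _ (Finset.mem_range.mpr (by
      have := Finset.mem_range.mp hi
      omega)))
  wlog hlt : i < j generalizing i j
  · exact this j hj i hi hij.symm hb.symm (by omega)
  rw [Finset.mem_range] at hi hj
  refine ⟨j - i, by omega, by omega, ?_⟩
  have hstep : ∀ t, j + t < P → blk s l (i + t) = blk s l (j + t) := by
    intro t
    induction t with
    | zero => intro _; exact hb
    | succ t ih =>
      intro ht
      have h1 := ih (by omega)
      have h2 := hdet (i + t) (by omega) (j + t) (by omega) h1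
      rw [blk_eq] at h2 ⊢
      intro r hr
      have := h2 (r + 1) (by omega)
      rw [show i + (t + 1) + r = i + t + (r + 1) by ring, show j + (t + 1) + r = j + t + (r + 1) by ring]
      exact this
  intro m hm hmq
  have h1 := hstep (m - i) (by omega)
  have h2 := hdet (i + (m - i)) (by omega) (j + (m - i)) (by omega) h1
  rw [blk_eq] at h2
  have h3 := h2 0 (by omega)
  rw [add_zero, add_zero, show i + (m - i) = m by omega, show j + (m - i) = m + (j - i) by omega] at h3
  exact h3.symm

/-- iterating a period -/
lemma per_iter {α : Type} {s : ℕ → α} {P L q : ℕ} (h : ∀ m, L ≤ m → m + q < P → s (m + q) = s m) :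
    ∀ (c m : ℕ), L ≤ m → m + c * q < P → s (m + c * q) = s m := by
  intro c
  induction c with
  | zero => intro m _ _; simp
  | succ c ih =>
    intro m hm hP
    have e : m + (c + 1) * q = m + c * q + q := by ring
    rw [e] at hP ⊢
    rw [h (m + c * q) (by omega) hP, ih m hm (by omega)]

/-- a scale without differences: among the differences of a finite set `V` of reals there is a
scale `s` with no difference in `(s, 10 s]` -/
lemma gap_scale (W : Finset ℝ) (ε : ℝ) (_hε : 0 < ε) : ∃ i : ℕ, i ≤ W.card ∧
    ∀ w ∈ W, ¬ (ε * 10 ^ i < w ∧ w ≤ ε * 10 ^ (i + 1)) := by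
  by_contra hcon
  push Not at hcon
  have h : ∀ i : ℕ, ∃ w : ℝ, i ≤ W.card → (w ∈ W ∧ ε * 10 ^ i < w ∧ w ≤ ε * 10 ^ (i + 1)) := by
    intro i
    by_cases hi : i ≤ W.card
    · obtain ⟨w, hw, h1, h2⟩ := hcon i hi
      exact ⟨w, fun _ => ⟨hw, h1, h2⟩⟩
    · exact ⟨0, fun h => absurd h hi⟩
  choose w hw using h
  have hmono : ∀ i j : ℕ, i < j → j ≤ W.card → w i < w j := by
    intro i j hij hj
    have h1 := (hw i (by omega)).2.2
    have h2 := (hw j hj).2.1
    have h3 : ε * 10 ^ (i + 1) ≤ ε * 10 ^ j := by
      apply mul_le_mul_of_nonneg_left _ (by linarith)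
      exact pow_le_pow_right₀ (by norm_num) (by omega)
    linarith
  have h1 : (Finset.range (W.card + 1)).card ≤ W.card := by
    apply Finset.card_le_card_of_injOn w
    · intro i hi
      rw [Finset.mem_coe, Finset.mem_range] at hi
      exact (hw i (by omega)).1
    · intro i hi j hj hij
      rw [Finset.mem_coe, Finset.mem_range] at hi hj
      rcases lt_trichotomy i j with h | h | h
      · have := hmono i j h (by omega)
        linarith
      · exact h
      · have := hmono j i h (by omega)
        linarith
  rw [Finset.card_range] at h1
  omega

end Pool.Agent.X112.GS
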