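import Pool.Agent.X112.GS.Pat
import Pool.Agent.Y743.CL.Fa

/-! # The sums of `r` consecutive spacings of the zeros of zeta: anti-concentration -/

set_option autoImplicit false

open Filter Finset

namespace Pool.Agent.X112.GS

open SG (ord NZ)
open Pool.Agent.Y743.CL (Ph lm Ev bU bL Ph_lip gs_bot gs_top gs_compl gs)

/-- the unfolded ordinates -/
noncomputable def yy (n : ℕ) : ℝ := ord n * Real.log (ord n) / (2 * Real.pi)

/-- the number of zeros in a dyadic block -/
lemma block_low (δ : ℝ) (hδ : 0 < δ) : ∃ T0 : ℝ, 1 ≤ T0 ∧ ∀ T : ℝ, T0 ≤ T →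
    (1 - δ) * (T * Real.log T / (2 * Real.pi)) ≤ (NZ (2 * T) : ℝ) - NZ T := by
  obtain ⟨C, T1, hC, hT1, h⟩ := H370.nn_asymp H370.good_zeta
  have hpi := Real.pi_pos
  obtain ⟨T2, hT2⟩ := (Real.tendsto_log_atTop.eventually_ge_atTop (2 * Real.pi * C / δ)).exists_forall_of_atTop
  refine ⟨max (max T1 T2) 1, le_max_right _ _, fun T hT => ?_⟩
  have hTT1 : T1 ≤ T := ((le_max_left _ _).trans (le_max_left _ _)).trans hT
  have hTT2 : T2 ≤ T := ((le_max_right _ _).trans (le_max_left _ _)).trans hT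
  have hT1' : 1 ≤ T := (le_max_right _ _).trans hT
  have h1 := hT2 T hTT2
  rw [div_le_iff₀ hδ] at h1
  have h2 := h T hTT1 T (2 * T) le_rfl (by linarith) (by linarith) le_rfl
  have h3 := (abs_le.mp h2).1
  have hfin := H370.zset_finite H370.good_zeta T (2 * T) hT1'
  have e : H370.NN riemannZeta T (2 * T) = ∑ s ∈ hfin.toFinset, H370.mult riemannZeta s := by
    unfold H370.NN
    exact finsum_mem_eq_finite_toFinset_sum _ hfin
  have h4 := SG.NZ_add_le T (2 * T) (by linarith) hfin.toFinset (by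
    intro s hs
    rw [Set.Finite.mem_toFinset] at hs
    obtain ⟨a1, a2, a3, a4, a5⟩ := hs
    exact ⟨⟨a5, a1, a2, by linarith, a4⟩, a3⟩)
  have h5 : (NZ T : ℝ) + (H370.NN riemannZeta T (2 * T) : ℝ) ≤ NZ (2 * T) := by
    rw [e]
    exact_mod_cast h4
  have h6 : C * T ≤ δ * (T * Real.log T / (2 * Real.pi)) := by
    rw [← mul_div_assoc, le_div_iff₀ (by positivity)]
    nlinarith
  linarith

lemma mem_block {T : ℝ} {n : ℕ} (h : n ∈ Finset.Ioc (NZ T) (NZ (2 * T))) : 1 ≤ n := by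
  have := (Finset.mem_Ioc.mp h).1
  omega

/-- anti-concentration in a dyadic block -/
lemma block_anti (w δ : ℝ) (hδ : 0 < δ) : ∀ᶠ r : ℕ in atTop, ∃ T0 : ℝ, 1 ≤ T0 ∧ ∀ T : ℝ, T0 ≤ T →
    (((Finset.Ioc (NZ T) (NZ (2 * T))).filter (fun n => |yy (n + r) - yy n - r| ≤ w)).card : ℝ) ≤
      5 * δ * (T * Real.log T / (2 * Real.pi)) := by
  classical
  have hpi := Real.pi_pos
  obtain ⟨Tb, hTb1, hTb⟩ := block_low δ hδ
  have hlm : Tendsto (fun r : ℕ => δ * lm r) atTop atTop := by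
    apply Tendsto.const_mul_atTop hδ
    unfold lm
    apply Tendsto.atTop_div_const Real.pi_pos
    exact Real.tendsto_sqrt_atTop.comp (Real.tendsto_log_atTop.comp tendsto_natCast_atTop_atTop)
  filter_upwards [bU δ δ hδ, bL (-δ) δ hδ, hlm.eventually_gt_atTop w] with r h1 h2 h3
  refine ⟨max Tb (Real.exp (r * Real.log r)), hTb1.trans (le_max_left _ _), fun T hT => ?_⟩
  have hTb' : Tb ≤ T := (le_max_left _ _).trans hT
  have hT1 : 1 ≤ T := hTb1.trans hTb'
  have hlogT : 0 ≤ Real.log T := Real.log_nonneg hT1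
  have hrT : r * Real.log r ≤ 2 * Real.log T := by
    have h4 : Real.exp (r * Real.log r) ≤ T := (le_max_right _ _).trans hT
    have h5 := (Real.le_log_iff_exp_le (by linarith)).mpr h4
    linarith
  have g1 := h1 T hT1 hrT
  have g2 := h2 T hT1 hrT
  have g3 := hTb T hTb'
  obtain ⟨X, hX⟩ : ∃ X : ℝ, X = T * Real.log T / (2 * Real.pi) := ⟨_, rfl⟩
  have hX0 : 0 ≤ X := by rw [hX]; positivity
  rw [← hX] at g1 g2 g3 ⊢
  obtain ⟨A, hA⟩ : ∃ A : Finset ℕ, A = (Finset.Ioc (NZ T) (NZ (2 * T))).filter (fun n => Ev δ r n) :=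
    ⟨_, rfl⟩
  obtain ⟨B, hB⟩ : ∃ B : Finset ℕ, B = (Finset.Ioc (NZ T) (NZ (2 * T))).filter
      (fun n => ¬ Ev (-δ) r n) := ⟨_, rfl⟩
  have hA' : (A.card : ℝ) ≤ X * (Ph δ + δ) := by rw [hA]; exact g1
  have hB' : (B.card : ℝ) ≤ X * (1 - Ph (-δ) + δ) := by
    rw [hB]
    refine le_trans (le_of_eq ?_) g2
    congr!
  have hlm0 : 0 ≤ lm r := Pool.Agent.Y743.CL.lm_nonneg r
  have hunion : Finset.Ioc (NZ T) (NZ (2 * T)) ⊆ A ∪ B := by
    intro n hn
    rw [Finset.mem_union, hA, hB, Finset.mem_filter, Finset.mem_filter]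
    by_cases h : Ev (-δ) r n
    · left
      refine ⟨hn, ?_⟩
      unfold Ev at h ⊢
      nlinarith
    · exact Or.inr ⟨hn, h⟩
  have hinter : (Finset.Ioc (NZ T) (NZ (2 * T))).filter (fun n => |yy (n + r) - yy n - r| ≤ w) ⊆
      A ∩ B := by
    intro n hn
    rw [Finset.mem_filter] at hn
    obtain ⟨hn1, hn2⟩ := hn
    have hn3 := abs_le.mp hn2
    unfold yy at hn3
    rw [Finset.mem_inter, hA, hB, Finset.mem_filter, Finset.mem_filter]
    refine ⟨⟨hn1, ?_⟩, hn1, ?_⟩
    · unfold Ev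
      linarith [hn3.2]
    · unfold Ev
      rw [not_le]
      linarith [hn3.1]
  have c1 := Finset.card_union_add_card_inter A B
  have c2 := Finset.card_le_card hunion
  have c3 := Finset.card_le_card hinter
  rw [Nat.card_Ioc] at c2
  have hmono : NZ T ≤ NZ (2 * T) := SG.NZ_mono (by linarith)
  have c4 : (((Finset.Ioc (NZ T) (NZ (2 * T))).filter
      (fun n => |yy (n + r) - yy n - r| ≤ w)).card : ℝ) ≤ A.card + B.card - (NZ (2 * T) - NZ T) := by
    have : ((Finset.Ioc (NZ T) (NZ (2 * T))).filter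
      (fun n => |yy (n + r) - yy n - r| ≤ w)).card + NZ (2 * T) ≤ A.card + B.card + NZ T := by omega
    have h5 : ((((Finset.Ioc (NZ T) (NZ (2 * T))).filter
      (fun n => |yy (n + r) - yy n - r| ≤ w)).card + NZ (2 * T) : ℕ) : ℝ) ≤
        ((A.card + B.card + NZ T : ℕ) : ℝ) := by exact_mod_cast this
    push_cast at h5
    linarith
  have h6 := Ph_lip (show -δ ≤ δ by linarith)
  have h7 : X * (Ph δ + δ) + X * (1 - Ph (-δ) + δ) - (1 - δ) * X ≤ 5 * δ * X := by
    have : X * (Ph δ) ≤ X * (Ph (-δ) + (δ - -δ)) := mul_le_mul_of_nonneg_left h6 hX0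
    linarith
  linarith

/-- the law of large numbers in a dyadic block -/
lemma block_lln (κ δ : ℝ) (hκ : 0 < κ) (hδ : 0 < δ) : ∀ᶠ r : ℕ in atTop, ∃ T0 : ℝ, 1 ≤ T0 ∧
    ∀ T : ℝ, T0 ≤ T →
    (((Finset.Ioc (NZ T) (NZ (2 * T))).filter (fun n => κ * r ≤ |yy (n + r) - yy n - r|)).card : ℝ) ≤
      4 * δ * (T * Real.log T / (2 * Real.pi)) := by
  classical
  have hpi := Real.pi_pos
  obtain ⟨K1, hK1⟩ := gs_bot hδ
  obtain ⟨K2, hK2⟩ := gs_top hδ
  obtain ⟨K, hK⟩ : ∃ K : ℝ, K = max K1 K2 := ⟨_, rfl⟩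
  have hb : Ph (-K) ≤ δ := hK1 K (by rw [hK]; exact le_max_left _ _)
  have ht : 1 - Ph K ≤ δ := by
    rw [← gs_compl]
    refine le_trans ?_ (hK2 K (by rw [hK]; exact le_max_right _ _))
    exact MeasureTheory.measureReal_mono Set.Ioi_subset_Ici_self (MeasureTheory.measure_ne_top _ _)
  have hlm : Tendsto (fun r : ℕ => (|K| * lm r + 1) / r) atTop (nhds 0) :=
    Pool.Agent.Y743.CL.as1 |K| 1
  filter_upwards [bU (-K) δ hδ, bL K δ hδ, hlm.eventually_lt_const hκ, eventually_ge_atTop 1]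
    with r h1 h2 h3 hr
  have hr0 : (0 : ℝ) < r := by exact_mod_cast hr
  rw [div_lt_iff₀ hr0] at h3
  refine ⟨max 1 (Real.exp (r * Real.log r)), le_max_left _ _, fun T hT => ?_⟩
  have hT1 : 1 ≤ T := (le_max_left _ _).trans hT
  have hlogT : 0 ≤ Real.log T := Real.log_nonneg hT1
  have hrT : r * Real.log r ≤ 2 * Real.log T := by
    have h4 : Real.exp (r * Real.log r) ≤ T := (le_max_right _ _).trans hT
    have h5 := (Real.le_log_iff_exp_le (by linarith)).mpr h4
    linarith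
  have g1 := h1 T hT1 hrT
  have g2 := h2 T hT1 hrT
  obtain ⟨X, hX⟩ : ∃ X : ℝ, X = T * Real.log T / (2 * Real.pi) := ⟨_, rfl⟩
  have hX0 : 0 ≤ X := by rw [hX]; positivity
  rw [← hX] at g1 g2 ⊢
  have hlm0 : 0 ≤ lm r := Pool.Agent.Y743.CL.lm_nonneg r
  have hK0 : K * lm r ≤ |K| * lm r := mul_le_mul_of_nonneg_right (le_abs_self K) hlm0
  have hsub : (Finset.Ioc (NZ T) (NZ (2 * T))).filter (fun n => κ * r ≤ |yy (n + r) - yy n - r|) ⊆
      (Finset.Ioc (NZ T) (NZ (2 * T))).filter (fun n => Ev (-K) r n) ∪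
      (Finset.Ioc (NZ T) (NZ (2 * T))).filter (fun n => ¬ Ev K r n) := by
    intro n hn
    rw [Finset.mem_filter] at hn
    obtain ⟨hn1, hn2⟩ := hn
    unfold yy at hn2
    rw [Finset.mem_union, Finset.mem_filter, Finset.mem_filter]
    rcases le_abs.mp hn2 with h | h
    · right
      refine ⟨hn1, ?_⟩
      unfold Ev
      rw [not_le]
      linarith
    · left
      refine ⟨hn1, ?_⟩
      unfold Ev
      linarith
  have c1 := (Finset.card_le_card hsub).trans (Finset.card_union_le _ _)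
  have c2 : (((Finset.Ioc (NZ T) (NZ (2 * T))).filter
      (fun n => κ * r ≤ |yy (n + r) - yy n - r|)).card : ℝ) ≤
      ((Finset.Ioc (NZ T) (NZ (2 * T))).filter (fun n => Ev (-K) r n)).card +
      ((Finset.Ioc (NZ T) (NZ (2 * T))).filter (fun n => ¬ Ev K r n)).card := by
    exact_mod_cast c1
  have c3 : (((Finset.Ioc (NZ T) (NZ (2 * T))).filter (fun n => ¬ Ev K r n)).card : ℝ) ≤
      X * (1 - Ph K + δ) := by
    refine le_trans (le_of_eq ?_) g2
    congr!
  have c4 : X * (Ph (-K) + δ) ≤ X * (2 * δ) := mul_le_mul_of_nonneg_left (by linarith) hX0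
  have c5 : X * (1 - Ph K + δ) ≤ X * (2 * δ) := mul_le_mul_of_nonneg_left (by linarith) hX0
  linarith

/-- from the dyadic blocks to all indices -/
lemma dyadic (P : ℕ → Prop) [DecidablePred P] (θ T0 : ℝ) (hθ : 0 < θ) (hT0 : 1 ≤ T0)
    (h : ∀ T : ℝ, T0 ≤ T → (((Finset.Ioc (NZ T) (NZ (2 * T))).filter P).card : ℝ) ≤
      θ * (T * Real.log T / (2 * Real.pi))) :
    ∀ᶠ N : ℕ in atTop, (((Icc 1 N).filter P).card : ℝ) ≤ 17 * θ * N := by
  have hpi := Real.pi_pos
  obtain ⟨X, hX⟩ : ∃ X : ℝ → ℝ, X = fun T => T * Real.log T / (2 * Real.pi) := ⟨_, rfl⟩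
  have key : ∀ k : ℕ, ∀ T : ℝ, T0 ≤ T → T < T0 * 2 ^ (k + 1) →
      (((Icc 1 (NZ T)).filter P).card : ℝ) ≤ NZ (2 * T0) + 2 * θ * X T := by
    intro k
    induction k with
    | zero =>
      intro T hT hT2
      have hX0 : 0 ≤ X T := by
        rw [hX]
        have := Real.log_nonneg (hT0.trans hT)
        have : 0 ≤ T := by linarith
        positivity
      have h1 : ((Icc 1 (NZ T)).filter P).card ≤ NZ (2 * T0) := by
        refine (Finset.card_filter_le _ _).trans ?_
        rw [Nat.card_Icc, Nat.add_sub_cancel]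
        apply SG.NZ_mono
        rw [zero_add, pow_one] at hT2
        linarith
      have h2 : (((Icc 1 (NZ T)).filter P).card : ℝ) ≤ NZ (2 * T0) := by exact_mod_cast h1
      have : 0 ≤ 2 * θ * X T := by positivity
      linarith
    | succ k ih =>
      intro T hT hT2
      by_cases hT3 : T < T0 * 2 ^ (k + 1)
      · exact ih T hT hT3
      push Not at hT3
      have hpow : (1 : ℝ) ≤ 2 ^ k := one_le_pow₀ (by norm_num)
      have hT4 : T0 ≤ T / 2 := by
        rw [pow_succ] at hT3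
        nlinarith
      have h1 := ih (T / 2) hT4 (by
        rw [pow_succ] at hT2
        linarith)
      have h2 := h (T / 2) hT4
      rw [show 2 * (T / 2) = T by ring] at h2
      have h3 : (Icc 1 (NZ T)).filter P ⊆ (Icc 1 (NZ (T / 2))).filter P ∪
          (Finset.Ioc (NZ (T / 2)) (NZ T)).filter P := by
        intro n hn
        rw [Finset.mem_filter, Finset.mem_Icc] at hn
        rw [Finset.mem_union, Finset.mem_filter, Finset.mem_filter, Finset.mem_Icc,
          Finset.mem_Ioc]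
        by_cases hh : n ≤ NZ (T / 2)
        · exact Or.inl ⟨⟨hn.1.1, hh⟩, hn.2⟩
        · exact Or.inr ⟨⟨by omega, hn.1.2⟩, hn.2⟩
      have h4 := (Finset.card_le_card h3).trans (Finset.card_union_le _ _)
      have h5 : (((Icc 1 (NZ T)).filter P).card : ℝ) ≤ ((Icc 1 (NZ (T / 2))).filter P).card +
          ((Finset.Ioc (NZ (T / 2)) (NZ T)).filter P).card := by exact_mod_cast h4
      have hT1 : 1 ≤ T / 2 := hT0.trans hT4
      have h6 : X (T / 2) ≤ X T / 2 := by
        rw [hX]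
        dsimp only
        rw [div_div, mul_comm (2 * Real.pi) 2, ← div_div (T * Real.log T) 2]
        apply div_le_div_of_nonneg_right _ (by positivity)
        have h7 : Real.log (T / 2) ≤ Real.log T := Real.log_le_log (by linarith) (by linarith)
        have h8 : T / 2 * Real.log (T / 2) ≤ T / 2 * Real.log T :=
          mul_le_mul_of_nonneg_left h7 (by linarith)
        linarith
      have h9 : 0 ≤ X T := by
        rw [hX]
        have := Real.log_nonneg (hT0.trans hT)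
        have : 0 ≤ T := by linarith
        positivity
      have h10 : θ * (T / 2 * Real.log (T / 2) / (2 * Real.pi)) = θ * X (T / 2) := by rw [hX]
      rw [h10] at h2
      have h11 : θ * X (T / 2) ≤ θ * (X T / 2) := mul_le_mul_of_nonneg_left h6 hθ.le
      have h12 : 0 ≤ θ * X T := by positivity
      linarith
  -- the sizes
  obtain ⟨T1, hT1⟩ := W200.HW.NZ_lower (1 / 2) (by norm_num)
  have hord : Tendsto ord atTop atTop := Pool.Agent.Y743.LR.ord_tendsto
  have hbig : ∀ᶠ N : ℕ in atTop, (NZ (2 * T0) : ℝ) ≤ θ * N :=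
    (tendsto_natCast_atTop_atTop.const_mul_atTop hθ).eventually_ge_atTop _
  filter_upwards [hord.eventually_ge_atTop (max (max T0 (2 * T1)) 4), hbig, eventually_ge_atTop 1]
    with N h1 h2 h3
  obtain ⟨T, hT⟩ : ∃ T : ℝ, T = ord N := ⟨_, rfl⟩
  rw [← hT] at h1
  have hTT0 : T0 ≤ T := ((le_max_left _ _).trans (le_max_left _ _)).trans h1
  have hTT1 : 2 * T1 ≤ T := ((le_max_right _ _).trans (le_max_left _ _)).trans h1
  have hT4 : 4 ≤ T := (le_max_right _ _).trans h1
  have hN1 : N ≤ NZ T := by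
    rw [hT]
    exact (SG.ord_le_iff h3 _).mp le_rfl
  have hN2 : NZ (T / 2) < N := by
    by_contra hcon
    push Not at hcon
    have := (SG.ord_le_iff h3 _).mpr hcon
    rw [← hT] at this
    linarith
  obtain ⟨k, hk⟩ : ∃ k : ℕ, T < T0 * 2 ^ (k + 1) := by
    obtain ⟨k, hk⟩ := pow_unbounded_of_one_lt (T / T0) (show (1 : ℝ) < 2 by norm_num)
    refine ⟨k, ?_⟩
    rw [div_lt_iff₀ (by linarith)] at hk
    have : (2 : ℝ) ^ k ≤ 2 ^ (k + 1) := pow_le_pow_right₀ (by norm_num) (by omega)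
    nlinarith
  have h4 := key k T hTT0 hk
  have h5 : ((Icc 1 N).filter P).card ≤ ((Icc 1 (NZ T)).filter P).card := by
    apply Finset.card_le_card
    intro n hn
    rw [Finset.mem_filter, Finset.mem_Icc] at hn ⊢
    exact ⟨⟨hn.1.1, hn.1.2.trans hN1⟩, hn.2⟩
  have h5' : (((Icc 1 N).filter P).card : ℝ) ≤ ((Icc 1 (NZ T)).filter P).card := by exact_mod_cast h5
  have h6 := hT1 (T / 2) (by linarith)
  have h7 : (NZ (T / 2) : ℝ) ≤ N := by exact_mod_cast hN2.le
  have hlog : Real.log T ≤ 2 * Real.log (T / 2) := by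
    have e : 2 * Real.log (T / 2) = Real.log ((T / 2) ^ 2) := by
      rw [Real.log_pow]; norm_num
    rw [e]
    apply Real.log_le_log (by linarith)
    nlinarith
  have h8 : X T ≤ 8 * N := by
    have h9 : X T ≤ 8 * ((1 - 1 / 2) * (T / 2 / (2 * Real.pi) * Real.log (T / 2))) := by
      rw [hX]
      dsimp only
      have e : 8 * ((1 - 1 / 2) * (T / 2 / (2 * Real.pi) * Real.log (T / 2))) =
          T * (2 * Real.log (T / 2)) / (2 * Real.pi) := by ring
      rw [e]
      apply div_le_div_of_nonneg_right _ (by positivity)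
      exact mul_le_mul_of_nonneg_left hlog (by linarith)
    linarith
  have h10 : 2 * θ * X T ≤ 2 * θ * (8 * N) := mul_le_mul_of_nonneg_left h8 (by positivity)
  linarith

theorem anti_yy : Anti yy := by
  intro w θ hθ
  filter_upwards [block_anti w (θ / 85) (by positivity)] with r hr
  obtain ⟨T0, hT0, h⟩ := hr
  have := dyadic (fun n => |yy (n + r) - yy n - r| ≤ w) (5 * (θ / 85)) T0 (by positivity) hT0 h
  filter_upwards [this] with N hN
  refine hN.trans (le_of_eq ?_)
  ring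

theorem lln_yy : Lln yy := by
  intro κ θ hκ hθ
  filter_upwards [block_lln κ (θ / 68) hκ (by positivity)] with r hr
  obtain ⟨T0, hT0, h⟩ := hr
  have := dyadic (fun n => κ * r ≤ |yy (n + r) - yy n - r|) (4 * (θ / 68)) T0 (by positivity) hT0 h
  filter_upwards [this] with N hN
  refine hN.trans (le_of_eq ?_)
  ring

end Pool.Agent.X112.GS
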