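import Pool.Agent.X112.GS.Rec3
import Pool.Agent.X112.GS.Fin

/-! # No approximate linear recurrence: the zeros of zeta -/

set_option autoImplicit false

open Filter Finset

namespace Pool.Agent.X112.GS

open SG (ord NZ)

lemma tight_yy : Tight (inc yy) := by
  intro θ hθ
  obtain ⟨C, hC0, hC⟩ := sum_abs
  refine ⟨2 * C / θ, by positivity, ?_⟩
  filter_upwards [eventually_ge_atTop 1] with N hN
  have hN1 : (1 : ℝ) ≤ N := by exact_mod_cast hN
  have h : ∑ n ∈ Icc 1 N, |(fun n => |inc yy n|) n| ≤ C * (N + 1) := by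
    simpa only [abs_abs] using hC N
  refine (markov (x := fun n => |inc yy n|) h (M := 2 * C / θ) (by positivity)).trans ?_
  rw [div_le_iff₀ (by positivity)]
  have e : θ * N * (2 * C / θ) = 2 * C * N := by field_simp
  rw [e]
  nlinarith

/-- the normalised gaps of the problem -/
noncomputable def dq (n : ℕ) : ℝ := (ord (n + 1) - ord n) / (2 * Real.pi) * Real.log (ord n / (2 * Real.pi))

lemma close_one (K ε : ℝ) (hK : 0 < K) (hε : 0 < ε) : ∀ᶠ n : ℕ in atTop, |inc yy n| ≤ K →
    |dq n - inc yy n| ≤ ε := by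
  have hpi := Real.pi_pos
  have hpi3 := Real.pi_gt_three
  have hpi4 := Real.pi_lt_four
  have hord : Tendsto ord atTop atTop := Pool.Agent.Y743.LR.ord_tendsto
  have hlog : Tendsto (fun n => Real.log (ord n)) atTop atTop := Real.tendsto_log_atTop.comp hord
  filter_upwards [hord.eventually_ge_atTop 1, hlog.eventually_ge_atTop (2 * Real.pi * K),
    hlog.eventually_ge_atTop (4 * Real.pi * K / ε), eventually_ge_atTop 1,
    hlog.eventually_ge_atTop 1] with n h1 h2 h3 hn h5 hK'
  have hmono : ord n ≤ ord (n + 1) := SG.ord_mono hn (by omega)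
  obtain ⟨a, ha⟩ : ∃ a : ℝ, a = ord n := ⟨_, rfl⟩
  obtain ⟨g, hg⟩ : ∃ g : ℝ, g = ord (n + 1) - ord n := ⟨_, rfl⟩
  have hg0 : 0 ≤ g := by rw [hg]; linarith
  have e1 : ord (n + 1) = a + g := by rw [hg, ha]; ring
  have hinc : inc yy n = ((a + g) * Real.log (a + g) - a * Real.log a) / (2 * Real.pi) := by
    unfold inc yy
    rw [e1, ← ha]
    ring
  have hdq : dq n = g / (2 * Real.pi) * Real.log (a / (2 * Real.pi)) := by
    unfold dq
    rw [← hg, ← ha]
  rw [← ha] at h1 h2 h3 h5
  have ha0 : 0 < a := by linarith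
  have hlogL : Real.log (a + g) - Real.log a ≤ g / a := by
    rw [← Real.log_div (by positivity) (by positivity)]
    refine (Real.log_le_sub_one_of_pos (by positivity)).trans (le_of_eq ?_)
    field_simp
    ring
  have hlog0 : 0 ≤ Real.log (a + g) - Real.log a := by
    rw [sub_nonneg]
    exact Real.log_le_log ha0 (by linarith)
  have hlogd : Real.log (a / (2 * Real.pi)) = Real.log a - Real.log (2 * Real.pi) :=
    Real.log_div (by positivity) (by positivity)
  have hl2 : Real.log (2 * Real.pi) ≤ 2 * Real.pi - 1 := Real.log_le_sub_one_of_pos (by positivity)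
  have hl20 : 0 ≤ Real.log (2 * Real.pi) := Real.log_nonneg (by linarith)
  -- the gap is small
  have hgK : g * Real.log a ≤ 2 * Real.pi * K := by
    have a1 := (abs_le.mp hK').2
    rw [hinc, div_le_iff₀ (by positivity)] at a1
    have a2 : 0 ≤ (a + g) * (Real.log (a + g) - Real.log a) := mul_nonneg (by linarith) hlog0
    linarith
  have hg1 : g ≤ 1 := by
    by_contra hcon
    push Not at hcon
    nlinarith
  have hga : g / a ≤ g := div_le_self hg0 h1
  have hdiff : inc yy n - dq n = ((a + g) * (Real.log (a + g) - Real.log a) +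
      g * Real.log (2 * Real.pi)) / (2 * Real.pi) := by
    rw [hinc, hdq, hlogd]
    field_simp
    ring
  have hub : (a + g) * (Real.log (a + g) - Real.log a) ≤ 2 * g := by
    calc (a + g) * (Real.log (a + g) - Real.log a) ≤ (a + g) * (g / a) :=
          mul_le_mul_of_nonneg_left hlogL (by linarith)
      _ = g + g * (g / a) := by field_simp
      _ ≤ g + g * 1 := by
          have : g / a ≤ 1 := hga.trans hg1
          have := mul_le_mul_of_nonneg_left this hg0
          linarith
      _ = 2 * g := by ring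
  have hlb : 0 ≤ (a + g) * (Real.log (a + g) - Real.log a) := mul_nonneg (by linarith) hlog0
  have hgl : g * Real.log (2 * Real.pi) ≤ g * (2 * Real.pi - 1) := mul_le_mul_of_nonneg_left hl2 hg0
  have hglb : 0 ≤ g * Real.log (2 * Real.pi) := mul_nonneg hg0 hl20
  have hd1 : inc yy n - dq n ≤ 2 * g := by
    rw [hdiff, div_le_iff₀ (by positivity)]
    nlinarith
  have hd0 : 0 ≤ inc yy n - dq n := by
    rw [hdiff]
    positivity
  have hge : g ≤ ε / 2 := by
    rw [div_le_iff₀ hε] at h3
    have hpk : 0 < Real.pi * K := by positivity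
    by_contra hcon
    push Not at hcon
    have a1 : ε / 2 * Real.log a < g * Real.log a :=
      mul_lt_mul_of_pos_right hcon (by linarith)
    nlinarith
  rw [abs_sub_comm, abs_of_nonneg hd0]
  linarith

lemma close_yy : Close (inc yy) dq := by
  intro ε θ hε hθ
  obtain ⟨K, hK, h⟩ := tight_yy (θ / 2) (by positivity)
  obtain ⟨n0, hn0⟩ := (close_one K ε hK hε).exists_forall_of_atTop
  have hbig : ∀ᶠ N : ℕ in atTop, (n0 : ℝ) ≤ θ / 2 * N :=
    (tendsto_natCast_atTop_atTop.const_mul_atTop (show (0 : ℝ) < θ / 2 by positivity)).eventually_ge_atTop _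
  filter_upwards [h, hbig] with N hN hb
  have hsub : (Icc 1 N).filter (fun n => ε < |dq n - inc yy n|) ⊆
      Icc 1 n0 ∪ (Icc 1 N).filter (fun n => K < |inc yy n|) := by
    intro n hn
    rw [Finset.mem_filter] at hn
    rw [Finset.mem_union, Finset.mem_Icc, Finset.mem_filter]
    by_contra hcon
    rw [not_or, not_and, not_and, not_lt] at hcon
    have h1 := hcon.1 (Finset.mem_Icc.mp hn.1).1
    have h2 := hn0 n (by omega) (hcon.2 hn.1)
    linarith [hn.2]
  have h1 := (Finset.card_le_card hsub).trans (Finset.card_union_le _ _)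
  rw [Nat.card_Icc, Nat.add_sub_cancel] at h1
  have h2 : (((Icc 1 N).filter (fun n => ε < |dq n - inc yy n|)).card : ℝ) ≤
      n0 + ((Icc 1 N).filter (fun n => K < |inc yy n|)).card := by exact_mod_cast h1
  linarith

open Classical in
theorem rec_main (k d : ℕ) (θ : ℝ) (hθ : 0 < θ) : ∃ (B : ℕ) (ε : ℝ), 0 < ε ∧
    ∀ᶠ N : ℕ in atTop, (((Icc 1 N).filter (fun n => ∃ (c : ℕ → ℝ) (P : Polynomial ℝ),
      (∃ j ≤ k, 1 ≤ |c j|) ∧ P.natDegree ≤ d ∧
      ∀ i < B, |∑ j ∈ range (k + 1), c j * dq (n + i + j) - P.eval (i : ℝ)| < ε)).card : ℝ) ≤ θ * N :=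
  no_rec' anti_yy lln_yy tight_yy close_yy k d θ hθ

end Pool.Agent.X112.GS
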