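import Pool.Agent.X112.GS.Conc
import Pool.Agent.X112.GS.Fin
import Pool.Agent.X112.GS.RecFin

/-! # Pairs of zeros at a large distance -/

set_option autoImplicit false

open Filter Finset

namespace Pool.Agent.X112.GS

open SG (ord NZ)

/-- the normalised distance between the `n`-th and the `(n+r)`-th ordinate -/
noncomputable def dr (r n : ℕ) : ℝ := (ord (n + r) - ord n) / (2 * Real.pi) * Real.log (ord n / (2 * Real.pi))

lemma pair_close (K : ℝ) (hK : 0 < K) : ∃ n1 : ℕ, 1 ≤ n1 ∧ ∀ n, n1 ≤ n → ∀ r : ℕ,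
    dr r n ≤ K → 0 ≤ (yy (n + r) - yy n) - dr r n ∧ (yy (n + r) - yy n) - dr r n ≤ 1 := by
  have hpi := Real.pi_pos
  have hpi3 := Real.pi_gt_three
  have hpi4 := Real.pi_lt_four
  have hord : Tendsto ord atTop atTop := Pool.Agent.Y743.LR.ord_tendsto
  have hlog : Tendsto (fun n => Real.log (ord n)) atTop atTop := Real.tendsto_log_atTop.comp hord
  have hl2 : Real.log (2 * Real.pi) ≤ 3 := by
    rw [Real.log_le_iff_le_exp (by positivity)]
    have h1 : (2.7 : ℝ) ^ 3 ≤ Real.exp 1 ^ 3 := by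
      apply pow_le_pow_left₀ (by norm_num)
      linarith [Real.exp_one_gt_d9]
    have h2 : Real.exp 1 ^ 3 = Real.exp 3 := by
      rw [← Real.exp_nat_mul]; norm_num
    rw [h2] at h1
    norm_num at h1
    linarith
  have hl0 : 0 ≤ Real.log (2 * Real.pi) := Real.log_nonneg (by linarith)
  obtain ⟨n1, hn1⟩ := ((hlog.eventually_ge_atTop (3 + 2 * Real.pi * (K + 1))).and
    (hord.eventually_ge_atTop 1)).exists_forall_of_atTop
  refine ⟨max n1 1, le_max_right _ _, fun n hn r hK' => ?_⟩
  obtain ⟨h1, h2⟩ := hn1 n ((le_max_left _ _).trans hn)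
  have hn1' : 1 ≤ n := (le_max_right _ _).trans hn
  have h3 : ord n ≤ ord (n + r) := SG.ord_mono hn1' (by omega)
  obtain ⟨t, ht⟩ : ∃ t : ℝ, t = ord n := ⟨_, rfl⟩
  obtain ⟨s, hs⟩ : ∃ s : ℝ, s = ord (n + r) := ⟨_, rfl⟩
  have e1 : Real.log (t / (2 * Real.pi)) = Real.log t - Real.log (2 * Real.pi) :=
    Real.log_div (by rw [ht]; linarith) (by positivity)
  unfold dr at hK' ⊢
  unfold yy
  rw [← ht, ← hs] at hK' ⊢
  rw [← ht] at h1 h2
  rw [← ht, ← hs] at h3
  have hl : Real.log t ≤ Real.log s := Real.log_le_log (by linarith) h3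
  -- the gap is at most one
  have h4 : (s - t) ≤ 1 := by
    by_contra hcon
    push Not at hcon
    have h5 : 1 / (2 * Real.pi) * (2 * Real.pi * (K + 1)) ≤
        (s - t) / (2 * Real.pi) * Real.log (t / (2 * Real.pi)) := by
      apply mul_le_mul
      · apply div_le_div_of_nonneg_right hcon.le (by positivity)
      · rw [e1]; linarith
      · positivity
      · apply div_nonneg (by linarith) (by positivity)
    have h6 : 1 / (2 * Real.pi) * (2 * Real.pi * (K + 1)) = K + 1 := by field_simp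
    linarith
  have h7 : Real.log s - Real.log t ≤ (s - t) / t := by
    rw [← Real.log_div (by linarith) (by linarith)]
    refine (Real.log_le_sub_one_of_pos (by apply div_pos <;> linarith)).trans (le_of_eq ?_)
    field_simp
  have h8 : s * (Real.log s - Real.log t) ≤ 2 * (s - t) := by
    have h9 : s * (Real.log s - Real.log t) ≤ s * ((s - t) / t) :=
      mul_le_mul_of_nonneg_left h7 (by linarith)
    have h10 : s * ((s - t) / t) ≤ 2 * (s - t) := by
      rw [← mul_div_assoc, div_le_iff₀ (by linarith)]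
      nlinarith
    linarith
  have h11 : 0 ≤ s * (Real.log s - Real.log t) := mul_nonneg (by linarith) (by linarith)
  have e2 : s * Real.log s / (2 * Real.pi) - t * Real.log t / (2 * Real.pi) -
      (s - t) / (2 * Real.pi) * Real.log (t / (2 * Real.pi)) =
      (s * (Real.log s - Real.log t) + (s - t) * Real.log (2 * Real.pi)) / (2 * Real.pi) := by
    rw [e1]
    field_simp
    ring
  rw [e2]
  have h12 : (s - t) * Real.log (2 * Real.pi) ≤ (s - t) * 3 :=
    mul_le_mul_of_nonneg_left hl2 (by linarith)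
  have h13 : 0 ≤ (s - t) * Real.log (2 * Real.pi) := mul_nonneg (by linarith) hl0
  refine ⟨by positivity, ?_⟩
  rw [div_le_one (by positivity)]
  linarith

lemma yy_mono : ∃ n1 : ℕ, ∀ n m, n1 ≤ n → n ≤ m → yy n ≤ yy m := by
  obtain ⟨n1, h⟩ := inc_nonneg
  refine ⟨n1, fun n m hn hm => ?_⟩
  induction m, hm using Nat.le_induction with
  | base => exact le_rfl
  | succ m hm ih =>
    have := h m (hn.trans hm)
    unfold inc at this
    linarith

/-- few exceptions: an initial segment is negligible -/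
lemma few_init (n1 : ℕ) (θ : ℝ) (hθ : 0 < θ) : ∀ᶠ N : ℕ in atTop, (n1 : ℝ) ≤ θ * N :=
  (tendsto_natCast_atTop_atTop.const_mul_atTop hθ).eventually_ge_atTop _

lemma card_le_of_imp {N n1 : ℕ} {P Q : ℕ → Prop} [DecidablePred P] [DecidablePred Q]
    (h : ∀ n, n1 ≤ n → P n → Q n) :
    (((Icc 1 N).filter P).card : ℝ) ≤ ((Icc 1 N).filter Q).card + n1 := by
  have h1 : (Icc 1 N).filter P ⊆ (Icc 1 N).filter Q ∪ range n1 := by
    intro n hn
    rw [mem_filter] at hn
    rw [mem_union, mem_filter, mem_range]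
    by_cases h2 : n1 ≤ n
    · exact Or.inl ⟨hn.1, h n h2 hn.2⟩
    · exact Or.inr (by omega)
  have h2 := (card_le_card h1).trans (card_union_le _ _)
  rw [card_range] at h2
  exact_mod_cast h2

lemma log_ratio {lam : ℝ} (h : 4 ≤ lam) {r : ℕ} (hr : lam / 2 ≤ r) :
    Real.sqrt (Real.log lam) ≤ 2 * Real.sqrt (Real.log r) := by
  have h1 : Real.log lam ≤ 4 * Real.log r := by
    have h2 : lam ≤ (r : ℝ) ^ 2 := by nlinarith
    have h3 := Real.log_le_log (by linarith) h2
    rw [Real.log_pow] at h3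
    have h4 : 0 ≤ Real.log r := Real.log_nonneg (by linarith)
    push_cast at h3
    linarith
  have h5 : Real.sqrt (Real.log lam) ≤ Real.sqrt (4 * Real.log r) := Real.sqrt_le_sqrt h1
  have h6 : Real.sqrt (4 * Real.log r) = 2 * Real.sqrt (Real.log r) := by
    rw [Real.sqrt_mul (by norm_num), show (4 : ℝ) = 2 ^ 2 by norm_num, Real.sqrt_sq (by norm_num)]
  linarith

lemma sqrt_log_small (c : ℝ) : ∀ᶠ x : ℝ in atTop, c * Real.sqrt (Real.log x) + c ≤ x := by
  have h1 : Tendsto (fun x : ℝ => (|c| * Real.log x + 2 * |c|) / x) atTop (nhds 0) := by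
    have := (Real.isLittleO_log_id_atTop.tendsto_div_nhds_zero)
    have h2 : Tendsto (fun x : ℝ => |c| * (Real.log x / id x) + 2 * |c| * (1 / x)) atTop
        (nhds (|c| * 0 + 2 * |c| * 0)) := by
      apply Tendsto.add
      · exact this.const_mul _
      · apply Tendsto.const_mul
        exact tendsto_const_nhds.div_atTop tendsto_id
    simp only [mul_zero, add_zero] at h2
    refine h2.congr' ?_
    filter_upwards [eventually_gt_atTop 0] with x hx
    simp only [id]
    field_simp
  filter_upwards [h1.eventually_le_const (show (0 : ℝ) < 1 by norm_num), eventually_ge_atTop 1]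
    with x hx hx1
  rw [div_le_one (by linarith)] at hx
  have h3 : Real.sqrt (Real.log x) ≤ Real.log x + 1 := by
    have := Real.sqrt_nonneg (Real.log x)
    have h4 := Real.sq_sqrt (Real.log_nonneg hx1)
    nlinarith
  have h5 : c * Real.sqrt (Real.log x) + c ≤ |c| * (Real.log x + 1) + |c| := by
    have h6 : c * Real.sqrt (Real.log x) ≤ |c| * Real.sqrt (Real.log x) :=
      mul_le_mul_of_nonneg_right (le_abs_self c) (Real.sqrt_nonneg _)
    have h7 : |c| * Real.sqrt (Real.log x) ≤ |c| * (Real.log x + 1) :=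
      mul_le_mul_of_nonneg_left h3 (abs_nonneg c)
    linarith [le_abs_self c]
  linarith

/-- at a large distance each index difference is rare -/
theorem pairs_rare (θ : ℝ) (hθ : 0 < θ) : ∃ κ : ℝ, 0 < κ ∧ ∀ᶠ lam : ℝ in atTop, ∀ᶠ N : ℕ in atTop,
    ∀ r : ℕ, (((Icc 1 N).filter (fun n => |dr r n - lam| ≤ κ * Real.sqrt (Real.log lam))).card : ℝ) ≤
      θ * N := by
  classical
  obtain ⟨κ, hκ, h⟩ := conc_yy (θ / 2) (by positivity)
  obtain ⟨r0, hr0⟩ := h.exists_forall_of_atTop
  obtain ⟨s0, hs0⟩ := (lln_yy (1 / 4) (θ / 2) (by norm_num) (by positivity)).exists_forall_of_atTop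
  obtain ⟨n0, hn0⟩ := yy_mono
  obtain ⟨κ', hκ'⟩ : ∃ κ' : ℝ, κ' = κ / 4 := ⟨_, rfl⟩
  have hκ0 : 0 < κ' := by rw [hκ']; positivity
  refine ⟨κ', hκ0, ?_⟩
  have hsl : Tendsto (fun x : ℝ => κ * Real.sqrt (Real.log x)) atTop atTop :=
    (Real.tendsto_sqrt_atTop.comp Real.tendsto_log_atTop).const_mul_atTop hκ
  filter_upwards [eventually_ge_atTop (4 : ℝ), eventually_ge_atTop (2 * (r0 : ℝ)),
    eventually_ge_atTop (2 * (s0 : ℝ) + 2), sqrt_log_small (20 * κ'),
    eventually_ge_atTop (100 : ℝ), hsl.eventually_ge_atTop 4] with lam h4 hlr hls hsm h100 hsl4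
  have hsq0 : 0 ≤ Real.sqrt (Real.log lam) := Real.sqrt_nonneg _
  obtain ⟨W, hW⟩ : ∃ W : ℝ, W = κ' * Real.sqrt (Real.log lam) := ⟨_, rfl⟩
  have hW0 : 0 ≤ W := by rw [hW]; positivity
  have hWl : 20 * W ≤ lam := by rw [hW]; nlinarith
  have hW1 : 1 ≤ W := by rw [hW, hκ']; linarith
  rw [← hW]
  obtain ⟨n1, hn11, hn1⟩ := pair_close (lam + W) (by linarith)
  -- the two test lengths
  obtain ⟨s, hs⟩ : ∃ s : ℕ, s = ⌊lam / 2⌋₊ := ⟨_, rfl⟩
  obtain ⟨s', hs'⟩ : ∃ s' : ℕ, s' = ⌈2 * lam⌉₊ := ⟨_, rfl⟩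
  have hs1 : (s : ℝ) ≤ lam / 2 := by rw [hs]; exact Nat.floor_le (by linarith)
  have hs2 : lam / 2 < s + 1 := by rw [hs]; exact Nat.lt_floor_add_one _
  have hs1' : 2 * lam ≤ s' := by rw [hs']; exact Nat.le_ceil _
  have hs2' : (s' : ℝ) < 2 * lam + 1 := by rw [hs']; exact Nat.ceil_lt_add_one (by linarith)
  have hss0 : s0 ≤ s := by
    have : (s0 : ℝ) < s + 1 := by linarith
    have : s0 < s + 1 := by exact_mod_cast this
    omega
  have hss0' : s0 ≤ s' := by
    have : (s0 : ℝ) ≤ s' := by linarith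
    exact_mod_cast this
  have hfin : ∀ᶠ N : ℕ in atTop, ∀ r ∈ Finset.Icc r0 s', ∀ c : ℝ,
      (((Icc 1 N).filter (fun n => |yy (n + r) - yy n - c| ≤ κ * Real.sqrt (Real.log r))).card : ℝ) ≤
        θ / 2 * N := by
    rw [Filter.eventually_all_finset]
    intro r hr
    rw [Finset.mem_Icc] at hr
    exact hr0 r hr.1
  filter_upwards [hs0 s hss0, hs0 s' hss0', hfin, few_init (max n0 n1) (θ / 2) (by positivity)]
    with N g1 g2 g3 g4 r
  have hmain : ∀ n, max n0 n1 ≤ n → |dr r n - lam| ≤ W → |yy (n + r) - yy n - lam| ≤ W + 1 := by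
    intro n hn hd
    have h1 := abs_le.mp hd
    obtain ⟨a1, a2⟩ := hn1 n ((le_max_right _ _).trans hn) r (by linarith [h1.2])
    rw [abs_le]
    constructor <;> linarith [h1.1, h1.2]
  by_cases hr1 : r ≤ s
  · -- few steps
    have h1 := card_le_of_imp (N := N) (n1 := max n0 n1) (P := fun n => |dr r n - lam| ≤ W)
      (Q := fun n => 1 / 4 * (s : ℝ) ≤ |yy (n + s) - yy n - s|) (fun n hn hd => by
        have h2 := abs_le.mp (hmain n hn hd)
        have h3 := hn0 (n + r) (n + s) (by have := (le_max_left n0 n1).trans hn; omega) (by omega)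
        rw [le_abs]
        left
        linarith [h2.1])
    linarith
  · by_cases hr2 : r ≤ s'
    · push Not at hr1
      have hr3 : lam / 2 ≤ r := by
        have : (s : ℝ) + 1 ≤ r := by exact_mod_cast hr1
        linarith
      have hr4 : r0 ≤ r := by
        have : (r0 : ℝ) ≤ r := by linarith
        exact_mod_cast this
      have h1 := card_le_of_imp (N := N) (n1 := max n0 n1) (P := fun n => |dr r n - lam| ≤ W)
        (Q := fun n => |yy (n + r) - yy n - lam| ≤ κ * Real.sqrt (Real.log r)) (fun n hn hd => by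
          refine (hmain n hn hd).trans ?_
          have h5 := log_ratio h4 hr3
          have h6 : W ≤ κ / 2 * Real.sqrt (Real.log r) := by
            rw [hW, hκ']
            nlinarith
          linarith)
      have h2 := g3 r (by rw [Finset.mem_Icc]; exact ⟨hr4, hr2⟩) lam
      linarith
    · -- many steps
      push Not at hr2
      have h1 := card_le_of_imp (N := N) (n1 := max n0 n1) (P := fun n => |dr r n - lam| ≤ W)
        (Q := fun n => 1 / 4 * (s' : ℝ) ≤ |yy (n + s') - yy n - s'|) (fun n hn hd => by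
          have h2 := abs_le.mp (hmain n hn hd)
          have h3 := hn0 (n + s') (n + r) (by have := (le_max_left n0 n1).trans hn; omega) (by omega)
          rw [le_abs]
          right
          linarith [h2.2])
      linarith

/-- the index difference at distance `lam` is `lam + O(√(log lam))` -/
theorem pairs_spread (θ : ℝ) (hθ : 0 < θ) : ∃ A : ℝ, 0 < A ∧ ∀ᶠ lam : ℝ in atTop, ∀ᶠ N : ℕ in atTop,
    ∀ (P : ℕ → Prop) [DecidablePred P], (∀ n, P n → ∃ r : ℕ,
      |dr r n - lam| ≤ Real.sqrt (Real.log lam) ∧ A * Real.sqrt (Real.log lam) < |(r : ℝ) - lam|) →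
    (((Icc 1 N).filter P).card : ℝ) ≤ θ * N := by
  classical
  obtain ⟨A1, hA1, s0, hs0⟩ := lln2_yy (θ / 3) (by positivity)
  obtain ⟨n0, hn0⟩ := yy_mono
  refine ⟨2 * A1 + 4, by positivity, ?_⟩
  have hsl : Tendsto (fun x : ℝ => Real.sqrt (Real.log x)) atTop atTop :=
    Real.tendsto_sqrt_atTop.comp Real.tendsto_log_atTop
  filter_upwards [eventually_ge_atTop (8 : ℝ), eventually_ge_atTop (2 * (s0 : ℝ)),
    sqrt_log_small (2 * (2 * A1 + 4)), hsl.eventually_ge_atTop 1] with lam h8 hls hsm hL1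
  obtain ⟨L, hL⟩ : ∃ L : ℝ, L = Real.sqrt (Real.log lam) := ⟨_, rfl⟩
  rw [← hL] at hsm hL1 ⊢
  obtain ⟨A, hA⟩ : ∃ A : ℝ, A = 2 * A1 + 4 := ⟨_, rfl⟩
  rw [← hA] at hsm ⊢
  have hAL : 0 ≤ A1 * L := by positivity
  obtain ⟨n1, hn11, hn1⟩ := pair_close (lam + L) (by linarith)
  obtain ⟨s, hs⟩ : ∃ s : ℕ, s = ⌊lam + A * L⌋₊ := ⟨_, rfl⟩
  obtain ⟨s', hs'⟩ : ∃ s' : ℕ, s' = ⌈lam - A * L⌉₊ := ⟨_, rfl⟩
  have hAL' : 0 ≤ A * L := by rw [hA]; positivity
  have hs1 : (s : ℝ) ≤ lam + A * L := by rw [hs]; exact Nat.floor_le (by linarith)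
  have hs2 : lam + A * L < s + 1 := by rw [hs]; exact Nat.lt_floor_add_one _
  have hs1' : lam - A * L ≤ s' := by rw [hs']; exact Nat.le_ceil _
  have hs2' : (s' : ℝ) < lam - A * L + 1 := by
    rw [hs']; exact Nat.ceil_lt_add_one (by linarith)
  have hss0 : s0 ≤ s := by
    have : (s0 : ℝ) < s + 1 := by linarith
    have : s0 < s + 1 := by exact_mod_cast this
    omega
  have hss0' : s0 ≤ s' := by
    have : (s0 : ℝ) ≤ s' := by linarith
    exact_mod_cast this
  have hls1 : Real.sqrt (Real.log s) ≤ 2 * L := by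
    have h1 : Real.log s ≤ 4 * Real.log lam := by
      have h2 : (s : ℝ) ≤ lam ^ 4 := by
        have h3 : (s : ℝ) ≤ 2 * lam := by linarith
        have h4 : 2 * lam ≤ lam ^ 2 := by nlinarith
        have h5 : lam ^ 2 ≤ lam ^ 4 := pow_le_pow_right₀ (by linarith) (by norm_num)
        linarith
      have hs0' : (0 : ℝ) < s := by linarith
      have h3 := Real.log_le_log hs0' h2
      rw [Real.log_pow] at h3
      exact_mod_cast h3
    have h5 := Real.sqrt_le_sqrt h1
    have h6 : Real.sqrt (4 * Real.log lam) = 2 * Real.sqrt (Real.log lam) := by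
      rw [Real.sqrt_mul (by norm_num), show (4 : ℝ) = 2 ^ 2 by norm_num, Real.sqrt_sq (by norm_num)]
    rw [h6, ← hL] at h5
    exact h5
  have hls2 : Real.sqrt (Real.log s') ≤ L := by
    rw [hL]
    apply Real.sqrt_le_sqrt
    have : (0 : ℝ) < s' := by linarith
    apply Real.log_le_log this
    nlinarith
  filter_upwards [hs0 s hss0, hs0 s' hss0', few_init (max n0 n1) (θ / 3) (by positivity)]
    with N g1 g2 g3 P _ hP
  have h1 := card_le_of_imp (N := N) (n1 := max n0 n1) (P := P)
    (Q := fun n => A1 * Real.sqrt (Real.log s) ≤ |yy (n + s) - yy n - s| ∨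
      A1 * Real.sqrt (Real.log s') ≤ |yy (n + s') - yy n - s'|) (fun n hn hd => by
      obtain ⟨r, hr1, hr2⟩ := hP n hd
      have a0 := abs_le.mp hr1
      obtain ⟨a1, a2⟩ := hn1 n ((le_max_right _ _).trans hn) r (by linarith [a0.2])
      have hb1 : A1 * Real.sqrt (Real.log s) ≤ A1 * (2 * L) := mul_le_mul_of_nonneg_left hls1 hA1.le
      have hb2 : A1 * Real.sqrt (Real.log s') ≤ A1 * L := mul_le_mul_of_nonneg_left hls2 hA1.le
      have hAe : A * L = 2 * A1 * L + 4 * L := by rw [hA]; ring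
      rcases lt_abs.mp hr2 with h | h
      · left
        have h2 : s ≤ r := by
          have : (s : ℝ) < r + 1 := by linarith
          have : s < r + 1 := by exact_mod_cast this
          omega
        have h3 := hn0 (n + s) (n + r) (by have := (le_max_left n0 n1).trans hn; omega) (by omega)
        rw [le_abs]
        right
        linarith [a0.2]
      · right
        have h2 : r ≤ s' := by
          have : (r : ℝ) < s' + 1 := by linarith
          have : r < s' + 1 := by exact_mod_cast this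
          omega
        have h3 := hn0 (n + r) (n + s') (by have := (le_max_left n0 n1).trans hn; omega) (by omega)
        rw [le_abs]
        left
        linarith [a0.1])
  have h2 : (((Icc 1 N).filter (fun n => A1 * Real.sqrt (Real.log s) ≤ |yy (n + s) - yy n - s| ∨
      A1 * Real.sqrt (Real.log s') ≤ |yy (n + s') - yy n - s'|)).card : ℝ) ≤
      ((Icc 1 N).filter (fun n => A1 * Real.sqrt (Real.log s) ≤ |yy (n + s) - yy n - s|)).card +
      ((Icc 1 N).filter (fun n => A1 * Real.sqrt (Real.log s') ≤ |yy (n + s') - yy n - s'|)).card := by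
    rw [Finset.filter_or]
    exact_mod_cast Finset.card_union_le _ _
  linarith

end Pool.Agent.X112.GS
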