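import Pool.Agent.X112.GS.MH

/-! # The number of patterns -/

set_option autoImplicit false

open Filter Finset

namespace Pool.Agent.X112.GS

open Classical in
/-- the class of `u` at the scale `S` -/
noncomputable def cls (V : Finset ℝ) (S u : ℝ) : Finset ℝ := V.filter (fun u' => |u' - u| ≤ S)

lemma cls_eq {V : Finset ℝ} {S : ℝ}
    (h : ∀ u ∈ V, ∀ u' ∈ V, |u - u'| ≤ 10 * S → |u - u'| ≤ S) {u u' : ℝ} (hu : u ∈ V)
    (hu' : u' ∈ V) (huu : |u - u'| ≤ 10 * S) : cls V S u = cls V S u' := by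
  have h1 := h u hu u' hu' huu
  have hS : 0 ≤ S := (abs_nonneg _).trans h1
  ext w
  unfold cls
  rw [Finset.mem_filter, Finset.mem_filter]
  constructor
  · rintro ⟨hw, h2⟩
    refine ⟨hw, h w hw u' hu' ?_⟩
    have := abs_add_le (w - u) (u - u')
    rw [sub_add_sub_cancel] at this
    linarith
  · rintro ⟨hw, h2⟩
    refine ⟨hw, h w hw u hu ?_⟩
    have := abs_add_le (w - u') (u' - u)
    rw [sub_add_sub_cancel, abs_sub_comm u' u] at this
    linarith

lemma cls_near {V : Finset ℝ} {S : ℝ} (hS : 0 ≤ S) {u u' : ℝ} (hu : u ∈ V)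
    (h : cls V S u = cls V S u') : |u - u'| ≤ S := by
  have h1 : u ∈ cls V S u := by
    unfold cls
    rw [Finset.mem_filter]
    exact ⟨hu, by simpa using hS⟩
  rw [h] at h1
  unfold cls at h1
  exact (Finset.mem_filter.mp h1).2

/-- **local form**: if the blocks of length `L` at `2 L + L! + 1` consecutive places are near
`L` patterns, then `x` nearly has the period `L!` at one of these places -/
lemma pattern_local (x : ℕ → ℝ) (L : ℕ) (hL : 1 ≤ L) (v : ℕ → ℕ → ℝ) (ε : ℝ) (hε : 0 < ε) (n : ℕ)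
    (hg : ∀ p ≤ 2 * L + L.factorial, ∃ j < L, ∀ i < L, |x (n + p + i) - v j i| < ε) :
    |x (n + L + L.factorial) - x (n + L)| ≤ 3 * (ε * 10 ^ (L ^ 4)) := by
  classical
  obtain ⟨V, hV⟩ : ∃ V : Finset ℝ, V = (range L ×ˢ range L).image (fun a => v a.1 a.2) := ⟨_, rfl⟩
  obtain ⟨W, hW⟩ : ∃ W : Finset ℝ, W = (V ×ˢ V).image (fun a => |a.1 - a.2|) := ⟨_, rfl⟩
  have hWc : W.card ≤ L ^ 4 := by
    have h1 : V.card ≤ L * L := by
      rw [hV]
      refine Finset.card_image_le.trans ?_
      rw [Finset.card_product, Finset.card_range]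
    rw [hW]
    refine Finset.card_image_le.trans ?_
    rw [Finset.card_product]
    calc V.card * V.card ≤ (L * L) * (L * L) := Nat.mul_le_mul h1 h1
      _ = L ^ 4 := by ring
  obtain ⟨e, he, hgap⟩ := gap_scale W ε hε
  obtain ⟨S, hS⟩ : ∃ S : ℝ, S = ε * 10 ^ e := ⟨_, rfl⟩
  have hS0 : 0 ≤ S := by rw [hS]; positivity
  have hSε : ε ≤ S := by
    rw [hS]
    have : (1 : ℝ) ≤ 10 ^ e := one_le_pow₀ (by norm_num)
    nlinarith
  have hSle : S ≤ ε * 10 ^ (L ^ 4) := by
    rw [hS]
    apply mul_le_mul_of_nonneg_left _ hε.le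
    exact pow_le_pow_right₀ (by norm_num) (he.trans hWc)
  have hsep : ∀ u ∈ V, ∀ u' ∈ V, |u - u'| ≤ 10 * S → |u - u'| ≤ S := by
    intro u hu u' hu' h
    by_contra hcon
    push Not at hcon
    apply hgap |u - u'|
    · rw [hW, Finset.mem_image]
      exact ⟨(u, u'), Finset.mem_product.mpr ⟨hu, hu'⟩, rfl⟩
    · rw [← hS]
      refine ⟨hcon, ?_⟩
      rw [pow_succ, ← mul_assoc, ← hS]
      linarith
  -- the choice of the patterns
  have hg' : ∀ p : ℕ, ∃ j : ℕ, p ≤ 2 * L + L.factorial → (j < L ∧ ∀ i < L, |x (n + p + i) - v j i| < ε) := by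
    intro p
    by_cases hp : p ≤ 2 * L + L.factorial
    · obtain ⟨j, h1, h2⟩ := hg p hp
      exact ⟨j, fun _ => ⟨h1, h2⟩⟩
    · exact ⟨0, fun h => absurd h hp⟩
  choose J hJ using hg'
  have hVm : ∀ p ≤ 2 * L + L.factorial, ∀ i < L, v (J p) i ∈ V := by
    intro p hp i hi
    rw [hV, Finset.mem_image]
    exact ⟨(J p, i), Finset.mem_product.mpr ⟨Finset.mem_range.mpr (hJ p hp).1,
      Finset.mem_range.mpr hi⟩, rfl⟩
  obtain ⟨s, hs⟩ : ∃ s : ℕ → Finset ℝ, s = fun p => cls V S (v (J p) 0) := ⟨_, rfl⟩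
  have hcons : ∀ p t : ℕ, t < L → p + t ≤ 2 * L + L.factorial → s (p + t) = cls V S (v (J p) t) := by
    intro p t ht hpt
    rw [hs]
    apply cls_eq hsep (hVm (p + t) hpt 0 (by omega)) (hVm p (by omega) t ht)
    have h1 := (hJ (p + t) hpt).2 0 (by omega)
    have h2 := (hJ p (by omega)).2 t ht
    rw [add_zero, show n + (p + t) = n + p + t by ring] at h1
    have h3 := abs_lt.mp h1
    have h4 := abs_lt.mp h2
    rw [abs_le]
    constructor <;> linarith [h3.1, h3.2, h4.1, h4.2]
  -- the complexity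
  have hcomp : ((range (L + L.factorial + 1)).image (blk s L)).card ≤ L := by
    have h1 : (range (L + L.factorial + 1)).image (blk s L) ⊆
        (range L).image (fun j => fun t => if t < L then some (cls V S (v j t)) else none) := by
      intro b hb
      rw [Finset.mem_image] at hb
      obtain ⟨p, hp, rfl⟩ := hb
      rw [Finset.mem_range] at hp
      rw [Finset.mem_image]
      refine ⟨J p, Finset.mem_range.mpr (hJ p (by omega)).1, ?_⟩
      funext t
      unfold blk
      by_cases ht : t < L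
      · rw [if_pos ht, if_pos ht, hcons p t ht (by omega)]
      · rw [if_neg ht, if_neg ht]
    refine (Finset.card_le_card h1).trans (Finset.card_image_le.trans ?_)
    rw [Finset.card_range]
  obtain ⟨q, hq1, hqL, hper⟩ := mh s (L + L.factorial + 1) L (by omega) hcomp
  obtain ⟨c, hc⟩ : q ∣ L.factorial := Nat.dvd_factorial (by omega) hqL
  have h1 := per_iter hper c L le_rfl (by rw [mul_comm c q, ← hc]; omega)
  rw [mul_comm c q, ← hc] at h1
  have h2 := hcons (L + L.factorial) 0 (by omega) (by omega)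
  have h3 := hcons L 0 (by omega) (by omega)
  rw [add_zero] at h2 h3
  rw [h2, h3] at h1
  have h4 := cls_near hS0 (hVm (L + L.factorial) (by omega) 0 (by omega)) h1
  have h5 := (hJ (L + L.factorial) (by omega)).2 0 (by omega)
  have h6 := (hJ L (by omega)).2 0 (by omega)
  rw [add_zero, ← add_assoc] at h5
  rw [add_zero] at h6
  have h7 := abs_lt.mp h5
  have h8 := abs_lt.mp h6
  have h9 := abs_le.mp h4
  rw [abs_le]
  constructor <;> linarith [h7.1, h7.2, h8.1, h8.2, h9.1, h9.2]

/-- **the number of patterns of length `L` is larger than `L`** -/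
theorem patterns {x : ℕ → ℝ} (hP : NoPer x) (L : ℕ) (hL : 1 ≤ L) :
    ∃ ε : ℝ, 0 < ε ∧ ∀ᶠ N : ℕ in atTop, ∀ v : ℕ → ℕ → ℝ,
      ε * N ≤ (((Icc 1 N).filter (fun n => ∀ j < L, ∃ i < L, ε ≤ |x (n + i) - v j i|)).card : ℝ) := by
  classical
  obtain ⟨c, hc, h⟩ := hP L.factorial (Nat.factorial_pos L)
  obtain ⟨P, hPd⟩ : ∃ P : ℕ, P = 2 * L + L.factorial := ⟨_, rfl⟩
  obtain ⟨ε, hε⟩ : ∃ ε : ℝ, ε = min (c / (6 * 10 ^ (L ^ 4))) (c / (4 * (P + 1))) := ⟨_, rfl⟩
  have hε0 : 0 < ε := by rw [hε]; exact lt_min (by positivity) (by positivity)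
  have hε1 : 3 * (ε * 10 ^ (L ^ 4)) < c := by
    have : ε ≤ c / (6 * 10 ^ (L ^ 4)) := by rw [hε]; exact min_le_left _ _
    rw [le_div_iff₀ (by positivity)] at this
    linarith
  have hε2 : (P + 1) * ε ≤ c / 4 := by
    have : ε ≤ c / (4 * (P + 1)) := by rw [hε]; exact min_le_right _ _
    rw [le_div_iff₀ (by positivity)] at this
    linarith
  refine ⟨ε, hε0, ?_⟩
  have hbig : ∀ᶠ N : ℕ in atTop, (L : ℝ) + (P + 1) * P + 1 ≤ c / 2 * N :=
    (tendsto_natCast_atTop_atTop.const_mul_atTop (show (0 : ℝ) < c / 2 by positivity)).eventually_ge_atTop _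
  filter_upwards [h, hbig] with N hN hb v
  by_contra hcon
  push Not at hcon
  obtain ⟨B, hB⟩ : ∃ B : ℕ → Prop, B = fun n => ∀ j < L, ∃ i < L, ε ≤ |x (n + i) - v j i| := ⟨_, rfl⟩
  have h1 : (Icc 1 N).filter (fun n => c ≤ |x (n + L + L.factorial) - x (n + L)|) ⊆
      (range (P + 1)).biUnion (fun p => (Icc 1 N).filter (fun n => B (n + p))) := by
    intro n hn
    rw [Finset.mem_filter] at hn
    rw [Finset.mem_biUnion]
    by_contra hcon2
    push Not at hcon2
    have h2 := pattern_local x L hL v ε hε0 n (by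
      intro p hp
      have h3 := hcon2 p (Finset.mem_range.mpr (by omega))
      rw [Finset.mem_filter, not_and] at h3
      have h4 := h3 hn.1
      rw [hB] at h4
      push Not at h4
      exact h4)
    linarith [hn.2]
  have h2 : ((Icc 1 N).filter (fun n => c ≤ |x (n + L.factorial) - x n|)).card ≤
      ((Icc 1 N).filter (fun n => c ≤ |x (n + L + L.factorial) - x (n + L)|)).card + L := by
    have h3 : (Icc 1 N).filter (fun n => c ≤ |x (n + L.factorial) - x n|) ⊆
        ((Icc 1 N).filter (fun n => c ≤ |x (n + L + L.factorial) - x (n + L)|)).image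
          (fun n => n + L) ∪ Icc 1 L := by
      intro m hm
      rw [Finset.mem_filter, Finset.mem_Icc] at hm
      rw [Finset.mem_union, Finset.mem_image, Finset.mem_Icc]
      by_cases hmL : m ≤ L
      · exact Or.inr ⟨hm.1.1, hmL⟩
      · left
        refine ⟨m - L, ?_, by omega⟩
        rw [Finset.mem_filter, Finset.mem_Icc]
        refine ⟨⟨by omega, by omega⟩, ?_⟩
        rw [Nat.sub_add_cancel (by omega)]
        exact hm.2
    refine (Finset.card_le_card h3).trans ((Finset.card_union_le _ _).trans ?_)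
    rw [Nat.card_Icc, Nat.add_sub_cancel]
    exact Nat.add_le_add_right Finset.card_image_le _
  have h3 : ((Icc 1 N).filter (fun n => c ≤ |x (n + L + L.factorial) - x (n + L)|)).card ≤
      (P + 1) * (((Icc 1 N).filter B).card + P) := by
    refine (Finset.card_le_card h1).trans (Finset.card_biUnion_le.trans ?_)
    calc _ ≤ ∑ p ∈ range (P + 1), (((Icc 1 N).filter B).card + P) := by
          refine Finset.sum_le_sum fun p hp => (card_shift B N p).trans ?_
          have := Finset.mem_range.mp hp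
          omega
      _ = _ := by rw [Finset.sum_const, Finset.card_range, smul_eq_mul]
  have h4 : (((Icc 1 N).filter (fun n => c ≤ |x (n + L.factorial) - x n|)).card : ℝ) ≤
      (P + 1) * (((Icc 1 N).filter B).card + P) + L := by exact_mod_cast h2.trans (Nat.add_le_add_right h3 L)
  have h5 : (((Icc 1 N).filter B).card : ℝ) < ε * N := by
    subst hB
    refine lt_of_le_of_lt (le_of_eq ?_) hcon
    congr!
  have hN0 : (0 : ℝ) ≤ N := Nat.cast_nonneg _
  have h6 : ((P : ℝ) + 1) * (((Icc 1 N).filter B).card + P) ≤ (P + 1) * (ε * N + P) :=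
    mul_le_mul_of_nonneg_left (by linarith) (by positivity)
  have h7 : ((P : ℝ) + 1) * (ε * N + P) = ((P + 1) * ε) * N + (P + 1) * P := by ring
  have h8 : (((P : ℝ) + 1) * ε) * N ≤ c / 4 * N := mul_le_mul_of_nonneg_right hε2 hN0
  have h9 : 0 ≤ c * N := by positivity
  linarith

end Pool.Agent.X112.GS
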