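import Pool.Agent.X112.GS.RecFin
import Pool.Agent.Y743.PR.Main

/-! # Relations between consecutive ordinates on windows, unconditional -/

set_option autoImplicit false

open Filter Finset

namespace Pool.Agent.X112.GS

open SG (ord NZ)

/-- small gaps -/
lemma gap_small (K : ℝ) (hK : 0 < K) : ∃ n1 : ℕ, 1 ≤ n1 ∧ ∀ n, n1 ≤ n → 3 ≤ ord n ∧ ord n ≤ ord (n + 1) ∧
    (|inc yy n| ≤ K → (ord (n + 1) - ord n) * Real.log (ord n) ≤ 2 * Real.pi * K) := by
  have hpi := Real.pi_pos
  have hord : Tendsto ord atTop atTop := Pool.Agent.Y743.LR.ord_tendsto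
  obtain ⟨n1, hn1⟩ := (hord.eventually_ge_atTop 3).exists_forall_of_atTop
  refine ⟨max n1 1, le_max_right _ _, fun n hn => ?_⟩
  have h1 := hn1 n ((le_max_left _ _).trans hn)
  have hmono : ord n ≤ ord (n + 1) := SG.ord_mono ((le_max_right _ _).trans hn) (by omega)
  refine ⟨h1, hmono, fun hK' => ?_⟩
  have a1 := (abs_le.mp hK').2
  unfold inc yy at a1
  rw [← sub_div, div_le_iff₀ (by positivity)] at a1
  have hl : Real.log (ord n) ≤ Real.log (ord (n + 1)) := Real.log_le_log (by linarith) hmono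
  have h3 : 0 ≤ ord (n + 1) * (Real.log (ord (n + 1)) - Real.log (ord n)) :=
    mul_nonneg (by linarith) (by linarith)
  nlinarith

/-- on a window with bounded normalised gaps the normalisation may be frozen -/
lemma gap_close (K ε : ℝ) (hK : 0 < K) (hε : 0 < ε) (L : ℕ) : ∃ n1 : ℕ, 1 ≤ n1 ∧ ∀ n, n1 ≤ n →
    3 ≤ ord n ∧ ((∀ l < L, |inc yy (n + l)| ≤ K) →
    (∀ l ≤ L, ord n ≤ ord (n + l) ∧ ord (n + l) ≤ ord n + l) ∧
    ∀ i ≤ L, ∀ l < L, i ≤ l →
      |(ord (n + l + 1) - ord (n + l)) * Real.log (ord (n + i)) / (2 * Real.pi) - inc yy (n + l)| ≤ ε) := by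
  have hpi := Real.pi_pos
  have hpi3 := Real.pi_gt_three
  have hord : Tendsto ord atTop atTop := Pool.Agent.Y743.LR.ord_tendsto
  have hlog : Tendsto (fun n => Real.log (ord n)) atTop atTop := Real.tendsto_log_atTop.comp hord
  obtain ⟨n1, hn11, hn1⟩ := gap_small K hK
  obtain ⟨n2, hn2⟩ := ((hlog.eventually_ge_atTop (2 * Real.pi * K)).and
    ((hlog.eventually_ge_atTop (2 * Real.pi * K / ε)).and
    (hord.eventually_ge_atTop (L + 1)))).exists_forall_of_atTop
  refine ⟨max n1 n2, hn11.trans (le_max_left _ _), fun n hn => ?_⟩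
  have hnn1 : n1 ≤ n := (le_max_left _ _).trans hn
  have hnn2 : n2 ≤ n := (le_max_right _ _).trans hn
  refine ⟨(hn1 n hnn1).1, fun hw => ?_⟩
  have hgap : ∀ l < L, 0 ≤ ord (n + l + 1) - ord (n + l) ∧ ord (n + l + 1) - ord (n + l) ≤ 1 ∧
      ord (n + l + 1) - ord (n + l) ≤ ε := by
    intro l hl
    obtain ⟨a1, a2, a3⟩ := hn1 (n + l) (by omega)
    have a4 := a3 (hw l hl)
    obtain ⟨b1, b2, -⟩ := hn2 (n + l) (by omega)
    have hl0 : 0 < Real.log (ord (n + l)) := Real.log_pos (by linarith)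
    refine ⟨by linarith, ?_, ?_⟩
    · by_contra hcon
      push Not at hcon
      nlinarith
    · rw [div_le_iff₀ hε] at b2
      by_contra hcon
      push Not at hcon
      nlinarith
  have hpos : ∀ l ≤ L, ord n ≤ ord (n + l) ∧ ord (n + l) ≤ ord n + l := by
    intro l
    induction l with
    | zero => intro _; simp
    | succ l ih =>
      intro hl
      obtain ⟨a1, a2⟩ := ih (by omega)
      obtain ⟨b1, b2, -⟩ := hgap l (by omega)
      rw [← add_assoc]
      push_cast
      constructor <;> linarith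
  refine ⟨hpos, fun i hi l hl hil => ?_⟩
  obtain ⟨g0, g1, gε⟩ := hgap l hl
  obtain ⟨g, hg⟩ : ∃ g : ℝ, g = ord (n + l + 1) - ord (n + l) := ⟨_, rfl⟩
  obtain ⟨a, ha⟩ : ∃ a : ℝ, a = ord (n + i) := ⟨_, rfl⟩
  obtain ⟨a2, ha2⟩ : ∃ a2 : ℝ, a2 = ord (n + l) := ⟨_, rfl⟩
  have hnL : (L : ℝ) + 1 ≤ ord n := (hn2 n hnn2).2.2
  have hn3 : 3 ≤ ord n := (hn1 n hnn1).1
  have haL : ord n ≤ a := by rw [ha]; exact (hpos i hi).1
  have ha2L : a2 ≤ ord n + l := by rw [ha2]; exact (hpos l hl.le).2
  have haa2 : a ≤ a2 := by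
    rw [ha, ha2]
    exact SG.ord_mono (by omega) (by omega)
  rw [← hg, ← ha]
  rw [← hg] at g0 g1 gε
  have e1 : ord (n + l + 1) = a2 + g := by rw [hg, ha2]; ring
  have hinc : inc yy (n + l) = ((a2 + g) * Real.log (a2 + g) - a2 * Real.log a2) / (2 * Real.pi) := by
    unfold inc yy
    rw [e1, ← ha2]
    ring
  have ha0 : 0 < a := by linarith
  have ha20 : 0 < a2 := by linarith
  have hl1 : Real.log (a2 + g) - Real.log a2 ≤ g / a2 := by
    rw [← Real.log_div (by positivity) (by positivity)]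
    refine (Real.log_le_sub_one_of_pos (by positivity)).trans (le_of_eq ?_)
    field_simp
    ring
  have hl10 : 0 ≤ Real.log (a2 + g) - Real.log a2 := by
    rw [sub_nonneg]
    exact Real.log_le_log ha20 (by linarith)
  have hl2 : Real.log a2 - Real.log a ≤ 1 := by
    rw [← Real.log_div (by positivity) (by positivity)]
    refine (Real.log_le_sub_one_of_pos (by positivity)).trans ?_
    rw [sub_le_iff_le_add, div_le_iff₀ ha0]
    have : (l : ℝ) ≤ L := by exact_mod_cast hl.le
    linarith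
  have hl20 : 0 ≤ Real.log a2 - Real.log a := by
    rw [sub_nonneg]
    exact Real.log_le_log ha0 haa2
  have hdiff : inc yy (n + l) - g * Real.log a / (2 * Real.pi) =
      ((a2 + g) * (Real.log (a2 + g) - Real.log a2) + g * (Real.log a2 - Real.log a)) /
        (2 * Real.pi) := by
    rw [hinc]
    field_simp
    ring
  have hub : (a2 + g) * (Real.log (a2 + g) - Real.log a2) ≤ 2 * g := by
    calc (a2 + g) * (Real.log (a2 + g) - Real.log a2) ≤ (a2 + g) * (g / a2) :=
          mul_le_mul_of_nonneg_left hl1 (by linarith)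
      _ = g + g * (g / a2) := by field_simp
      _ ≤ g + g * 1 := by
          have : g / a2 ≤ 1 := by
            rw [div_le_one ha20]
            linarith
          have := mul_le_mul_of_nonneg_left this g0
          linarith
      _ = 2 * g := by ring
  have hlb : 0 ≤ (a2 + g) * (Real.log (a2 + g) - Real.log a2) := mul_nonneg (by linarith) hl10
  have hub2 : g * (Real.log a2 - Real.log a) ≤ g * 1 := mul_le_mul_of_nonneg_left hl2 g0
  have hlb2 : 0 ≤ g * (Real.log a2 - Real.log a) := mul_nonneg g0 hl20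
  have hd1 : inc yy (n + l) - g * Real.log a / (2 * Real.pi) ≤ g := by
    rw [hdiff, div_le_iff₀ (by positivity)]
    nlinarith
  have hd0 : 0 ≤ inc yy (n + l) - g * Real.log a / (2 * Real.pi) := by
    rw [hdiff]
    positivity
  rw [abs_sub_comm, abs_of_nonneg hd0]
  linarith

open Classical in
/-- windows with unbounded gaps are rare -/
lemma few_wide (η : ℝ) (hη : 0 < η) (L : ℕ) : ∃ K : ℝ, 0 < K ∧ ∀ᶠ N : ℕ in atTop,
    (((Icc 1 N).filter (fun n => ¬ ∀ l < L, |inc yy (n + l)| ≤ K)).card : ℝ) ≤ η * N := by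
  obtain ⟨K, hK, h⟩ := tight_window tight_yy L η hη
  refine ⟨K, hK, ?_⟩
  obtain ⟨W, hW⟩ : ∃ W : Finset ℕ, W = range L := ⟨_, rfl⟩
  filter_upwards [h W (by rw [hW, Finset.card_range])] with N hN
  refine le_trans (le_of_eq ?_) hN
  congr 2
  ext n
  rw [Finset.mem_filter, Finset.mem_filter]
  constructor
  · rintro ⟨h1, h2⟩
    push Not at h2
    obtain ⟨l, hl, h3⟩ := h2
    exact ⟨h1, l, by rw [hW]; exact Finset.mem_range.mpr hl, h3⟩
  · rintro ⟨h1, l, hl, h3⟩
    refine ⟨h1, fun h4 => ?_⟩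
    rw [hW, Finset.mem_range] at hl
    exact absurd (h4 l hl) (not_le.mpr h3)

open Classical in
/-- **linear forms in consecutive ordinates on almost all windows** -/
theorem lin_win (k : ℕ) (η : ℝ) (hη : 0 < η) : ∃ (B : ℕ) (ε : ℝ), 0 < ε ∧ ∀ᶠ N : ℕ in atTop,
    (((Icc 1 N).filter (fun n => ∃ (c : ℕ → ℝ) (b : ℝ), (∃ j ≤ k, 1 ≤ |c j|) ∧
      ∀ i < B, |∑ j ∈ range (k + 1), c j * ord (n + i + j) - b| < ε / Real.log (ord (n + i)))).card : ℝ) ≤
      η * N := by
  have hpi := Real.pi_pos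
  have hpi3 := Real.pi_gt_three
  obtain ⟨B0, ε0, hε0, h⟩ := no_rec anti_yy lln_yy tight_yy k 0 (η / 3) (by positivity)
  obtain ⟨ε', hε'd⟩ : ∃ ε' : ℝ, ε' = ε0 / (2 * (k + 1)) := ⟨_, rfl⟩
  have hε' : 0 < ε' := by rw [hε'd]; positivity
  obtain ⟨K, hK, hwide⟩ := few_wide (η / 3) (by positivity) (B0 + k + 2)
  obtain ⟨n1, hn11, hn1⟩ := gap_close K ε' hK hε' (B0 + k + 2)
  refine ⟨B0 + 1, ε0 / 2, by positivity, ?_⟩
  have hbig : ∀ᶠ N : ℕ in atTop, (n1 : ℝ) ≤ η / 3 * N :=
    (tendsto_natCast_atTop_atTop.const_mul_atTop (show (0 : ℝ) < η / 3 by positivity)).eventually_ge_atTop _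
  filter_upwards [h, hwide, hbig] with N h1 h2 h3
  have hsub : (Icc 1 N).filter (fun n => ∃ (c : ℕ → ℝ) (b : ℝ), (∃ j ≤ k, 1 ≤ |c j|) ∧
      ∀ i < B0 + 1, |∑ j ∈ range (k + 1), c j * ord (n + i + j) - b| <
        ε0 / 2 / Real.log (ord (n + i))) ⊆
      ((Icc 1 N).filter (fun n => ∃ (c : ℕ → ℝ) (P : Polynomial ℝ), (∀ j ≤ k, |c j| ≤ 1) ∧
      (∃ j ≤ k, |c j| = 1) ∧ P.natDegree ≤ 0 ∧
      ∀ i < B0, |∑ j ∈ range (k + 1), c j * inc yy (n + i + j) - P.eval (i : ℝ)| ≤ ε0)) ∪
      (((Icc 1 N).filter (fun n => ¬ ∀ l < B0 + k + 2, |inc yy (n + l)| ≤ K)) ∪ Icc 1 n1) := by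
    intro n hn
    rw [Finset.mem_filter] at hn
    obtain ⟨hnI, c, b, ⟨p, hp, h3⟩, h4⟩ := hn
    rw [Finset.mem_union, Finset.mem_union]
    by_contra hcon
    rw [not_or, not_or] at hcon
    obtain ⟨c1, c2, c3⟩ := hcon
    have hnn1 : n1 ≤ n := by
      by_contra hc
      exact c3 (Finset.mem_Icc.mpr ⟨(Finset.mem_Icc.mp hnI).1, by omega⟩)
    have hw : ∀ l < B0 + k + 2, |inc yy (n + l)| ≤ K := by
      by_contra hc
      exact c2 (Finset.mem_filter.mpr ⟨hnI, hc⟩)
    obtain ⟨hn3, hcl⟩ := hn1 n hnn1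
    obtain ⟨hpos, hclose⟩ := hcl hw
    obtain ⟨j0, hj0, hmax⟩ := Finset.exists_max_image (range (k + 1)) (fun j => |c j|)
      ⟨0, Finset.mem_range.mpr (by omega)⟩
    rw [Finset.mem_range] at hj0
    obtain ⟨C, hCd⟩ : ∃ C : ℝ, C = |c j0| := ⟨_, rfl⟩
    have hC1 : 1 ≤ C := by
      rw [hCd]
      exact h3.trans (hmax p (Finset.mem_range.mpr (by omega)))
    have hC0 : 0 < C := by linarith
    apply c1
    rw [Finset.mem_filter]
    have hcj : ∀ j ≤ k, |c j / C| ≤ 1 := by
      intro j hj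
      rw [abs_div, abs_of_pos hC0, div_le_one hC0, hCd]
      exact hmax j (Finset.mem_range.mpr (by omega))
    refine ⟨hnI, fun j => c j / C, 0, hcj, ⟨j0, by omega, ?_⟩, by simp, ?_⟩
    · show |c j0 / C| = 1
      rw [abs_div, abs_of_pos hC0, ← hCd, div_self hC0.ne']
    · intro i hi
      have hoi : ord n ≤ ord (n + i) := (hpos i (by omega)).1
      obtain ⟨lo, hlo⟩ : ∃ lo : ℝ, lo = Real.log (ord (n + i)) := ⟨_, rfl⟩
      have hlo0 : 0 < lo := by
        rw [hlo]
        exact Real.log_pos (by linarith)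
      have e1 := abs_lt.mp (h4 i (by omega))
      have e2 := abs_lt.mp (h4 (i + 1) (by omega))
      rw [← hlo] at e1
      have e3 : ε0 / 2 / Real.log (ord (n + (i + 1))) ≤ ε0 / 2 / lo := by
        apply div_le_div_of_nonneg_left (by positivity) hlo0
        rw [hlo]
        apply Real.log_le_log (by linarith)
        exact SG.ord_mono (by omega) (by omega)
      -- the difference
      have e4 : |∑ j ∈ range (k + 1), c j * (ord (n + (i + j) + 1) - ord (n + (i + j)))| ≤ ε0 / lo := by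
        have e5 : ∑ j ∈ range (k + 1), c j * (ord (n + (i + j) + 1) - ord (n + (i + j))) =
            (∑ j ∈ range (k + 1), c j * ord (n + (i + 1) + j) - b) -
            (∑ j ∈ range (k + 1), c j * ord (n + i + j) - b) := by
          rw [sub_sub_sub_cancel_right, ← Finset.sum_sub_distrib]
          refine Finset.sum_congr rfl fun j _ => ?_
          rw [show n + (i + j) + 1 = n + (i + 1) + j by ring, show n + (i + j) = n + i + j by ring]
          ring
        rw [e5, abs_le]
        have e6 : ε0 / lo = ε0 / 2 / lo + ε0 / 2 / lo := by ring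
        constructor <;> linarith [e1.1, e1.2, e2.1, e2.2]
      have e7 : |∑ j ∈ range (k + 1), c j / C *
          ((ord (n + (i + j) + 1) - ord (n + (i + j))) * lo / (2 * Real.pi))| ≤ ε0 / 2 := by
        have e8 : ∑ j ∈ range (k + 1), c j / C *
            ((ord (n + (i + j) + 1) - ord (n + (i + j))) * lo / (2 * Real.pi)) =
            (∑ j ∈ range (k + 1), c j * (ord (n + (i + j) + 1) - ord (n + (i + j)))) *
            (lo / (2 * Real.pi * C)) := by
          rw [Finset.sum_mul]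
          refine Finset.sum_congr rfl fun j _ => ?_
          field_simp
        rw [e8, abs_mul, abs_of_pos (by positivity : 0 < lo / (2 * Real.pi * C))]
        calc _ ≤ ε0 / lo * (lo / (2 * Real.pi * C)) :=
              mul_le_mul_of_nonneg_right e4 (by positivity)
          _ = ε0 / (2 * Real.pi * C) := by field_simp
          _ ≤ ε0 / 2 := by
              apply div_le_div_of_nonneg_left hε0.le (by norm_num)
              nlinarith
      have e9 : |∑ j ∈ range (k + 1), c j / C *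
          ((ord (n + (i + j) + 1) - ord (n + (i + j))) * lo / (2 * Real.pi) - inc yy (n + (i + j)))| ≤
          ε0 / 2 := by
        refine (Finset.abs_sum_le_sum_abs _ _).trans ?_
        calc _ ≤ ∑ j ∈ range (k + 1), ε' := by
              apply Finset.sum_le_sum
              intro j hj
              rw [Finset.mem_range] at hj
              rw [abs_mul]
              have f2 := hclose i (by omega) (i + j) (by omega) (by omega)
              rw [← hlo] at f2
              calc _ ≤ 1 * ε' := mul_le_mul (hcj j (by omega)) f2 (abs_nonneg _) (by norm_num)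
                _ = ε' := one_mul _
          _ = ε0 / 2 := by
              rw [Finset.sum_const, Finset.card_range, nsmul_eq_mul, hε'd]
              push_cast
              field_simp
      have e10 : ∑ j ∈ range (k + 1), c j / C * inc yy (n + i + j) =
          ∑ j ∈ range (k + 1), c j / C *
            ((ord (n + (i + j) + 1) - ord (n + (i + j))) * lo / (2 * Real.pi)) -
          ∑ j ∈ range (k + 1), c j / C *
            ((ord (n + (i + j) + 1) - ord (n + (i + j))) * lo / (2 * Real.pi) -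
              inc yy (n + (i + j))) := by
        rw [← Finset.sum_sub_distrib]
        refine Finset.sum_congr rfl fun j _ => ?_
        rw [← add_assoc]
        ring
      rw [Polynomial.eval_zero, sub_zero]
      show |∑ j ∈ range (k + 1), c j / C * inc yy (n + i + j)| ≤ ε0
      rw [e10]
      refine (abs_sub _ _).trans ?_
      linarith
  have h5 := (Finset.card_le_card hsub).trans ((Finset.card_union_le _ _).trans
    (Nat.add_le_add_left (Finset.card_union_le _ _) _))
  rw [Nat.card_Icc, Nat.add_sub_cancel] at h5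
  have h6 : (((Icc 1 N).filter (fun n => ∃ (c : ℕ → ℝ) (b : ℝ), (∃ j ≤ k, 1 ≤ |c j|) ∧
      ∀ i < B0 + 1, |∑ j ∈ range (k + 1), c j * ord (n + i + j) - b| <
        ε0 / 2 / Real.log (ord (n + i)))).card : ℝ) ≤
      ((Icc 1 N).filter (fun n => ∃ (c : ℕ → ℝ) (P : Polynomial ℝ), (∀ j ≤ k, |c j| ≤ 1) ∧
      (∃ j ≤ k, |c j| = 1) ∧ P.natDegree ≤ 0 ∧
      ∀ i < B0, |∑ j ∈ range (k + 1), c j * inc yy (n + i + j) - P.eval (i : ℝ)| ≤ ε0)).card +
      (((Icc 1 N).filter (fun n => ¬ ∀ l < B0 + k + 2, |inc yy (n + l)| ≤ K)).card + n1) := by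
    exact_mod_cast h5
  have h7 := add_le_add h1 (add_le_add h2 h3)
  refine h6.trans (h7.trans (le_of_eq ?_))
  ring

end Pool.Agent.X112.GS
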