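import Pool.Agent.X112.GS.Poly

/-! # Polynomial relations between consecutive ordinates on windows, unconditional -/

set_option autoImplicit false

open Filter Topology Set

namespace Pool.Agent.X112.GS

open SG (ord NZ)
open Pool.Agent.Y743.LR (ord_tendsto)
open Pool.Agent.Y743.PR (nmon grad lead cf cf_low big Ok point)

lemma ok_ev2 (k m : ℕ) (hm : 1 ≤ m) {θ ε C : ℝ} (hθ0 : 0 ≤ θ) (hθ : θ < 1) (hε : 0 < ε)
    (hC : 0 < C) : ∀ᶠ n : ℕ in atTop, ord (n + k) - ord n ≤ C * (1 + Real.log n) →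
      Ok k m θ ε C n := by
  have hm0 : (1 : ℝ) ≤ m := by exact_mod_cast hm
  set θ1 : ℝ := (θ + 1) / 2 with hθ1
  set A : ℝ := nmon k m * (3 * m ^ 2) * (2 / ε) with hA
  set B : ℝ := ε / (2 * (m * (k + 1))) with hB
  have hA0 : 0 ≤ A := by positivity
  have hB0 : 0 < B := by positivity
  have ht : Tendsto (fun n : ℕ => (n : ℝ)) atTop atTop := tendsto_natCast_atTop_atTop
  -- growth comparisons
  have h1 : ∀ᶠ x : ℝ in atTop, A * (1 + C * (1 + Real.log x)) ^ 2 * x ^ θ ≤ B * x ^ θ1 := by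
    have h2 := (isLittleO_log_rpow_rpow_atTop 2 (by rw [hθ1]; linarith : 0 < θ1 - θ)).bound
      (c := B / ((A + 1) * (1 + 2 * C) ^ 2)) (by positivity)
    filter_upwards [h2, eventually_gt_atTop 3] with x hx hx3
    have hx0 : 0 < x := by linarith
    have hl : 1 ≤ Real.log x := by
      rw [Real.le_log_iff_exp_le hx0]
      linarith [Real.exp_one_lt_d9]
    rw [Real.norm_of_nonneg (by positivity), Real.norm_of_nonneg (by positivity)] at hx
    have e1 : Real.log x ^ (2 : ℝ) = Real.log x ^ 2 := by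
      rw [← Real.rpow_natCast]
      norm_num
    rw [e1] at hx
    have e2 : (1 + C * (1 + Real.log x)) ^ 2 ≤ ((1 + 2 * C) * Real.log x) ^ 2 := by
      apply pow_le_pow_left₀ (by positivity)
      nlinarith
    have e3 : x ^ θ1 = x ^ (θ1 - θ) * x ^ θ := by
      rw [← Real.rpow_add hx0]
      norm_num
    calc A * (1 + C * (1 + Real.log x)) ^ 2 * x ^ θ ≤
        (A + 1) * ((1 + 2 * C) * Real.log x) ^ 2 * x ^ θ := by
          apply mul_le_mul_of_nonneg_right _ (by positivity)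
          exact mul_le_mul (by linarith) e2 (by positivity) (by positivity)
      _ = ((A + 1) * (1 + 2 * C) ^ 2) * (Real.log x ^ 2) * x ^ θ := by ring
      _ ≤ ((A + 1) * (1 + 2 * C) ^ 2) *
          (B / ((A + 1) * (1 + 2 * C) ^ 2) * x ^ (θ1 - θ)) * x ^ θ := by gcongr
      _ = B * x ^ θ1 := by
          rw [e3]
          field_simp
  have h3 : ∀ᶠ x : ℝ in atTop, m * (C * (1 + Real.log x)) ≤ x ^ (1 / 2 : ℝ) := by
    have h2 := (isLittleO_log_rpow_rpow_atTop 1 (by norm_num : (0 : ℝ) < 1 / 2)).bound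
      (c := 1 / (2 * m * C)) (by positivity)
    filter_upwards [h2, eventually_gt_atTop 3] with x hx hx3
    have hx0 : 0 < x := by linarith
    have hl : 1 ≤ Real.log x := by
      rw [Real.le_log_iff_exp_le hx0]
      linarith [Real.exp_one_lt_d9]
    rw [Real.rpow_one, Real.norm_of_nonneg (by positivity),
      Real.norm_of_nonneg (by positivity)] at hx
    calc m * (C * (1 + Real.log x)) ≤ m * (C * (2 * Real.log x)) := by gcongr; linarith
      _ = (2 * m * C) * Real.log x := by ring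
      _ ≤ (2 * m * C) * (1 / (2 * m * C) * x ^ (1 / 2 : ℝ)) := by gcongr
      _ = _ := by field_simp
  filter_upwards [ht.eventually h1, ht.eventually h3, eventually_ge_atTop 1,
    ord_tendsto.eventually_ge_atTop 3, big (θ := θ1) (by rw [hθ1]; linarith) (by rw [hθ1]; linarith),
    big (θ := 1 / 2) (by norm_num) (by norm_num)] with n b1 b2 b3 b4 b5 b6 hsp
  have hl : 1 ≤ Real.log (ord n) := by
    rw [Real.le_log_iff_exp_le (by linarith)]
    linarith [Real.exp_one_lt_d9]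
  refine ⟨b3, b4, hsp, ?_, ?_⟩
  · refine b2.trans (le_trans ?_ b6)
    have : 0 ≤ (n : ℝ) ^ (1 / 2 : ℝ) := by positivity
    nlinarith
  · calc nmon k m * (3 * m ^ 2 * (1 + C * (1 + Real.log n)) ^ 2) * (2 / ε * (n : ℝ) ^ θ) *
          Real.log (ord n) =
        A * (1 + C * (1 + Real.log n)) ^ 2 * (n : ℝ) ^ θ * Real.log (ord n) := by
          rw [hA]; ring
      _ ≤ B * (n : ℝ) ^ θ1 * Real.log (ord n) := by gcongr
      _ = B * ((n : ℝ) ^ θ1 * Real.log (ord n)) := by ring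
      _ ≤ B * ord n := mul_le_mul_of_nonneg_left b5 hB0.le

open Classical in
/-- **polynomial relations on windows** -/
theorem poly_win (k : ℕ) (η : ℝ) (hη : 0 < η) : ∃ (B : ℕ) (ε : ℝ), 0 < ε ∧
    ∀ m : ℕ, 1 ≤ m → ∀ θ : ℝ, θ < 1 → ∀ᶠ N : ℕ in atTop,
    (((Finset.Icc 1 N).filter (fun n => ∃ (P : MvPolynomial (Fin (k + 1)) ℝ) (a : Fin (k + 1)),
      P.totalDegree ≤ m ∧ grad m P a ≠ 0 ∧
      (∀ s, |MvPolynomial.coeff s P| ≤ |grad m P a| * (N : ℝ) ^ θ) ∧
      ∀ i < B, |MvPolynomial.eval (fun j : Fin (k + 1) => ord (n + i + j)) P| <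
        ε / m * |grad m P a| * ord (n + i) ^ (m - 1) / Real.log (ord (n + i)))).card : ℝ) ≤ η * N := by
  obtain ⟨B, ε0, hε0, h0⟩ := lin_win k (η / 4) (by positivity)
  obtain ⟨ε1, hε1⟩ : ∃ ε1 : ℝ, ε1 = min (min ε0 1) (η / 2) := ⟨_, rfl⟩
  have hε1p : 0 < ε1 := by rw [hε1]; exact lt_min (lt_min hε0 one_pos) (by positivity)
  have hε10 : ε1 ≤ ε0 := by rw [hε1]; exact (min_le_left _ _).trans (min_le_left _ _)
  have hε11 : ε1 ≤ 1 := by rw [hε1]; exact (min_le_left _ _).trans (min_le_right _ _)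
  have hε1η : ε1 ≤ η / 2 := by rw [hε1]; exact min_le_right _ _
  refine ⟨B, ε1 / (2 * ((k + 1 : ℕ) + 1)), by positivity, fun m hm θ hθ => ?_⟩
  obtain ⟨θ', hθ'⟩ : ∃ θ' : ℝ, θ' = max θ 0 := ⟨_, rfl⟩
  have hθ'0 : 0 ≤ θ' := by rw [hθ']; exact le_max_right _ _
  have hθθ' : θ ≤ θ' := by rw [hθ']; exact le_max_left _ _
  have hθ'1 : θ' < 1 := by rw [hθ']; exact max_lt hθ one_pos
  obtain ⟨L, hL⟩ : ∃ L : ℕ, L = B + k + 2 := ⟨_, rfl⟩
  obtain ⟨K, hK, hwide⟩ := few_wide (η / 4) (by positivity) L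
  obtain ⟨n1, hn11, hn1⟩ := gap_close K 1 hK one_pos L
  obtain ⟨n2, hn2⟩ := (ok_ev2 (k + 1) m hm hθ'0 hθ'1 hε1p
    (show (0 : ℝ) < L + 1 by positivity)).exists_forall_of_atTop
  have hbig : ∀ᶠ N : ℕ in atTop, ((n1 + n2 : ℕ) : ℝ) ≤ η / 4 * N :=
    (tendsto_natCast_atTop_atTop.const_mul_atTop (show (0 : ℝ) < η / 4 by positivity)).eventually_ge_atTop _
  filter_upwards [h0, hwide, hbig, eventually_ge_atTop 1] with N h1 h2 h3 hN1
  have hsub : (Finset.Icc 1 N).filter (fun n => ∃ (P : MvPolynomial (Fin (k + 1)) ℝ)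
      (a : Fin (k + 1)), P.totalDegree ≤ m ∧ grad m P a ≠ 0 ∧
      (∀ s, |MvPolynomial.coeff s P| ≤ |grad m P a| * (N : ℝ) ^ θ) ∧
      ∀ i < B, |MvPolynomial.eval (fun j : Fin (k + 1) => ord (n + i + j)) P| <
        ε1 / (2 * ((k + 1 : ℕ) + 1)) / m * |grad m P a| * ord (n + i) ^ (m - 1) /
          Real.log (ord (n + i))) ⊆
      ((Finset.Icc 1 N).filter (fun n => ∃ (c : ℕ → ℝ) (b : ℝ), (∃ j ≤ k, 1 ≤ |c j|) ∧
      ∀ i < B, |∑ j ∈ Finset.range (k + 1), c j * ord (n + i + j) - b| <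
        ε0 / Real.log (ord (n + i)))) ∪
      (((Finset.Icc 1 N).filter (fun n => ¬ ∀ l < L, |inc yy (n + l)| ≤ K)) ∪
      (Finset.Icc 1 (n1 + n2) ∪ Finset.Icc 1 ⌊ε1 / 2 * N⌋₊)) := by
    intro n hn
    rw [Finset.mem_filter] at hn
    obtain ⟨hnI, P, a, hP, hgr, hco, hval⟩ := hn
    rw [Finset.mem_union, Finset.mem_union, Finset.mem_union]
    by_contra hcon
    rw [not_or, not_or, not_or] at hcon
    obtain ⟨c1, c2, c3, c4⟩ := hcon
    have hn0 : 1 ≤ n := (Finset.mem_Icc.mp hnI).1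
    have hnn : n1 + n2 ≤ n := by
      by_contra hc
      exact c3 (Finset.mem_Icc.mpr ⟨hn0, by omega⟩)
    have hnε : ε1 / 2 * N ≤ n := by
      by_contra hc
      push Not at hc
      exact c4 (Finset.mem_Icc.mpr ⟨hn0, Nat.le_floor hc.le⟩)
    have hw : ∀ l < L, |inc yy (n + l)| ≤ K := by
      by_contra hc
      exact c2 (Finset.mem_filter.mpr ⟨hnI, hc⟩)
    obtain ⟨hn3, hcl⟩ := hn1 n (by omega)
    obtain ⟨hpos, -⟩ := hcl hw
    have hA0 : 0 < |grad m P a| := abs_pos.mpr hgr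
    have hm1 : (1 : ℝ) ≤ m := by exact_mod_cast hm
    have hN0 : (1 : ℝ) ≤ N := by exact_mod_cast hN1
    obtain ⟨A, hA⟩ : ∃ A : ℝ, A = |grad m P a| := ⟨_, rfl⟩
    rw [← hA] at hA0
    have hco' : ∀ s, |MvPolynomial.coeff s P| ≤ A * (N : ℝ) ^ θ' := fun s => by
      refine (hco s).trans ?_
      rw [← hA]
      apply mul_le_mul_of_nonneg_left _ hA0.le
      exact Real.rpow_le_rpow_of_exponent_le hN0 hθθ'
    apply c1
    rw [Finset.mem_filter]
    obtain ⟨j0, hj0⟩ := cf_low hm P a hgr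
    rw [← hA] at hj0
    obtain ⟨M, hM⟩ : ∃ M : ℝ, M = m * ((k + 1 : ℕ) + 1) := ⟨_, rfl⟩
    have hM0 : 0 < M := by rw [hM]; positivity
    rw [← hM] at hj0
    refine ⟨hnI, fun j => if h : j < k + 1 then M / A * cf m P ⟨j, h⟩ else 0,
      -(M / A * lead (m - 1) P), ⟨j0, by have := j0.2; omega, ?_⟩, fun i hi => ?_⟩
    · dsimp only
      rw [dif_pos j0.2, Fin.eta, abs_mul, abs_of_pos (by positivity : 0 < M / A),
        div_mul_eq_mul_div, le_div_iff₀ hA0, one_mul]
      exact hj0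
    · have hoi : ord n ≤ ord (n + i) := (hpos i (by omega)).1
      have hl0 : 0 < Real.log (ord (n + i)) := Real.log_pos (by linarith)
      have hsp : ord (n + i + (k + 1)) - ord (n + i) ≤ ((L : ℝ) + 1) * (1 + Real.log ((n + i : ℕ) : ℝ)) := by
        have a1 := (hpos (i + (k + 1)) (by omega)).2
        rw [← add_assoc] at a1
        have a2 : 0 ≤ Real.log ((n + i : ℕ) : ℝ) := Real.log_nonneg (by
          have : 1 ≤ n + i := by omega
          exact_mod_cast this)
        have a3 : ((i + (k + 1) : ℕ) : ℝ) ≤ L := by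
          exact_mod_cast (by omega : i + (k + 1) ≤ L)
        have a4 : (0 : ℝ) ≤ L := Nat.cast_nonneg _
        nlinarith
      have hok := hn2 (n + i) (by omega) hsp
      have hni : ε1 / 2 * N ≤ ((n + i : ℕ) : ℝ) := by
        push_cast
        have : (0 : ℝ) ≤ i := Nat.cast_nonneg _
        linarith
      have hv := hval i hi
      rw [← hA] at hv
      have hlin : |∑ j : Fin (k + 1), cf m P j * ord (n + i + j) + lead (m - 1) P| <
          ε1 * A / (m * ((k + 1 : ℕ) + 1) * Real.log (ord (n + i))) := by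
        by_contra hc
        push Not at hc
        have := point hm hε1p (by positivity) hok hθ'0 hθ'1 hni hε11 hP a hA0 hco' hc
        linarith
      have e1 : ∑ j ∈ Finset.range (k + 1),
          (if h : j < k + 1 then M / A * cf m P ⟨j, h⟩ else 0) * ord (n + i + j) -
            -(M / A * lead (m - 1) P) =
          M / A * (∑ j : Fin (k + 1), cf m P j * ord (n + i + j) + lead (m - 1) P) := by
        rw [Finset.sum_range, sub_neg_eq_add, mul_add, Finset.mul_sum]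
        congr 1
        refine Finset.sum_congr rfl fun j _ => ?_
        rw [dif_pos j.2, Fin.eta]
        ring
      rw [e1, abs_mul, abs_of_pos (by positivity : 0 < M / A)]
      calc M / A * |∑ j : Fin (k + 1), cf m P j * ord (n + i + j) + lead (m - 1) P| <
            M / A * (ε1 * A / (m * ((k + 1 : ℕ) + 1) * Real.log (ord (n + i)))) :=
              mul_lt_mul_of_pos_left hlin (by positivity)
        _ = ε1 / Real.log (ord (n + i)) := by
            rw [← hM]
            field_simp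
        _ ≤ ε0 / Real.log (ord (n + i)) := div_le_div_of_nonneg_right hε10 hl0.le
  have h5 := (Finset.card_le_card hsub).trans ((Finset.card_union_le _ _).trans
    (Nat.add_le_add_left ((Finset.card_union_le _ _).trans
    (Nat.add_le_add_left (Finset.card_union_le _ _) _)) _))
  rw [Nat.card_Icc, Nat.add_sub_cancel, Nat.card_Icc, Nat.add_sub_cancel] at h5
  have h8 : (⌊ε1 / 2 * (N : ℝ)⌋₊ : ℝ) ≤ η / 4 * N := by
    refine (Nat.floor_le (by positivity)).trans ?_
    apply mul_le_mul_of_nonneg_right _ (Nat.cast_nonneg _)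
    linarith
  have h6 : (((Finset.Icc 1 N).filter (fun n => ∃ (P : MvPolynomial (Fin (k + 1)) ℝ)
      (a : Fin (k + 1)), P.totalDegree ≤ m ∧ grad m P a ≠ 0 ∧
      (∀ s, |MvPolynomial.coeff s P| ≤ |grad m P a| * (N : ℝ) ^ θ) ∧
      ∀ i < B, |MvPolynomial.eval (fun j : Fin (k + 1) => ord (n + i + j)) P| <
        ε1 / (2 * ((k + 1 : ℕ) + 1)) / m * |grad m P a| * ord (n + i) ^ (m - 1) /
          Real.log (ord (n + i)))).card : ℝ) ≤
      ((Finset.Icc 1 N).filter (fun n => ∃ (c : ℕ → ℝ) (b : ℝ), (∃ j ≤ k, 1 ≤ |c j|) ∧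
      ∀ i < B, |∑ j ∈ Finset.range (k + 1), c j * ord (n + i + j) - b| <
        ε0 / Real.log (ord (n + i)))).card +
      (((Finset.Icc 1 N).filter (fun n => ¬ ∀ l < L, |inc yy (n + l)| ≤ K)).card +
      (((n1 + n2 : ℕ) : ℝ) + ⌊ε1 / 2 * (N : ℝ)⌋₊)) := by
    exact_mod_cast h5
  have h7 := add_le_add h1 (add_le_add h2 (add_le_add h3 h8))
  refine h6.trans (h7.trans (le_of_eq ?_))
  ring

end Pool.Agent.X112.GS
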