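import Pool.Agent.X112.GS.Poly2

/-! # Polynomial relations: a positive proportion of the places -/

set_option autoImplicit false

open Filter Topology Set

namespace Pool.Agent.X112.GS

open SG (ord NZ)
open Pool.Agent.Y743.PR (grad)

open Classical in
lemma card_win (G : ℕ → Prop) (B N : ℕ) :
    N ≤ ((Finset.Icc 1 N).filter (fun n => ∀ i < B, ¬ G (n + i))).card +
      (B * ((Finset.Icc 1 N).filter G).card + B * B) := by
  have h1 : Finset.Icc 1 N ⊆ (Finset.Icc 1 N).filter (fun n => ∀ i < B, ¬ G (n + i)) ∪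
      (Finset.range B).biUnion (fun i => (Finset.Icc 1 N).filter (fun n => G (n + i))) := by
    intro n hn
    rw [Finset.mem_union, Finset.mem_filter, Finset.mem_biUnion]
    by_cases h : ∀ i < B, ¬ G (n + i)
    · exact Or.inl ⟨hn, h⟩
    · push Not at h
      obtain ⟨i, hi, h2⟩ := h
      exact Or.inr ⟨i, Finset.mem_range.mpr hi, Finset.mem_filter.mpr ⟨hn, h2⟩⟩
  have h2 := (Finset.card_le_card h1).trans ((Finset.card_union_le _ _).trans
    (Nat.add_le_add_left Finset.card_biUnion_le _))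
  rw [Nat.card_Icc, Nat.add_sub_cancel] at h2
  have h3 : ∑ i ∈ Finset.range B, ((Finset.Icc 1 N).filter (fun n => G (n + i))).card ≤
      ∑ i ∈ Finset.range B, (((Finset.Icc 1 N).filter G).card + B) :=
    Finset.sum_le_sum fun i hi => (card_shift G N i).trans
      (Nat.add_le_add_left (Finset.mem_range.mp hi).le _)
  rw [Finset.sum_const, Finset.card_range, smul_eq_mul, mul_add] at h3
  omega

open Classical in
theorem poly_prop (k : ℕ) : ∃ ε : ℝ, 0 < ε ∧
    ∀ m : ℕ, 1 ≤ m → ∀ θ : ℝ, θ < 1 → ∀ᶠ N : ℕ in atTop,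
    ∀ (P : MvPolynomial (Fin (k + 1)) ℝ) (a : Fin (k + 1)),
      P.totalDegree ≤ m → grad m P a ≠ 0 →
      (∀ s, |MvPolynomial.coeff s P| ≤ |grad m P a| * (N : ℝ) ^ θ) →
      ε * N ≤ (((Finset.Icc 1 N).filter (fun n =>
        ε / m * |grad m P a| * ord n ^ (m - 1) / Real.log (ord n) ≤
          |MvPolynomial.eval (fun j : Fin (k + 1) => ord (n + j)) P|)).card : ℝ) := by
  obtain ⟨B, ε, hε, h⟩ := poly_win k (1 / 2) (by norm_num)
  obtain ⟨ε', hε'⟩ : ∃ ε' : ℝ, ε' = min ε (1 / (4 * (B + 1))) := ⟨_, rfl⟩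
  have hε'0 : 0 < ε' := by rw [hε']; exact lt_min hε (by positivity)
  have hε'1 : ε' ≤ ε := by rw [hε']; exact min_le_left _ _
  have hε'2 : ε' ≤ 1 / (4 * (B + 1)) := by rw [hε']; exact min_le_right _ _
  refine ⟨ε', hε'0, fun m hm θ hθ => ?_⟩
  obtain ⟨n0, hn0⟩ := (Pool.Agent.Y743.LR.ord_tendsto.eventually_ge_atTop 3).exists_forall_of_atTop
  have hbig2 : ∀ᶠ N : ℕ in atTop, ((B * B + (B + 1) * n0 : ℕ) : ℝ) ≤ 1 / 4 * N :=
    (tendsto_natCast_atTop_atTop.const_mul_atTop (show (0 : ℝ) < 1 / 4 by norm_num)).eventually_ge_atTop _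
  filter_upwards [h m hm θ hθ, hbig2] with N hN hb P a hP hgr hco
  obtain ⟨G, hG⟩ : ∃ G : ℕ → Prop, G = fun n =>
      ε' / m * |grad m P a| * ord n ^ (m - 1) / Real.log (ord n) ≤
          |MvPolynomial.eval (fun j : Fin (k + 1) => ord (n + j)) P| := ⟨_, rfl⟩
  have h1 := card_win G B N
  have h2 : (Finset.Icc 1 N).filter (fun n => ∀ i < B, ¬ G (n + i)) ⊆
      (Finset.Icc 1 N).filter (fun n => ∃ (P : MvPolynomial (Fin (k + 1)) ℝ) (a : Fin (k + 1)),
      P.totalDegree ≤ m ∧ grad m P a ≠ 0 ∧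
      (∀ s, |MvPolynomial.coeff s P| ≤ |grad m P a| * (N : ℝ) ^ θ) ∧
      ∀ i < B, |MvPolynomial.eval (fun j : Fin (k + 1) => ord (n + i + j)) P| <
        ε / m * |grad m P a| * ord (n + i) ^ (m - 1) / Real.log (ord (n + i))) ∪
      Finset.Icc 1 n0 := by
    intro n hn
    rw [Finset.mem_filter] at hn
    rw [Finset.mem_union, Finset.mem_filter]
    by_cases hnn : n ≤ n0
    · exact Or.inr (Finset.mem_Icc.mpr ⟨(Finset.mem_Icc.mp hn.1).1, hnn⟩)
    · refine Or.inl ⟨hn.1, P, a, hP, hgr, hco, fun i hi => ?_⟩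
      have h3 := hn.2 i hi
      rw [hG] at h3
      push Not at h3
      refine h3.trans_le ?_
      have h4 : 3 ≤ ord (n + i) := hn0 (n + i) (by omega)
      have h5 : 0 < Real.log (ord (n + i)) := Real.log_pos (by linarith)
      apply div_le_div_of_nonneg_right _ h5.le
      apply mul_le_mul_of_nonneg_right _ (by positivity)
      apply mul_le_mul_of_nonneg_right _ (abs_nonneg _)
      exact div_le_div_of_nonneg_right hε'1 (Nat.cast_nonneg _)
  have h3 := (Finset.card_le_card h2).trans (Finset.card_union_le _ _)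
  rw [Nat.card_Icc, Nat.add_sub_cancel] at h3
  have h4 : (((Finset.Icc 1 N).filter (fun n => ∀ i < B, ¬ G (n + i))).card : ℝ) ≤
      1 / 2 * N + n0 := by
    have : (((Finset.Icc 1 N).filter (fun n => ∀ i < B, ¬ G (n + i))).card : ℝ) ≤
      ((Finset.Icc 1 N).filter (fun n => ∃ (P : MvPolynomial (Fin (k + 1)) ℝ) (a : Fin (k + 1)),
      P.totalDegree ≤ m ∧ grad m P a ≠ 0 ∧
      (∀ s, |MvPolynomial.coeff s P| ≤ |grad m P a| * (N : ℝ) ^ θ) ∧
      ∀ i < B, |MvPolynomial.eval (fun j : Fin (k + 1) => ord (n + i + j)) P| <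
        ε / m * |grad m P a| * ord (n + i) ^ (m - 1) / Real.log (ord (n + i)))).card + n0 := by
      exact_mod_cast h3
    linarith
  have h5 : (N : ℝ) ≤ ((Finset.Icc 1 N).filter (fun n => ∀ i < B, ¬ G (n + i))).card +
      (B * ((Finset.Icc 1 N).filter G).card + B * B) := by exact_mod_cast h1
  have h6 : (1 : ℝ) / 4 * N ≤ (B + 1) * ((Finset.Icc 1 N).filter G).card := by
    push_cast at hb
    have hc : (0 : ℝ) ≤ ((Finset.Icc 1 N).filter G).card := Nat.cast_nonneg _
    have hn : (0 : ℝ) ≤ (B : ℝ) * n0 := by positivity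
    nlinarith
  have h7 : ε' * N ≤ 1 / (4 * (B + 1)) * N := mul_le_mul_of_nonneg_right hε'2 (Nat.cast_nonneg _)
  have h8 : 1 / (4 * ((B : ℝ) + 1)) * N ≤ ((Finset.Icc 1 N).filter G).card := by
    have e : 1 / (4 * ((B : ℝ) + 1)) * N = (1 / 4 * N) / (B + 1) := by
      field_simp
    rw [e, div_le_iff₀ (by positivity)]
    linarith
  rw [hG] at h8
  exact h7.trans h8

end Pool.Agent.X112.GS
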