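import Pool.Agent.X112.GS.Conc
import Pool.Agent.X112.GS.Diff

/-! # Codings of rotations: the inequality of Denjoy and Koksma and slow rotations -/

set_option autoImplicit false

open Filter Finset

namespace Pool.Agent.X112.GS

/-- a function of period one whose variation is controlled by `v` -/
structure Quasi (f v : ℝ → ℝ) (V : ℝ) : Prop where
  per : ∀ t, f (t + 1) = f t
  vper : ∀ t, v (t + 1) = v t + V
  le : ∀ s t, s ≤ t → |f t - f s| ≤ v t - v s

namespace Quasi

variable {f v : ℝ → ℝ} {V : ℝ}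

lemma mono (h : Quasi f v V) {s t : ℝ} (hst : s ≤ t) : v s ≤ v t := by
  have := (abs_nonneg _).trans (h.le s t hst)
  linarith

lemma vnonneg (h : Quasi f v V) : 0 ≤ V := by
  have := h.mono (show (0 : ℝ) ≤ 0 + 1 by norm_num)
  rw [h.vper] at this
  linarith

lemma nper (h : Quasi f v V) (k : ℕ) (t : ℝ) : f (t + k) = f t ∧ v (t + k) = v t + k * V := by
  induction k with
  | zero => simp
  | succ k ih =>
    have e : t + ((k + 1 : ℕ) : ℝ) = t + k + 1 := by push_cast; ring
    rw [e, h.per, h.vper, ih.1, ih.2]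
    refine ⟨rfl, ?_⟩
    push_cast
    ring

lemma zper (h : Quasi f v V) (k : ℤ) (t : ℝ) : f (t + k) = f t ∧ v (t + k) = v t + k * V := by
  rcases le_total 0 k with hk | hk
  · obtain ⟨n, rfl⟩ := Int.eq_ofNat_of_zero_le hk
    exact_mod_cast h.nper n t
  · obtain ⟨n, hn⟩ := Int.eq_ofNat_of_zero_le (show 0 ≤ -k by omega)
    have hk' : (k : ℝ) = -(n : ℝ) := by
      have : k = -(n : ℤ) := by omega
      rw [this]
      push_cast
      ring
    have h1 := h.nper n (t + k)
    rw [hk'] at h1 ⊢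
    rw [show t + -(n : ℝ) + n = t by ring] at h1
    refine ⟨h1.1.symm, ?_⟩
    rw [h1.2]
    ring

/-- the deviation of `v` from a linear function -/
lemma lin (h : Quasi f v V) (s t : ℝ) : |v t - v s - V * (t - s)| ≤ V := by
  have key : ∀ s t : ℝ, s ≤ t → |v t - v s - V * (t - s)| ≤ V := by
    intro s t hst
    have hV := h.vnonneg
    obtain ⟨k, hk⟩ : ∃ k : ℤ, k = ⌊t - s⌋ := ⟨_, rfl⟩
    have h1 : (k : ℝ) ≤ t - s := by rw [hk]; exact Int.floor_le _
    have h2 : t - s < k + 1 := by rw [hk]; exact Int.lt_floor_add_one _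
    have h3 := h.mono (show s + k ≤ t by linarith)
    have h4 := h.mono (show t ≤ s + k + 1 by linarith)
    rw [h.vper] at h4
    rw [(h.zper k s).2] at h3 h4
    rw [abs_le]
    constructor <;> nlinarith
  rcases le_total s t with hst | hst
  · exact key s t hst
  · have := key t s hst
    rw [abs_sub_comm] at this
    rw [show v t - v s - V * (t - s) = V * (s - t) - (v s - v t) by ring]
    exact this

end Quasi

/-- complete systems of residues -/
lemma reindex {G : ℤ → ℝ} {q : ℕ} (hq : 1 ≤ q) (hG : ∀ k, G (k + q) = G k) {p : ℤ}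
    (hp : IsCoprime p (q : ℤ)) (k : ℤ) :
    ∑ i ∈ range q, G (k + i * p) = ∑ j ∈ range q, G j := by
  have hq0 : (0 : ℤ) < q := by exact_mod_cast hq
  have hper : ∀ m : ℤ, ∀ a : ℤ, G (a + m * q) = G a := by
    intro m
    induction m using Int.induction_on with
    | zero => intro a; simp
    | succ i ih =>
      intro a
      rw [show a + ((i : ℤ) + 1) * q = (a + i * q) + q by ring, hG, ih]
    | pred i ih =>
      intro a
      have := hG (a + (-(i : ℤ) - 1) * q)
      rw [← this, show a + (-(i : ℤ) - 1) * q + q = a + (-(i : ℤ)) * q by ring]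
      exact ih a
  have hmod : ∀ a : ℤ, G (a % q) = G a := by
    intro a
    have h1 := Int.emod_add_mul_ediv a q
    have h2 := hper (a / q) (a % q)
    rw [show a % q + a / q * q = a by linarith [h1, mul_comm (a / (q : ℤ)) (q : ℤ)]] at h2
    exact h2.symm
  have hcast : ∀ a : ℤ, (((a % q).toNat : ℕ) : ℤ) = a % q := fun a =>
    Int.toNat_of_nonneg (Int.emod_nonneg _ hq0.ne')
  have hinj : Set.InjOn (fun i : ℕ => ((k + i * p) % q).toNat) (range q : Set ℕ) := by
    intro i hi j hj hij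
    rw [Finset.mem_coe, mem_range] at hi hj
    dsimp only at hij
    have h1 : ((((k + i * p) % q).toNat : ℕ) : ℤ) = (((k + j * p) % q).toNat : ℕ) := by rw [hij]
    rw [hcast, hcast] at h1
    have h2 : (q : ℤ) ∣ (k + i * p) - (k + j * p) :=
      Int.ModEq.dvd (show (k + j * p) ≡ (k + i * p) [ZMOD q] from h1.symm)
    have h3 : (q : ℤ) ∣ ((i : ℤ) - j) * p := by
      rwa [show (k + i * p) - (k + j * p) = ((i : ℤ) - j) * p by ring] at h2
    have h4 : (q : ℤ) ∣ (i : ℤ) - j := hp.symm.dvd_of_dvd_mul_right h3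
    obtain ⟨c, hc⟩ := h4
    have hi' : (i : ℤ) < q := by exact_mod_cast hi
    have hj' : (j : ℤ) < q := by exact_mod_cast hj
    have hc0 : c = 0 := by
      by_contra hne
      rcases lt_or_gt_of_ne hne with h | h
      · have : (q : ℤ) * c ≤ q * (-1) := mul_le_mul_of_nonneg_left (by omega) hq0.le
        omega
      · have : (q : ℤ) * 1 ≤ q * c := mul_le_mul_of_nonneg_left (by omega) hq0.le
        omega
    rw [hc0, mul_zero] at hc
    omega
  have hmaps : Set.MapsTo (fun i : ℕ => ((k + i * p) % q).toNat) (range q : Set ℕ) (range q : Set ℕ) := by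
    intro i _
    rw [Finset.mem_coe, mem_range]
    show ((k + i * p) % q).toNat < q
    have h1 := Int.emod_lt_of_pos (k + i * p) hq0
    have h2 := hcast (k + i * p)
    omega
  refine Finset.sum_nbij (fun i : ℕ => ((k + i * p) % q).toNat) (fun i hi => hmaps hi) hinj
    (Finset.surjOn_of_injOn_of_card_le _ hmaps hinj le_rfl) (fun i _ => ?_)
  rw [hcast, hmod]

/-- the inequality of Denjoy and Koksma -/
theorem dk {f v : ℝ → ℝ} {V : ℝ} (h : Quasi f v V) {q : ℕ} (hq : 1 ≤ q) {p : ℤ}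
    (hp : IsCoprime p (q : ℤ)) {α : ℝ} (hα : |α - p / q| ≤ 1 / (q : ℝ) ^ 2) (x : ℝ) :
    |∑ i ∈ range q, f (x + i * α) - ∑ j ∈ range q, f ((j : ℝ) / q)| ≤ 2 * V := by
  have hq0 : (0 : ℝ) < q := by exact_mod_cast hq
  -- the sums at rational points
  have hA : ∀ u : ℝ, ∀ k : ℤ, ∑ i ∈ range q, f (u + ((k + i * p : ℤ) : ℝ) / q) =
      ∑ j ∈ range q, f (u + (j : ℝ) / q) := by
    intro u k
    have := reindex (G := fun k : ℤ => f (u + (k : ℝ) / q)) hq (fun k => by
      rw [show u + (((k + q : ℤ)) : ℝ) / q = u + (k : ℝ) / q + 1 by push_cast; field_simp; ring, h.per])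
      hp k
    rw [this]
    exact Finset.sum_congr rfl (fun j _ => by push_cast; rfl)
  have hA1 : ∀ u : ℝ, ∀ k : ℤ, ∑ i ∈ range q, f (u + ((k + i : ℤ) : ℝ) / q) =
      ∑ j ∈ range q, f (u + (j : ℝ) / q) := by
    intro u k
    have := reindex (G := fun k : ℤ => f (u + (k : ℝ) / q)) hq (fun k => by
      rw [show u + (((k + q : ℤ)) : ℝ) / q = u + (k : ℝ) / q + 1 by push_cast; field_simp; ring, h.per])
      (isCoprime_one_left : IsCoprime (1 : ℤ) q) k
    simp only [mul_one] at this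
    rw [this]
    exact Finset.sum_congr rfl (fun j _ => by push_cast; rfl)
  have hG : ∀ u : ℝ, ∑ i ∈ range q, (v (u + ((i * p : ℤ) : ℝ) / q + 1 / q) -
      v (u + ((i * p : ℤ) : ℝ) / q)) = V := by
    intro u
    have := reindex (G := fun k : ℤ => v (u + (k : ℝ) / q + 1 / q) - v (u + (k : ℝ) / q)) hq (fun k => by
      rw [show u + (((k + q : ℤ)) : ℝ) / q = u + (k : ℝ) / q + 1 by push_cast; field_simp; ring, h.vper,
        show u + (k : ℝ) / q + 1 + 1 / q = u + (k : ℝ) / q + 1 / q + 1 by ring, h.vper]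
      ring)
      hp 0
    simp only [zero_add] at this
    rw [this]
    have h2 : ∀ j ∈ range q, v (u + (((j : ℕ) : ℤ) : ℝ) / q + 1 / q) - v (u + (((j : ℕ) : ℤ) : ℝ) / q) =
        v (u + ((j + 1 : ℕ) : ℝ) / q) - v (u + ((j : ℕ) : ℝ) / q) := by
      intro j _
      congr 2
      push_cast
      ring
    rw [Finset.sum_congr rfl h2, Finset.sum_range_sub (fun j : ℕ => v (u + (j : ℝ) / q))]
    rw [show u + (q : ℝ) / q = u + 1 by field_simp, h.vper]
    simp
  -- first step
  have h1 : |∑ i ∈ range q, f (x + i * α) - ∑ i ∈ range q, f (x + ((i * p : ℤ) : ℝ) / q)| ≤ V := by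
    rw [← Finset.sum_sub_distrib]
    refine (Finset.abs_sum_le_sum_abs _ _).trans ?_
    have hi1 : ∀ i ∈ range q, (i : ℝ) * |α - p / q| ≤ 1 / q := by
      intro i hi
      rw [mem_range] at hi
      have : (i : ℝ) ≤ q := by exact_mod_cast hi.le
      calc (i : ℝ) * |α - p / q| ≤ q * (1 / (q : ℝ) ^ 2) :=
            mul_le_mul this hα (abs_nonneg _) hq0.le
        _ = 1 / q := by field_simp
    rcases le_total ((p : ℝ) / q) α with hle | hle
    · rw [← hG x]
      apply Finset.sum_le_sum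
      intro i hi
      have h2 := hi1 i hi
      rw [abs_of_nonneg (by linarith)] at h2
      have e : x + ((i * p : ℤ) : ℝ) / q = x + i * ((p : ℝ) / q) := by push_cast; ring
      have h3 : x + ((i * p : ℤ) : ℝ) / q ≤ x + i * α := by
        rw [e]
        have := mul_le_mul_of_nonneg_left hle (Nat.cast_nonneg (α := ℝ) i)
        linarith
      refine (h.le _ _ h3).trans ?_
      have h4 : x + i * α ≤ x + ((i * p : ℤ) : ℝ) / q + 1 / q := by
        rw [e]
        linarith
      linarith [h.mono h4]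
    · rw [← hG (x - 1 / q)]
      apply Finset.sum_le_sum
      intro i hi
      have h2 := hi1 i hi
      rw [abs_of_nonpos (by linarith)] at h2
      have e : x + ((i * p : ℤ) : ℝ) / q = x + i * ((p : ℝ) / q) := by push_cast; ring
      have h3 : x + i * α ≤ x + ((i * p : ℤ) : ℝ) / q := by
        rw [e]
        have := mul_le_mul_of_nonneg_left hle (Nat.cast_nonneg (α := ℝ) i)
        linarith
      rw [abs_sub_comm]
      refine (h.le _ _ h3).trans ?_
      have h4 : x - 1 / q + ((i * p : ℤ) : ℝ) / q ≤ x + i * α := by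
        have : x - 1 / q + ((i * p : ℤ) : ℝ) / q = x + ((i * p : ℤ) : ℝ) / q - 1 / q := by ring
        rw [this, e]
        linarith
      have h5 := h.mono h4
      rw [show x - 1 / q + ((i * p : ℤ) : ℝ) / q + 1 / q = x + ((i * p : ℤ) : ℝ) / q by ring]
      linarith
  -- second step
  obtain ⟨k, hk⟩ : ∃ k : ℤ, k = ⌊x * q⌋ := ⟨_, rfl⟩
  have hk1 : (k : ℝ) ≤ x * q := by rw [hk]; exact Int.floor_le _
  have hk2 : x * q < k + 1 := by rw [hk]; exact Int.lt_floor_add_one _
  obtain ⟨u, hu⟩ : ∃ u : ℝ, u = x - k / q := ⟨_, rfl⟩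
  have hu0 : 0 ≤ u := by
    rw [hu, sub_nonneg, div_le_iff₀ hq0]
    exact hk1
  have hu1 : u ≤ 1 / q := by
    rw [hu, sub_le_iff_le_add, ← add_div, le_div_iff₀ hq0]
    linarith
  have h2 : ∑ i ∈ range q, f (x + ((i * p : ℤ) : ℝ) / q) = ∑ j ∈ range q, f (u + (j : ℝ) / q) := by
    have h3 := hA x 0
    simp only [zero_add] at h3
    rw [h3, ← hA1 u k]
    apply Finset.sum_congr rfl
    intro j _
    congr 1
    rw [hu]
    push_cast
    ring
  have h3 : |∑ j ∈ range q, f (u + (j : ℝ) / q) - ∑ j ∈ range q, f ((j : ℝ) / q)| ≤ V := by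
    rw [← Finset.sum_sub_distrib]
    refine (Finset.abs_sum_le_sum_abs _ _).trans ?_
    have h4 : ∑ j ∈ range q, (v (((j + 1 : ℕ) : ℝ) / q) - v (((j : ℕ) : ℝ) / q)) = V := by
      rw [Finset.sum_range_sub (fun j : ℕ => v ((j : ℝ) / q))]
      have h5 := h.vper 0
      rw [zero_add] at h5
      rw [show (q : ℝ) / q = 1 by field_simp, h5]
      simp
    rw [← h4]
    apply Finset.sum_le_sum
    intro j _
    refine (h.le _ _ (by linarith)).trans ?_
    have h5 : u + (j : ℝ) / q ≤ ((j + 1 : ℕ) : ℝ) / q := by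
      push_cast
      rw [add_div]
      linarith
    linarith [h.mono h5]
  rw [h2] at h1
  rw [abs_le] at h1 h3 ⊢
  constructor <;> linarith [h1.1, h1.2, h3.1, h3.2]

lemma lag (g : ℕ → ℝ) (Q : ℕ) (N : ℕ) : ∑ n ∈ Icc 1 N, (g (n + Q) - g n) =
    ∑ i ∈ range Q, (g (N + 1 + i) - g (1 + i)) := by
  induction N with
  | zero => simp
  | succ N ih =>
    rw [Finset.sum_Icc_succ_top (by omega), ih]
    have h1 := Finset.sum_range_sub (fun i => g (N + 1 + i)) Q
    simp only [add_zero] at h1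
    have h2 : ∑ i ∈ range Q, (g (N + 1 + 1 + i) - g (1 + i)) = ∑ i ∈ range Q, (g (N + 1 + i) - g (1 + i)) +
        ∑ i ∈ range Q, (g (N + 1 + (i + 1)) - g (N + 1 + i)) := by
      rw [← Finset.sum_add_distrib]
      apply Finset.sum_congr rfl
      intro i _
      rw [show N + 1 + (i + 1) = N + 1 + 1 + i by ring]
      ring
    rw [h2, h1]

/-- slow rotations -/
theorem slow {f v : ℝ → ℝ} {V : ℝ} (h : Quasi f v V) (Q : ℕ) (p : ℤ) (α : ℝ) (N : ℕ) :
    ∑ n ∈ Icc 1 N, |f (((n + Q : ℕ) : ℝ) * α) - f ((n : ℝ) * α)| ≤ V * (N * |Q * α - p| + Q) := by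
  obtain ⟨τ, hτ⟩ : ∃ τ : ℝ, τ = Q * α - p := ⟨_, rfl⟩
  rw [← hτ]
  have hsh : ∀ n : ℕ, ((n + Q : ℕ) : ℝ) * α = n * α + τ + p := by
    intro n
    rw [hτ]
    push_cast
    ring
  have hf : ∀ n : ℕ, f (((n + Q : ℕ) : ℝ) * α) = f (n * α + τ) := fun n => by
    rw [hsh, (h.zper p _).1]
  have hv : ∀ n : ℕ, v (((n + Q : ℕ) : ℝ) * α) = v (n * α + τ) + p * V := fun n => by
    rw [hsh, (h.zper p _).2]
  -- the sum of the increments of `v`
  have hsum : |∑ n ∈ Icc 1 N, (v (n * α + τ) - v (n * α))| ≤ V * (N * |τ| + Q) := by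
    have e1 : ∑ n ∈ Icc 1 N, (v (n * α + τ) - v (n * α)) =
        ∑ i ∈ range Q, (v (((N + 1 + i : ℕ) : ℝ) * α) - v (((1 + i : ℕ) : ℝ) * α)) - N * (p * V) := by
      rw [← lag (fun n : ℕ => v ((n : ℝ) * α)) Q N]
      have : ∑ n ∈ Icc 1 N, (v (n * α + τ) - v (n * α)) =
          ∑ n ∈ Icc 1 N, ((v (((n + Q : ℕ) : ℝ) * α) - v ((n : ℝ) * α)) - p * V) := by
        apply Finset.sum_congr rfl
        intro n _
        rw [hv]
        ring
      rw [this, Finset.sum_sub_distrib, Finset.sum_const, Nat.card_Icc, nsmul_eq_mul]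
      simp
    have e2 : ∑ i ∈ range Q, (v (((N + 1 + i : ℕ) : ℝ) * α) - v (((1 + i : ℕ) : ℝ) * α)) =
        ∑ i ∈ range Q, (v (((N + 1 + i : ℕ) : ℝ) * α) - v (((1 + i : ℕ) : ℝ) * α) -
          V * (((N + 1 + i : ℕ) : ℝ) * α - ((1 + i : ℕ) : ℝ) * α)) + Q * (V * (N * α)) := by
      have hB : ∑ i ∈ range Q, V * (((N + 1 + i : ℕ) : ℝ) * α - ((1 + i : ℕ) : ℝ) * α) =
          Q * (V * (N * α)) := by
        have : ∑ i ∈ range Q, V * (((N + 1 + i : ℕ) : ℝ) * α - ((1 + i : ℕ) : ℝ) * α) =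
            ∑ i ∈ range Q, V * (N * α) := by
          apply Finset.sum_congr rfl
          intro i _
          push_cast
          ring
        rw [this, Finset.sum_const, card_range, nsmul_eq_mul]
      rw [← hB, ← Finset.sum_add_distrib]
      exact Finset.sum_congr rfl (fun i _ => by ring)
    have e3 : |∑ i ∈ range Q, (v (((N + 1 + i : ℕ) : ℝ) * α) - v (((1 + i : ℕ) : ℝ) * α) -
          V * (((N + 1 + i : ℕ) : ℝ) * α - ((1 + i : ℕ) : ℝ) * α))| ≤ Q * V := by
      refine (Finset.abs_sum_le_sum_abs _ _).trans ?_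
      refine (Finset.sum_le_sum (fun i _ => h.lin _ _)).trans (le_of_eq ?_)
      rw [Finset.sum_const, card_range, nsmul_eq_mul]
    rw [e1, e2]
    have e4 : (Q : ℝ) * (V * (N * α)) - N * (p * V) = V * (N * τ) := by rw [hτ]; ring
    have e5 : |V * (N * τ)| ≤ V * (N * |τ|) := by
      rw [abs_mul, abs_mul, abs_of_nonneg h.vnonneg, abs_of_nonneg (Nat.cast_nonneg (α := ℝ) N)]
    rw [abs_le] at e3 e5 ⊢
    constructor <;> nlinarith [e3.1, e3.2, e5.1, e5.2]
  refine le_trans ?_ hsum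
  rcases le_total 0 τ with h0 | h0
  · rw [abs_of_nonneg (Finset.sum_nonneg (fun n _ => by
      have := h.mono (show (n : ℝ) * α ≤ n * α + τ by linarith)
      linarith))]
    apply Finset.sum_le_sum
    intro n _
    rw [hf]
    exact h.le _ _ (by linarith)
  · rw [abs_of_nonpos (Finset.sum_nonpos (fun n _ => by
      have := h.mono (show (n : ℝ) * α + τ ≤ n * α by linarith)
      linarith)), ← Finset.sum_neg_distrib]
    apply Finset.sum_le_sum
    intro n _
    rw [hf, abs_sub_comm]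
    refine (h.le _ _ (show (n : ℝ) * α + τ ≤ n * α by linarith)).trans (le_of_eq ?_)
    ring

end Pool.Agent.X112.GS
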