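import Pool.Agent.X112.GS.Rec2

/-! # No approximate linear recurrence on almost all windows: all recurrences -/

set_option autoImplicit false

open Filter Finset

namespace Pool.Agent.X112.GS

/-- places where some admissible form of the differences is nearly constant on a window -/
def Bad (x : ℕ → ℝ) (k B : ℕ) (τ Γ ε : ℝ) (m : ℕ) (σ : ℝ) (n : ℕ) : Prop :=
  ∃ (g : ℕ → ℝ) (b : ℝ), (∀ j ≤ k, |g j| ≤ Γ) ∧ (∀ j < m, |g j| ≤ σ) ∧ (∃ j ≤ k, τ ≤ |g j|) ∧
    ∀ i < B, |lc g (k + 1) x (n + i) - b| ≤ ε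

open Classical in
theorem ind {y : ℕ → ℝ} (hA : Anti y) (hL : Lln y) (hT : Tight (inc y)) (k : ℕ) (τ Γ : ℝ)
    (hτ : 0 < τ) (hΓ : 0 < Γ) (q : ℕ) : ∀ m : ℕ, m + q = k + 1 → ∀ θ : ℝ, 0 < θ →
    ∃ (B : ℕ) (ε σ : ℝ), 0 < ε ∧ 0 < σ ∧ ∀ᶠ N : ℕ in atTop,
    (((Icc 1 N).filter (Bad (inc y) k B τ Γ ε m σ)).card : ℝ) ≤ θ * N := by
  induction q with
  | zero =>
    intro m hm θ hθ
    refine ⟨0, 1, τ / 2, one_pos, by positivity, Filter.Eventually.of_forall fun N => ?_⟩
    have : (Icc 1 N).filter (Bad (inc y) k 0 τ Γ 1 m (τ / 2)) = ∅ := by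
      rw [Finset.filter_eq_empty_iff]
      rintro n - ⟨g, b, -, h1, ⟨j, hj, h2⟩, -⟩
      have := h1 j (by omega)
      linarith
    rw [this, Finset.card_empty, Nat.cast_zero]
    positivity
  | succ q ih =>
    intro m hm θ hθ
    obtain ⟨B1, ε1, σ1, hε1, hσ1, h1⟩ := ih (m + 1) (by omega) (θ / 2) (by positivity)
    obtain ⟨m', hm'⟩ : ∃ m', k = m + m' := ⟨k - m, by omega⟩
    obtain ⟨B2, ε2, σ2, hε2, hσ2, h2⟩ := cls_a hA hL hT m m' σ1 Γ (θ / 2) hσ1 hΓ (by positivity)
    refine ⟨max B1 B2, min ε1 ε2, min σ1 σ2, lt_min hε1 hε2, lt_min hσ1 hσ2, ?_⟩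
    filter_upwards [h1, h2] with N h1 h2
    have hsub : (Icc 1 N).filter (Bad (inc y) k (max B1 B2) τ Γ (min ε1 ε2) m (min σ1 σ2)) ⊆
        ((Icc 1 N).filter (Bad (inc y) k B1 τ Γ ε1 (m + 1) σ1)) ∪
        ((Icc 1 N).filter (fun n => ∃ (g : ℕ → ℝ) (b : ℝ), (∀ j ≤ m + m', |g j| ≤ Γ) ∧ σ1 ≤ |g m| ∧
          (∀ j < m, |g j| ≤ σ2) ∧ ∀ i < B2, |lc g (m + (m' + 1)) (inc y) (n + i) - b| ≤ ε2)) := by
      intro n hn
      rw [Finset.mem_filter] at hn
      obtain ⟨hnI, g, b, a1, a2, a3, a4⟩ := hn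
      rw [Finset.mem_union, Finset.mem_filter, Finset.mem_filter]
      rcases le_total σ1 |g m| with h | h
      · right
        refine ⟨hnI, g, b, fun j hj => a1 j (by omega), h,
          fun j hj => (a2 j hj).trans (min_le_right _ _), fun i hi => ?_⟩
        have := a4 i (lt_of_lt_of_le hi (le_max_right _ _))
        rw [show m + (m' + 1) = k + 1 by omega]
        exact this.trans (min_le_right _ _)
      · left
        refine ⟨hnI, g, b, a1, fun j hj => ?_, a3, fun i hi =>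
          (a4 i (lt_of_lt_of_le hi (le_max_left _ _))).trans (min_le_left _ _)⟩
        rcases Nat.lt_succ_iff_lt_or_eq.mp hj with h' | rfl
        · exact (a2 j h').trans (min_le_left _ _)
        · exact h
    have h3 := (Finset.card_le_card hsub).trans (Finset.card_union_le _ _)
    have h4 : (((Icc 1 N).filter (Bad (inc y) k (max B1 B2) τ Γ (min ε1 ε2) m
        (min σ1 σ2))).card : ℝ) ≤ ((Icc 1 N).filter (Bad (inc y) k B1 τ Γ ε1 (m + 1) σ1)).card +
        ((Icc 1 N).filter (fun n => ∃ (g : ℕ → ℝ) (b : ℝ), (∀ j ≤ m + m', |g j| ≤ Γ) ∧ σ1 ≤ |g m| ∧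
          (∀ j < m, |g j| ≤ σ2) ∧ ∀ i < B2, |lc g (m + (m' + 1)) (inc y) (n + i) - b| ≤ ε2)).card := by
      exact_mod_cast h3
    have h5 := add_le_add h1 h2
    refine h4.trans (h5.trans (le_of_eq ?_))
    ring

lemma shift_eq (x : ℕ → ℝ) (n i k : ℕ) (hi : i ≤ k) :
    x (n + i) = ∑ j ∈ range (k + 1), (i.choose j : ℝ) * inc^[j] x n := by
  have h := shift_eq_sum_fwdDiff_iter (h := 1) x i n
  rw [smul_eq_mul, mul_one] at h
  rw [h]
  have hd : (fwdDiff 1 : (ℕ → ℝ) → (ℕ → ℝ)) = inc := rfl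
  rw [hd]
  simp only [nsmul_eq_mul]
  apply Finset.sum_subset
  · intro j hj
    rw [Finset.mem_range] at hj ⊢
    omega
  · intro j _ hj
    rw [Finset.mem_range, not_lt] at hj
    rw [Nat.choose_eq_zero_of_lt (by omega), Nat.cast_zero, zero_mul]

/-- coefficients with respect to the differences -/
def gg (c : ℕ → ℝ) (k j : ℕ) : ℝ := ∑ i ∈ range (k + 1), c i * (i.choose j : ℝ)

lemma sum_eq_lc (c : ℕ → ℝ) (k : ℕ) (x : ℕ → ℝ) (n : ℕ) :
    ∑ i ∈ range (k + 1), c i * x (n + i) = lc (gg c k) (k + 1) x n := by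
  unfold lc gg
  have h : ∀ i ∈ range (k + 1), c i * x (n + i) =
      ∑ j ∈ range (k + 1), c i * (i.choose j : ℝ) * inc^[j] x n := by
    intro i hi
    rw [Finset.mem_range] at hi
    rw [shift_eq x n i k (by omega), Finset.mul_sum]
    refine Finset.sum_congr rfl fun j _ => ?_
    ring
  rw [Finset.sum_congr rfl h, Finset.sum_comm]
  refine Finset.sum_congr rfl fun j _ => ?_
  rw [Finset.sum_mul]

lemma gg_le {c : ℕ → ℝ} {k : ℕ} (hc : ∀ j ≤ k, |c j| ≤ 1) (j : ℕ) :
    |gg c k j| ≤ (k + 1) * 2 ^ k := by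
  unfold gg
  refine (Finset.abs_sum_le_sum_abs _ _).trans ?_
  calc _ ≤ ∑ i ∈ range (k + 1), (2 : ℝ) ^ k := by
        apply Finset.sum_le_sum
        intro i hi
        rw [Finset.mem_range] at hi
        rw [abs_mul]
        have h1 := hc i (by omega)
        have h2 : |(i.choose j : ℝ)| ≤ 2 ^ k := by
          rw [abs_of_nonneg (Nat.cast_nonneg _)]
          have : i.choose j ≤ 2 ^ i := Nat.choose_le_two_pow i j
          have h3 : (i.choose j : ℝ) ≤ 2 ^ i := by exact_mod_cast this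
          exact h3.trans (pow_le_pow_right₀ (by norm_num) (by omega))
        calc |c i| * |(i.choose j : ℝ)| ≤ 1 * 2 ^ k :=
              mul_le_mul h1 h2 (abs_nonneg _) (by norm_num)
          _ = 2 ^ k := one_mul _
    _ = _ := by
        rw [Finset.sum_const, Finset.card_range, nsmul_eq_mul]
        push_cast
        ring

lemma gg_ge {c : ℕ → ℝ} {k : ℕ} (hc : ∃ j ≤ k, |c j| = 1) :
    ∃ j ≤ k, 1 / ((k + 1) * 2 ^ k) ≤ |gg c k j| := by
  obtain ⟨p, hp, h1⟩ := hc
  by_contra hcon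
  push Not at hcon
  obtain ⟨e, he⟩ : ∃ e : ℕ → ℝ, e = fun n => if n = p then 1 else 0 := ⟨_, rfl⟩
  have h2 : ∑ i ∈ range (k + 1), c i * e (0 + i) = c p := by
    rw [he]
    simp only [zero_add, mul_ite, mul_one, mul_zero]
    rw [Finset.sum_ite_eq' (range (k + 1)) p c, if_pos (Finset.mem_range.mpr (by omega))]
  rw [sum_eq_lc] at h2
  have he1 : ∀ n, |e n| ≤ 1 := by
    intro n
    rw [he]
    dsimp only
    split_ifs
    · simp
    · simp
  have h3 : |c p| < 1 := by
    rw [← h2]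
    unfold lc
    refine lt_of_le_of_lt (Finset.abs_sum_le_sum_abs _ _) ?_
    calc _ < ∑ j ∈ range (k + 1), 1 / ((k + 1) : ℝ) := by
          apply Finset.sum_lt_sum_of_nonempty ⟨0, Finset.mem_range.mpr (by omega)⟩
          intro j hj
          rw [Finset.mem_range] at hj
          rw [abs_mul]
          have a1 := hcon j (by omega)
          have a2 := inc_it_bound (x := e) (K := 1) j 0 (fun i _ => he1 _)
          rw [mul_one] at a2
          have a3 : (2 : ℝ) ^ j ≤ 2 ^ k := pow_le_pow_right₀ (by norm_num) (by omega)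
          have a4 : |inc^[j] e 0| ≤ 2 ^ k := a2.trans a3
          calc |gg c k j| * |inc^[j] e 0| ≤ |gg c k j| * 2 ^ k :=
                mul_le_mul_of_nonneg_left a4 (abs_nonneg _)
            _ < 1 / ((k + 1) * 2 ^ k) * 2 ^ k := mul_lt_mul_of_pos_right a1 (by positivity)
            _ = 1 / (k + 1) := by field_simp
      _ = 1 := by
          rw [Finset.sum_const, Finset.card_range, nsmul_eq_mul]
          push_cast
          field_simp
  rw [h1] at h3
  exact lt_irrefl _ h3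

lemma inc_it_cast (f : ℝ → ℝ) (n i : ℕ) :
    inc^[n] (fun i : ℕ => f i) i = (fwdDiff (1 : ℝ))^[n] f i := by
  induction n generalizing i with
  | zero => rfl
  | succ n ih =>
    rw [inc_it_succ, Function.iterate_succ_apply', ih, ih, fwdDiff]
    push_cast
    rfl

lemma inc_poly (P : Polynomial ℝ) (d : ℕ) (hP : P.natDegree ≤ d) :
    ∃ b : ℝ, ∀ i, inc^[d] (fun i : ℕ => P.eval (i : ℝ)) i = b := by
  refine ⟨inc^[d] (fun i : ℕ => P.eval (i : ℝ)) 0, fun i => ?_⟩
  induction i with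
  | zero => rfl
  | succ i ih =>
    have h := inc_it_cast P.eval (d + 1) i
    rw [Polynomial.fwdDiff_iter_eq_zero_of_degree_lt (by omega), inc_it_succ, Pi.zero_apply] at h
    linarith

lemma inc_it_sub (u v : ℕ → ℝ) (j i : ℕ) :
    inc^[j] (fun l => u l - v l) i = inc^[j] u i - inc^[j] v i := by
  induction j generalizing i with
  | zero => rfl
  | succ j ih =>
    rw [inc_it_succ, inc_it_succ, inc_it_succ, ih, ih]
    ring

open Classical in
/-- **no approximate linear recurrence on almost all windows**, normalised coefficients -/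
theorem no_rec {y : ℕ → ℝ} (hA : Anti y) (hL : Lln y) (hT : Tight (inc y)) (k d : ℕ) (θ : ℝ)
    (hθ : 0 < θ) : ∃ (B : ℕ) (ε : ℝ), 0 < ε ∧ ∀ᶠ N : ℕ in atTop,
    (((Icc 1 N).filter (fun n => ∃ (c : ℕ → ℝ) (P : Polynomial ℝ), (∀ j ≤ k, |c j| ≤ 1) ∧
      (∃ j ≤ k, |c j| = 1) ∧ P.natDegree ≤ d ∧
      ∀ i < B, |∑ j ∈ range (k + 1), c j * inc y (n + i + j) - P.eval (i : ℝ)| ≤ ε)).card : ℝ) ≤
      θ * N := by
  obtain ⟨B, ε, σ, hε, hσ, h⟩ := ind hA hL hT (d + k) (1 / ((k + 1) * 2 ^ k)) ((k + 1) * 2 ^ k)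
    (by positivity) (by positivity) (d + k + 1) 0 (by omega) θ hθ
  refine ⟨B + d, ε / 2 ^ d, by positivity, ?_⟩
  filter_upwards [h] with N hN
  refine le_trans ?_ hN
  have : (Icc 1 N).filter (fun n => ∃ (c : ℕ → ℝ) (P : Polynomial ℝ), (∀ j ≤ k, |c j| ≤ 1) ∧
      (∃ j ≤ k, |c j| = 1) ∧ P.natDegree ≤ d ∧
      ∀ i < B + d, |∑ j ∈ range (k + 1), c j * inc y (n + i + j) - P.eval (i : ℝ)| ≤ ε / 2 ^ d) ⊆
      (Icc 1 N).filter (Bad (inc y) (d + k) B (1 / ((k + 1) * 2 ^ k)) ((k + 1) * 2 ^ k) ε 0 σ) := by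
    intro n hn
    rw [Finset.mem_filter] at hn ⊢
    obtain ⟨hnI, c, P, h1, h2, h3, h4⟩ := hn
    obtain ⟨b, hb⟩ := inc_poly P d h3
    refine ⟨hnI, fun j => if j < d then 0 else gg c k (j - d), b, ?_, ?_, ?_, ?_⟩
    · intro j _
      dsimp only
      split_ifs
      · rw [abs_zero]
        positivity
      · exact gg_le h1 _
    · intro j hj
      omega
    · obtain ⟨j, hj, h⟩ := gg_ge h2
      refine ⟨d + j, by omega, ?_⟩
      dsimp only
      rw [if_neg (by omega), Nat.add_sub_cancel_left]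
      exact h
    · intro i hi
      rw [show d + k + 1 = d + (k + 1) by ring, lc_shift]
      have e0 : lc (fun j => if j < d then 0 else gg c k (j - d)) d (inc y) (n + i) = 0 := by
        unfold lc
        apply Finset.sum_eq_zero
        intro j hj
        dsimp only
        rw [if_pos (Finset.mem_range.mp hj), zero_mul]
      have e1 : (fun j => if d + j < d then 0 else gg c k (d + j - d)) = gg c k := by
        funext j
        rw [if_neg (by omega), Nat.add_sub_cancel_left]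
      rw [e0, zero_add, e1]
      have e2 := inc_it_bound (x := fun l => lc (gg c k) (k + 1) (inc y) (n + l) - P.eval (l : ℝ))
        (K := ε / 2 ^ d) d i (fun l hl => by
          have := h4 (i + l) (by omega)
          rwa [sum_eq_lc] at this)
      rw [inc_it_sub (fun l => lc (gg c k) (k + 1) (inc y) (n + l)) (fun l => P.eval (l : ℝ)), hb,
        inc_it_shift] at e2
      refine e2.trans (le_of_eq ?_)
      field_simp
  exact_mod_cast Finset.card_le_card this

/-- closeness at most places -/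
def Close (x x' : ℕ → ℝ) : Prop := ∀ ε θ : ℝ, 0 < ε → 0 < θ → ∀ᶠ N : ℕ in atTop,
  (((Icc 1 N).filter (fun n => ε < |x' n - x n|)).card : ℝ) ≤ θ * N

open Classical in
/-- **no approximate linear recurrence on almost all windows** -/
theorem no_rec' {y x' : ℕ → ℝ} (hA : Anti y) (hL : Lln y) (hT : Tight (inc y))
    (hC : Close (inc y) x') (k d : ℕ) (θ : ℝ) (hθ : 0 < θ) : ∃ (B : ℕ) (ε : ℝ), 0 < ε ∧
    ∀ᶠ N : ℕ in atTop, (((Icc 1 N).filter (fun n => ∃ (c : ℕ → ℝ) (P : Polynomial ℝ),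
      (∃ j ≤ k, 1 ≤ |c j|) ∧ P.natDegree ≤ d ∧
      ∀ i < B, |∑ j ∈ range (k + 1), c j * x' (n + i + j) - P.eval (i : ℝ)| < ε)).card : ℝ) ≤
      θ * N := by
  obtain ⟨B, ε, hε, h⟩ := no_rec hA hL hT k d (θ / 2) (by positivity)
  refine ⟨B, ε / 2, by positivity, ?_⟩
  obtain ⟨ε', hε'd⟩ : ∃ ε' : ℝ, ε' = ε / (2 * (k + 1)) := ⟨_, rfl⟩
  have hε' : 0 < ε' := by rw [hε'd]; positivity
  have hT' : ∀ F : Finset ℕ, F.card ≤ B + k + 1 → ∀ᶠ N : ℕ in atTop,
      (((Icc 1 N).filter (fun n => ∃ f ∈ F, ε' < |x' (n + f) - inc y (n + f)|)).card : ℝ) ≤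
      θ / 2 * N := by
    intro F hF
    have hbig : ∀ᶠ N : ℕ in atTop, ((∑ f ∈ F, f : ℕ) : ℝ) ≤ θ / 4 * N :=
      (tendsto_natCast_atTop_atTop.const_mul_atTop (show (0 : ℝ) < θ / 4 by positivity)).eventually_ge_atTop _
    filter_upwards [hC ε' (θ / (4 * (B + k + 1))) hε' (by positivity), hbig] with N hN hb
    have h1 : (Icc 1 N).filter (fun n => ∃ f ∈ F, ε' < |x' (n + f) - inc y (n + f)|) ⊆
        F.biUnion (fun f => (Icc 1 N).filter (fun n => ε' < |x' (n + f) - inc y (n + f)|)) := by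
      intro n hn
      rw [Finset.mem_filter] at hn
      obtain ⟨f, hf, h2⟩ := hn.2
      rw [Finset.mem_biUnion]
      exact ⟨f, hf, Finset.mem_filter.mpr ⟨hn.1, h2⟩⟩
    have h2 := (Finset.card_le_card h1).trans Finset.card_biUnion_le
    have h3 : ∑ f ∈ F, ((Icc 1 N).filter (fun n => ε' < |x' (n + f) - inc y (n + f)|)).card ≤
        ∑ f ∈ F, (((Icc 1 N).filter (fun n => ε' < |x' n - inc y n|)).card + f) :=
      Finset.sum_le_sum fun f _ => card_shift (fun n => ε' < |x' n - inc y n|) N f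
    rw [Finset.sum_add_distrib, Finset.sum_const, smul_eq_mul] at h3
    have h4 : (((Icc 1 N).filter (fun n => ∃ f ∈ F, ε' < |x' (n + f) - inc y (n + f)|)).card : ℝ) ≤
        F.card * ((Icc 1 N).filter (fun n => ε' < |x' n - inc y n|)).card +
        ((∑ f ∈ F, f : ℕ) : ℝ) := by
      exact_mod_cast h2.trans h3
    have hF' : (F.card : ℝ) ≤ B + k + 1 := by exact_mod_cast hF
    have h5 : (F.card : ℝ) * ((Icc 1 N).filter (fun n => ε' < |x' n - inc y n|)).card ≤
        (B + k + 1) * (θ / (4 * (B + k + 1)) * N) :=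
      mul_le_mul hF' hN (Nat.cast_nonneg _) (by positivity)
    have h6 : ((B : ℝ) + k + 1) * (θ / (4 * (B + k + 1)) * N) = θ / 4 * N := by
      field_simp
    linarith
  obtain ⟨W, hW⟩ : ∃ W : Finset ℕ, W = range (B + k + 1) := ⟨_, rfl⟩
  filter_upwards [h, hT' W (by rw [hW, Finset.card_range])] with N h1 h2
  have hsub : (Icc 1 N).filter (fun n => ∃ (c : ℕ → ℝ) (P : Polynomial ℝ), (∃ j ≤ k, 1 ≤ |c j|) ∧
      P.natDegree ≤ d ∧
      ∀ i < B, |∑ j ∈ range (k + 1), c j * x' (n + i + j) - P.eval (i : ℝ)| < ε / 2) ⊆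
      ((Icc 1 N).filter (fun n => ∃ (c : ℕ → ℝ) (P : Polynomial ℝ), (∀ j ≤ k, |c j| ≤ 1) ∧
      (∃ j ≤ k, |c j| = 1) ∧ P.natDegree ≤ d ∧
      ∀ i < B, |∑ j ∈ range (k + 1), c j * inc y (n + i + j) - P.eval (i : ℝ)| ≤ ε)) ∪
      ((Icc 1 N).filter (fun n => ∃ f ∈ W, ε' < |x' (n + f) - inc y (n + f)|)) := by
    intro n hn
    rw [Finset.mem_filter] at hn
    obtain ⟨hnI, c, P, ⟨p, hp, h3⟩, hPd, h4⟩ := hn
    rw [Finset.mem_union]
    by_contra hcon
    rw [not_or] at hcon
    obtain ⟨c1, c2⟩ := hcon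
    replace c2 := fun h => c2 (Finset.mem_filter.mpr ⟨hnI, h⟩)
    change ¬ _ at c2
    push Not at c2
    obtain ⟨j0, hj0, hmax⟩ := Finset.exists_max_image (range (k + 1)) (fun j => |c j|)
      ⟨0, Finset.mem_range.mpr (by omega)⟩
    rw [Finset.mem_range] at hj0
    obtain ⟨C, hCd⟩ : ∃ C : ℝ, C = |c j0| := ⟨_, rfl⟩
    have hC1 : 1 ≤ C := by
      rw [hCd]
      exact h3.trans (hmax p (Finset.mem_range.mpr (by omega)))
    have hC0 : 0 < C := by linarith
    apply c1
    rw [Finset.mem_filter]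
    have hcj : ∀ j ≤ k, |c j / C| ≤ 1 := by
      intro j hj
      rw [abs_div, abs_of_pos hC0, div_le_one hC0, hCd]
      exact hmax j (Finset.mem_range.mpr (by omega))
    refine ⟨hnI, fun j => c j / C, Polynomial.C C⁻¹ * P, hcj, ⟨j0, by omega, ?_⟩,
      (Polynomial.natDegree_C_mul_le _ _).trans hPd, ?_⟩
    · show |c j0 / C| = 1
      rw [abs_div, abs_of_pos hC0, ← hCd, div_self hC0.ne']
    · intro i hi
      obtain ⟨b, hbd⟩ : ∃ b : ℝ, b = P.eval (i : ℝ) := ⟨_, rfl⟩
      have hbe : (Polynomial.C C⁻¹ * P).eval (i : ℝ) = b / C := by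
        rw [Polynomial.eval_mul, Polynomial.eval_C, ← hbd]
        ring
      rw [hbe]
      have e1 := h4 i hi
      rw [← hbd] at e1
      have e2 : |∑ j ∈ range (k + 1), c j / C * x' (n + i + j) - b / C| < ε / 2 := by
        have : ∑ j ∈ range (k + 1), c j / C * x' (n + i + j) - b / C =
            (∑ j ∈ range (k + 1), c j * x' (n + i + j) - b) / C := by
          rw [sub_div, Finset.sum_div]
          congr 1
          refine Finset.sum_congr rfl fun j _ => ?_
          ring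
        rw [this, abs_div, abs_of_pos hC0, div_lt_iff₀ hC0]
        have : ε / 2 * 1 ≤ ε / 2 * C := mul_le_mul_of_nonneg_left hC1 (by positivity)
        linarith
      have e3 : |∑ j ∈ range (k + 1), c j / C * (x' (n + i + j) - inc y (n + i + j))| ≤ ε / 2 := by
        refine (Finset.abs_sum_le_sum_abs _ _).trans ?_
        calc _ ≤ ∑ j ∈ range (k + 1), ε' := by
              apply Finset.sum_le_sum
              intro j hj
              rw [Finset.mem_range] at hj
              rw [abs_mul]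
              have f1 := hcj j (by omega)
              have f2 := c2 (i + j) (by rw [hW]; exact Finset.mem_range.mpr (by omega))
              rw [← add_assoc] at f2
              calc |c j / C| * |x' (n + i + j) - inc y (n + i + j)| ≤ 1 * ε' :=
                    mul_le_mul f1 f2 (abs_nonneg _) (by norm_num)
                _ = ε' := one_mul _
          _ = ε / 2 := by
              rw [Finset.sum_const, Finset.card_range, nsmul_eq_mul, hε'd]
              push_cast
              field_simp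
      have e4 : ∑ j ∈ range (k + 1), c j / C * inc y (n + i + j) - b / C =
          (∑ j ∈ range (k + 1), c j / C * x' (n + i + j) - b / C) -
          ∑ j ∈ range (k + 1), c j / C * (x' (n + i + j) - inc y (n + i + j)) := by
        have : ∑ j ∈ range (k + 1), c j / C * (x' (n + i + j) - inc y (n + i + j)) =
            ∑ j ∈ range (k + 1), c j / C * x' (n + i + j) -
            ∑ j ∈ range (k + 1), c j / C * inc y (n + i + j) := by
          rw [← Finset.sum_sub_distrib]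
          refine Finset.sum_congr rfl fun j _ => ?_
          ring
        rw [this]
        ring
      show |∑ j ∈ range (k + 1), c j / C * inc y (n + i + j) - b / C| ≤ ε
      rw [e4]
      have := abs_sub (∑ j ∈ range (k + 1), c j / C * x' (n + i + j) - b / C)
        (∑ j ∈ range (k + 1), c j / C * (x' (n + i + j) - inc y (n + i + j)))
      linarith
  have h5 := (Finset.card_le_card hsub).trans (Finset.card_union_le _ _)
  have h6 : (((Icc 1 N).filter (fun n => ∃ (c : ℕ → ℝ) (P : Polynomial ℝ), (∃ j ≤ k, 1 ≤ |c j|) ∧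
      P.natDegree ≤ d ∧
      ∀ i < B, |∑ j ∈ range (k + 1), c j * x' (n + i + j) - P.eval (i : ℝ)| < ε / 2)).card : ℝ) ≤
      ((Icc 1 N).filter (fun n => ∃ (c : ℕ → ℝ) (P : Polynomial ℝ), (∀ j ≤ k, |c j| ≤ 1) ∧
      (∃ j ≤ k, |c j| = 1) ∧ P.natDegree ≤ d ∧
      ∀ i < B, |∑ j ∈ range (k + 1), c j * inc y (n + i + j) - P.eval (i : ℝ)| ≤ ε)).card +
      ((Icc 1 N).filter (fun n => ∃ f ∈ W, ε' < |x' (n + f) - inc y (n + f)|)).card := by
    exact_mod_cast h5
  refine h6.trans ((add_le_add h1 h2).trans (le_of_eq ?_))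
  ring

end Pool.Agent.X112.GS
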