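import Pool.Agent.X112.GS.QP
import Pool.Agent.X112.GS.Rec3

/-! # Almost no window of the increments is coded by a given rotation -/

set_option autoImplicit false

open Filter Finset

namespace Pool.Agent.X112.GS

lemma exists_count {E : ℕ → Prop} [DecidablePred E] (r N : ℕ) :
    ((Icc 1 N).filter (fun n => ∃ i < r, E (n + i))).card ≤ r * (((Icc 1 N).filter E).card + r) := by
  classical
  have h1 : (Icc 1 N).filter (fun n => ∃ i < r, E (n + i)) ⊆
      (range r).biUnion (fun i => (Icc 1 N).filter (fun n => E (n + i))) := by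
    intro n hn
    rw [mem_filter] at hn
    obtain ⟨hn1, i, hi, hE⟩ := hn
    rw [mem_biUnion]
    exact ⟨i, mem_range.mpr hi, mem_filter.mpr ⟨hn1, hE⟩⟩
  refine (card_le_card h1).trans (card_biUnion_le.trans ?_)
  calc ∑ i ∈ range r, ((Icc 1 N).filter (fun n => E (n + i))).card ≤
      ∑ i ∈ range r, (((Icc 1 N).filter E).card + r) := by
        apply Finset.sum_le_sum
        intro i hi
        rw [mem_range] at hi
        have := card_shift E N i
        omega
    _ = r * (((Icc 1 N).filter E).card + r) := by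
        rw [Finset.sum_const, card_range, smul_eq_mul]

open Classical in
theorem qpw {y : ℕ → ℝ} (hA : Anti y) (hL : Lln y) (hT : Tight (inc y)) (hC : Conc y) (V : ℝ)
    (hV : 0 ≤ V) (η : ℝ) (hη : 0 < η) :
    ∃ (B : ℕ) (ε : ℝ), 0 < ε ∧ ∀ᶠ N : ℕ in atTop, ∀ (α : ℝ) (f v : ℝ → ℝ), Quasi f v V →
      (((Icc 1 N).filter (fun n : ℕ => ∀ i < B,
        |inc y (n + i) - f (((n + i : ℕ) : ℝ) * α)| < ε)).card : ℝ) ≤ η * N := by
  obtain ⟨κ, hκ, hC1⟩ := hC η hη
  have hsl : Tendsto (fun r : ℕ => κ * Real.sqrt (Real.log r)) atTop atTop :=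
    ((Real.tendsto_sqrt_atTop.comp Real.tendsto_log_atTop).comp
      tendsto_natCast_atTop_atTop).const_mul_atTop hκ
  obtain ⟨r0, hr0⟩ := (hC1.and (hsl.eventually_ge_atTop (2 * V + 1))).exists_forall_of_atTop
  obtain ⟨B0, ε0, hε0, hR⟩ := no_rec hA hL hT r0 0 (η / 4) (by positivity)
  obtain ⟨R1, hR1⟩ := exists_nat_ge (max (r0 : ℝ) (max 1 (12 * V * B0 / (ε0 * η))))
  have hR1r : (r0 : ℝ) ≤ R1 := (le_max_left _ _).trans hR1
  have hR11 : (1 : ℝ) ≤ R1 := ((le_max_left _ _).trans (le_max_right _ _)).trans hR1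
  have hR1V : 12 * V * B0 / (ε0 * η) ≤ R1 := ((le_max_right _ _).trans (le_max_right _ _)).trans hR1
  have hR1n : 1 ≤ R1 := by exact_mod_cast hR11
  rw [div_le_iff₀ (by positivity)] at hR1V
  obtain ⟨ε, hε⟩ : ∃ ε : ℝ, ε = min (1 / (4 * (R1 : ℝ))) (ε0 / 3) := ⟨_, rfl⟩
  have hεp : 0 < ε := by rw [hε]; positivity
  have hεa : ε ≤ 1 / (4 * R1) := by rw [hε]; exact min_le_left _ _
  have hεb : ε ≤ ε0 / 3 := by rw [hε]; exact min_le_right _ _
  refine ⟨B0 + R1, ε, hεp, ?_⟩
  have hfin1 : ∀ᶠ N : ℕ in atTop, ∀ r ∈ Icc r0 R1, ∀ c : ℝ,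
      (((Icc 1 N).filter (fun n => |y (n + r) - y n - c| ≤ κ * Real.sqrt (Real.log r))).card : ℝ) ≤
        η * N := by
    rw [Filter.eventually_all_finset]
    intro r hr
    exact (hr0 r (mem_Icc.mp hr).1).1
  filter_upwards [hfin1, hR, tendsto_natCast_atTop_atTop.eventually_ge_atTop
    (4 / η * (B0 * (3 * V * R1 / ε0 + B0)))] with N g1 g2 g3 α f v hq
  obtain ⟨q, hq1, hq2⟩ := Real.exists_rat_abs_sub_le_and_den_le α hR1n
  obtain ⟨Q, hQ⟩ : ∃ Q : ℕ, Q = q.den := ⟨_, rfl⟩
  obtain ⟨p, hp⟩ : ∃ p : ℤ, p = q.num := ⟨_, rfl⟩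
  have hQ1 : 1 ≤ Q := by rw [hQ]; exact q.den_pos
  have hQ0 : (0 : ℝ) < Q := by exact_mod_cast hQ1
  have hqe : (q : ℝ) = p / Q := by rw [hp, hQ]; exact Rat.cast_def q
  rw [← hQ] at hq2
  rw [hqe, ← hQ] at hq1
  have hQR : (Q : ℝ) ≤ R1 := by exact_mod_cast hq2
  have hcop : IsCoprime p (Q : ℤ) := by
    rw [hp, hQ]
    rw [Int.isCoprime_iff_nat_coprime]
    simpa using q.reduced
  by_cases hcase : r0 ≤ Q
  · -- Denjoy and Koksma
    obtain ⟨-, hκr⟩ := hr0 Q hcase
    obtain ⟨c, hc⟩ : ∃ c : ℝ, c = ∑ j ∈ range Q, f ((j : ℝ) / Q) := ⟨_, rfl⟩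
    have h1 := g1 Q (mem_Icc.mpr ⟨hcase, hq2⟩) c
    have hα : |α - p / Q| ≤ 1 / (Q : ℝ) ^ 2 := by
      refine hq1.trans ?_
      apply one_div_le_one_div_of_le (by positivity)
      rw [sq]
      apply mul_le_mul_of_nonneg_right _ hQ0.le
      linarith
    refine le_trans ?_ h1
    have h2 : (Icc 1 N).filter (fun n : ℕ => ∀ i < B0 + R1,
          |inc y (n + i) - f (((n + i : ℕ) : ℝ) * α)| < ε) ⊆
        (Icc 1 N).filter (fun n => |y (n + Q) - y n - c| ≤ κ * Real.sqrt (Real.log Q)) := by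
      intro n hn
      rw [mem_filter] at hn ⊢
      refine ⟨hn.1, ?_⟩
      have h3 := dk hq hQ1 hcop hα (n * α)
      rw [← hc] at h3
      have h4 : |∑ i ∈ range Q, inc y (n + i) - ∑ i ∈ range Q, f (n * α + i * α)| ≤ 1 / 4 := by
        rw [← Finset.sum_sub_distrib]
        refine (Finset.abs_sum_le_sum_abs _ _).trans ?_
        have h5 : ∀ i ∈ range Q, |inc y (n + i) - f (n * α + i * α)| ≤ ε := by
          intro i hi
          have h6 := hn.2 i (by have := mem_range.mp hi; omega)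
          rw [show (((n + i : ℕ) : ℝ)) * α = n * α + i * α by push_cast; ring] at h6
          exact h6.le
        refine (Finset.sum_le_sum h5).trans ?_
        rw [Finset.sum_const, card_range, nsmul_eq_mul]
        calc (Q : ℝ) * ε ≤ R1 * (1 / (4 * R1)) := mul_le_mul hQR hεa hεp.le (by linarith)
          _ = 1 / 4 := by field_simp
      rw [sum_inc] at h4
      refine le_trans ?_ hκr
      rw [abs_le] at h3 h4 ⊢
      constructor <;> linarith [h3.1, h3.2, h4.1, h4.2]
    exact_mod_cast card_le_card h2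
  · -- slow rotation
    push Not at hcase
    have hτ : |Q * α - p| ≤ 1 / R1 := by
      have e1 : Q * α - p = Q * (α - p / Q) := by field_simp
      rw [e1, abs_mul, abs_of_pos hQ0]
      calc (Q : ℝ) * |α - p / Q| ≤ Q * (1 / ((R1 + 1) * Q)) := mul_le_mul_of_nonneg_left hq1 hQ0.le
        _ = 1 / (R1 + 1) := by field_simp
        _ ≤ 1 / R1 := one_div_le_one_div_of_le (by linarith) (by linarith)
    have h2 := slow hq Q p α N
    have hN0 : (0 : ℝ) ≤ N := Nat.cast_nonneg N
    have h3 : V * (N * |Q * α - p| + Q) ≤ V * (N / R1 + R1) := by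
      apply mul_le_mul_of_nonneg_left _ hV
      have : (N : ℝ) * |Q * α - p| ≤ N * (1 / R1) := mul_le_mul_of_nonneg_left hτ hN0
      rw [mul_one_div] at this
      linarith
    -- the set where the approximants differ
    obtain ⟨E, hE⟩ : ∃ E : ℕ → Prop, E = fun n : ℕ =>
        ε0 / 3 ≤ |f (((n + Q : ℕ) : ℝ) * α) - f ((n : ℝ) * α)| := ⟨_, rfl⟩
    have h4 : (((Icc 1 N).filter E).card : ℝ) * (ε0 / 3) ≤ V * (N / R1 + R1) := by
      calc (((Icc 1 N).filter E).card : ℝ) * (ε0 / 3) = ∑ n ∈ (Icc 1 N).filter E, (ε0 / 3) := by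
            rw [Finset.sum_const, nsmul_eq_mul]
        _ ≤ ∑ n ∈ (Icc 1 N).filter E, |f (((n + Q : ℕ) : ℝ) * α) - f ((n : ℝ) * α)| := by
            apply Finset.sum_le_sum
            intro n hn
            rw [mem_filter, hE] at hn
            exact hn.2
        _ ≤ ∑ n ∈ Icc 1 N, |f (((n + Q : ℕ) : ℝ) * α) - f ((n : ℝ) * α)| := by
            apply Finset.sum_le_sum_of_subset_of_nonneg
            · exact filter_subset _ _
            · intro n _ _; exact abs_nonneg _
        _ ≤ _ := h2.trans h3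
    have h10 : (((Icc 1 N).filter E).card : ℝ) ≤ 3 * V / (ε0 * R1) * N + 3 * V * R1 / ε0 := by
      have h11 : (((Icc 1 N).filter E).card : ℝ) ≤ V * (N / R1 + R1) * (3 / ε0) := by
        rw [← div_le_iff₀ (by positivity)]
        refine le_trans (le_of_eq ?_) h4
        field_simp
      refine h11.trans (le_of_eq ?_)
      field_simp
    -- the two kinds of windows
    have h5 : (Icc 1 N).filter (fun n : ℕ => ∀ i < B0 + R1,
          |inc y (n + i) - f (((n + i : ℕ) : ℝ) * α)| < ε) ⊆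
        (Icc 1 N).filter (fun n => ∃ (c : ℕ → ℝ) (P : Polynomial ℝ), (∀ j ≤ r0, |c j| ≤ 1) ∧
          (∃ j ≤ r0, |c j| = 1) ∧ P.natDegree ≤ 0 ∧ ∀ i < B0,
          |∑ j ∈ range (r0 + 1), c j * inc y (n + i + j) - P.eval (i : ℝ)| ≤ ε0) ∪
        (Icc 1 N).filter (fun n => ∃ i < B0, E (n + i)) := by
      intro n hn
      rw [mem_filter] at hn
      rw [mem_union, mem_filter, mem_filter]
      by_cases a1 : ∃ i < B0, E (n + i)
      · exact Or.inr ⟨hn.1, a1⟩
      left
      refine ⟨hn.1, fun j => if j = Q then 1 else if j = 0 then -1 else 0, 0, fun j _ => by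
        dsimp only
        split_ifs <;> simp, ⟨Q, hcase.le, by simp⟩, by simp, fun i hi => ?_⟩
      push Not at a1
      have a2 := a1 i hi
      rw [hE] at a2
      push Not at a2
      have hsum : ∑ j ∈ range (r0 + 1), (if j = Q then (1 : ℝ) else if j = 0 then -1 else 0) *
          inc y (n + i + j) = inc y (n + i + Q) - inc y (n + i) := by
        have e1 : ∀ j ∈ range (r0 + 1), (if j = Q then (1 : ℝ) else if j = 0 then -1 else 0) *
            inc y (n + i + j) = (if j = Q then inc y (n + i + j) else 0) -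
              (if j = 0 then inc y (n + i + j) else 0) := by
          intro j _
          by_cases b1 : j = Q
          · have b2 : j ≠ 0 := by omega
            simp [b1, show Q ≠ 0 by omega]
          · by_cases b2 : j = 0
            · subst b2
              simp [show (0 : ℕ) ≠ Q by omega]
            · simp [b1, b2]
        rw [Finset.sum_congr rfl e1, Finset.sum_sub_distrib, Finset.sum_ite_eq', Finset.sum_ite_eq',
          if_pos (mem_range.mpr (by omega)), if_pos (mem_range.mpr (by omega)), add_zero]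
      rw [hsum, Polynomial.eval_zero, sub_zero]
      have b1 := abs_lt.mp (hn.2 i (by omega))
      have b2 := abs_lt.mp (hn.2 (i + Q) (by omega))
      have b3 := abs_lt.mp a2
      rw [show n + (i + Q) = n + i + Q by ring] at b2
      rw [abs_le]
      constructor <;> linarith [b1.1, b1.2, b2.1, b2.2, b3.1, b3.2]
    have h6 := (card_le_card h5).trans (card_union_le _ _)
    have h7 := exists_count (E := E) B0 N
    have h8 : (((Icc 1 N).filter (fun n : ℕ => ∀ i < B0 + R1,
        |inc y (n + i) - f (((n + i : ℕ) : ℝ) * α)| < ε)).card : ℝ) ≤ η / 4 * N +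
        B0 * ((((Icc 1 N).filter E).card : ℝ) + B0) := by
      have h9 : (((Icc 1 N).filter (fun n : ℕ => ∀ i < B0 + R1,
        |inc y (n + i) - f (((n + i : ℕ) : ℝ) * α)| < ε)).card : ℝ) ≤
        ((Icc 1 N).filter (fun n => ∃ (c : ℕ → ℝ) (P : Polynomial ℝ), (∀ j ≤ r0, |c j| ≤ 1) ∧
          (∃ j ≤ r0, |c j| = 1) ∧ P.natDegree ≤ 0 ∧ ∀ i < B0,
          |∑ j ∈ range (r0 + 1), c j * inc y (n + i + j) - P.eval (i : ℝ)| ≤ ε0)).card +
          B0 * ((((Icc 1 N).filter E).card : ℝ) + B0) := by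
        exact_mod_cast h6.trans (Nat.add_le_add_left h7 _)
      linarith
    have h12 : (B0 : ℝ) * (3 * V / (ε0 * R1) * N) ≤ η / 4 * N := by
      have e1 : (B0 : ℝ) * (3 * V / (ε0 * R1) * N) = (12 * V * B0) * (N / (4 * ε0 * R1)) := by
        field_simp
        ring
      have e2 : η / 4 * N = (R1 * (ε0 * η)) * (N / (4 * ε0 * R1)) := by
        field_simp
      rw [e1, e2]
      exact mul_le_mul_of_nonneg_right hR1V (by positivity)
    have h13 : (B0 : ℝ) * (3 * V * R1 / ε0 + B0) ≤ η / 4 * N := by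
      have : η / 4 * (4 / η * (B0 * (3 * V * R1 / ε0 + B0))) ≤ η / 4 * N :=
        mul_le_mul_of_nonneg_left g3 (by positivity)
      refine le_trans (le_of_eq ?_) this
      field_simp
    have h14 : (B0 : ℝ) * ((((Icc 1 N).filter E).card : ℝ) + B0) ≤
        B0 * (3 * V / (ε0 * R1) * N + 3 * V * R1 / ε0 + B0) :=
      mul_le_mul_of_nonneg_left (by linarith) (Nat.cast_nonneg B0)
    have h15 : (B0 : ℝ) * (3 * V / (ε0 * R1) * N + 3 * V * R1 / ε0 + B0) =
        B0 * (3 * V / (ε0 * R1) * N) + B0 * (3 * V * R1 / ε0 + B0) := by ring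
    have h16 : 0 ≤ η * N := by positivity
    linarith

end Pool.Agent.X112.GS
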