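import Pool.Agent.X112.GS.QP3
import Pool.Agent.X112.GS.RecFin
import Mathlib.Topology.EMetricSpace.BoundedVariation

/-! # The normalised gaps are not coded by a rotation -/

set_option autoImplicit false

open Filter Finset

namespace Pool.Agent.X112.GS

lemma quasi_of_bv {f : ℝ → ℝ} (hper : ∀ t, f (t + 1) = f t) {V : ℝ} (hV0 : 0 ≤ V)
    (h : eVariationOn f (Set.Icc 0 1) ≤ ENNReal.ofReal V) : ∃ v : ℝ → ℝ, Quasi f v V := by
  obtain ⟨W, hW⟩ : ∃ W : ℝ → ℝ, W = fun t => (eVariationOn f (Set.Icc 0 t)).toReal := ⟨_, rfl⟩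
  have hfin : ∀ s t : ℝ, 0 ≤ s → t ≤ 1 → eVariationOn f (Set.Icc s t) ≠ ⊤ := by
    intro s t hs ht
    refine ne_top_of_le_ne_top ENNReal.ofReal_ne_top ((eVariationOn.mono f ?_).trans h)
    exact Set.Icc_subset_Icc hs ht
  have hWle : ∀ s t : ℝ, 0 ≤ s → s ≤ t → t ≤ 1 → |f t - f s| ≤ W t - W s := by
    intro s t hs hst ht
    have h1 := eVariationOn.Icc_add_Icc f hs hst (show s ∈ Set.univ from trivial)
    simp only [Set.univ_inter] at h1
    have h2 : (eVariationOn f (Set.Icc 0 s)).toReal + (eVariationOn f (Set.Icc s t)).toReal =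
        (eVariationOn f (Set.Icc 0 t)).toReal := by
      rw [← ENNReal.toReal_add (hfin 0 s le_rfl (hst.trans ht)) (hfin s t hs ht), h1]
    have h3 : edist (f t) (f s) ≤ eVariationOn f (Set.Icc s t) :=
      eVariationOn.edist_le f (Set.right_mem_Icc.mpr hst) (Set.left_mem_Icc.mpr hst)
    have h4 : |f t - f s| ≤ (eVariationOn f (Set.Icc s t)).toReal := by
      rw [← Real.dist_eq, dist_edist]
      exact ENNReal.toReal_mono (hfin s t hs ht) h3
    rw [hW]
    dsimp only
    linarith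
  have hW0 : ∀ t, 0 ≤ W t := fun t => by rw [hW]; exact ENNReal.toReal_nonneg
  have hW1 : W 1 ≤ V := by
    rw [hW]
    exact ENNReal.toReal_le_of_le_ofReal hV0 h
  have hfr : ∀ t : ℝ, f t = f (Int.fract t) := by
    have hp : Function.Periodic f 1 := hper
    intro t
    have h1 := hp.int_mul ⌊t⌋ (Int.fract t)
    rw [mul_one] at h1
    rw [← h1]
    congr 1
    exact (Int.fract_add_floor t).symm
  refine ⟨fun t => ⌊t⌋ * V + W (Int.fract t), hper, fun t => ?_, fun s t hst => ?_⟩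
  · rw [Int.floor_add_one, Int.fract_add_one]
    push_cast
    ring
  · have hs0 := Int.fract_nonneg s
    have hs1 := (Int.fract_lt_one s).le
    have ht0 := Int.fract_nonneg t
    have ht1 := (Int.fract_lt_one t).le
    have hfl : ⌊s⌋ ≤ ⌊t⌋ := Int.floor_mono hst
    rw [hfr t, hfr s]
    rcases hfl.eq_or_lt with heq | hlt
    · have h1 : Int.fract s ≤ Int.fract t := by
        unfold Int.fract
        rw [heq]
        linarith
      have h2 := hWle _ _ hs0 h1 ht1
      rw [heq]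
      linarith
    · have h1 := hWle 0 _ le_rfl ht0 ht1
      have h2 := hWle _ 1 hs0 hs1 le_rfl
      have h3 : f 1 = f 0 := by
        have := hper 0
        rwa [zero_add] at this
      have h4 : |f (Int.fract t) - f (Int.fract s)| ≤
          |f (Int.fract t) - f 0| + |f 1 - f (Int.fract s)| := by
        rw [h3]
        exact abs_sub_le _ _ _
      have h5 := hW0 0
      have h6 : (⌊s⌋ : ℝ) + 1 ≤ ⌊t⌋ := by exact_mod_cast hlt
      nlinarith

open Classical in
theorem qp_dq (V : ℝ) (hV : 0 ≤ V) (η : ℝ) (hη : 0 < η) : ∃ (B : ℕ) (ε : ℝ), 0 < ε ∧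
    ∀ᶠ N : ℕ in atTop, ∀ (α : ℝ) (f : ℝ → ℝ),
    (∀ t, f (t + 1) = f t) → eVariationOn f (Set.Icc 0 1) ≤ ENNReal.ofReal V →
    (((Icc 1 N).filter (fun n : ℕ => ∀ i < B,
      |dq (n + i) - f (((n + i : ℕ) : ℝ) * α)| < ε)).card : ℝ) ≤ η * N := by
  obtain ⟨B, ε, hε, h⟩ := qpw anti_yy lln_yy tight_yy conc_yy V hV (η / 2) (by positivity)
  refine ⟨B, ε / 2, by positivity, ?_⟩
  filter_upwards [h, close_yy (ε / 2) (η / (4 * (B + 1))) (by positivity) (by positivity),
    tendsto_natCast_atTop_atTop.eventually_ge_atTop (4 / η * (B * B))]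
    with N h1 h2 h0 α f hper hbv
  obtain ⟨v, hv⟩ := quasi_of_bv hper hV hbv
  have h3 := h1 α f v hv
  obtain ⟨E, hE⟩ : ∃ E : ℕ → Prop, E = fun n : ℕ => ε / 2 < |dq n - inc yy n| := ⟨_, rfl⟩
  have h4 : (Icc 1 N).filter (fun n : ℕ => ∀ i < B,
      |dq (n + i) - f (((n + i : ℕ) : ℝ) * α)| < ε / 2) ⊆
      (Icc 1 N).filter (fun n : ℕ => ∀ i < B,
      |inc yy (n + i) - f (((n + i : ℕ) : ℝ) * α)| < ε) ∪
      (Icc 1 N).filter (fun n => ∃ i < B, E (n + i)) := by
    intro n hn
    rw [mem_filter] at hn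
    rw [mem_union, mem_filter, mem_filter]
    by_cases a : ∃ i < B, E (n + i)
    · exact Or.inr ⟨hn.1, a⟩
    · left
      refine ⟨hn.1, fun i hi => ?_⟩
      push Not at a
      have a1 := a i hi
      rw [hE] at a1
      push Not at a1
      have a2 := hn.2 i hi
      have := abs_sub_le (inc yy (n + i)) (dq (n + i)) (f (((n + i : ℕ) : ℝ) * α))
      rw [abs_sub_comm (inc yy (n + i)) (dq (n + i))] at this
      linarith
  have h5 := (card_le_card h4).trans (card_union_le _ _)
  have h6 := h5.trans (Nat.add_le_add_left (exists_count (E := E) B N) _)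
  have h7 : (((Icc 1 N).filter (fun n : ℕ => ∀ i < B,
      |dq (n + i) - f (((n + i : ℕ) : ℝ) * α)| < ε / 2)).card : ℝ) ≤
      ((Icc 1 N).filter (fun n : ℕ => ∀ i < B,
      |inc yy (n + i) - f (((n + i : ℕ) : ℝ) * α)| < ε)).card +
      B * ((((Icc 1 N).filter E).card : ℝ) + B) := by exact_mod_cast h6
  have h8 : (((Icc 1 N).filter E).card : ℝ) ≤ η / (4 * (B + 1)) * N := by
    rw [hE]
    exact h2
  have h9 : (B : ℝ) * (((Icc 1 N).filter E).card : ℝ) ≤ η / 4 * N := by
    calc (B : ℝ) * (((Icc 1 N).filter E).card : ℝ) ≤ B * (η / (4 * (B + 1)) * N) :=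
          mul_le_mul_of_nonneg_left h8 (Nat.cast_nonneg B)
      _ = η / 4 * N * (B / (B + 1)) := by field_simp
      _ ≤ η / 4 * N * 1 := by
          apply mul_le_mul_of_nonneg_left _ (by positivity)
          rw [div_le_one (by positivity)]
          linarith
      _ = η / 4 * N := by ring
  have h10 : (B : ℝ) * B ≤ η / 4 * N := by
    have : η / 4 * (4 / η * (B * B)) ≤ η / 4 * N := mul_le_mul_of_nonneg_left h0 (by positivity)
    refine le_trans (le_of_eq ?_) this
    field_simp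
  linarith

end Pool.Agent.X112.GS
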