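import Pool.Agent.X112.GS.Diff

/-! # No approximate linear recurrence on almost all windows -/

set_option autoImplicit false

open Filter Finset

namespace Pool.Agent.X112.GS

lemma inc_it_succ (x : ℕ → ℝ) (j n : ℕ) : inc^[j + 1] x n = inc^[j] x (n + 1) - inc^[j] x n := by
  rw [Function.iterate_succ_apply']
  rfl

lemma inc_it_bound {x : ℕ → ℝ} {K : ℝ} (j : ℕ) : ∀ n : ℕ, (∀ i ≤ j, |x (n + i)| ≤ K) →
    |inc^[j] x n| ≤ 2 ^ j * K := by
  induction j with
  | zero => intro n h; simpa using h 0 le_rfl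
  | succ j ih =>
    intro n h
    rw [inc_it_succ]
    have h1 := ih n (fun i hi => h i (by omega))
    have h2 := ih (n + 1) (fun i hi => by
      have := h (i + 1) (by omega)
      rwa [show n + (i + 1) = n + 1 + i by ring] at this)
    have h3 := abs_sub (inc^[j] x (n + 1)) (inc^[j] x n)
    rw [pow_succ]
    linarith

/-- linear combinations -/
def lc (g : ℕ → ℝ) (m : ℕ) (x : ℕ → ℝ) (n : ℕ) : ℝ := ∑ j ∈ range m, g j * inc^[j] x n

lemma inc_lc (g : ℕ → ℝ) (m : ℕ) (x : ℕ → ℝ) : inc (lc g m x) = lc g m (inc x) := by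
  funext n
  show lc g m x (n + 1) - lc g m x n = lc g m (inc x) n
  unfold lc
  rw [← Finset.sum_sub_distrib]
  refine Finset.sum_congr rfl fun j _ => ?_
  rw [← Function.iterate_succ_apply (f := inc), inc_it_succ]
  ring

lemma inc_it_lc (g : ℕ → ℝ) (m : ℕ) (x : ℕ → ℝ) (a : ℕ) : inc^[a] (lc g m x) = lc g m (inc^[a] x) := by
  induction a with
  | zero => rfl
  | succ a ih => rw [Function.iterate_succ_apply', ih, inc_lc, Function.iterate_succ_apply']

lemma lc_bound {g : ℕ → ℝ} {x : ℕ → ℝ} {K Γ : ℝ} {m n : ℕ} (hK : 0 ≤ K) (hΓ : 0 ≤ Γ)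
    (hg : ∀ j < m, |g j| ≤ Γ) (h : ∀ i < m, |x (n + i)| ≤ K) :
    |lc g m x n| ≤ m * (Γ * (2 ^ m * K)) := by
  unfold lc
  refine (Finset.abs_sum_le_sum_abs _ _).trans ?_
  calc _ ≤ ∑ j ∈ range m, Γ * (2 ^ m * K) := by
        apply Finset.sum_le_sum
        intro j hj
        rw [Finset.mem_range] at hj
        rw [abs_mul]
        apply mul_le_mul (hg j hj) _ (abs_nonneg _) hΓ
        refine (inc_it_bound j n (fun i hi => h i (by omega))).trans ?_
        apply mul_le_mul_of_nonneg_right _ hK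
        exact pow_le_pow_right₀ (by norm_num) hj.le
    _ = _ := by rw [Finset.sum_const, Finset.card_range, nsmul_eq_mul]

/-- splitting off the lowest term -/
lemma lc_split (g : ℕ → ℝ) (m : ℕ) (x : ℕ → ℝ) (n : ℕ) :
    lc g (m + 1) x n = g 0 * x n + inc (lc (fun j => g (j + 1)) m x) n := by
  rw [inc_lc]
  unfold lc
  rw [Finset.sum_range_succ']
  simp only [Function.iterate_zero, id]
  rw [add_comm]
  congr 1

/-- sums over a window -/
lemma sum_lc (g : ℕ → ℝ) (m : ℕ) (y : ℕ → ℝ) (n s : ℕ) :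
    ∑ i ∈ range s, lc g (m + 1) (inc y) (n + i) = g 0 * (y (n + s) - y n) +
      (lc (fun j => g (j + 1)) m (inc y) (n + s) - lc (fun j => g (j + 1)) m (inc y) n) := by
  have h : ∀ i ∈ range s, lc g (m + 1) (inc y) (n + i) = g 0 * inc y (n + i) +
      inc (lc (fun j => g (j + 1)) m (inc y)) (n + i) := fun i _ => lc_split g m (inc y) (n + i)
  rw [Finset.sum_congr rfl h, Finset.sum_add_distrib, ← Finset.mul_sum, sum_inc, sum_inc]

/-- removing the differences one by one -/
lemma reduce (a : ℕ) : ∀ (R0 : ℕ) (ε0 K1 : ℝ), 0 < ε0 → 0 < K1 →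
    ∃ (B : ℕ) (ε : ℝ) (F : Finset ℕ), 0 < ε ∧ F.card ≤ 2 * a ∧ R0 ≤ B ∧
    ∀ (U : ℕ → ℝ) (b : ℝ), (∀ i < B, |inc^[a] U i - b| ≤ ε) →
      (∀ f ∈ F, ∀ i ≤ a, |inc^[i] U f| ≤ K1) → ∃ b' : ℝ, ∀ i < R0, |U i - b'| ≤ ε0 := by
  induction a with
  | zero =>
    intro R0 ε0 K1 hε hK
    exact ⟨R0, ε0, ∅, hε, by simp, le_rfl, fun U b h _ => ⟨b, h⟩⟩
  | succ a ih =>
    intro R0 ε0 K1 hε0 hK1
    obtain ⟨B', ε', F', hε', hF', hRB, h⟩ := ih R0 ε0 K1 hε0 hK1
    obtain ⟨M, hM⟩ : ∃ M : ℕ, 4 * K1 * (B' + 1) / ε' + 1 ≤ M := ⟨_, Nat.le_ceil _⟩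
    have hM1 : (1 : ℝ) ≤ M := by
      have : 0 ≤ 4 * K1 * (B' + 1) / ε' := by positivity
      linarith
    have hM0 : (0 : ℝ) < M := by linarith
    have hMB : 4 * K1 * (B' + 1) ≤ ε' * M := by
      have h1 : 4 * K1 * (B' + 1) / ε' ≤ M := by linarith
      rw [div_le_iff₀ hε'] at h1
      linarith
    obtain ⟨ε, hε⟩ : ∃ ε : ℝ, ε = ε' / (4 * (B' + 1)) := ⟨_, rfl⟩
    have hε1 : 0 < ε := by rw [hε]; positivity
    refine ⟨max B' M + 1, ε, F' ∪ {0, M}, hε1, ?_, ?_, ?_⟩
    · refine (Finset.card_union_le _ _).trans ?_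
      have : ({0, M} : Finset ℕ).card ≤ 2 := Finset.card_le_two
      omega
    · exact hRB.trans ((le_max_left _ _).trans (Nat.le_succ _))
    · intro U b h1 h2
      have hstep : ∀ i < max B' M + 1, |inc^[a] U (i + 1) - inc^[a] U i - b| ≤ ε := by
        intro i hi
        have := h1 i hi
        rwa [inc_it_succ] at this
      have hlin : ∀ i ≤ max B' M, |inc^[a] U i - inc^[a] U 0 - i * b| ≤ i * ε := by
        intro i
        induction i with
        | zero => intro _; simp
        | succ i ihi =>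
          intro hi
          have a1 := abs_le.mp (ihi (by omega))
          have a2 := abs_le.mp (hstep i (by omega))
          rw [abs_le]
          push_cast
          constructor <;> linarith [a1.1, a1.2, a2.1, a2.2]
      have hb : |b| ≤ 2 * K1 / M + ε := by
        have a1 := abs_le.mp (hlin M (le_max_right _ _))
        have a2 := abs_le.mp (h2 0 (by simp) a (by omega))
        have a3 := abs_le.mp (h2 M (by simp) a (by omega))
        have a4 : |(M : ℝ) * b| ≤ 2 * K1 + M * ε := by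
          rw [abs_le]
          constructor <;> linarith [a1.1, a1.2, a2.1, a2.2, a3.1, a3.2]
        rw [abs_mul, abs_of_pos hM0] at a4
        have a5 : |b| ≤ (2 * K1 + M * ε) / M := by
          rw [le_div_iff₀ hM0]
          linarith
        refine a5.trans (le_of_eq ?_)
        field_simp
      apply h U (inc^[a] U 0) _ (fun f hf i hi => h2 f (Finset.mem_union_left _ hf) i (by omega))
      intro i hi
      have a1 := hlin i (by omega)
      have hi' : (i : ℝ) ≤ B' := by exact_mod_cast hi.le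
      have hi0 : (0 : ℝ) ≤ i := Nat.cast_nonneg _
      have a2 : |(i : ℝ) * b| ≤ B' * (2 * K1 / M + ε) := by
        rw [abs_mul, abs_of_nonneg hi0]
        exact mul_le_mul hi' hb (abs_nonneg _) (by positivity)
      have a3 : (i : ℝ) * ε ≤ B' * ε := mul_le_mul_of_nonneg_right hi' hε1.le
      have a4 : |inc^[a] U i - inc^[a] U 0| ≤ B' * (2 * K1 / M + ε) + B' * ε := by
        have b1 := abs_le.mp a1
        have b2 := abs_le.mp a2
        rw [abs_le]
        constructor <;> linarith [b1.1, b1.2, b2.1, b2.2]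
      refine a4.trans ?_
      have a5 : (B' : ℝ) * (2 * K1 / M) ≤ ε' / 2 := by
        rw [← mul_div_assoc, div_le_iff₀ hM0]
        have : (0 : ℝ) ≤ B' := Nat.cast_nonneg _
        nlinarith
      have a6 : (B' : ℝ) * ε ≤ ε' / 4 := by
        rw [hε, ← mul_div_assoc, div_le_iff₀ (by positivity)]
        have : (0 : ℝ) ≤ B' := Nat.cast_nonneg _
        nlinarith
      linarith

end Pool.Agent.X112.GS
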