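import Pool.Agent.X112.GS.Rec

/-! # No approximate linear recurrence on almost all windows: one class of recurrences -/

set_option autoImplicit false

open Filter Finset

namespace Pool.Agent.X112.GS

/-- tightness -/
def Tight (x : ℕ → ℝ) : Prop := ∀ θ : ℝ, 0 < θ → ∃ K : ℝ, 0 < K ∧ ∀ᶠ N : ℕ in atTop,
  (((Icc 1 N).filter (fun n => K < |x n|)).card : ℝ) ≤ θ * N

open Classical in
lemma tight_window {x : ℕ → ℝ} (hT : Tight x) (m : ℕ) (θ : ℝ) (hθ : 0 < θ) : ∃ K : ℝ, 0 < K ∧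
    ∀ F : Finset ℕ, F.card ≤ m → ∀ᶠ N : ℕ in atTop,
    (((Icc 1 N).filter (fun n => ∃ f ∈ F, K < |x (n + f)|)).card : ℝ) ≤ θ * N := by
  obtain ⟨K, hK, h⟩ := hT (θ / (2 * (m + 1))) (by positivity)
  refine ⟨K, hK, fun F hF => ?_⟩
  have hbig : ∀ᶠ N : ℕ in atTop, ((∑ f ∈ F, f : ℕ) : ℝ) ≤ θ / 2 * N :=
    (tendsto_natCast_atTop_atTop.const_mul_atTop (show (0 : ℝ) < θ / 2 by positivity)).eventually_ge_atTop _
  filter_upwards [h, hbig] with N hN hb
  have h1 : (Icc 1 N).filter (fun n => ∃ f ∈ F, K < |x (n + f)|) ⊆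
      F.biUnion (fun f => (Icc 1 N).filter (fun n => K < |x (n + f)|)) := by
    intro n hn
    rw [Finset.mem_filter] at hn
    obtain ⟨f, hf, h2⟩ := hn.2
    rw [Finset.mem_biUnion]
    exact ⟨f, hf, Finset.mem_filter.mpr ⟨hn.1, h2⟩⟩
  have h2 := (Finset.card_le_card h1).trans Finset.card_biUnion_le
  have h3 : ∑ f ∈ F, ((Icc 1 N).filter (fun n => K < |x (n + f)|)).card ≤
      ∑ f ∈ F, (((Icc 1 N).filter (fun n => K < |x n|)).card + f) :=
    Finset.sum_le_sum fun f _ => card_shift (fun n => K < |x n|) N f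
  rw [Finset.sum_add_distrib, Finset.sum_const, smul_eq_mul] at h3
  have h4 : (((Icc 1 N).filter (fun n => ∃ f ∈ F, K < |x (n + f)|)).card : ℝ) ≤
      F.card * ((Icc 1 N).filter (fun n => K < |x n|)).card + ((∑ f ∈ F, f : ℕ) : ℝ) := by
    exact_mod_cast h2.trans h3
  have h5 : (F.card : ℝ) * ((Icc 1 N).filter (fun n => K < |x n|)).card ≤
      m * (θ / (2 * (m + 1)) * N) := by
    apply mul_le_mul (by exact_mod_cast hF) hN (Nat.cast_nonneg _) (Nat.cast_nonneg _)
  have h6 : (m : ℝ) * (θ / (2 * (m + 1)) * N) ≤ θ / 2 * N := by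
    have e : (m : ℝ) * (θ / (2 * (m + 1)) * N) = (m / (m + 1)) * (θ / 2 * N) := by
      field_simp
    rw [e]
    have : (m : ℝ) / (m + 1) ≤ 1 := by
      rw [div_le_one (by positivity)]
      linarith
    have h7 : 0 ≤ θ / 2 * N := by positivity
    nlinarith
  linarith

lemma inc_it_shift (u : ℕ → ℝ) (a n i : ℕ) : inc^[a] (fun i => u (n + i)) i = inc^[a] u (n + i) := by
  induction a generalizing i with
  | zero => rfl
  | succ a ih =>
    rw [inc_it_succ, inc_it_succ, ih, ih, ← add_assoc]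

lemma lc_shift (g : ℕ → ℝ) (a m : ℕ) (x : ℕ → ℝ) (n : ℕ) :
    lc g (a + m) x n = lc g a x n + inc^[a] (lc (fun j => g (a + j)) m x) n := by
  rw [inc_it_lc]
  unfold lc
  rw [Finset.sum_range_add]
  congr 1
  refine Finset.sum_congr rfl fun j _ => ?_
  rw [← Function.iterate_add_apply, add_comm j a]

open Classical in
/-- **one class of recurrences** -/
theorem cls_a {y : ℕ → ℝ} (hA : Anti y) (hL : Lln y) (hT : Tight (inc y)) (a m : ℕ)
    (τ Γ θ : ℝ) (hτ : 0 < τ) (hΓ : 0 < Γ) (hθ : 0 < θ) :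
    ∃ (B : ℕ) (ε σ : ℝ), 0 < ε ∧ 0 < σ ∧ ∀ᶠ N : ℕ in atTop,
    (((Icc 1 N).filter (fun n => ∃ (g : ℕ → ℝ) (b : ℝ), (∀ j ≤ a + m, |g j| ≤ Γ) ∧ τ ≤ |g a| ∧
      (∀ j < a, |g j| ≤ σ) ∧ ∀ i < B, |lc g (a + (m + 1)) (inc y) (n + i) - b| ≤ ε)).card : ℝ) ≤
      θ * N := by
  -- the constants
  obtain ⟨K0, hK0, hwin⟩ := tight_window hT ((2 * a + 3) * (a + m + 1)) (θ / 4) (by positivity)
  obtain ⟨K1, hK1d⟩ : ∃ K1 : ℝ, K1 = (m + 1) * (Γ * (2 ^ (m + 1) * (2 ^ a * K0))) := ⟨_, rfl⟩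
  have hK1 : 0 < K1 := by rw [hK1d]; positivity
  obtain ⟨r, hrA, hr1⟩ := ((hA ((2 * K1 + 1) / τ) (θ / 4) (by positivity)).and
    (eventually_ge_atTop 1)).exists
  have hr0 : (0 : ℝ) < r := by exact_mod_cast hr1
  obtain ⟨R, hRL, hRr, hRK⟩ := ((hL (1 / (8 * Γ * r)) (θ / 4) (by positivity) (by positivity)).and
    ((eventually_ge_atTop (r + 1)).and ((tendsto_natCast_atTop_atTop (R := ℝ)).eventually_ge_atTop
      (16 * K1 * r)))).exists
  have hR0 : (0 : ℝ) < R := by exact_mod_cast (by omega : 0 < R)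
  obtain ⟨B, ε1, F, hε1, hFc, hRB, hred⟩ := reduce a R (1 / (8 * r)) K1 (by positivity) hK1
  obtain ⟨KB, hKB, hwinB⟩ := tight_window hT (B + (a + m + 1)) (θ / 4) (by positivity)
  obtain ⟨σ, hσd⟩ : ∃ σ : ℝ, σ = ε1 / (2 * ((a + 1) * (2 ^ a * KB))) := ⟨_, rfl⟩
  have hσ : 0 < σ := by rw [hσd]; positivity
  refine ⟨B, ε1 / 2, σ, by positivity, hσ, ?_⟩
  obtain ⟨O, hO⟩ : ∃ O : Finset ℕ, O = ((F ∪ ({0, r, R} : Finset ℕ)) ×ˢ range (a + m + 1)).image
    (fun p => p.1 + p.2) := ⟨_, rfl⟩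
  have hOc : O.card ≤ (2 * a + 3) * (a + m + 1) := by
    rw [hO]
    refine Finset.card_image_le.trans ?_
    rw [Finset.card_product, Finset.card_range]
    apply Nat.mul_le_mul_right
    refine (Finset.card_union_le _ _).trans ?_
    have : ({0, r, R} : Finset ℕ).card ≤ 3 := Finset.card_le_three
    omega
  obtain ⟨W, hW⟩ : ∃ W : Finset ℕ, W = range (B + (a + m + 1)) := ⟨_, rfl⟩
  filter_upwards [hwin O hOc, hrA, hRL, hwinB W (by rw [hW, Finset.card_range])]
    with N h1 h2 h3 h4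
  have hsub : (Icc 1 N).filter (fun n => ∃ (g : ℕ → ℝ) (b : ℝ), (∀ j ≤ a + m, |g j| ≤ Γ) ∧ τ ≤ |g a| ∧
      (∀ j < a, |g j| ≤ σ) ∧ ∀ i < B, |lc g (a + (m + 1)) (inc y) (n + i) - b| ≤ ε1 / 2) ⊆
      (((Icc 1 N).filter (fun n => ∃ f ∈ O, K0 < |inc y (n + f)|)) ∪
      ((Icc 1 N).filter (fun n => |y (n + r) - y n - r| ≤ (2 * K1 + 1) / τ))) ∪
      (((Icc 1 N).filter (fun n => 1 / (8 * Γ * r) * R ≤ |y (n + R) - y n - R|)) ∪
      ((Icc 1 N).filter (fun n => ∃ f ∈ W, KB < |inc y (n + f)|))) := by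
    intro n hn
    rw [Finset.mem_filter] at hn
    obtain ⟨hnI, g, b, hg1, hg2, hg3, hg4⟩ := hn
    by_contra hcon
    rw [Finset.mem_union, Finset.mem_union, Finset.mem_union, not_or, not_or, not_or] at hcon
    obtain ⟨⟨c1, c2⟩, c3, c4⟩ := hcon
    replace c1 := fun h => c1 (Finset.mem_filter.mpr ⟨hnI, h⟩)
    replace c2 := fun h => c2 (Finset.mem_filter.mpr ⟨hnI, h⟩)
    replace c3 := fun h => c3 (Finset.mem_filter.mpr ⟨hnI, h⟩)
    replace c4 := fun h => c4 (Finset.mem_filter.mpr ⟨hnI, h⟩)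
    change ¬ _ at c1 c2 c3 c4
    push Not at c1 c2 c3 c4
    -- bounds at the special places
    have hbd : ∀ f ∈ F ∪ ({0, r, R} : Finset ℕ), ∀ l < a + m + 1, |inc y (n + f + l)| ≤ K0 := by
      intro f hf l hl
      have := c1 (f + l) (by
        rw [hO, Finset.mem_image]
        exact ⟨(f, l), Finset.mem_product.mpr ⟨hf, Finset.mem_range.mpr hl⟩, rfl⟩)
      rwa [← add_assoc] at this
    obtain ⟨u, hu⟩ : ∃ u : ℕ → ℝ, u = lc (fun j => g (a + j)) (m + 1) (inc y) := ⟨_, rfl⟩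
    have hF : ∀ f ∈ F, ∀ i ≤ a, |inc^[i] (fun i => u (n + i)) f| ≤ K1 := by
      intro f hf i hi
      rw [inc_it_shift, hu, inc_it_lc, hK1d]
      have hq : ∀ l < m + 1, |inc^[i] (inc y) (n + f + l)| ≤ 2 ^ a * K0 := by
        intro l hl
        have q1 : |inc^[i] (inc y) (n + f + l)| ≤ 2 ^ i * K0 := by
          apply inc_it_bound i (n + f + l)
          intro p hp
          have := hbd f (Finset.mem_union_left _ hf) (l + p) (by omega)
          rwa [← add_assoc] at this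
        have q2 : (2 : ℝ) ^ i ≤ 2 ^ a := pow_le_pow_right₀ (by norm_num) hi
        exact q1.trans (mul_le_mul_of_nonneg_right q2 hK0.le)
      have := lc_bound (g := fun j => g (a + j)) (x := inc^[i] (inc y)) (K := 2 ^ a * K0) (Γ := Γ)
        (m := m + 1) (n := n + f) (by positivity) hΓ.le
        (fun j hj => hg1 (a + j) (by omega)) hq
      push_cast at this
      exact this
    obtain ⟨v, hv⟩ : ∃ v : ℕ → ℝ, v = lc (fun j => g (a + (j + 1))) m (inc y) := ⟨_, rfl⟩
    have hV : ∀ f ∈ ({0, r, R} : Finset ℕ), |v (n + f)| ≤ K1 := by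
      intro f hf
      rw [hv, hK1d]
      refine (lc_bound (K := K0) (Γ := Γ) hK0.le hΓ.le (fun j hj => hg1 (a + (j + 1)) (by omega))
        (fun l hl => hbd f (Finset.mem_union_right _ hf) l (by omega))).trans ?_
      have e1 : (m : ℝ) ≤ m + 1 := by linarith
      have e2 : Γ * (2 ^ m * K0) ≤ Γ * (2 ^ (m + 1) * (2 ^ a * K0)) := by
        apply mul_le_mul_of_nonneg_left _ hΓ.le
        have e3 : (2 : ℝ) ^ m ≤ 2 ^ (m + 1) := pow_le_pow_right₀ (by norm_num) (by omega)
        have e4 : (1 : ℝ) ≤ 2 ^ a := one_le_pow₀ (by norm_num)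
        have e5 : K0 ≤ 2 ^ a * K0 := by nlinarith
        exact mul_le_mul e3 e5 hK0.le (by positivity)
      exact mul_le_mul e1 e2 (by positivity) (by positivity)
    -- the differences of `u`
    have hwinU : ∀ i < B, |inc^[a] (fun i => u (n + i)) i - b| ≤ ε1 := by
      intro i hi
      rw [inc_it_shift, hu]
      have e1 := hg4 i hi
      rw [lc_shift] at e1
      have e2 : |lc g a (inc y) (n + i)| ≤ ε1 / 2 := by
        refine (lc_bound (K := KB) (Γ := σ) hKB.le hσ.le (fun j hj => hg3 j hj)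
          (fun l hl => ?_)).trans ?_
        · rw [add_assoc]
          exact c4 (i + l) (by rw [hW]; exact Finset.mem_range.mpr (by omega))
        · rw [hσd]
          have e3 : (a : ℝ) * (ε1 / (2 * ((a + 1) * (2 ^ a * KB))) * (2 ^ a * KB)) =
              a / (a + 1) * (ε1 / 2) := by
            field_simp
          rw [e3]
          have e4 : (a : ℝ) / (a + 1) ≤ 1 := by
            rw [div_le_one (by positivity)]
            linarith
          nlinarith
      have e5 := abs_le.mp e1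
      have e6 := abs_le.mp e2
      rw [abs_le]
      constructor <;> linarith [e5.1, e5.2, e6.1, e6.2]
    obtain ⟨b', hb'⟩ := hred _ b hwinU hF
    -- sums
    have hsum : ∀ s ≤ R, |g a * (y (n + s) - y n) + (v (n + s) - v n) - s * b'| ≤ s * (1 / (8 * r)) := by
      intro s hs
      have e1 := sum_lc (fun j => g (a + j)) m y n s
      have e2 : lc (fun j => g (a + (j + 1))) m (inc y) = v := hv.symm
      simp only [add_zero] at e1
      rw [e2] at e1
      rw [← e1]
      have e3 : (s : ℝ) * b' = ∑ i ∈ range s, b' := by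
        rw [Finset.sum_const, Finset.card_range, nsmul_eq_mul]
      rw [e3, ← Finset.sum_sub_distrib]
      refine (Finset.abs_sum_le_sum_abs _ _).trans ?_
      calc _ ≤ ∑ i ∈ range s, 1 / (8 * (r : ℝ)) := by
            apply Finset.sum_le_sum
            intro i hi
            have := hb' i (lt_of_lt_of_le (Finset.mem_range.mp hi) hs)
            rw [hu] at this
            exact this
        _ = _ := by rw [Finset.sum_const, Finset.card_range, nsmul_eq_mul]
    have hv0 := abs_le.mp (hV 0 (by simp))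
    have hvr := abs_le.mp (hV r (by simp))
    have hvR := abs_le.mp (hV R (by simp))
    rw [add_zero] at hv0
    have hsR := abs_le.mp (hsum R le_rfl)
    have hsr := abs_le.mp (hsum r (by omega))
    have hgΓ : |g a| ≤ Γ := hg1 a (by omega)
    -- the constant
    have hgb : |g a - b'| * R ≤ 1 / (8 * r) * R + 1 / (8 * r) * R + 2 * K1 := by
      rw [← abs_of_pos hR0, ← abs_mul, abs_of_pos hR0]
      have e1 : |g a * (y (n + R) - y n - R)| ≤ 1 / (8 * r) * R := by
        rw [abs_mul]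
        calc |g a| * |y (n + R) - y n - R| ≤ Γ * (1 / (8 * Γ * r) * R) :=
              mul_le_mul hgΓ c3.le (abs_nonneg _) hΓ.le
          _ = 1 / (8 * r) * R := by field_simp
      have e2 := abs_le.mp e1
      rw [abs_le]
      constructor
      · linarith [e2.1, e2.2, hsR.1, hsR.2, hvR.1, hvR.2, hv0.1, hv0.2]
      · linarith [e2.1, e2.2, hsR.1, hsR.2, hvR.1, hvR.2, hv0.1, hv0.2]
    have hgb2 : |g a - b'| * r ≤ 3 / 8 := by
      have e1 : |g a - b'| ≤ 1 / (8 * r) + 1 / (8 * r) + 2 * K1 / R := by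
        have : |g a - b'| ≤ (1 / (8 * r) * R + 1 / (8 * r) * R + 2 * K1) / R := by
          rw [le_div_iff₀ hR0]
          exact hgb
        refine this.trans (le_of_eq ?_)
        field_simp
      have e2 : 2 * K1 / R ≤ 1 / (8 * r) := by
        rw [div_le_div_iff₀ hR0 (by positivity)]
        linarith
      calc |g a - b'| * r ≤ (1 / (8 * r) + 1 / (8 * r) + 1 / (8 * r)) * r :=
            mul_le_mul_of_nonneg_right (by linarith) hr0.le
        _ = 3 / 8 := by
            field_simp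
            norm_num
    have hfin : |g a * (y (n + r) - y n - r)| ≤ 2 * K1 + 1 := by
      have e1 : |(g a - b') * r| ≤ 3 / 8 := by
        rw [abs_mul, abs_of_pos hr0]
        exact hgb2
      have e2 := abs_le.mp e1
      have e3 : (r : ℝ) * (1 / (8 * r)) = 1 / 8 := by field_simp
      rw [e3] at hsr
      rw [abs_le]
      constructor
      · linarith [e2.1, e2.2, hsr.1, hsr.2, hvr.1, hvr.2, hv0.1, hv0.2]
      · linarith [e2.1, e2.2, hsr.1, hsr.2, hvr.1, hvr.2, hv0.1, hv0.2]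
    rw [abs_mul] at hfin
    have : |y (n + r) - y n - r| ≤ (2 * K1 + 1) / τ := by
      rw [le_div_iff₀ hτ]
      have := mul_le_mul_of_nonneg_right hg2 (abs_nonneg (y (n + r) - y n - r))
      linarith
    linarith
  have h5 := (Finset.card_le_card hsub).trans ((Finset.card_union_le _ _).trans
    (Nat.add_le_add (Finset.card_union_le _ _) (Finset.card_union_le _ _)))
  have h6 : (((Icc 1 N).filter (fun n => ∃ (g : ℕ → ℝ) (b : ℝ), (∀ j ≤ a + m, |g j| ≤ Γ) ∧ τ ≤ |g a| ∧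
      (∀ j < a, |g j| ≤ σ) ∧ ∀ i < B, |lc g (a + (m + 1)) (inc y) (n + i) - b| ≤ ε1 / 2)).card : ℝ) ≤
      (((Icc 1 N).filter (fun n => ∃ f ∈ O, K0 < |inc y (n + f)|)).card +
      ((Icc 1 N).filter (fun n => |y (n + r) - y n - r| ≤ (2 * K1 + 1) / τ)).card) +
      (((Icc 1 N).filter (fun n => 1 / (8 * Γ * r) * R ≤ |y (n + R) - y n - R|)).card +
      ((Icc 1 N).filter (fun n => ∃ f ∈ W, KB < |inc y (n + f)|)).card) := by
    exact_mod_cast h5
  have e2 : (((Icc 1 N).filter (fun n => |y (n + r) - y n - r| ≤ (2 * K1 + 1) / τ)).card : ℝ) ≤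
    θ / 4 * N := by
    refine le_trans (le_of_eq ?_) h2
    congr!
  have e3 : (((Icc 1 N).filter (fun n => 1 / (8 * Γ * r) * R ≤ |y (n + R) - y n - R|)).card : ℝ) ≤
    θ / 4 * N := by
    refine le_trans (le_of_eq ?_) h3
    congr!
  refine h6.trans ?_
  have e1 : (((Icc 1 N).filter (fun n => ∃ f ∈ O, K0 < |inc y (n + f)|)).card : ℝ) ≤ θ / 4 * N := by
    refine le_trans (le_of_eq ?_) h1
    congr!
  have e4 : (((Icc 1 N).filter (fun n => ∃ f ∈ W, KB < |inc y (n + f)|)).card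
      : ℝ) ≤ θ / 4 * N := by
    refine le_trans (le_of_eq ?_) h4
    congr!
  refine (add_le_add (add_le_add e1 e2) (add_le_add e3 e4)).trans (le_of_eq ?_)
  ring

end Pool.Agent.X112.GS
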