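import Pool.Agent.X112.GS.VarUp
import Mathlib.Probability.Distributions.Gaussian.Real

/-! # The second moment of the sums of `r` consecutive spacings: sharp lower bound -/

set_option autoImplicit false

open Filter Finset MeasureTheory

namespace Pool.Agent.X112.GS

open SG (ord NZ)
open SP (RHs)
open Pool.Agent.Y743.CL (Ph lm Ev bU bL Ph_lip gs_bot gs_top gs_compl gs Ph_nonneg Ph_le_one)

/-- the layers -/
noncomputable def lay (h : ℝ) (k : ℕ) (a : ℝ) : ℝ :=
  ∑ i ∈ range k, (((i + 1 : ℕ) * h) ^ 2 - ((i : ℕ) * h) ^ 2) * (if ((i + 1 : ℕ) : ℝ) * h < a then (1 : ℝ) else 0)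

lemma lay_tele {h a : ℝ} (hh : 0 ≤ h) (k : ℕ) (ha : (k : ℝ) * h < a) : lay h k a = (k * h) ^ 2 := by
  unfold lay
  have h1 : ∀ i ∈ range k, (((i + 1 : ℕ) * h) ^ 2 - ((i : ℕ) * h) ^ 2) *
      (if ((i + 1 : ℕ) : ℝ) * h < a then (1 : ℝ) else 0) = ((i + 1 : ℕ) * h) ^ 2 - ((i : ℕ) * h) ^ 2 := by
    intro i hi
    rw [Finset.mem_range] at hi
    have : ((i + 1 : ℕ) : ℝ) * h ≤ k * h := by
      apply mul_le_mul_of_nonneg_right _ hh
      exact_mod_cast hi
    rw [if_pos (lt_of_le_of_lt this ha), mul_one]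
  rw [Finset.sum_congr rfl h1, Finset.sum_range_sub (fun i : ℕ => ((i : ℝ) * h) ^ 2)]
  simp

lemma coef_nonneg {h : ℝ} (i : ℕ) : 0 ≤ (((i + 1 : ℕ) : ℝ) * h) ^ 2 - ((i : ℕ) * h) ^ 2 := by
  rw [mul_pow, mul_pow, ← sub_mul]
  apply mul_nonneg _ (sq_nonneg _)
  push_cast
  have : (0 : ℝ) ≤ i := Nat.cast_nonneg _
  nlinarith

lemma lay_le {h a : ℝ} (hh : 0 ≤ h) (k : ℕ) : lay h k a ≤ a ^ 2 := by
  induction k with
  | zero => unfold lay; simp; positivity
  | succ k ih =>
    rcases lt_or_ge (((k + 1 : ℕ) : ℝ) * h) a with h1 | h1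
    · rw [lay_tele hh (k + 1) h1]
      have : 0 ≤ ((k + 1 : ℕ) : ℝ) * h := by positivity
      exact pow_le_pow_left₀ this h1.le 2
    · unfold lay at ih ⊢
      rw [Finset.sum_range_succ, if_neg (not_lt.mpr h1), mul_zero, add_zero]
      exact ih

lemma lay_ge {h a : ℝ} (hh : 0 ≤ h) (k : ℕ) (ha : 0 ≤ a) (hak : a ≤ k * h) :
    a ^ 2 - 2 * h * a ≤ lay h k a := by
  induction k with
  | zero =>
    have : a = 0 := by
      have : a ≤ 0 := by simpa using hak
      linarith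
    subst this
    unfold lay
    simp
  | succ k ih =>
    rcases le_or_gt a (k * h) with h1 | h1
    · refine (ih h1).trans ?_
      unfold lay
      rw [Finset.sum_range_succ]
      have : 0 ≤ (((k + 1 : ℕ) * h) ^ 2 - ((k : ℕ) * h) ^ 2) *
        (if ((k + 1 : ℕ) : ℝ) * h < a then (1 : ℝ) else 0) := by
        apply mul_nonneg (coef_nonneg k)
        split_ifs <;> norm_num
      linarith
    · have h2 := lay_tele hh k h1
      have h3 : lay h k a ≤ lay h (k + 1) a := by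
        unfold lay
        rw [Finset.sum_range_succ]
        have : 0 ≤ (((k + 1 : ℕ) * h) ^ 2 - ((k : ℕ) * h) ^ 2) *
          (if ((k + 1 : ℕ) : ℝ) * h < a then (1 : ℝ) else 0) := by
          apply mul_nonneg (coef_nonneg k)
          split_ifs <;> norm_num
        linarith
      rw [h2] at h3
      refine le_trans ?_ h3
      push_cast at hak
      have h4 : a - h ≤ k * h := by linarith
      have h5 : 0 ≤ (k : ℝ) * h := by positivity
      rcases le_total h a with h6 | h6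
      · nlinarith
      · nlinarith

lemma gauss_sq : ∫ x, x ^ 2 ∂gs = 1 := by
  have h1 := ProbabilityTheory.variance_id_gaussianReal (μ := 0) (v := 1)
  rw [ProbabilityTheory.variance_eq_integral measurable_id.aemeasurable] at h1
  simpa [gs] using h1

lemma gauss_int : Integrable (fun x : ℝ => x ^ 2) gs := by
  have h1 : MemLp (id : ℝ → ℝ) 2 gs := ProbabilityTheory.memLp_id_gaussianReal 2
  exact h1.integrable_sq

lemma gauss_grid (ε : ℝ) (hε : 0 < ε) : ∃ h : ℝ, 0 < h ∧ ∃ k : ℕ,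
    1 - ε ≤ ∑ i ∈ range k, (((i + 1 : ℕ) * h) ^ 2 - ((i : ℕ) * h) ^ 2) *
      (1 - Ph ((i + 1 : ℕ) * h) + Ph (-((i + 1 : ℕ) * h))) := by
  obtain ⟨h, hh⟩ : ∃ h : ℝ, h = ε / 8 := ⟨_, rfl⟩
  have hh0 : 0 < h := by rw [hh]; positivity
  refine ⟨h, hh0, ?_⟩
  have : IsProbabilityMeasure gs := by unfold gs; infer_instance
  -- truncation
  have hlim : Tendsto (fun k : ℕ => ∫ x, (if |x| ≤ k * h then x ^ 2 else 0) ∂gs) atTop
      (nhds (∫ x, x ^ 2 ∂gs)) := by
    apply tendsto_integral_of_dominated_convergence (fun x => x ^ 2)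
    · intro k
      apply Measurable.aestronglyMeasurable
      apply Measurable.ite
      · exact measurableSet_le continuous_abs.measurable measurable_const
      · fun_prop
      · fun_prop
    · exact gauss_int
    · intro k
      refine Eventually.of_forall fun x => ?_
      split_ifs
      · rw [Real.norm_of_nonneg (sq_nonneg _)]
      · simp; positivity
    · refine Eventually.of_forall fun x => ?_
      apply tendsto_const_nhds.congr'
      have h1 : ∀ᶠ k : ℕ in atTop, |x| ≤ k * h :=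
        (tendsto_natCast_atTop_atTop.atTop_mul_const hh0).eventually_ge_atTop _
      filter_upwards [h1] with k hk
      rw [if_pos hk]
  rw [gauss_sq] at hlim
  obtain ⟨k, hk⟩ := (hlim.eventually_const_lt (show 1 - ε / 2 < 1 by linarith)).exists
  refine ⟨k, ?_⟩
  -- the integral of the layers
  have hint : ∀ t : ℝ, Integrable (fun x : ℝ => if t < |x| then (1 : ℝ) else 0) gs := by
    intro t
    have : (fun x : ℝ => if t < |x| then (1 : ℝ) else 0) = Set.indicator {x : ℝ | t < |x|} (fun _ => 1) := by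
      ext x
      simp [Set.indicator_apply]
    rw [this]
    exact (integrable_const 1).indicator (measurableSet_lt measurable_const continuous_abs.measurable)
  have htail : ∀ t : ℝ, ∫ x, (if t < |x| then (1 : ℝ) else 0) ∂gs ≤ 1 - Ph t + Ph (-t) := by
    intro t
    have e1 : (fun x : ℝ => if t < |x| then (1 : ℝ) else 0) = Set.indicator {x : ℝ | t < |x|} (fun _ => 1) := by
      ext x
      simp [Set.indicator_apply]
    rw [e1, integral_indicator (measurableSet_lt measurable_const continuous_abs.measurable)]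
    rw [setIntegral_const, smul_eq_mul, mul_one]
    have h2 : {x : ℝ | t < |x|} ⊆ Set.Ioi t ∪ Set.Iic (-t) := by
      intro x hx
      have hx' : t < |x| := hx
      rcases lt_abs.mp hx' with h3 | h3
      · exact Or.inl h3
      · right
        show x ≤ -t
        linarith
    refine (measureReal_mono h2).trans ((measureReal_union_le _ _).trans ?_)
    rw [gs_compl]
    rfl
  have hsum : ∫ x, lay h k |x| ∂gs ≤ ∑ i ∈ range k, (((i + 1 : ℕ) * h) ^ 2 - ((i : ℕ) * h) ^ 2) *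
      (1 - Ph ((i + 1 : ℕ) * h) + Ph (-((i + 1 : ℕ) * h))) := by
    unfold lay
    rw [integral_finsetSum _ (fun i _ => (hint _).const_mul _)]
    apply Finset.sum_le_sum
    intro i _
    rw [integral_const_mul]
    exact mul_le_mul_of_nonneg_left (htail _) (coef_nonneg i)
  refine le_trans ?_ hsum
  have hpt : ∀ x : ℝ, (if |x| ≤ k * h then x ^ 2 else 0) - h * (1 + x ^ 2) ≤ lay h k |x| := by
    intro x
    have h0 : 0 ≤ lay h k |x| := by
      unfold lay
      apply Finset.sum_nonneg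
      intro i _
      apply mul_nonneg (coef_nonneg i)
      split_ifs <;> norm_num
    split_ifs with h1
    · have h2 := lay_ge hh0.le k (abs_nonneg x) h1
      have h3 := sq_abs x
      have h4 : 0 ≤ h * (1 - |x|) ^ 2 := by positivity
      nlinarith
    · have : 0 ≤ h * (1 + x ^ 2) := by positivity
      linarith
  have hint2 : Integrable (fun x : ℝ => if |x| ≤ k * h then x ^ 2 else 0) gs := by
    have : (fun x : ℝ => if |x| ≤ k * h then x ^ 2 else 0) =
        Set.indicator {x : ℝ | |x| ≤ k * h} (fun x => x ^ 2) := by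
      ext x
      simp [Set.indicator_apply]
    rw [this]
    exact gauss_int.indicator (measurableSet_le continuous_abs.measurable measurable_const)
  have hint3 : Integrable (fun x : ℝ => h * (1 + x ^ 2)) gs :=
    ((integrable_const 1).add gauss_int).const_mul h
  have hint4 : Integrable (fun x : ℝ => lay h k |x|) gs := by
    unfold lay
    exact integrable_finsetSum _ fun i _ => (hint _).const_mul _
  have h1 := integral_mono (hint2.sub hint3) hint4 hpt
  have h2 : ∫ x, ((if |x| ≤ k * h then x ^ 2 else 0) - h * (1 + x ^ 2)) ∂gs =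
      ∫ x, (if |x| ≤ k * h then x ^ 2 else 0) ∂gs - h * 2 := by
    rw [integral_sub hint2 hint3, integral_const_mul, integral_add (integrable_const 1) gauss_int,
      gauss_sq, integral_const, probReal_univ]
    norm_num
  have h3 : ∫ x, ((if |x| ≤ k * h then x ^ 2 else 0) - h * (1 + x ^ 2)) ∂gs ≤
      ∫ x, lay h k |x| ∂gs := h1
  rw [h2] at h3
  rw [hh] at h3 ⊢
  rw [hh] at hk
  linarith

/-- the middle part of a dyadic block -/
lemma block_mid (t δ : ℝ) (ht : 0 ≤ t) (hδ : 0 < δ) : ∀ᶠ r : ℕ in atTop, ∃ T0 : ℝ, 1 ≤ T0 ∧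
    ∀ T : ℝ, T0 ≤ T →
    (((Finset.Ioc (NZ T) (NZ (2 * T))).filter
      (fun n => |yy (n + r) - yy n - r| ≤ t * lm r)).card : ℝ) ≤
      (Ph t - Ph (-t) + 4 * δ) * (T * Real.log T / (2 * Real.pi)) := by
  classical
  have hpi := Real.pi_pos
  obtain ⟨Tb, hTb1, hTb⟩ := block_low δ hδ
  filter_upwards [bU t δ hδ, bL (-t - δ) δ hδ, lm_tend.eventually_gt_atTop 0] with r h1 h2 h3
  refine ⟨max Tb (Real.exp (r * Real.log r)), hTb1.trans (le_max_left _ _), fun T hT => ?_⟩
  have hTb' : Tb ≤ T := (le_max_left _ _).trans hT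
  have hT1 : 1 ≤ T := hTb1.trans hTb'
  have hlogT : 0 ≤ Real.log T := Real.log_nonneg hT1
  have hrT : r * Real.log r ≤ 2 * Real.log T := by
    have h4 : Real.exp (r * Real.log r) ≤ T := (le_max_right _ _).trans hT
    have h5 := (Real.le_log_iff_exp_le (by linarith)).mpr h4
    linarith
  have g1 := h1 T hT1 hrT
  have g2 := h2 T hT1 hrT
  have g3 := hTb T hTb'
  obtain ⟨X, hX⟩ : ∃ X : ℝ, X = T * Real.log T / (2 * Real.pi) := ⟨_, rfl⟩
  have hX0 : 0 ≤ X := by rw [hX]; positivity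
  rw [← hX] at g1 g2 g3 ⊢
  obtain ⟨A, hA⟩ : ∃ A : Finset ℕ, A = (Finset.Ioc (NZ T) (NZ (2 * T))).filter (fun n => Ev t r n) :=
    ⟨_, rfl⟩
  obtain ⟨B, hB⟩ : ∃ B : Finset ℕ, B = (Finset.Ioc (NZ T) (NZ (2 * T))).filter
      (fun n => ¬ Ev (-t - δ) r n) := ⟨_, rfl⟩
  have hA' : (A.card : ℝ) ≤ X * (Ph t + δ) := by rw [hA]; exact g1
  have hB' : (B.card : ℝ) ≤ X * (1 - Ph (-t - δ) + δ) := by
    rw [hB]
    refine le_trans (le_of_eq ?_) g2
    congr!
  have hδl : 0 < δ * lm r := by positivity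
  have htl : 0 ≤ t * lm r := by positivity
  have hunion : Finset.Ioc (NZ T) (NZ (2 * T)) ⊆ A ∪ B := by
    intro n hn
    rw [Finset.mem_union, hA, hB, Finset.mem_filter, Finset.mem_filter]
    by_cases h : Ev (-t - δ) r n
    · left
      refine ⟨hn, ?_⟩
      unfold Ev at h ⊢
      linarith
    · exact Or.inr ⟨hn, h⟩
  have hinter : (Finset.Ioc (NZ T) (NZ (2 * T))).filter
      (fun n => |yy (n + r) - yy n - r| ≤ t * lm r) ⊆ A ∩ B := by
    intro n hn
    rw [Finset.mem_filter] at hn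
    obtain ⟨hn1, hn2⟩ := hn
    have hn3 := abs_le.mp hn2
    unfold yy at hn3
    rw [Finset.mem_inter, hA, hB, Finset.mem_filter, Finset.mem_filter]
    refine ⟨⟨hn1, ?_⟩, hn1, ?_⟩
    · unfold Ev
      linarith [hn3.2]
    · unfold Ev
      rw [not_le]
      linarith [hn3.1]
  have c1 := Finset.card_union_add_card_inter A B
  have c2 := Finset.card_le_card hunion
  have c3 := Finset.card_le_card hinter
  rw [Nat.card_Ioc] at c2
  have hmono : NZ T ≤ NZ (2 * T) := SG.NZ_mono (by linarith)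
  have c4 : (((Finset.Ioc (NZ T) (NZ (2 * T))).filter
      (fun n => |yy (n + r) - yy n - r| ≤ t * lm r)).card : ℝ) ≤
        A.card + B.card - (NZ (2 * T) - NZ T) := by
    have : ((Finset.Ioc (NZ T) (NZ (2 * T))).filter
      (fun n => |yy (n + r) - yy n - r| ≤ t * lm r)).card + NZ (2 * T) ≤
        A.card + B.card + NZ T := by omega
    have h5 : ((((Finset.Ioc (NZ T) (NZ (2 * T))).filter
      (fun n => |yy (n + r) - yy n - r| ≤ t * lm r)).card + NZ (2 * T) : ℕ) : ℝ) ≤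
        ((A.card + B.card + NZ T : ℕ) : ℝ) := by exact_mod_cast this
    push_cast at h5
    linarith
  have h6 := Ph_lip (show -t - δ ≤ -t by linarith)
  have h7 : X * (Ph t + δ) + X * (1 - Ph (-t - δ) + δ) - (1 - δ) * X ≤
      (Ph t - Ph (-t) + 4 * δ) * X := by
    have : X * (Ph (-t)) ≤ X * (Ph (-t - δ) + (-t - (-t - δ))) := mul_le_mul_of_nonneg_left h6 hX0
    linarith
  linarith

/-- **sharp lower bound for the variance** -/
theorem var_low (ε : ℝ) (hε : 0 < ε) : ∀ᶠ r : ℕ in atTop, ∀ᶠ N : ℕ in atTop,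
    (1 / Real.pi ^ 2 - ε) * Real.log r * N ≤ ww ee N r := by
  classical
  have hpi := Real.pi_pos
  obtain ⟨h, hh, k, hk⟩ := gauss_grid (ε / 2) (by positivity)
  obtain ⟨δ, hδ⟩ : ∃ δ : ℝ, δ = ε / (10 * ((k * h) ^ 2 + 1)) := ⟨_, rfl⟩
  have hδ0 : 0 < δ := by rw [hδ]; positivity
  have hall : ∀ᶠ r : ℕ in atTop, ∀ i ∈ range k, ∃ T0 : ℝ, 1 ≤ T0 ∧ ∀ T : ℝ, T0 ≤ T →
    (((Finset.Ioc (NZ T) (NZ (2 * T))).filter
      (fun n => |yy (n + r) - yy n - r| ≤ ((i + 1 : ℕ) * h) * lm r)).card : ℝ) ≤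
      (Ph ((i + 1 : ℕ) * h) - Ph (-((i + 1 : ℕ) * h)) + 4 * δ) * (T * Real.log T / (2 * Real.pi)) := by
    rw [Filter.eventually_all_finset]
    intro i _
    exact block_mid _ δ (by positivity) hδ0
  filter_upwards [hall, lm_tend.eventually_gt_atTop 0, eventually_ge_atTop 1] with r hr hlm hr1
  have hall2 : ∀ᶠ N : ℕ in atTop, ∀ i ∈ range k,
      (((Icc 1 N).filter (fun n => |yy (n + r) - yy n - r| ≤ ((i + 1 : ℕ) * h) * lm r)).card : ℝ) ≤
      (Ph ((i + 1 : ℕ) * h) - Ph (-((i + 1 : ℕ) * h)) + 4 * δ + δ) * N := by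
    rw [Filter.eventually_all_finset]
    intro i hi
    obtain ⟨T0, hT0, hT⟩ := hr i hi
    refine dyadic_sharp _ _ T0 ?_ hT0 hT δ hδ0
    have : Ph (-((i + 1 : ℕ) * h)) ≤ Ph ((i + 1 : ℕ) * h) := by
      apply Pool.Agent.Y743.CL.Ph_mono
      have : 0 ≤ ((i + 1 : ℕ) : ℝ) * h := by positivity
      linarith
    linarith
  filter_upwards [hall2] with N hN
  have hN0 : (0 : ℝ) ≤ N := Nat.cast_nonneg _
  -- pointwise
  have hpt : ∀ n, lm r ^ 2 * lay h k (|sm ee r n| / lm r) ≤ sm ee r n ^ 2 := by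
    intro n
    have h1 := lay_le (a := |sm ee r n| / lm r) hh.le k
    have h2 : lm r ^ 2 * (|sm ee r n| / lm r) ^ 2 = sm ee r n ^ 2 := by
      rw [div_pow, sq_abs]
      field_simp
    calc _ ≤ lm r ^ 2 * (|sm ee r n| / lm r) ^ 2 := mul_le_mul_of_nonneg_left h1 (by positivity)
      _ = _ := h2
  have h1 : lm r ^ 2 * ∑ n ∈ Icc 1 N, lay h k (|sm ee r n| / lm r) ≤ ww ee N r := by
    unfold ww
    rw [Finset.mul_sum]
    exact Finset.sum_le_sum fun n _ => hpt n
  have h2 : ∑ n ∈ Icc 1 N, lay h k (|sm ee r n| / lm r) =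
      ∑ i ∈ range k, (((i + 1 : ℕ) * h) ^ 2 - ((i : ℕ) * h) ^ 2) *
        (N - ((Icc 1 N).filter (fun n => |yy (n + r) - yy n - r| ≤ ((i + 1 : ℕ) * h) * lm r)).card) := by
    unfold lay
    rw [Finset.sum_comm]
    refine Finset.sum_congr rfl fun i _ => ?_
    rw [← Finset.mul_sum]
    congr 1
    have h3 : ∀ n, (if ((i + 1 : ℕ) : ℝ) * h < |sm ee r n| / lm r then (1 : ℝ) else 0) =
        if ¬ (|yy (n + r) - yy n - r| ≤ ((i + 1 : ℕ) * h) * lm r) then (1 : ℝ) else 0 := by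
      intro n
      have h4 : (((i + 1 : ℕ) : ℝ) * h < |sm ee r n| / lm r) ↔
          ¬ (|yy (n + r) - yy n - r| ≤ ((i + 1 : ℕ) * h) * lm r) := by
        rw [lt_div_iff₀ hlm, sm_ee, not_le]
      simp only [h4]
    simp only [h3]
    rw [Finset.sum_boole]
    have h5 := Finset.card_filter_add_card_filter_not (s := Icc 1 N)
      (fun n => |yy (n + r) - yy n - r| ≤ ((i + 1 : ℕ) * h) * lm r)
    rw [Nat.card_Icc, Nat.add_sub_cancel] at h5
    have h6 : (((Icc 1 N).filter (fun n => |yy (n + r) - yy n - r| ≤ ((i + 1 : ℕ) * h) * lm r)).card : ℝ) +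
      ((Icc 1 N).filter (fun n => ¬ |yy (n + r) - yy n - r| ≤ ((i + 1 : ℕ) * h) * lm r)).card = N := by
      exact_mod_cast h5
    linarith
  have h3 : ∑ i ∈ range k, (((i + 1 : ℕ) * h) ^ 2 - ((i : ℕ) * h) ^ 2) *
      ((1 - Ph ((i + 1 : ℕ) * h) + Ph (-((i + 1 : ℕ) * h)) - 5 * δ) * N) ≤
      ∑ n ∈ Icc 1 N, lay h k (|sm ee r n| / lm r) := by
    rw [h2]
    apply Finset.sum_le_sum
    intro i hi
    apply mul_le_mul_of_nonneg_left _ (coef_nonneg i)
    have := hN i hi
    linarith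
  have h4 : ∑ i ∈ range k, (((i + 1 : ℕ) * h) ^ 2 - ((i : ℕ) * h) ^ 2) *
      ((1 - Ph ((i + 1 : ℕ) * h) + Ph (-((i + 1 : ℕ) * h)) - 5 * δ) * N) =
      (∑ i ∈ range k, (((i + 1 : ℕ) * h) ^ 2 - ((i : ℕ) * h) ^ 2) *
      (1 - Ph ((i + 1 : ℕ) * h) + Ph (-((i + 1 : ℕ) * h))) - 5 * δ * (k * h) ^ 2) * N := by
    have e1 : ∑ i ∈ range k, (((i + 1 : ℕ) * h) ^ 2 - ((i : ℕ) * h) ^ 2) = (k * h) ^ 2 := by
      rw [Finset.sum_range_sub (fun i : ℕ => ((i : ℝ) * h) ^ 2)]
      simp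
    rw [← e1, Finset.mul_sum, ← Finset.sum_sub_distrib, Finset.sum_mul]
    refine Finset.sum_congr rfl fun i _ => ?_
    ring
  have h5 : 5 * δ * (k * h) ^ 2 ≤ ε / 2 := by
    rw [hδ]
    have e1 : 5 * (ε / (10 * ((k * h) ^ 2 + 1))) * (k * h) ^ 2 = ε / 2 * ((k * h) ^ 2 / ((k * h) ^ 2 + 1)) := by
      field_simp
      ring
    rw [e1]
    have : ((k : ℝ) * h) ^ 2 / ((k * h) ^ 2 + 1) ≤ 1 := by
      rw [div_le_one (by positivity)]
      linarith
    nlinarith
  have h6 : (1 - ε) * N ≤ ∑ n ∈ Icc 1 N, lay h k (|sm ee r n| / lm r) := by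
    rw [h4] at h3
    refine le_trans ?_ h3
    apply mul_le_mul_of_nonneg_right _ hN0
    linarith
  have h7 : lm r ^ 2 * ((1 - ε) * N) ≤ ww ee N r :=
    (mul_le_mul_of_nonneg_left h6 (by positivity)).trans h1
  have hlr : 0 ≤ Real.log r := Real.log_nonneg (by exact_mod_cast hr1)
  have h8 : lm r ^ 2 = Real.log r / Real.pi ^ 2 := by
    unfold lm
    rw [div_pow, Real.sq_sqrt hlr]
  refine le_trans ?_ h7
  rw [h8]
  have h9 : (1 / Real.pi ^ 2 - ε) * Real.log r * N ≤ (1 / Real.pi ^ 2 - ε / Real.pi ^ 2) * Real.log r * N := by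
    apply mul_le_mul_of_nonneg_right _ hN0
    apply mul_le_mul_of_nonneg_right _ hlr
    have h10 : ε / Real.pi ^ 2 ≤ ε := by
      rw [div_le_iff₀ (by positivity)]
      have h11 := Real.pi_gt_three
      have h12 : 1 ≤ Real.pi ^ 2 := by nlinarith
      have h13 : ε * 1 ≤ ε * Real.pi ^ 2 := mul_le_mul_of_nonneg_left h12 hε.le
      linarith
    linarith
  refine h9.trans (le_of_eq ?_)
  ring

end Pool.Agent.X112.GS
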