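import Pool.Agent.X112.GS.Dy
import Pool.Agent.Y743.NC.Block

/-! # The second moment of the sums of `r` consecutive spacings: upper bound -/

set_option autoImplicit false

open Filter Finset

namespace Pool.Agent.X112.GS

open SG (ord NZ)
open SP (RHs)
open Pool.Agent.Y743.LR (yv)
open Pool.Agent.Y743.NC (ff)

/-- the centred gaps -/
noncomputable def ee (n : ℕ) : ℝ := inc yy n - 1

lemma sm_ee (r n : ℕ) : sm ee r n = yy (n + r) - yy n - r := by
  unfold sm ee
  induction r with
  | zero => simp
  | succ r ih =>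
    rw [Finset.sum_range_succ, ih]
    unfold inc
    push_cast
    rw [← add_assoc]
    ring

/-- the largest gap -/
lemma max_gap (hRH : RHs) : ∃ C : ℝ, 0 < C ∧ ∀ᶠ N : ℕ in atTop, ∀ n : ℕ, 1 ≤ n → n ≤ 2 * N →
    |ee n| ≤ C * Real.log N := by
  obtain ⟨c, x0, hc, hx0, h⟩ := LG.gap_uniform hRH
  obtain ⟨n1, hn1⟩ := inc_nonneg
  obtain ⟨B, hB⟩ : ∃ B : ℝ, B = ∑ n ∈ Icc 1 n1, |ee n| := ⟨_, rfl⟩
  have hlog : Tendsto (fun N : ℕ => Real.log (N : ℝ)) atTop atTop :=
    Real.tendsto_log_atTop.comp tendsto_natCast_atTop_atTop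
  refine ⟨4 / c + x0 + 2, by positivity, ?_⟩
  filter_upwards [eventually_ge_atTop 2, hlog.eventually_ge_atTop (max 2 B), hlog.eventually_ge_atTop
    (c * Real.exp 1 / 4)] with N hN hN2 hN3
  intro n hn1' hn2'
  have hl2 : 2 ≤ Real.log N := (le_max_left _ _).trans hN2
  have hlB : B ≤ Real.log N := (le_max_right _ _).trans hN2
  have hNr : (2 : ℝ) ≤ N := by exact_mod_cast hN
  obtain ⟨y, hy⟩ : ∃ y : ℝ, y = (4 / c + x0) * Real.log N := ⟨_, rfl⟩
  have hyx : x0 ≤ y := by
    rw [hy]
    have : 0 ≤ 4 / c * Real.log N := by positivity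
    nlinarith
  have hye : Real.exp 1 ≤ y := by
    rw [hy]
    have h1 : Real.exp 1 ≤ 4 / c * Real.log N := by
      calc Real.exp 1 = 4 / c * (c * Real.exp 1 / 4) := by field_simp
        _ ≤ _ := mul_le_mul_of_nonneg_left hN3 (by positivity)
    have h2 : 0 ≤ x0 * Real.log N := mul_nonneg (by linarith) (by linarith)
    nlinarith
  have hly : 1 ≤ Real.log y := by
    rw [Real.le_log_iff_exp_le (lt_of_lt_of_le (Real.exp_pos 1) hye)]
    exact hye
  have h2 := h (2 * N) (by omega) y hyx
  have h3 : ((2 * N : ℕ) : ℝ) * Real.exp (-c * y * Real.log y) < 1 := by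
    have h4 : -c * y * Real.log y ≤ -(4 * Real.log N) := by
      have h5 : c * y ≤ c * y * Real.log y := by
        have : 0 ≤ c * y := by
          have : 0 < y := lt_of_lt_of_le (Real.exp_pos 1) hye
          positivity
        nlinarith
      have h6 : 4 * Real.log N ≤ c * y := by
        rw [hy]
        have : c * ((4 / c + x0) * Real.log N) = 4 * Real.log N + c * x0 * Real.log N := by
          field_simp
        rw [this]
        have : 0 ≤ c * x0 * Real.log N := by
          have : 0 < x0 := by linarith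
          positivity
        linarith
      linarith
    calc ((2 * N : ℕ) : ℝ) * Real.exp (-c * y * Real.log y) ≤
          ((2 * N : ℕ) : ℝ) * Real.exp (-(4 * Real.log N)) :=
          mul_le_mul_of_nonneg_left (Real.exp_le_exp.mpr h4) (Nat.cast_nonneg _)
      _ = 2 / (N : ℝ) ^ 3 := by
          rw [Real.exp_neg, show 4 * Real.log N = Real.log ((N : ℝ) ^ 4) by
            rw [Real.log_pow]; norm_num, Real.exp_log (by positivity)]
          push_cast
          field_simp
      _ < 1 := by
          rw [div_lt_one (by positivity)]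
          have : (2 : ℝ) ^ 3 ≤ (N : ℝ) ^ 3 := pow_le_pow_left₀ (by norm_num) hNr 3
          linarith
  have h4 : {m : ℕ | 1 ≤ m ∧ m ≤ 2 * N ∧ y ≤ LG.dlt m}.ncard = 0 := by
    have : ({m : ℕ | 1 ≤ m ∧ m ≤ 2 * N ∧ y ≤ LG.dlt m}.ncard : ℝ) < 1 := lt_of_le_of_lt h2 h3
    have : {m : ℕ | 1 ≤ m ∧ m ≤ 2 * N ∧ y ≤ LG.dlt m}.ncard < 1 := by exact_mod_cast this
    omega
  have hfin : {m : ℕ | 1 ≤ m ∧ m ≤ 2 * N ∧ y ≤ LG.dlt m}.Finite :=
    (Set.finite_Iic (2 * N)).subset fun m hm => hm.2.1
  rw [Set.ncard_eq_zero hfin] at h4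
  have h5 : LG.dlt n < y := by
    by_contra hcon
    push Not at hcon
    have : n ∈ ({m : ℕ | 1 ≤ m ∧ m ≤ 2 * N ∧ y ≤ LG.dlt m} : Set ℕ) := ⟨hn1', hn2', hcon⟩
    rw [h4] at this
    exact this
  have e1 : LG.dlt n = inc yy n := by
    unfold LG.dlt inc yy
    rw [sub_div]
  rw [e1] at h5
  have hC : y + 1 ≤ (4 / c + x0 + 2) * Real.log N := by
    rw [hy]
    linarith
  rcases le_total n n1 with hle | hle
  · have h6 : |ee n| ≤ B := by
      rw [hB]
      exact Finset.single_le_sum (f := fun n => |ee n|) (fun _ _ => abs_nonneg _)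
        (Finset.mem_Icc.mpr ⟨hn1', hle⟩)
    have : 1 * Real.log N ≤ (4 / c + x0 + 2) * Real.log N := by
      apply mul_le_mul_of_nonneg_right _ (by linarith)
      have : 0 < 4 / c := by positivity
      linarith
    linarith
  · have h6 := hn1 n hle
    unfold ee
    rw [abs_le]
    have hy0 : 0 < y := lt_of_lt_of_le (Real.exp_pos 1) hye
    constructor
    · linarith
    · linarith

/-- **upper bound for the variance** -/
theorem var_up (hRH : RHs) : ∃ C : ℝ, 0 < C ∧ ∀ r : ℕ, 1 ≤ r → ∀ᶠ N : ℕ in atTop,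
    ww ee N r ≤ C * (1 + Real.log r) ^ 2 * N := by
  obtain ⟨C2, hC2, h⟩ := Pool.Agent.Y743.NC.inner hRH
  have hpi := Real.pi_pos
  have hpi3 := Real.pi_gt_three
  have hpi4 := Real.pi_le_four
  obtain ⟨Tb, hTb1, hTb⟩ := block_low (1 / 2) (by norm_num)
  obtain ⟨Cu, Tu, hCu, hTu, hup⟩ := LG.GapAux.NZ_up
  refine ⟨160 * C2, by positivity, fun r hr => ?_⟩
  have hr1 : (1 : ℝ) ≤ r := by exact_mod_cast hr
  have hlr : 0 ≤ Real.log r := Real.log_nonneg hr1
  obtain ⟨T1, hT1, h1⟩ := h r hr
  obtain ⟨T3, hT3⟩ := (Real.tendsto_log_atTop.eventually_ge_atTop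
    (max 20 (200 * r ^ 2 * Cu + 4 * Real.pi * r))).exists_forall_of_atTop
  obtain ⟨T0, hT0⟩ : ∃ T0 : ℝ, T0 = max (max T1 Tb) (max (max T3 Tu) 10) := ⟨_, rfl⟩
  have hT01 : T1 ≤ T0 := by rw [hT0]; exact (le_max_left _ _).trans (le_max_left _ _)
  have hT0b : Tb ≤ T0 := by rw [hT0]; exact (le_max_right _ _).trans (le_max_left _ _)
  have hT03 : T3 ≤ T0 := by
    rw [hT0]; exact (le_max_left _ _).trans ((le_max_left _ _).trans (le_max_right _ _))
  have hT0u : Tu ≤ T0 := by
    rw [hT0]; exact (le_max_right _ _).trans ((le_max_left _ _).trans (le_max_right _ _))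
  have hT010 : 10 ≤ T0 := by rw [hT0]; exact (le_max_right _ _).trans (le_max_right _ _)
  have := dyadic_sum (fun n => sm ee r n ^ 2) (fun n => sq_nonneg _)
    (4 * C2 * (1 + Real.log r) ^ 2) T0 (by positivity) hT010 (by
    intro T hT I hI
    have hTT1 : T1 ≤ T := hT01.trans hT
    have hT10 : 10 ≤ T := hT010.trans hT
    have hL := hT3 T (hT03.trans hT)
    have hL20 : 20 ≤ Real.log T := (le_max_left _ _).trans hL
    have hLr : 200 * r ^ 2 * Cu + 4 * Real.pi * r ≤ Real.log T := (le_max_right _ _).trans hL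
    have hL0 : 0 < Real.log T := by linarith
    have h2 := h1 T hTT1 I hI
    -- the points `n + r`
    have hcomp : ∀ n ∈ I, sm ee r n ^ 2 ≤ 3 * ff T r n ^ 2 + 200 * (r : ℝ) ^ 2 / Real.log T ^ 2 := by
      intro n hn
      obtain ⟨hn1, hn2, hn3⟩ := hI n hn
      obtain ⟨x, hx⟩ : ∃ x : ℝ, x = ord n := ⟨_, rfl⟩
      obtain ⟨x', hx'⟩ : ∃ x' : ℝ, x' = ord (n + r) := ⟨_, rfl⟩
      have hxx' : x ≤ x' := by rw [hx, hx']; exact SG.ord_mono hn1 (by omega)
      have hx4 : x' ≤ 4 * T := by
        rw [hx', SG.ord_le_iff (by omega)]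
        have h3 : n ≤ NZ (2 * T) := (SG.ord_le_iff hn1 _).mp (by linarith)
        have h4 := hTb (2 * T) (by linarith)
        have h5 : (r : ℝ) ≤ (NZ (2 * (2 * T)) : ℝ) - NZ (2 * T) := by
          refine le_trans ?_ h4
          have h6 : Real.log T ≤ Real.log (2 * T) := Real.log_le_log (by linarith) (by linarith)
          have h7 : 4 * Real.pi * r ≤ Real.log (2 * T) := by
            have : 0 ≤ 200 * (r : ℝ) ^ 2 * Cu := by positivity
            linarith
          have h8 : (1 - 1 / 2) * (2 * T * Real.log (2 * T) / (2 * Real.pi)) =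
              T * Real.log (2 * T) / (2 * Real.pi) := by ring
          rw [h8, le_div_iff₀ (by positivity)]
          have h9 : 1 * Real.log (2 * T) ≤ T * Real.log (2 * T) :=
            mul_le_mul_of_nonneg_right (by linarith) (by linarith)
          have h10 : 0 ≤ Real.pi * r := by positivity
          linarith
        have h6 : ((n + r : ℕ) : ℝ) ≤ NZ (2 * (2 * T)) := by
          have : (n : ℝ) ≤ NZ (2 * T) := by exact_mod_cast h3
          push_cast
          linarith
        have h7 : n + r ≤ NZ (2 * (2 * T)) := by exact_mod_cast h6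
        rwa [show 4 * T = 2 * (2 * T) by ring]
      rw [← hx] at hn2 hn3
      obtain ⟨f, hf⟩ : ∃ f : ℝ, f = ff T r n := ⟨_, rfl⟩
      have hf2 : f = (x' - x) * Real.log T / (2 * Real.pi) - r := by
        rw [hf, hx, hx']
        unfold ff yv
        ring
      obtain ⟨D, hD⟩ : ∃ D : ℝ, D = sm ee r n - f := ⟨_, rfl⟩
      have hD2 : D = (x' * Real.log x' - x * Real.log x - (x' - x) * Real.log T) / (2 * Real.pi) := by
        rw [hD, hf2, sm_ee]
        unfold yy
        rw [← hx, ← hx']
        ring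
      have hx0 : 0 < x := by linarith
      have hx'0 : 0 < x' := by linarith
      -- lower bound for `D`
      have hD0 : 0 ≤ D := by
        rw [hD2]
        apply div_nonneg _ (by positivity)
        have h3 : Real.log x ≤ Real.log x' := Real.log_le_log hx0 hxx'
        have h4 : Real.log T ≤ Real.log x := Real.log_le_log (by linarith) (by linarith)
        nlinarith
      have hD1 : D ≤ (x' - x) := by
        rw [hD2, div_le_iff₀ (by positivity)]
        have h3 : Real.log x' - Real.log x ≤ x' / x - 1 := by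
          rw [← Real.log_div hx'0.ne' hx0.ne']
          exact Real.log_le_sub_one_of_pos (by positivity)
        have h4 : x' * (Real.log x' - Real.log x) ≤ 4 * (x' - x) := by
          have h5 : x' * (Real.log x' - Real.log x) ≤ x' * (x' / x - 1) :=
            mul_le_mul_of_nonneg_left h3 hx'0.le
          have h6 : x' * (x' / x - 1) = x' / x * (x' - x) := by field_simp
          have h7 : x' / x ≤ 4 := by
            rw [div_le_iff₀ hx0]
            linarith
          have h8 : x' / x * (x' - x) ≤ 4 * (x' - x) :=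
            mul_le_mul_of_nonneg_right h7 (by linarith)
          linarith
        have h5 : Real.log x - Real.log T ≤ 1 := by
          rw [← Real.log_div hx0.ne' (by linarith)]
          have h6 : Real.log (x / T) ≤ x / T - 1 := Real.log_le_sub_one_of_pos (by positivity)
          have h7 : x / T ≤ 2 := by
            rw [div_le_iff₀ (by linarith)]
            linarith
          linarith
        have h6 : (x' - x) * (Real.log x - Real.log T) ≤ (x' - x) * 1 :=
          mul_le_mul_of_nonneg_left h5 (by linarith)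
        nlinarith
      have hh : x' - x = 2 * Real.pi * (f + r) / Real.log T := by
        rw [hf2]
        field_simp
        ring
      have hD3 : |D| ≤ 7 * (|f| + r) / Real.log T := by
        rw [abs_of_nonneg hD0]
        refine hD1.trans ?_
        rw [hh]
        apply div_le_div_of_nonneg_right _ hL0.le
        have h3 : f + r ≤ |f| + r := by linarith [le_abs_self f]
        have h4 : 0 ≤ |f| + r := by positivity
        have h5 : 2 * Real.pi * (f + r) ≤ 2 * Real.pi * (|f| + r) :=
          mul_le_mul_of_nonneg_left h3 (by positivity)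
        have h6 : 2 * Real.pi ≤ 7 := by linarith [Real.pi_lt_d2]
        have h7 : 2 * Real.pi * (|f| + r) ≤ 7 * (|f| + r) := mul_le_mul_of_nonneg_right h6 h4
        linarith
      have hD4 : D ^ 2 ≤ 98 * (f ^ 2 + r ^ 2) / Real.log T ^ 2 := by
        have h3 : D ^ 2 ≤ (7 * (|f| + r) / Real.log T) ^ 2 := by
          rw [← sq_abs D]
          exact pow_le_pow_left₀ (abs_nonneg _) hD3 2
        refine h3.trans ?_
        rw [div_pow]
        apply div_le_div_of_nonneg_right _ (by positivity)
        have h4 : (|f| + r) ^ 2 ≤ 2 * (f ^ 2 + r ^ 2) := by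
          have := sq_nonneg (|f| - r)
          have h5 := sq_abs f
          nlinarith
        nlinarith
      have hD5 : 98 * (f ^ 2 + (r : ℝ) ^ 2) / Real.log T ^ 2 =
          98 / Real.log T ^ 2 * f ^ 2 + 98 * (r : ℝ) ^ 2 / Real.log T ^ 2 := by ring
      have hD6 : 98 / Real.log T ^ 2 ≤ 1 / 2 := by
        rw [div_le_iff₀ (by positivity)]
        nlinarith
      have hD7 : 98 / Real.log T ^ 2 * f ^ 2 ≤ 1 / 2 * f ^ 2 :=
        mul_le_mul_of_nonneg_right hD6 (sq_nonneg _)
      have hs : sm ee r n = f + D := by rw [hD]; ring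
      rw [← hf, hs]
      have h3 : (f + D) ^ 2 ≤ 2 * f ^ 2 + 2 * D ^ 2 := by nlinarith [sq_nonneg (f - D)]
      have h4 : 200 * (r : ℝ) ^ 2 / Real.log T ^ 2 = 2 * (98 * (r : ℝ) ^ 2 / Real.log T ^ 2) +
        4 * (r : ℝ) ^ 2 / Real.log T ^ 2 := by ring
      have h5 : 0 ≤ 4 * (r : ℝ) ^ 2 / Real.log T ^ 2 := by positivity
      linarith
    have hcard : (I.card : ℝ) ≤ Cu * (T * Real.log T) := by
      have h3 : I ⊆ Icc 1 (NZ (2 * T)) := by
        intro n hn
        obtain ⟨hn1, hn2, hn3⟩ := hI n hn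
        exact Finset.mem_Icc.mpr ⟨hn1, (SG.ord_le_iff hn1 _).mp (by linarith)⟩
      have h4 := Finset.card_le_card h3
      rw [Nat.card_Icc, Nat.add_sub_cancel] at h4
      have h5 : (I.card : ℝ) ≤ NZ (2 * T) := by exact_mod_cast h4
      exact h5.trans (hup T (hT0u.trans hT))
    have h3 : ∑ n ∈ I, sm ee r n ^ 2 ≤ 3 * ∑ n ∈ I, ff T r n ^ 2 +
        I.card * (200 * (r : ℝ) ^ 2 / Real.log T ^ 2) := by
      rw [Finset.mul_sum, ← nsmul_eq_mul, ← Finset.sum_const, ← Finset.sum_add_distrib]
      exact Finset.sum_le_sum hcomp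
    have h4 : (I.card : ℝ) * (200 * (r : ℝ) ^ 2 / Real.log T ^ 2) ≤ T * Real.log T := by
      calc (I.card : ℝ) * (200 * (r : ℝ) ^ 2 / Real.log T ^ 2) ≤
            Cu * (T * Real.log T) * (200 * (r : ℝ) ^ 2 / Real.log T ^ 2) :=
            mul_le_mul_of_nonneg_right hcard (by positivity)
        _ = T * (200 * r ^ 2 * Cu) / Real.log T := by field_simp
        _ ≤ T * Real.log T / 1 := by
            apply div_le_div₀ (by positivity) _ (by norm_num) (by linarith)
            apply mul_le_mul_of_nonneg_left _ (by linarith)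
            have : 0 ≤ Real.pi * r := by positivity
            linarith
        _ = T * Real.log T := by ring
    have h5 : 0 ≤ T * Real.log T := by positivity
    have h6 : T * Real.log T ≤ C2 * (1 + Real.log r) ^ 2 * (T * Real.log T) := by
      have h7 : 1 ≤ C2 * (1 + Real.log r) ^ 2 := by
        have : 1 ≤ (1 + Real.log r) ^ 2 := by nlinarith
        nlinarith
      nlinarith
    linarith)
  filter_upwards [this] with N hN
  unfold ww
  refine hN.trans (le_of_eq ?_)
  ring

end Pool.Agent.X112.GS
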